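import Pool.Agent.helper4.EQW4.Gam4

/-!
# EQW4: the real part of `z^e` near the real axis and the bound of `lder`
-/

namespace Pool.Agent.helper4.EQW4

open Complex
open Pool.Agent.helper4.EQW

variable {e a : ℝ} {z : ℂ}

/-- `Re z^e ≥ -c ‖z‖^e` on the disc `‖z - a‖ ≤ a/2` -/
theorem cpow_re_ge (he : 0 ≤ e) (he4 : e ≤ 4) (ha : 0 < a) (hz : ‖z - (a : ℂ)‖ ≤ a / 2) {σ c : ℝ}
    (hc0 : 0 ≤ c)
    (hc : e ≤ 3 ∨ 1 / 2 ≤ c ∨
      (‖z - (a : ℂ)‖ ≤ σ * a ∧ 0 ≤ σ ∧ σ ≤ 1 / 2 ∧ 8 * σ ^ 2 * (1 - σ ^ 2) ≤ 1 + c)) :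
    -(c * ‖z‖ ^ e) ≤ (z ^ (e : ℂ)).re := by
  have hn : 0 ≤ ‖z‖ ^ e := Real.rpow_nonneg (norm_nonneg _) _
  have hpi := Real.pi_pos
  have h1 := disc_arg ha hz
  have h0 := abs_nonneg (arg z)
  rw [Complex.cpow_ofReal_re]
  suffices h : -c ≤ Real.cos (arg z * e) by
    have := mul_le_mul_of_nonneg_left h hn
    linarith
  rw [← Real.cos_abs (arg z * e), abs_mul, abs_of_nonneg he]
  have h4 : |arg z| * e ≤ 4 * |arg z| := by nlinarith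
  rcases hc with h | h | ⟨hs, hσ0, hσ1, h⟩
  · have : 0 ≤ Real.cos (|arg z| * e) := by
      apply Real.cos_nonneg_of_neg_pi_div_two_le_of_le
      · have : 0 ≤ |arg z| * e := by positivity
        linarith
      · nlinarith
    linarith
  · have h5 : Real.cos (2 * Real.pi / 3) = -(1 / 2) := by
      have h5 : 2 * Real.pi / 3 = Real.pi - Real.pi / 3 := by ring
      rw [h5, Real.cos_pi_sub, Real.cos_pi_div_three]
    have h6 : Real.cos (2 * Real.pi / 3) ≤ Real.cos (|arg z| * e) :=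
      Real.cos_le_cos_of_nonneg_of_le_pi (by positivity) (by linarith) (by linarith)
    linarith
  · have h6 : Real.cos (4 * |arg z|) ≤ Real.cos (|arg z| * e) :=
      Real.cos_le_cos_of_nonneg_of_le_pi (by positivity) (by linarith) h4
    refine le_trans ?_ h6
    have hz0 : 0 < ‖z‖ := disc_norm_pos ha hz
    -- sin² arg ≤ σ²
    have hsin : Real.sin |arg z| ^ 2 ≤ σ ^ 2 := by
      have e1 : Real.sin |arg z| ^ 2 = Real.sin (arg z) ^ 2 := by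
        rcases abs_choice (arg z) with h | h
        · rw [h]
        · rw [h, Real.sin_neg]
          ring
      rw [e1, Complex.sin_arg, div_pow, div_le_iff₀ (by positivity)]
      have h7 : (a * z.im) ^ 2 ≤ (‖z‖ * ‖z - (a : ℂ)‖) ^ 2 := by
        have n1 : ‖z‖ ^ 2 = z.re ^ 2 + z.im ^ 2 := by
          rw [← Complex.normSq_eq_norm_sq, Complex.normSq_apply]
          ring
        have n2 : ‖z - (a : ℂ)‖ ^ 2 = (z.re - a) ^ 2 + z.im ^ 2 := by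
          rw [← Complex.normSq_eq_norm_sq, Complex.normSq_apply]
          simp
          ring
        rw [mul_pow ‖z‖, n1, n2]
        nlinarith [sq_nonneg (z.re * (z.re - a) + z.im ^ 2)]
      have h8 : (‖z‖ * ‖z - (a : ℂ)‖) ^ 2 ≤ (‖z‖ * (σ * a)) ^ 2 := by
        apply pow_le_pow_left₀ (by positivity)
        exact mul_le_mul_of_nonneg_left hs hz0.le
      have h9 : a ^ 2 * z.im ^ 2 ≤ a ^ 2 * (σ ^ 2 * ‖z‖ ^ 2) := by
        calc a ^ 2 * z.im ^ 2 = (a * z.im) ^ 2 := by ring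
          _ ≤ (‖z‖ * (σ * a)) ^ 2 := h7.trans h8
          _ = _ := by ring
      exact le_of_mul_le_mul_left h9 (by positivity)
    have e2 : Real.cos (4 * |arg z|) =
        1 - 8 * Real.sin |arg z| ^ 2 * (1 - Real.sin |arg z| ^ 2) := by
      have e3 : 4 * |arg z| = 2 * (2 * |arg z|) := by ring
      rw [e3, Real.cos_two_mul, Real.cos_two_mul, Real.cos_sq']
      ring
    rw [e2]
    set u := Real.sin |arg z| ^ 2
    have hu0 : 0 ≤ u := sq_nonneg _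
    have hσ2 : σ ^ 2 ≤ 1 / 4 := by nlinarith
    have h10 : u * (1 - u) ≤ σ ^ 2 * (1 - σ ^ 2) := by nlinarith
    linarith

/-- The bound of `lder`. -/
theorem lder_le (he : 2 ≤ e) (he4 : e ≤ 4) (ha : 0 < a) (hz : ‖z - (a : ℂ)‖ ≤ a / 2) {ρ σ c L : ℝ}
    (hρ : ‖z‖ ^ e ≤ ρ) (hρ1 : ρ ≤ 1) (hc0 : 0 ≤ c) (hc1 : c ≤ 1 / 2)
    (hc : e ≤ 3 ∨ 1 / 2 ≤ c ∨
      (‖z - (a : ℂ)‖ ≤ σ * a ∧ 0 ≤ σ ∧ σ ≤ 1 / 2 ∧ 8 * σ ^ 2 * (1 - σ ^ 2) ≤ 1 + c))
    (hL0 : 0 ≤ L)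
    (hL : 1 + 2 * (e + 1) * c * ρ + (e + 1) ^ 2 * ρ ^ 2 ≤ L ^ 2 * (1 - 2 * c * ρ + ρ ^ 2)) :
    ‖lder e z‖ ≤ L / ‖z‖ :=
  lder_bound he (disc_ne ha hz) hρ hρ1 hc0 hc1 (cpow_re_ge (by linarith) he4 ha hz hc0 hc) hL0 hL

end Pool.Agent.helper4.EQW4
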