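import Mathlib

/-!
# EQW4: integer boxes for the scalar inequality, `2 ≤ e ≤ 4`

All numbers are multiples of `1/N`; the inequalities are homogeneous.
-/

namespace Pool.Agent.helper4.EQW4

/-- A box for `(e, sinh κ, ‖cosh κ - P‖, ‖P‖)`. -/
structure Bx (α : Type) where
  e0 : α
  e1 : α
  S0 : α
  S1 : α
  x0 : α
  x1 : α
  p0 : α
  p1 : α

/-- Bounds valid on one box. -/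
structure Lf (α : Type) where
  C0 : α
  C1 : α
  Cu : α
  v0 : α
  xb : α
  pb : α
  pl : α
  vb : α
  ab : α
  al : α
  Ab : α
  qb : α
  Kb : α
  t0 : α
  tl : α
  Kl : α
  ob : α
  g1 : α
  r0 : α
  D : α
  de : α
  eta : α
  eS : α
  W : α
  G : α
  R : α
  m : α
  yu : α
  r1 : α
  sg1 : α
  c1 : α
  L1 : α
  lam : α
  T3 : α
  dp : α
  yy : α
  r2 : α
  sg2 : α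
  c2 : α
  L2 : α
  Wi : α
  wp : α
  tp : α
  T1 : α
  pY : α
  dm : α
  dW : α
  Rr : α
  rY : α
  rW : α
  m0 : α
  yb : α
  tk : α
  tb : α
  kkb : α
  Pm : α
  c2b : α
  lb : α
  qq : α
  Pk : α
  ps : α
  M : α
  T2 : α

section
variable {α : Type} [CommRing α] [LinearOrder α]

/-- `h(s) = (3+4s)(x0²+s) - m(1+8s+8s²)` at `s = S²`, with `m = 1 - p²` -/
def hq (N x0 p S : α) : α :=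
  4 * S ^ 4 * N ^ 2 + 3 * S ^ 2 * N ^ 4 + 4 * x0 ^ 2 * S ^ 2 * N ^ 2 + 3 * x0 ^ 2 * N ^ 4 -
    (N ^ 2 - p ^ 2) * (8 * S ^ 4 + 8 * S ^ 2 * N ^ 2 + N ^ 4)

/-- `g(s) = (2m-1)s² + (w²+m²-2y(1-m))s + w² - y²`, `y = x²`, `m = 1 - p²`, `s = S²` -/
def gq (N w x p S : α) : α :=
  (N ^ 2 - 2 * p ^ 2) * S ^ 4 * N ^ 2 +
    (w ^ 2 * N ^ 2 + (N ^ 2 - p ^ 2) ^ 2 - 2 * x ^ 2 * p ^ 2) * S ^ 2 * N ^ 2 +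
    (w ^ 2 * N ^ 2 - x ^ 4) * N ^ 4

/-- `m ≤ 1 - pb²` is a valid bound -/
def Hc (N : α) (b : Bx α) (p : α) : Prop :=
  0 ≤ hq N b.x0 p b.S0 ∧ 0 ≤ hq N b.x0 p b.S1 ∧
  (2 * p ^ 2 - N ^ 2) * (b.S1 ^ 2 - b.S0 ^ 2) ^ 2 ≤ hq N b.x0 p b.S0 ∧
  (2 * p ^ 2 - N ^ 2) * (b.S1 ^ 2 - b.S0 ^ 2) ^ 2 ≤ hq N b.x0 p b.S1

/-- `v ≤ w` is a valid bound -/
def Gc (N : α) (b : Bx α) (x p w : α) : Prop :=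
  0 ≤ gq N w x p b.S0 ∧ 0 ≤ gq N w x p b.S1 ∧
  (N ^ 2 - 2 * p ^ 2) * (b.S1 ^ 2 - b.S0 ^ 2) ^ 2 * N ^ 2 ≤ 4 * gq N w x p b.S0 ∧
  (N ^ 2 - 2 * p ^ 2) * (b.S1 ^ 2 - b.S0 ^ 2) ^ 2 * N ^ 2 ≤ 4 * gq N w x p b.S1

/-- a valid crude bound of `v` -/
def Vc (N vc : α) (b : Bx α) (v0 : α) : Prop :=
  102 * N ≤ 400 * v0 + 11 * b.e0 ∨ N ^ 3 ≤ 4 * v0 * (N ^ 2 + b.S0 ^ 2) ∨ vc ≤ v0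

/-- `y^e ≤ r` -/
def PWc (N e0 y r : α) : Prop :=
  (e0 ≤ 3 * N ∧ y ^ 2 * (N ^ 2 - (e0 - 2 * N) * (N - y)) ≤ r * N ^ 3) ∨
  (3 * N ≤ e0 ∧ y ^ 3 * (N ^ 2 - (e0 - 3 * N) * (N - y)) ≤ r * N ^ 4) ∨ N ≤ r

/-- the angle bound -/
def Cc (N e1 sg c : α) (A : Prop) : Prop :=
  0 ≤ c ∧ 2 * c ≤ N ∧ (e1 ≤ 3 * N ∨ N ≤ 2 * c ∨
    (0 ≤ sg ∧ 2 * sg ≤ N ∧ A ∧ 8 * sg ^ 2 * (N ^ 2 - sg ^ 2) ≤ (N + c) * N ^ 3))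

/-- the bound of `lder` -/
def Lc (N e1 c r L : α) : Prop :=
  0 ≤ r ∧ r ≤ N ∧ 0 ≤ L ∧
  N ^ 4 + 2 * (e1 + N) * c * r * N + (e1 + N) ^ 2 * r ^ 2 ≤ L ^ 2 * (N ^ 2 - 2 * c * r + r ^ 2)

def OkA (N vc : α) (b : Bx α) (l : Lf α) : Prop :=
  (0 ≤ l.C0 ∧ l.C0 ^ 2 ≤ N ^ 2 + b.S0 ^ 2) ∧
  (0 < l.C1 ∧ N ^ 2 + b.S1 ^ 2 ≤ l.C1 ^ 2) ∧
  (0 < l.Cu ∧ N ^ 2 + b.S0 ^ 2 ≤ l.Cu ^ 2) ∧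
  Vc N vc b l.v0 ∧
  (0 ≤ l.xb ∧ (b.x1 ≤ l.xb ∨ b.S1 ^ 2 + l.v0 * N ≤ l.xb ^ 2)) ∧
  (0 ≤ l.pb ∧ l.pb ≤ N ∧ (b.p1 ≤ l.pb ∨ Hc N b l.pb)) ∧
  (0 < l.pl ∧ (l.pl ≤ b.p0 ∨ l.pl + l.xb ≤ l.C0 ∨ 2 * l.C1 * l.pl ≤ N ^ 2)) ∧
  (0 ≤ l.vb ∧ (l.v0 ≤ l.vb ∨ Gc N b l.xb l.pb l.vb)) ∧
  (0 < l.ab ∧ N ^ 2 ≤ l.ab * (l.C0 + b.S0)) ∧
  (0 < l.al ∧ l.al * (l.C1 + b.S1) ≤ N ^ 2) ∧
  (0 ≤ l.Ab ∧ l.vb * l.ab ^ 4 ≤ l.Ab ^ 2 * N ^ 3) ∧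
  (N ≤ l.qb ∨ b.e1 ^ 2 * b.S1 ^ 2 ≤ 4 * l.qb * N * (N ^ 2 + b.S1 ^ 2) ∨
    4 * b.S1 ^ 2 * (N ^ 2 + b.S1 ^ 2) * N ≤ l.qb * (N ^ 2 + 2 * b.S1 ^ 2) ^ 2) ∧
  b.e1 ^ 2 + 24 * l.qb * N ≤ 8 * l.Kb * N ∧
  (0 ≤ l.t0 ∧ l.t0 ^ 2 * (N ^ 2 + b.S0 ^ 2) ≤ b.S0 ^ 2 * N ^ 2) ∧
  (0 ≤ l.tl ∧ 2 * l.tl * (N ^ 2 + l.t0 ^ 2) * N ≤
    (4 * N - b.e0) * l.t0 * (N ^ 2 + l.t0 ^ 2) + 2 * (b.e0 - 2 * N) * l.t0 * N ^ 2) ∧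
  (0 < l.Kl ∧ 8 * l.Kl * N ≤ b.e0 ^ 2 + 24 * l.tl ^ 2) ∧
  (0 ≤ l.ob ∧ (N ≤ l.ob ∨ l.xb ≤ l.ob ∨ N + l.Ab ≤ l.ob + l.al))

def OkB (N : α) (b : Bx α) (l : Lf α) : Prop :=
  PWc N b.e0 l.pb l.r0 ∧
  (N ≤ l.g1 ∧ (l.g1 ≤ N ∨ (N + l.r0) * (3 * N ^ 4 + l.pb ^ 4) * l.g1 ≤ 8 * l.C0 * l.pl * N ^ 4)) ∧
  l.Kb * l.vb * l.Ab ≤ l.D * l.g1 * N ∧
  l.D * l.ob ≤ l.de * N ∧
  l.Kb * l.Ab * l.ob * (2 * l.xb + l.de) ≤ l.eta * l.g1 * N ^ 2 ∧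
  l.Kb * l.vb * l.ob ≤ l.eS * l.g1 * N ∧
  (N ≤ l.W ∧ (l.W + l.de) ^ 2 + l.pb ^ 2 ≤ 2 * N ^ 2 + 2 * b.S0 ^ 2 + 2 * b.x0 ^ 2) ∧
  l.ab * (N + l.eta) * (N + l.eS) * N ≤ l.G * l.W ^ 3 ∧
  (l.D * l.pb ≤ l.R * N ∧ l.D * l.ob ≤ l.R * N) ∧
  (0 < l.m ∧ l.m + l.R ≤ l.pl) ∧
  (N ≤ l.yu ∨ l.pb + l.R ≤ l.yu) ∧
  PWc N b.e0 l.yu l.r1 ∧
  Cc N b.e1 l.sg1 l.c1 ((l.Ab + l.R) * N ≤ l.sg1 * l.al) ∧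
  Lc N b.e1 l.c1 l.r1 l.L1 ∧
  l.L1 * N ≤ l.lam * l.m ∧
  l.lam * l.R < N ^ 2 ∧
  l.lam * l.D * (l.pb ^ 2 + l.ob ^ 2) ≤ 2 * l.T3 * (N ^ 2 - l.lam * l.R) * N

def OkC (N : α) (b : Bx α) (l : Lf α) : Prop :=
  l.Kb * l.vb * l.Ab * l.G ≤ l.dp * N ^ 3 ∧
  (N ≤ l.yy ∨ (N + l.dp) * N ≤ l.yy * l.W) ∧
  PWc N b.e0 l.yy l.r2 ∧
  Cc N b.e1 l.sg2 l.c2 (l.ab * l.Ab * (N + l.eS) + l.dp * N ^ 2 ≤ l.sg2 * l.al * l.W) ∧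
  Lc N b.e1 l.c2 l.r2 l.L2 ∧
  l.dp * N + l.L2 * l.dp < N ^ 2 ∧
  (0 < l.Wi ∧ N ^ 2 ≤ l.Wi * l.W) ∧
  ((b.e0 ≤ 3 * N ∧ l.Wi * (N ^ 2 - (b.e0 - 2 * N) * (N - l.Wi)) ≤ l.wp * N ^ 2) ∨
    (3 * N ≤ b.e0 ∧ l.Wi ^ 2 * (N ^ 2 - (b.e0 - 3 * N) * (N - l.Wi)) ≤ l.wp * N ^ 3)) ∧
  ((b.e1 ≤ 3 * N ∧ N ^ 2 + (b.e1 - 2 * N) * l.dp ≤ l.tp * N) ∨
    (3 * N ≤ b.e1 ∧ (N + l.dp) * (N ^ 2 + (b.e1 - 3 * N) * l.dp) ≤ l.tp * N ^ 2)) ∧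
  l.G * l.wp * l.tp * (N - l.dp) ≤ l.T1 * (N ^ 2 - l.dp * N - l.L2 * l.dp) * N

def OkD (N : α) (b : Bx α) (l : Lf α) : Prop :=
  (0 < l.pY ∧ l.pY + l.de ≤ l.pl) ∧
  l.de * (l.ob * (N + l.pl) + l.de * N) ≤ 2 * l.dm * l.pl * l.pY ∧
  l.de * (l.W ^ 2 + N ^ 2) ≤ 2 * l.dW * l.W ^ 2 ∧
  l.vb * (N + l.eta) ≤ 2 * l.pY * l.Rr ∧
  ((l.pb ^ 4 ≤ (N ^ 2 + b.S0 ^ 2 - l.xb ^ 2) * N ^ 2 ∧ 0 ≤ l.rY + l.dm ∧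
    (l.rY + l.dm) * 4 * l.Cu * l.pb ^ 2 ≤
      (N ^ 2 + b.S0 ^ 2 - l.xb ^ 2 + l.pb ^ 2) * (N ^ 2 + l.pb ^ 2)) ∨
    l.rY + l.Rr ≤ l.C0) ∧
  (0 ≤ l.rW + l.dW ∧ 0 ≤ 3 * N ^ 2 + 3 * b.S0 ^ 2 + b.x0 ^ 2 - l.pb ^ 2 ∧
    (l.rW + l.dW) * 4 * l.Cu * (2 * N ^ 2 + 2 * b.S1 ^ 2 + 2 * l.xb ^ 2 - l.pl ^ 2) ≤
    (3 * N ^ 2 + 3 * b.S0 ^ 2 + b.x0 ^ 2 - l.pb ^ 2) *
      (3 * N ^ 2 + 2 * b.S1 ^ 2 + 2 * l.xb ^ 2 - l.pl ^ 2)) ∧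
  (0 < l.m0 ∧ l.m0 ≤ l.C0 ∧ l.m0 ≤ l.rY ∧ l.m0 ≤ l.rW) ∧
  (0 ≤ l.yb ∧ N ^ 2 ≤ l.yb * l.m0) ∧
  b.S1 ^ 2 * N ≤ l.tk * (N ^ 2 + b.S1 ^ 2) ∧
  (0 < l.C0 ∧ l.tk * l.C0 ^ 2 * N + l.Rr * l.yb * N ^ 2 + l.Rr * l.yb ^ 2 * l.C0 ≤
    l.tb * l.C0 ^ 2 * N) ∧
  (0 ≤ l.tb ∧ l.tb < N) ∧
  ((b.e1 - 2 * N) * (4 * N - b.e0) ≤ 8 * l.kkb * N ∨ N ≤ 8 * l.kkb) ∧
  (0 < l.Pm ∧ 0 ≤ l.kkb ∧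
    8 * l.Pm * N ^ 3 + 8 * l.kkb * l.tb ^ 2 * N ≤
      8 * N ^ 4 + b.e0 * (b.e0 - 2 * N) * (N ^ 2 - l.yb ^ 2) ∧
    8 * l.Pm * N ^ 3 + 8 * l.kkb * l.tb ^ 2 * N ≤
      8 * N ^ 4 + b.e1 * (b.e1 - 2 * N) * (N ^ 2 - l.yb ^ 2)) ∧
  (0 ≤ l.c2b ∧ (b.e1 - 2 * N) * (4 * N - b.e0) * (6 * N - b.e0) ≤ 192 * l.c2b * N ^ 2) ∧
  (b.e1 - 2 * N) * (N - l.tb) * N + 8 * l.c2b * l.tb * N ≤ 4 * l.lb * l.Pm * (N - l.tb) ∧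
  (2 * l.c2b * (N - l.tb) + 3 * l.c2b * l.tb) * N ≤ l.qq * l.Pm * (N - l.tb) ∧
  8 * N ^ 3 + b.e1 * (b.e1 - 2 * N) * l.tk + 8 * l.kkb * l.tk ^ 2 ≤ 8 * l.Pk * N ^ 2 ∧
  (N ≤ l.ps ∧ 2 * l.Pk * N ^ 2 ≤ l.Pm * (2 * N ^ 2 + b.e0 * (l.ps - N))) ∧
  l.ps * (N ^ 7 + 5 * l.yb ^ 2 * l.lb * N ^ 4 +
    l.yb ^ 4 * ((2 * N + b.e1) * l.lb ^ 2 + 2 * l.qq * N ^ 2)) ≤ l.M * N ^ 7 ∧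
  (0 ≤ l.T2 ∧ l.M * (l.xb + l.de) * (l.xb + b.S1) * (N + l.eta) ^ 2 * N ≤
    l.T2 * (2 * l.W * l.pY * l.rW * l.rY * l.Kl))

/-- `f3/3` is the weight of the second term. -/
def OkT (N f3 : α) (l : Lf α) : Prop :=
  0 ≤ l.T1 ∧ 0 ≤ l.T3 ∧ 100 * (3 * l.T1 + f3 * l.T2 + 3 * l.T3) ≤ 297 * N

def Lf.Ok (N vc f3 : α) (b : Bx α) (l : Lf α) : Prop :=
  OkA N vc b l ∧ (l.pb < l.pl ∨ (OkB N b l ∧ OkC N b l ∧ OkD N b l ∧ OkT N f3 l))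

/-- The box is outside of the region. -/
def EOk (N vc : α) (b : Bx α) (v0 : α) : Prop :=
  ((b.p1 + b.x1) ^ 2 < N ^ 2 + b.S0 ^ 2) ∨
  (4 * (N ^ 2 + b.S1 ^ 2) * b.p1 ^ 2 < N ^ 4) ∨
  (0 < hq N b.x0 b.p0 b.S0 ∧ 0 < hq N b.x0 b.p0 b.S1 ∧
    (2 * b.p0 ^ 2 - N ^ 2) * (b.S1 ^ 2 - b.S0 ^ 2) ^ 2 < hq N b.x0 b.p0 b.S0 ∧
    (2 * b.p0 ^ 2 - N ^ 2) * (b.S1 ^ 2 - b.S0 ^ 2) ^ 2 < hq N b.x0 b.p0 b.S1) ∨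
  (Vc N vc b v0 ∧ (b.S1 ^ 2 + v0 * N < b.x0 ^ 2 ∨ b.x1 ^ 2 + v0 * N < b.S0 ^ 2 ∨
    (gq N v0 b.x0 b.p0 b.S0 < 0 ∧ gq N v0 b.x0 b.p0 b.S1 < 0 ∧
      4 * gq N v0 b.x0 b.p0 b.S0 < (N ^ 2 - 2 * b.p0 ^ 2) * (b.S1 ^ 2 - b.S0 ^ 2) ^ 2 * N ^ 2 ∧
      4 * gq N v0 b.x0 b.p0 b.S1 < (N ^ 2 - 2 * b.p0 ^ 2) * (b.S1 ^ 2 - b.S0 ^ 2) ^ 2 * N ^ 2)))

/-- The box is in the corner `U ≤ 1/100`. -/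
def COk (N : α) (b : Bx α) : Prop :=
  2 * b.S1 ≤ N ∧ 100 * (b.S1 ^ 2 + b.x1 ^ 2) * N ^ 2 ≤ N ^ 4 + 8 * b.S1 ^ 2 * N ^ 2 + 8 * b.S1 ^ 4

end

instance instDecHc (N : ℤ) (b : Bx ℤ) (p : ℤ) : Decidable (Hc N b p) := by
  unfold Hc
  infer_instance

instance instDecGc (N : ℤ) (b : Bx ℤ) (x p w : ℤ) : Decidable (Gc N b x p w) := by
  unfold Gc
  infer_instance

instance instDecVc (N vc : ℤ) (b : Bx ℤ) (v0 : ℤ) : Decidable (Vc N vc b v0) := by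
  unfold Vc
  infer_instance

instance instDecPWc (N e0 y r : ℤ) : Decidable (PWc N e0 y r) := by
  unfold PWc
  infer_instance

instance instDecCc (N e1 sg c : ℤ) (A : Prop) [Decidable A] : Decidable (Cc N e1 sg c A) := by
  unfold Cc
  infer_instance

instance instDecLc (N e1 c r L : ℤ) : Decidable (Lc N e1 c r L) := by
  unfold Lc
  infer_instance

instance instDecOkA (N vc : ℤ) (b : Bx ℤ) (l : Lf ℤ) : Decidable (OkA N vc b l) := by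
  unfold OkA
  infer_instance

instance instDecOkB (N : ℤ) (b : Bx ℤ) (l : Lf ℤ) : Decidable (OkB N b l) := by
  unfold OkB
  infer_instance

instance instDecOkC (N : ℤ) (b : Bx ℤ) (l : Lf ℤ) : Decidable (OkC N b l) := by
  unfold OkC
  infer_instance

instance instDecOkD (N : ℤ) (b : Bx ℤ) (l : Lf ℤ) : Decidable (OkD N b l) := by
  unfold OkD
  infer_instance

instance instDecOkT (N f3 : ℤ) (l : Lf ℤ) : Decidable (OkT N f3 l) := by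
  unfold OkT
  infer_instance

instance instDecLfOk (N vc f3 : ℤ) (b : Bx ℤ) (l : Lf ℤ) : Decidable (l.Ok N vc f3 b) := by
  unfold Lf.Ok
  infer_instance

instance instDecEOk (N vc : ℤ) (b : Bx ℤ) (v0 : ℤ) : Decidable (EOk N vc b v0) := by
  unfold EOk
  infer_instance

instance (N : ℤ) (b : Bx ℤ) : Decidable (COk N b) := by
  unfold COk
  infer_instance

/-- the common denominator -/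
def NN : ℤ := 65536

/-- digit -/
def dg (n i : ℕ) : ℤ := ((n >>> (20 * i)) % 1048576 : ℕ)

def Lf.dec (n : ℕ) : Lf ℤ :=
  ⟨dg n 0, dg n 1, dg n 2, dg n 3, dg n 4, dg n 5, dg n 6, dg n 7, dg n 8, dg n 9,
   dg n 10, dg n 11, dg n 12, dg n 13, dg n 14, dg n 15, dg n 16, dg n 17, dg n 18, dg n 19,
   dg n 20, dg n 21, dg n 22, dg n 23, dg n 24, dg n 25, dg n 26, dg n 27, dg n 28, dg n 29,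
   dg n 30, dg n 31, dg n 32, dg n 33, dg n 34, dg n 35, dg n 36, dg n 37, dg n 38, dg n 39,
   dg n 40, dg n 41, dg n 42, dg n 43, dg n 44, dg n 45, dg n 46, dg n 47, dg n 48, dg n 49,
   dg n 50, dg n 51, dg n 52, dg n 53, dg n 54, dg n 55, dg n 56, dg n 57, dg n 58, dg n 59,
   dg n 60, dg n 61, dg n 62⟩

/-- Subdivision tree. -/
inductive Tr where
  | e : ℕ → Tr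
  | c : Tr
  | l : ℕ → Tr
  | s : ℕ → Tr → Tr → Tr

/-- half of the box in direction `k`, lower half -/
def Bx.lo (b : Bx ℤ) (k : ℕ) : Bx ℤ :=
  match k with
  | 0 => { b with e1 := (b.e0 + b.e1) / 2 }
  | 1 => { b with S1 := (b.S0 + b.S1) / 2 }
  | 2 => { b with x1 := (b.x0 + b.x1) / 2 }
  | _ => { b with p1 := (b.p0 + b.p1) / 2 }

def Bx.hi (b : Bx ℤ) (k : ℕ) : Bx ℤ :=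
  match k with
  | 0 => { b with e0 := (b.e0 + b.e1) / 2 }
  | 1 => { b with S0 := (b.S0 + b.S1) / 2 }
  | 2 => { b with x0 := (b.x0 + b.x1) / 2 }
  | _ => { b with p0 := (b.p0 + b.p1) / 2 }

def Tr.ok (vc f3 : ℤ) : Tr → Bx ℤ → Bool
  | .e v0, b => decide (EOk NN vc b v0)
  | .c, b => decide (COk NN b)
  | .l n, b => decide ((Lf.dec n).Ok NN vc f3 b)
  | .s k t1 t2, b => t1.ok vc f3 (b.lo k) && t2.ok vc f3 (b.hi k)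

end Pool.Agent.helper4.EQW4
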