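import Pool.Agent.helper4.EQW4.T2
import Pool.Agent.helper4.EQW.Rec

/-!
# EQW4: the scalar goal and the closing estimate
-/

namespace Pool.Agent.helper4.EQW4

open Complex
open Pool.Agent.helper31.EQ.W (c2 gl gs nxt wn FW)
open Pool.Agent.helper4.EQW

variable {e κ : ℝ} {P : ℂ} {s U v A B x o p : ℝ}

/-- All numbers of one closing estimate. -/
structure Pk where
  g1 : ℝ
  Db : ℝ
  de : ℝ
  eta : ℝ
  eS : ℝ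
  W : ℝ
  G : ℝ
  R : ℝ
  l : ℝ
  dp : ℝ
  sg : ℝ
  L : ℝ
  wp : ℝ
  tp : ℝ
  T1 : ℝ
  T3 : ℝ
  pY : ℝ
  m0 : ℝ
  dm : ℝ
  dW : ℝ
  rY : ℝ
  rW : ℝ
  Rr : ℝ
  tb : ℝ
  Pm : ℝ
  lb : ℝ
  pb : ℝ
  P1 : ℝ
  M : ℝ
  T2 : ℝ

/-- What the scalar estimates must give. -/
structure Goal4 (e κ : ℝ) (P : ℂ) (s v A x o p K a S f θ : ℝ) (n : Pk) : Prop where
  n13 : Num13 e κ P v A x o p K a n.g1 n.Db n.de n.eta n.eS n.W n.G n.R n.l n.dp n.sg n.L n.wp n.tp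
    n.T1 n.T3
  n2 : Num2 e κ s v x o p K S n.de n.eta n.W n.pY n.m0 n.dm n.dW n.rY n.rW n.Rr n.tb n.Pm n.lb n.pb
    n.P1 n.M n.T2
  hT1 : 0 ≤ n.T1
  hT2 : 0 ≤ n.T2
  hT3 : 0 ≤ n.T3
  hT : n.T1 + f * n.T2 + n.T3 ≤ θ

theorem Goal4.mono {K a S f θ f' θ' : ℝ} {n : Pk} (h : Goal4 e κ P s v A x o p K a S f θ n)
    (hf : f' ≤ f) (hθ : θ ≤ θ') : Goal4 e κ P s v A x o p K a S f' θ' n where
  n13 := h.n13
  n2 := h.n2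
  hT1 := h.hT1
  hT2 := h.hT2
  hT3 := h.hT3
  hT := by
    have h1 := h.hT
    have h2 : f' * n.T2 ≤ f * n.T2 := mul_le_mul_of_nonneg_right hf h.hT2
    linarith

/-- The closing estimate with parameters of size `ϑ`, `1 ≤ ϑ f`. -/
theorem close_goal4 (he : 2 ≤ e) (he4 : e ≤ 4) (hκ : 0 < κ) (hP : P ∈ LT4 e κ)
    (hPa : P ≠ ((Real.exp (-κ) : ℝ) : ℂ)) (F : Facts κ P s U v A B x o p)
    {K a S f θ ϑ : ℝ} {n : Pk}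
    (X : Aux4 e κ s U v A B x o p K a) (hK : K = KK e κ) (ha : a = Real.exp (-κ))
    (hS : S = Real.sinh κ) (g : Goal4 e κ P s v A x o p K a S f θ n)
    (hϑ0 : 0 ≤ ϑ) (hϑ1 : ϑ ≤ 1) (hϑf : 1 ≤ ϑ * f)
    {d d' : ℂ} (hd : ‖d‖ * ‖G1 e κ P‖ ≤ ϑ * (K * ‖gK κ P‖))
    (hd' : ‖d'‖ * ‖G1 e κ (nx κ (P + d * (1 - P)))‖ ≤
      ϑ * (K * ‖gK κ (nx κ (P + d * (1 - P)))‖)) :
    ‖d * G1 e κ P - FW e κ (P + d * (1 - P)) d d'‖ ≤ K * v * A * (θ * ϑ) := by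
  have h1 := close_main4 he he4 hκ hP hPa F X hK ha g.n13 hϑ0 hϑ1 hd hd' (T2 := n.T2) (by
    intro Y δ η hδ0 hδ hη0 hη hY Q
    exact T2_bound4 he he4 hκ F X ha hS g.n2 g.n13.hW hδ0 hδ hη0 hη hY Q)
  refine h1.trans ?_
  have hD := X.D_nn
  apply mul_le_mul_of_nonneg_left _ hD
  have h2 : n.T2 ≤ ϑ * f * n.T2 := le_mul_of_one_le_left g.hT2 hϑf
  have h3 : ϑ * (n.T1 + f * n.T2 + n.T3) ≤ ϑ * θ := mul_le_mul_of_nonneg_left g.hT hϑ0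
  linarith

end Pool.Agent.helper4.EQW4
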