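import Pool.Agent.helper4.EQW4.Box4C
import Pool.Agent.helper4.EQW4.Goal4
import Pool.Agent.helper4.EQW4.Ang4

/-!
# EQW4: meaning of the first block of inequalities
-/

namespace Pool.Agent.helper4.EQW4

open Complex
open Pool.Agent.helper4.EQW

/-- The point is in the box. -/
structure InB (b : Bx ℝ) (e S x p : ℝ) : Prop where
  e0 : b.e0 ≤ e
  e1 : e ≤ b.e1
  S0 : b.S0 ≤ S
  S1 : S ≤ b.S1
  x0 : b.x0 ≤ x
  x1 : x ≤ b.x1
  p0 : b.p0 ≤ p
  p1 : p ≤ b.p1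

/-- The box is in the domain. -/
structure Dom (b : Bx ℝ) : Prop where
  e0 : 2 ≤ b.e0
  e1 : b.e1 ≤ 4
  S0 : 0 ≤ b.S0
  S1 : b.S1 ≤ 9 / 4
  x0 : 0 ≤ b.x0
  p0 : 0 ≤ b.p0

/-- quadratic with correction -/
theorem quad_low {α β γ s s0 s1 : ℝ} (h0 : s0 ≤ s) (h1 : s ≤ s1)
    (a0 : 0 ≤ α * s0 ^ 2 + β * s0 + γ) (a1 : 0 ≤ α * s1 ^ 2 + β * s1 + γ)
    (b0 : α * (s1 - s0) ^ 2 ≤ 4 * (α * s0 ^ 2 + β * s0 + γ))
    (b1 : α * (s1 - s0) ^ 2 ≤ 4 * (α * s1 ^ 2 + β * s1 + γ)) : 0 ≤ α * s ^ 2 + β * s + γ := by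
  rcases (h0.trans h1).eq_or_lt with h | h
  · have : s = s0 := le_antisymm (h1.trans h.ge) h0
    rw [this]
    exact a0
  · have hd : 0 < s1 - s0 := by linarith
    set f0 := α * s0 ^ 2 + β * s0 + γ with hf0
    set f1 := α * s1 ^ 2 + β * s1 + γ with hf1
    have k1 : 0 ≤ (s - s0) * (s1 - s) := mul_nonneg (by linarith) (by linarith)
    have k2 : (α * s ^ 2 + β * s + γ) * (s1 - s0) =
        f0 * (s1 - s) + f1 * (s - s0) - α * ((s - s0) * (s1 - s)) * (s1 - s0) := by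
      rw [hf0, hf1]
      ring
    have k3 : 4 * ((s - s0) * (s1 - s)) ≤ (s1 - s0) ^ 2 := by nlinarith [sq_nonneg (2 * s - s0 - s1)]
    have k4 : 0 ≤ (α * s ^ 2 + β * s + γ) * (s1 - s0) := by
      rw [k2]
      rcases le_total α 0 with hα | hα
      · have e1 : 0 ≤ f0 * (s1 - s) := mul_nonneg a0 (by linarith)
        have e2 : 0 ≤ f1 * (s - s0) := mul_nonneg a1 (by linarith)
        have e3 : 0 ≤ (-α) * ((s - s0) * (s1 - s)) * (s1 - s0) := by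
          have : 0 ≤ -α := by linarith
          positivity
        linarith
      · have e1 : α * (s1 - s0) ^ 2 * (s1 - s) ≤ 4 * f0 * (s1 - s) :=
          mul_le_mul_of_nonneg_right b0 (by linarith)
        have e2 : α * (s1 - s0) ^ 2 * (s - s0) ≤ 4 * f1 * (s - s0) :=
          mul_le_mul_of_nonneg_right b1 (by linarith)
        have e3 : α * (4 * ((s - s0) * (s1 - s))) * (s1 - s0) ≤ α * (s1 - s0) ^ 2 * (s1 - s0) := by
          apply mul_le_mul_of_nonneg_right _ hd.le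
          exact mul_le_mul_of_nonneg_left k3 hα
        linarith
    exact nonneg_of_mul_nonneg_left k4 hd

variable {e κ : ℝ} {P : ℂ} {s U v A B x o p : ℝ} {b : Bx ℝ} {l : Lf ℝ}

/-- Consequences of the first block. -/
structure BndA (b : Bx ℝ) (l : Lf ℝ) (C v x p a A K o : ℝ) : Prop where
  hC0n : 0 ≤ l.C0
  hC0 : l.C0 ≤ C
  hC1p : 0 < l.C1
  hC1 : C ≤ l.C1
  hCup : 0 < l.Cu
  hCu : 1 + b.S0 ^ 2 ≤ l.Cu ^ 2
  hxn : 0 ≤ l.xb
  hx : x ≤ l.xb
  hpn : 0 ≤ l.pb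
  hpb1 : l.pb ≤ 1
  hp : p ≤ l.pb
  hplp : 0 < l.pl
  hpl : l.pl ≤ p
  hvn : 0 ≤ l.vb
  hv : v ≤ l.vb
  habp : 0 < l.ab
  hab : a ≤ l.ab
  halp : 0 < l.al
  hal : l.al ≤ a
  hAn : 0 ≤ l.Ab
  hA : A ≤ l.Ab
  hK : K ≤ l.Kb
  hKlp : 0 < l.Kl
  hKl : l.Kl ≤ K
  hon : 0 ≤ l.ob
  ho : o ≤ l.ob

theorem VV_le_v0 {v0 : ℝ} (hv : v < VV e) (he : b.e0 ≤ e) (h : 102 ≤ 400 * v0 + 11 * b.e0) : v ≤ v0 := by
  unfold VV at hv
  linarith

theorem v_le_v0 {vc v0 : ℝ} (F : Facts κ P s U v A B x o p) (hvV : v < VV e) (hv0 : 0 ≤ v)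
    (hI : InB b e (Real.sinh κ) x p) (hD : Dom b) (hvc : v ≤ vc) (h : Vc 1 vc b v0) : v ≤ v0 := by
  unfold Vc at h
  simp only [mul_one, one_pow] at h
  rcases h with h | h | h
  · exact VV_le_v0 hvV hI.e0 h
  · have h1 := F.v_le
    have h2 : b.S0 ^ 2 ≤ s := by
      rw [F.s_def]
      exact pow_le_pow_left₀ hD.S0 hI.S0 2
    have h3 : v * (4 * (1 + b.S0 ^ 2)) ≤ v * (4 * (1 + s)) :=
      mul_le_mul_of_nonneg_left (by linarith) hv0
    have h4 : v * (4 * (1 + b.S0 ^ 2)) ≤ v0 * (4 * (1 + b.S0 ^ 2)) := by linarith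
    exact le_of_mul_le_mul_right h4 (by positivity)
  · exact hvc.trans h

/-- `p² ≤ pb²` -/
theorem p_le_of_Hc (F : Facts κ P s U v A B x o p)
    (hI : InB b e (Real.sinh κ) x p) (hD : Dom b) {q : ℝ} (hq0 : 0 ≤ q) (h : Hc 1 b q) : p ≤ q := by
  unfold Hc hq at h
  simp only [mul_one, one_pow] at h
  obtain ⟨h1, h2, h3, h4⟩ := h
  have hs0 : b.S0 ^ 2 ≤ s := by
    rw [F.s_def]
    exact pow_le_pow_left₀ hD.S0 hI.S0 2
  have hs1 : s ≤ b.S1 ^ 2 := by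
    rw [F.s_def]
    exact pow_le_pow_left₀ (hD.S0.trans hI.S0) hI.S1 2
  have hsp := F.s_pos
  have hx2 : b.x0 ^ 2 ≤ x ^ 2 := pow_le_pow_left₀ hD.x0 hI.x0 2
  have key := quad_low (α := 8 * q ^ 2 - 4) (β := 3 + 4 * b.x0 ^ 2 - 8 * (1 - q ^ 2))
    (γ := 3 * b.x0 ^ 2 - (1 - q ^ 2)) hs0 hs1 (by linarith) (by linarith) (by linarith) (by linarith)
  have hU := F.U_eq
  unfold q4 at hU
  have hp := F.p_sq
  have hq4 : 0 < 1 + 8 * s + 8 * s ^ 2 := by positivity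
  have h5 : (1 - q ^ 2) * (1 + 8 * s + 8 * s ^ 2) ≤ (3 + 4 * s) * U * (1 + 8 * s + 8 * s ^ 2) := by
    have e1 : (3 + 4 * s) * U * (1 + 8 * s + 8 * s ^ 2) = (3 + 4 * s) * (x ^ 2 + s) := by
      rw [← hU]
      ring
    rw [e1]
    have e2 : (3 + 4 * s) * (b.x0 ^ 2 + s) ≤ (3 + 4 * s) * (x ^ 2 + s) :=
      mul_le_mul_of_nonneg_left (by linarith) (by linarith)
    linarith
  have h6 := le_of_mul_le_mul_right h5 hq4
  exact le_of_sq_le_sq (by linarith) hq0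

theorem v_le_of_Gc (F : Facts κ P s U v A B x o p) (F2 : Facts2 κ P s v x p)
    (hx0 : 0 ≤ x) (hp0 : 0 ≤ p)
    (hI : InB b e (Real.sinh κ) x p) (hD : Dom b) {xb pb w : ℝ} (hxb : x ≤ xb) (hpb : p ≤ pb)
    (hpb1 : pb ≤ 1) (hw : 0 ≤ w) (h : Gc 1 b xb pb w) : v ≤ w := by
  unfold Gc gq at h
  simp only [mul_one, one_pow] at h
  obtain ⟨h1, h2, h3, h4⟩ := h
  have hs0 : b.S0 ^ 2 ≤ s := by
    rw [F.s_def]
    exact pow_le_pow_left₀ hD.S0 hI.S0 2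
  have hs1 : s ≤ b.S1 ^ 2 := by
    rw [F.s_def]
    exact pow_le_pow_left₀ (hD.S0.trans hI.S0) hI.S1 2
  have hsp := F.s_pos
  have key := quad_low (α := 1 - 2 * pb ^ 2) (β := w ^ 2 + (1 - pb ^ 2) ^ 2 - 2 * xb ^ 2 * pb ^ 2)
    (γ := w ^ 2 - xb ^ 4) hs0 hs1 (by linarith) (by linarith) (by linarith) (by linarith)
  have hv := F2.v_sq
  have hn : p ^ 2 ≤ pb ^ 2 := pow_le_pow_left₀ hp0 hpb 2
  have hy : x ^ 2 ≤ xb ^ 2 := pow_le_pow_left₀ hx0 hxb 2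
  have hpb2 : pb ^ 2 ≤ 1 := by nlinarith
  set n := p ^ 2 with hnd
  set y := x ^ 2 with hyd
  set nb := pb ^ 2 with hnb
  set yb := xb ^ 2 with hyb
  have hy0 : 0 ≤ y := sq_nonneg _
  have hn0 : 0 ≤ n := sq_nonneg _
  have e4 : xb ^ 4 = yb ^ 2 := by rw [hyb]; ring
  rw [e4] at key
  -- (1+s) w² ≥ Φ(yb, nb)
  have k1 : s ^ 2 * (1 - 2 * (1 - nb)) + s * (2 * yb - 2 * (1 - nb) * yb - (1 - nb) ^ 2) + yb ^ 2 ≤
      (1 + s) * w ^ 2 := by nlinarith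
  -- Φ monotone
  have k2 : (1 + s) * (y + s) ^ 2 - s * (1 + s + y - n) ^ 2 ≤
      (1 + s) * (yb + s) ^ 2 - s * (1 + s + yb - nb) ^ 2 := by
    have e1 : (1 + s) * (yb + s) ^ 2 - s * (1 + s + yb - nb) ^ 2 -
        ((1 + s) * (y + s) ^ 2 - s * (1 + s + y - n) ^ 2) =
        (yb - y) * (yb + y + 2 * s * n) +
          s * (nb - n) * (2 * (1 + s + yb) - nb - n) := by ring
    have e2 : 0 ≤ (yb - y) * (yb + y + 2 * s * n) := by
      apply mul_nonneg (by linarith)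
      have : 0 ≤ 2 * s * n := by positivity
      linarith
    have hyb0 : 0 ≤ yb := sq_nonneg _
    have e3 : 0 ≤ s * (nb - n) * (2 * (1 + s + yb) - nb - n) :=
      mul_nonneg (mul_nonneg hsp.le (by linarith)) (by linarith)
    linarith
  have k3 : (1 + s) * v ^ 2 ≤ (1 + s) * w ^ 2 := by
    rw [hv]
    refine k2.trans ?_
    have e1 : (1 + s) * (yb + s) ^ 2 - s * (1 + s + yb - nb) ^ 2 =
        s ^ 2 * (1 - 2 * (1 - nb)) + s * (2 * yb - 2 * (1 - nb) * yb - (1 - nb) ^ 2) + yb ^ 2 := by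
      ring
    rw [e1]
    exact k1
  have k4 : v ^ 2 ≤ w ^ 2 := le_of_mul_le_mul_left k3 (by linarith)
  exact le_of_sq_le_sq k4 hw

theorem bndA (he : 2 ≤ e) (he4 : e ≤ 4) (hκ : 0 < κ) (F : Facts κ P s U v A B x o p)
    (F2 : Facts2 κ P s v x p) (X : Aux4 e κ s U v A B x o p (KK e κ) (Real.exp (-κ)))
    {vc : ℝ} (hvc : v ≤ vc) (hI : InB b e (Real.sinh κ) x p) (hD : Dom b) (h : OkA 1 vc b l) :
    BndA b l (Real.cosh κ) v x p (Real.exp (-κ)) A (KK e κ) o := by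
  unfold OkA at h
  simp only [mul_one, one_pow] at h
  obtain ⟨⟨hC0n, hC0⟩, ⟨hC1p, hC1⟩, ⟨hCup, hCu⟩, hv0, ⟨hxn, hx⟩, ⟨hpn, hpb1, hp⟩, ⟨hplp, hpl⟩,
    ⟨hvn, hv⟩, ⟨habp, hab⟩, ⟨halp, hal⟩, ⟨hAn, hA⟩, hq, hK, ⟨ht0, ht⟩, ⟨htl0, htl⟩, ⟨hKlp, hKl⟩,
    ⟨hon, ho⟩⟩ := h
  have hS : 0 < Real.sinh κ := Real.sinh_pos_iff.2 hκ
  have hC1' := Real.one_le_cosh κ
  have hCs : Real.cosh κ ^ 2 = 1 + Real.sinh κ ^ 2 := by rw [Real.cosh_sq]; ring
  have hS0 : b.S0 ^ 2 ≤ Real.sinh κ ^ 2 := pow_le_pow_left₀ hD.S0 hI.S0 2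
  have hS1 : Real.sinh κ ^ 2 ≤ b.S1 ^ 2 := pow_le_pow_left₀ hS.le hI.S1 2
  have hsd := F.s_def
  have hS1n : 0 ≤ b.S1 := hS.le.trans hI.S1
  have cC0 : l.C0 ≤ Real.cosh κ := by
    apply le_of_sq_le_sq _ (by linarith)
    rw [hCs]
    linarith
  have cC1 : Real.cosh κ ≤ l.C1 := by
    apply le_of_sq_le_sq _ hC1p.le
    rw [hCs]
    linarith
  have cv0 : v ≤ l.v0 := v_le_v0 F X.v_lt X.v_nn hI hD hvc hv0
  have cx : x ≤ l.xb := by
    rcases hx with h | h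
    · exact hI.x1.trans h
    · apply le_of_sq_le_sq _ hxn
      have := F.x_le
      rw [hsd] at this
      linarith
  have cp : p ≤ l.pb := by
    rcases hp with h | h
    · exact hI.p1.trans h
    · exact p_le_of_Hc F hI hD hpn h
  have cpl : l.pl ≤ p := by
    rcases hpl with h | h | h
    · exact h.trans hI.p0
    · have := F.p_ge
      linarith
    · have h1 := F.p_ge2
      by_contra hc
      push Not at hc
      have h2 : 2 * Real.cosh κ * p ≤ 2 * l.C1 * p :=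
        mul_le_mul_of_nonneg_right (by linarith) X.p_pos.le
      have h3 : 2 * l.C1 * p < 2 * l.C1 * l.pl := by
        apply mul_lt_mul_of_pos_left hc
        positivity
      linarith
  have cv : v ≤ l.vb := by
    rcases hv with h | h
    · exact cv0.trans h
    · exact v_le_of_Gc F F2 X.x_nn X.p_pos.le hI hD cx cp hpb1 hvn h
  have haCS : Real.exp (-κ) * (Real.cosh κ + Real.sinh κ) = 1 := by
    rw [Real.cosh_add_sinh, ← Real.exp_add]
    simp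
  have ha0 := X.a_pos
  have cab : Real.exp (-κ) ≤ l.ab := by
    have h1 : l.ab * (l.C0 + b.S0) ≤ l.ab * (Real.cosh κ + Real.sinh κ) :=
      mul_le_mul_of_nonneg_left (by linarith [hI.S0]) habp.le
    have h2 : Real.exp (-κ) * (Real.cosh κ + Real.sinh κ) ≤
        l.ab * (Real.cosh κ + Real.sinh κ) := by linarith
    exact le_of_mul_le_mul_right h2 (by linarith)
  have cal : l.al ≤ Real.exp (-κ) := by
    have h1 : l.al * (Real.cosh κ + Real.sinh κ) ≤ l.al * (l.C1 + b.S1) :=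
      mul_le_mul_of_nonneg_left (by linarith [hI.S1]) halp.le
    have h2 : l.al * (Real.cosh κ + Real.sinh κ) ≤
        Real.exp (-κ) * (Real.cosh κ + Real.sinh κ) := by linarith
    exact le_of_mul_le_mul_right h2 (by linarith)
  have cA : A ≤ l.Ab := by
    apply le_of_sq_le_sq _ hAn
    have h1 := X.A_sq
    have h2 : Real.exp (-κ) ^ 4 * v ≤ l.ab ^ 4 * l.vb := by
      apply mul_le_mul (pow_le_pow_left₀ ha0.le cab 4) cv X.v_nn (by positivity)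
    linarith
  -- tanh
  obtain ⟨t1, t2, t3⟩ := th_le he he4 hκ
  have cq : Real.tanh (e * κ / 2) ^ 2 ≤ l.qb := by
    rcases hq with h | h | h
    · exact t3.trans h
    · refine t1.trans ?_
      have h0 : 0 ≤ l.qb := by
        have h1 : 0 ≤ 4 * l.qb * (1 + b.S1 ^ 2) := le_trans (by positivity) h
        have h2 : 0 ≤ 4 * l.qb := nonneg_of_mul_nonneg_left h1 (by positivity)
        linarith
      have h1 : e ^ 2 ≤ b.e1 ^ 2 := pow_le_pow_left₀ (by linarith) hI.e1 2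
      have h3 : Real.sinh κ ^ 2 / (1 + Real.sinh κ ^ 2) ≤ b.S1 ^ 2 / (1 + b.S1 ^ 2) := by
        rw [div_le_div_iff₀ (by positivity) (by positivity)]
        linarith
      calc (e / 2) ^ 2 * (Real.sinh κ ^ 2 / (1 + Real.sinh κ ^ 2)) ≤
            (b.e1 ^ 2 / 4) * (b.S1 ^ 2 / (1 + b.S1 ^ 2)) := by
              apply mul_le_mul (by linarith) h3 (by positivity) (by positivity)
        _ = b.e1 ^ 2 * b.S1 ^ 2 / (4 * (1 + b.S1 ^ 2)) := by
              field_simp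
        _ ≤ l.qb := by
              rw [div_le_iff₀ (by positivity)]
              linarith
    · refine t2.trans ?_
      have h0 : 4 * b.S1 ^ 2 * (1 + b.S1 ^ 2) / (1 + 2 * b.S1 ^ 2) ^ 2 ≤ l.qb := by
        rw [div_le_iff₀ (by positivity)]
        linarith
      refine le_trans ?_ h0
      rw [div_le_div_iff₀ (by positivity) (by positivity)]
      have ht' : 0 ≤ Real.sinh κ ^ 2 := sq_nonneg _
      generalize Real.sinh κ ^ 2 = t at hS1 ht' ⊢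
      have h5 : (1 + 2 * t) ^ 2 ≤ (1 + 2 * b.S1 ^ 2) ^ 2 :=
        pow_le_pow_left₀ (by linarith) (by linarith) 2
      linarith
  have hKd : KK e κ = e ^ 2 / 8 + 3 * Real.tanh (e * κ / 2) ^ 2 := rfl
  have cK : KK e κ ≤ l.Kb := by
    have h1 : e ^ 2 ≤ b.e1 ^ 2 := pow_le_pow_left₀ (by linarith) hI.e1 2
    rw [hKd]
    linarith
  have ct0 : l.t0 ≤ Real.tanh κ := by
    apply le_of_sq_le_sq _ (tanh_pos hκ).le
    rw [tanh_sq, le_div_iff₀ (by positivity)]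
    have h1 : l.t0 ^ 2 ≤ 1 := by
      have h2 : l.t0 ^ 2 * (1 + b.S0 ^ 2) ≤ 1 * (1 + b.S0 ^ 2) := by linarith
      exact le_of_mul_le_mul_right h2 (by positivity)
    nlinarith
  have hT1 : Real.tanh κ ≤ 1 := (Real.tanh_lt_one κ).le
  have ctl : l.tl ≤ Real.tanh (e * κ / 2) := by
    refine le_trans ?_ (th_ge he he4 hκ)
    set T := Real.tanh κ with hT
    have hT0 : 0 ≤ l.t0 := ht0
    have hTn : 0 ≤ T := ht0.trans ct0
    -- monotone in t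
    have m1 : 2 * l.t0 / (1 + l.t0 ^ 2) ≤ 2 * T / (1 + T ^ 2) := by
      rw [div_le_div_iff₀ (by positivity) (by positivity)]
      have : 0 ≤ (T - l.t0) * (1 - T * l.t0) := by
        apply mul_nonneg (by linarith)
        nlinarith
      nlinarith
    have m2 : l.t0 ≤ 2 * l.t0 / (1 + l.t0 ^ 2) := by
      rw [le_div_iff₀ (by positivity)]
      nlinarith
    have h1 : l.tl ≤ (2 - b.e0 / 2) * l.t0 + (b.e0 / 2 - 1) * (2 * l.t0 / (1 + l.t0 ^ 2)) := by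
      have e1 : (2 - b.e0 / 2) * l.t0 + (b.e0 / 2 - 1) * (2 * l.t0 / (1 + l.t0 ^ 2)) =
          ((4 - b.e0) * l.t0 * (1 + l.t0 ^ 2) + 2 * (b.e0 - 2) * l.t0) /
            (2 * (1 + l.t0 ^ 2)) := by
        field_simp
        ring
      rw [e1, le_div_iff₀ (by positivity)]
      linarith
    refine h1.trans ?_
    set g := 2 * l.t0 / (1 + l.t0 ^ 2)
    set G := 2 * T / (1 + T ^ 2)
    have h2 : (2 - b.e0 / 2) * l.t0 + (b.e0 / 2 - 1) * g ≤ (2 - e / 2) * l.t0 + (e / 2 - 1) * g := by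
      have := hI.e0
      nlinarith
    refine h2.trans ?_
    have h3 : (2 - e / 2) * l.t0 ≤ (2 - e / 2) * T := mul_le_mul_of_nonneg_left ct0 (by linarith)
    have h4 : (e / 2 - 1) * g ≤ (e / 2 - 1) * G := mul_le_mul_of_nonneg_left m1 (by linarith)
    linarith
  have cKl : l.Kl ≤ KK e κ := by
    have h1 : b.e0 ^ 2 ≤ e ^ 2 := pow_le_pow_left₀ (by linarith [hD.e0]) hI.e0 2
    have h2 : l.tl ^ 2 ≤ Real.tanh (e * κ / 2) ^ 2 := pow_le_pow_left₀ htl0 ctl 2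
    rw [hKd]
    linarith
  have co : o ≤ l.ob := by
    rcases ho with h | h | h
    · exact F.o_le_1.trans h
    · exact (F.o_le_x.trans cx).trans h
    · have h1 : o ≤ (1 - Real.exp (-κ)) + A := by
        rw [F.o_def, F.A_def]
        have e1 : 1 - P = (((1 - Real.exp (-κ) : ℝ)) : ℂ) - (P - ((Real.exp (-κ) : ℝ) : ℂ)) := by
          push_cast
          ring
        rw [e1]
        refine (norm_sub_le _ _).trans ?_
        rw [Complex.norm_real, Real.norm_of_nonneg (by linarith [X.a_lt])]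
      linarith
  exact ⟨hC0n, cC0, hC1p, cC1, hCup, hCu, hxn, cx, hpn, hpb1, cp, hplp, cpl, hvn, cv, habp, cab,
    halp, cal, hAn, cA, cK, hKlp, cKl, hon, co⟩

end Pool.Agent.helper4.EQW4
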