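import Pool.Agent.helper4.EQW4.Box4A

/-!
# EQW4: meaning of the second and third block of inequalities
-/

namespace Pool.Agent.helper4.EQW4

open Complex
open Pool.Agent.helper4.EQW

theorem bern {y t : ℝ} (hy : 0 ≤ y) (ht0 : 0 ≤ t) (ht1 : t ≤ 1) : y ^ t ≤ 1 - t * (1 - y) := by
  have h := rpow_one_add_le_one_add_mul_self (s := y - 1) (p := t) (by linarith) ht0 ht1
  have e1 : 1 + (y - 1) = y := by ring
  rw [e1] at h
  linarith

theorem pw2 {e0 y : ℝ} (h2 : 2 ≤ e0) (h3 : e0 ≤ 3) (hy : 0 ≤ y) :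
    y ^ e0 ≤ y ^ 2 * (1 - (e0 - 2) * (1 - y)) := by
  rcases hy.eq_or_lt with h | h
  · rw [← h, Real.zero_rpow (by linarith)]
    norm_num
  · have e1 : y ^ e0 = y ^ 2 * y ^ (e0 - 2) := by
      rw [← Real.rpow_ofNat, ← Real.rpow_add h]
      congr 1
      norm_num
    rw [e1]
    exact mul_le_mul_of_nonneg_left (bern hy (by linarith) (by linarith)) (by positivity)

theorem pw3 {e0 y : ℝ} (h2 : 3 ≤ e0) (h3 : e0 ≤ 4) (hy : 0 ≤ y) :
    y ^ e0 ≤ y ^ 3 * (1 - (e0 - 3) * (1 - y)) := by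
  rcases hy.eq_or_lt with h | h
  · rw [← h, Real.zero_rpow (by linarith)]
    norm_num
  · have e1 : y ^ e0 = y ^ 3 * y ^ (e0 - 3) := by
      rw [← Real.rpow_ofNat, ← Real.rpow_add h]
      congr 1
      norm_num
    rw [e1]
    exact mul_le_mul_of_nonneg_left (bern hy (by linarith) (by linarith)) (by positivity)

/-- `p^e ≤ r` -/
theorem pw_le {e e0 p y r : ℝ} (he0 : 2 ≤ e0) (he : e0 ≤ e) (he4 : e ≤ 4) (hp : 0 ≤ p) (hpy : p ≤ y)
    (hp1 : p ≤ 1) (h : PWc 1 e0 y r) : p ^ e ≤ r := by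
  unfold PWc at h
  simp only [mul_one, one_pow] at h
  have hy : 0 ≤ y := hp.trans hpy
  have h1 : p ^ e ≤ p ^ e0 := Real.rpow_le_rpow_of_exponent_ge' hp hp1 (by linarith) he
  have h2 : p ^ e0 ≤ y ^ e0 := Real.rpow_le_rpow hp hpy (by linarith)
  rcases h with ⟨h3, h⟩ | ⟨h3, h⟩ | h
  · exact (h1.trans h2).trans ((pw2 he0 h3 hy).trans h)
  · exact (h1.trans h2).trans ((pw3 h3 (by linarith) hy).trans h)
  · exact (Real.rpow_le_one hp hp1 (by linarith)).trans h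

/-- `lder` on a set where `‖z‖^e ≤ r`. -/
theorem lder_box {e e1 a z0 : ℝ} {z : ℂ} {al sg c r L : ℝ} {A' : Prop} (he : 2 ≤ e) (he1 : e ≤ e1)
    (he4 : e1 ≤ 4) (ha : 0 < a) (hal : al ≤ a) (hz : ‖z - (a : ℂ)‖ ≤ a / 2) (hr : ‖z‖ ^ e ≤ r)
    (hz0 : z0 = ‖z‖) (hA : A' → ‖z - (a : ℂ)‖ ≤ sg * al)
    (hc : Cc 1 e1 sg c A') (hL : Lc 1 e1 c r L) : ‖lder e z‖ ≤ L / z0 := by
  unfold Cc at hc
  unfold Lc at hL
  simp only [mul_one, one_pow] at hc hL
  obtain ⟨c0, c1, hc⟩ := hc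
  obtain ⟨r0, r1, L0, hL⟩ := hL
  rw [hz0]
  refine lder_le (σ := sg) he (he1.trans he4) ha hz hr r1 c0 (by linarith) ?_ L0 ?_
  · rcases hc with h | h | ⟨h1, h2, h3, h4⟩
    · left; linarith
    · right; left; linarith
    · right; right
      refine ⟨(hA h3).trans ?_, h1, by linarith, by linarith⟩
      exact mul_le_mul_of_nonneg_left hal h1
  · refine le_trans ?_ hL
    have h1 : 2 * (e + 1) * c * r ≤ 2 * (e1 + 1) * c * r := by
      apply mul_le_mul_of_nonneg_right _ r0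
      apply mul_le_mul_of_nonneg_right _ c0
      linarith
    have h2 : (e + 1) ^ 2 * r ^ 2 ≤ (e1 + 1) ^ 2 * r ^ 2 := by
      apply mul_le_mul_of_nonneg_right _ (sq_nonneg _)
      apply pow_le_pow_left₀ (by linarith)
      linarith
    linarith

variable {e κ : ℝ} {P : ℂ} {s U v A B x o p : ℝ} {b : Bx ℝ} {l : Lf ℝ}

theorem num13_of (he : 2 ≤ e) (he4 : e ≤ 4) (hκ : 0 < κ) (hP : P ∈ LT4 e κ)
    (F : Facts κ P s U v A B x o p)
    (F2 : Facts2 κ P s v x p) (X : Aux4 e κ s U v A B x o p (KK e κ) (Real.exp (-κ)))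
    (hI : InB b e (Real.sinh κ) x p) (hD : Dom b)
    (Z : BndA b l (Real.cosh κ) v x p (Real.exp (-κ)) A (KK e κ) o)
    (hB : OkB 1 b l) (hC : OkC 1 b l) :
    Num13 e κ P v A x o p (KK e κ) (Real.exp (-κ)) l.g1 l.D l.de l.eta l.eS l.W l.G l.R l.lam l.dp
      ((Real.exp (-κ) * A * (1 + l.eS) + l.dp) / l.W) l.L2 l.wp l.tp l.T1 l.T3 := by
  unfold OkB at hB
  unfold OkC at hC
  simp only [mul_one, one_pow] at hB hC
  obtain ⟨b1, ⟨b2, b2'⟩, b3, b4, b5, b6, ⟨b7, b7'⟩, b8, ⟨b9, b9'⟩, ⟨b10, b10'⟩, b11, b12, b13, b14,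
    b15, b16, b17⟩ := hB
  obtain ⟨c1, c2, c3, c4, c5, c6, ⟨c7, c7'⟩, c8, c9, c10⟩ := hC
  have hK0 := X.K_pos
  have hv0 := X.v_nn
  have hA0 := X.A_nn
  have ho0 := X.o_nn
  have hx0 := X.x_nn
  have hp0 := X.p_pos
  have hp1 := X.p_le
  have ha0 := X.a_pos
  have zK := Z.hK
  have zv := Z.hv
  have zA := Z.hA
  have zo := Z.ho
  have zx := Z.hx
  have zp := Z.hp
  have zpl := Z.hpl
  have zvn := Z.hvn
  have zAn := Z.hAn
  have zon := Z.hon
  have zxn := Z.hxn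
  have zpn := Z.hpn
  have zplp := Z.hplp
  have zKn : 0 ≤ l.Kb := hK0.le.trans zK
  have zab := Z.hab
  have zabp := Z.habp
  have zal := Z.hal
  have zalp := Z.halp
  have g0 : 0 < l.g1 := by linarith
  have D1 : KK e κ * v * A ≤ l.D * l.g1 := by
    refine le_trans ?_ b3
    exact mul_le_mul (mul_le_mul zK zv hv0 zKn) zA hA0 (by positivity)
  have D0 : 0 ≤ l.D := by
    have : 0 ≤ l.D * l.g1 := le_trans (by positivity) D1
    exact nonneg_of_mul_nonneg_left this g0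
  have de1 : l.D * o ≤ l.de := (mul_le_mul_of_nonneg_left zo D0).trans b4
  have de0 : 0 ≤ l.de := le_trans (by positivity) de1
  have eta1 : KK e κ * A * o * (2 * x + l.de) ≤ l.eta * l.g1 := by
    refine le_trans ?_ b5
    gcongr
  have eta0 : 0 ≤ l.eta := by
    have : 0 ≤ l.eta * l.g1 := le_trans (by positivity) eta1
    exact nonneg_of_mul_nonneg_left this g0
  have eS1 : KK e κ * v * o ≤ l.eS * l.g1 := by
    refine le_trans ?_ b6
    gcongr
  have eS0 : 0 ≤ l.eS := by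
    have : 0 ≤ l.eS * l.g1 := le_trans (by positivity) eS1
    exact nonneg_of_mul_nonneg_left this g0
  have W0 : 0 < l.W := by linarith
  have hS0 : b.S0 ^ 2 ≤ s := by
    rw [F.s_def]
    exact pow_le_pow_left₀ hD.S0 hI.S0 2
  have hx2 : b.x0 ^ 2 ≤ x ^ 2 := pow_le_pow_left₀ hD.x0 hI.x0 2
  have hp2 : p ^ 2 ≤ l.pb ^ 2 := pow_le_pow_left₀ hp0.le zp 2
  have hW : l.W + l.de ≤ ‖2 * (Real.cosh κ : ℂ) - P‖ := by
    apply le_of_sq_le_sq _ (norm_nonneg _)
    rw [F2.W_sq]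
    linarith
  have G0 : 0 ≤ l.G := by
    have : 0 ≤ l.G * l.W ^ 3 := le_trans (by positivity) b8
    exact nonneg_of_mul_nonneg_left this (by positivity)
  have R0 : 0 ≤ l.R := le_trans (by positivity) b9
  have L20 : 0 ≤ l.L2 := by
    unfold Lc at c5
    exact c5.2.2.1
  have L10 : 0 ≤ l.L1 := by
    unfold Lc at b14
    exact b14.2.2.1
  have lam0 : 0 ≤ l.lam := by
    have : 0 ≤ l.lam * l.m := L10.trans b15
    exact nonneg_of_mul_nonneg_left this b10
  have dp1 : KK e κ * v * A * l.G ≤ l.dp := by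
    refine le_trans ?_ c1
    gcongr
  have dp0 : 0 ≤ l.dp := le_trans (by positivity) dp1
  have dpl : l.dp < 1 := by
    have : 0 ≤ l.L2 * l.dp := by positivity
    linarith
  have he0 := hD.e0
  have he1 := hD.e1
  have hWi : 1 / l.W ≤ l.Wi := by
    rw [div_le_iff₀ W0]
    linarith
  have hWi1 : 1 / l.W ≤ 1 := by
    rw [div_le_one W0]
    exact b7
  have hWi0 : 0 < 1 / l.W := by positivity
  have T30 : 0 ≤ l.T3 := by
    have h1 : 0 ≤ 2 * l.T3 * (1 - l.lam * l.R) := le_trans (by positivity) b17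
    have h2 : 0 ≤ 2 * l.T3 := nonneg_of_mul_nonneg_left h1 (by linarith)
    linarith
  refine ⟨b2, ?_, D1, de1, eta1, eS1, W0, hW, ?_, ?_, ?_, lam0, ?_, b16, ?_, dp1, ?_, L20, ?_, ?_,
    ?_, ?_, ?_⟩
  · -- g1
    rcases b2' with h | h
    · exact h.trans (one_le_G14 he he4 hκ hP)
    · have hd := disc_of_mem4 he he4 hκ hP
      have hf := slitPlane_ne_zero (f0_slit4 (by linarith) he4 (Real.exp_pos _) hd.1 hd.2)
      have hP0 : P ≠ 0 := by
        rw [← norm_pos_iff, ← F.p_def]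
        exact hp0
      have h1 := G1_low (κ := κ) he he4 hf hP0
      rw [← F.p_def] at h1
      have h2 : p ^ e ≤ l.r0 := pw_le he0 hI.e0 he4 hp0.le zp hp1 b1
      have h3 : 8 * l.C0 * l.pl ≤ 8 * Real.cosh κ * p := by
        have := Z.hC0
        have := Z.hC0n
        gcongr
      have h4 : 0 ≤ p ^ e := Real.rpow_nonneg hp0.le _
      have h5 : p ^ 4 ≤ l.pb ^ 4 := pow_le_pow_left₀ hp0.le zp 4
      have h8 : 0 ≤ l.r0 := h4.trans h2
      have h6 : (1 + p ^ e) * (3 + p ^ 4) * ‖G1 e κ P‖ ≤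
          (1 + l.r0) * (3 + l.pb ^ 4) * ‖G1 e κ P‖ := by
        apply mul_le_mul_of_nonneg_right _ (norm_nonneg _)
        exact mul_le_mul (by linarith) (by linarith) (by positivity) (by positivity)
      have h7 : (1 + l.r0) * (3 + l.pb ^ 4) * l.g1 ≤ (1 + l.r0) * (3 + l.pb ^ 4) * ‖G1 e κ P‖ := by
        linarith
      exact le_of_mul_le_mul_left h7 (by positivity)
  · -- G
    refine le_trans ?_ b8
    gcongr
  · exact (mul_le_mul_of_nonneg_left zp D0).trans b9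
  · exact (mul_le_mul_of_nonneg_left zo D0).trans b9'
  · -- hl
    intro y hy1 hy2 hy3
    have h1 : ‖y‖ ≤ p + l.R := by
      have e1 : y = P + (y - P) := by ring
      have h2 := norm_add_le P (y - P)
      rw [← e1, ← F.p_def] at h2
      linarith
    have h2 : l.m ≤ ‖y‖ := by
      have e1 : P = y - (y - P) := by ring
      have h2 := norm_sub_le y (y - P)
      rw [← e1, ← F.p_def] at h2
      linarith
    have hy0 : 0 < ‖y‖ := by linarith
    have h3 : ‖y‖ ≤ l.yu := by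
      rcases b11 with h | h
      · exact hy3.trans h
      · linarith
    have h4 : ‖y‖ ^ e ≤ l.r1 := pw_le he0 hI.e0 he4 (norm_nonneg _) h3 hy3 b12
    have h5 : (l.Ab + l.R ≤ l.sg1 * l.al) → ‖y - ((Real.exp (-κ) : ℝ) : ℂ)‖ ≤ l.sg1 * l.al := by
      intro h
      have e1 : y - ((Real.exp (-κ) : ℝ) : ℂ) = (y - P) + (P - ((Real.exp (-κ) : ℝ) : ℂ)) := by ring
      have h2 := norm_add_le (y - P) (P - ((Real.exp (-κ) : ℝ) : ℂ))
      rw [← e1, ← F.A_def] at h2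
      linarith
    have h6 := lder_box (e := e) (a := Real.exp (-κ)) he hI.e1 he1 ha0 zal hy2 h4 rfl h5 b13 b14
    refine h6.trans ?_
    rw [div_le_iff₀ hy0]
    exact b15.trans (mul_le_mul_of_nonneg_left h2 lam0)
  · -- T3
    refine le_trans ?_ b17
    gcongr
  · -- sg
    rw [div_mul_cancel₀ _ W0.ne']
  · -- hL
    intro y hy1 hy2 hy3 hy4
    have h3 : ‖y‖ ≤ l.yy := by
      rcases c2 with h | h
      · exact hy4.trans h
      · refine hy1.trans ?_
        rw [div_le_iff₀ W0]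
        exact h
    have h4 : ‖y‖ ^ e ≤ l.r2 := pw_le he0 hI.e0 he4 (norm_nonneg _) h3 hy4 c3
    have h5 : (l.ab * l.Ab * (1 + l.eS) + l.dp ≤ l.sg2 * l.al * l.W) →
        ‖y - ((Real.exp (-κ) : ℝ) : ℂ)‖ ≤ l.sg2 * l.al := by
      intro h
      refine hy2.trans ?_
      rw [div_le_iff₀ W0]
      refine le_trans ?_ h
      gcongr
    exact lder_box (e := e) (a := Real.exp (-κ)) he hI.e1 he1 ha0 zal hy3 h4 rfl h5 c4 c5
  · linarith
  · -- wp
    have h1 : (1 / l.W) ^ (e - 1) ≤ (1 / l.W) ^ (b.e0 - 1) :=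
      Real.rpow_le_rpow_of_exponent_ge hWi0 hWi1 (by linarith [hI.e0])
    refine h1.trans ?_
    have h2 : (1 / l.W) ^ (b.e0 - 1) ≤ l.Wi ^ (b.e0 - 1) :=
      Real.rpow_le_rpow hWi0.le hWi (by linarith)
    refine h2.trans ?_
    rcases c8 with ⟨h3, h⟩ | ⟨h3, h⟩
    · refine le_trans ?_ h
      have e1 : l.Wi ^ (b.e0 - 1) = l.Wi * l.Wi ^ (b.e0 - 2) := by
        rw [show b.e0 - 1 = 1 + (b.e0 - 2) by ring, Real.rpow_add c7, Real.rpow_one]
      rw [e1]
      exact mul_le_mul_of_nonneg_left (bern c7.le (by linarith) (by linarith)) c7.le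
    · refine le_trans ?_ h
      have e1 : l.Wi ^ (b.e0 - 1) = l.Wi ^ 2 * l.Wi ^ (b.e0 - 3) := by
        rw [show b.e0 - 1 = 2 + (b.e0 - 3) by ring, Real.rpow_add c7, Real.rpow_ofNat]
      rw [e1]
      exact mul_le_mul_of_nonneg_left (bern c7.le (by linarith) (by linarith [hI.e0]))
        (by positivity)
  · -- tp
    have h0 : (1 + l.dp) ^ (e - 2) ≤ (1 + l.dp) ^ (b.e1 - 2) :=
      Real.rpow_le_rpow_of_exponent_le (by linarith) (by linarith [hI.e1])
    refine h0.trans ?_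
    rcases c9 with ⟨h3, h⟩ | ⟨h3, h⟩
    · refine le_trans ?_ h
      have := rpow_one_add_le_one_add_mul_self (s := l.dp) (p := b.e1 - 2) (by linarith)
        (by linarith [hI.e0, hI.e1]) (by linarith)
      exact this
    · refine le_trans ?_ h
      have e1 : (1 + l.dp) ^ (b.e1 - 2) = (1 + l.dp) * (1 + l.dp) ^ (b.e1 - 3) := by
        rw [show b.e1 - 2 = 1 + (b.e1 - 3) by ring, Real.rpow_add (by linarith), Real.rpow_one]
      rw [e1]
      apply mul_le_mul_of_nonneg_left _ (by linarith)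
      exact rpow_one_add_le_one_add_mul_self (s := l.dp) (p := b.e1 - 3) (by linarith)
        (by linarith) (by linarith)
  · linarith

end Pool.Agent.helper4.EQW4
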