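import Pool.Agent.helper4.EQW4.Box4

/-!
# EQW4: from integers to reals with denominator one
-/

namespace Pool.Agent.helper4.EQW4

noncomputable section

def Bx.toR (b : Bx ℤ) : Bx ℝ :=
  ⟨b.e0, b.e1, b.S0, b.S1, b.x0, b.x1, b.p0, b.p1⟩

def Lf.toR (l : Lf ℤ) : Lf ℝ :=
  ⟨l.C0, l.C1, l.Cu, l.v0, l.xb, l.pb, l.pl, l.vb, l.ab, l.al, l.Ab, l.qb, l.Kb, l.t0, l.tl, l.Kl,
   l.ob, l.g1, l.r0, l.D, l.de, l.eta, l.eS, l.W, l.G, l.R, l.m, l.yu, l.r1, l.sg1, l.c1, l.L1,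
   l.lam, l.T3, l.dp, l.yy, l.r2, l.sg2, l.c2, l.L2, l.Wi, l.wp, l.tp, l.T1, l.pY, l.dm, l.dW,
   l.Rr, l.rY, l.rW, l.m0, l.yb, l.tk, l.tb, l.kkb, l.Pm, l.c2b, l.lb, l.qq, l.Pk, l.ps, l.M,
   l.T2⟩

def Bx.sm (c : ℝ) (b : Bx ℝ) : Bx ℝ :=
  ⟨b.e0 * c, b.e1 * c, b.S0 * c, b.S1 * c, b.x0 * c, b.x1 * c, b.p0 * c, b.p1 * c⟩

def Lf.sm (c : ℝ) (l : Lf ℝ) : Lf ℝ :=
  ⟨l.C0 * c, l.C1 * c, l.Cu * c, l.v0 * c, l.xb * c, l.pb * c, l.pl * c, l.vb * c, l.ab * c,
   l.al * c, l.Ab * c, l.qb * c, l.Kb * c, l.t0 * c, l.tl * c, l.Kl * c, l.ob * c, l.g1 * c,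
   l.r0 * c, l.D * c, l.de * c, l.eta * c, l.eS * c, l.W * c, l.G * c, l.R * c, l.m * c,
   l.yu * c, l.r1 * c, l.sg1 * c, l.c1 * c, l.L1 * c, l.lam * c, l.T3 * c, l.dp * c, l.yy * c,
   l.r2 * c, l.sg2 * c, l.c2 * c, l.L2 * c, l.Wi * c, l.wp * c, l.tp * c, l.T1 * c, l.pY * c,
   l.dm * c, l.dW * c, l.Rr * c, l.rY * c, l.rW * c, l.m0 * c, l.yb * c, l.tk * c, l.tb * c,
   l.kkb * c, l.Pm * c, l.c2b * c, l.lb * c, l.qq * c, l.Pk * c, l.ps * c, l.M * c, l.T2 * c⟩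

end

section
variable {N vc f3 v0 : ℤ} {b : Bx ℤ} {l : Lf ℤ}

theorem OkA_toR (h : OkA N vc b l) : OkA (N : ℝ) vc b.toR l.toR := by
  unfold OkA Hc Gc Vc hq gq at h ⊢
  unfold Bx.toR Lf.toR
  dsimp only
  exact_mod_cast h

theorem OkB_toR (h : OkB N b l) : OkB (N : ℝ) b.toR l.toR := by
  unfold OkB PWc Cc Lc at h ⊢
  unfold Bx.toR Lf.toR
  dsimp only
  exact_mod_cast h

theorem OkC_toR (h : OkC N b l) : OkC (N : ℝ) b.toR l.toR := by
  unfold OkC PWc Cc Lc at h ⊢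
  unfold Bx.toR Lf.toR
  dsimp only
  exact_mod_cast h

theorem OkD_toR (h : OkD N b l) : OkD (N : ℝ) b.toR l.toR := by
  unfold OkD at h ⊢
  unfold Bx.toR Lf.toR
  dsimp only
  exact_mod_cast h

theorem OkT_toR (h : OkT N f3 l) : OkT (N : ℝ) f3 l.toR := by
  unfold OkT at h ⊢
  unfold Lf.toR
  dsimp only
  exact_mod_cast h

theorem EOk_toR (h : EOk N vc b v0) : EOk (N : ℝ) vc b.toR v0 := by
  unfold EOk Vc hq gq at h ⊢
  unfold Bx.toR
  dsimp only
  exact_mod_cast h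

theorem COk_toR (h : COk N b) : COk (N : ℝ) b.toR := by
  unfold COk at h ⊢
  unfold Bx.toR
  dsimp only
  exact_mod_cast h

end

section
variable {N vc f3 v0 : ℝ} {b : Bx ℝ} {l : Lf ℝ}

theorem OkA_sm (hN : 0 < N) (h : OkA N (vc * N) (b.sm N) (l.sm N)) : OkA 1 vc b l := by
  unfold OkA Hc Gc Vc hq gq at h ⊢
  unfold Bx.sm Lf.sm at h
  dsimp only at h
  exact ⟨⟨(le_of_mul_le_mul_left (by linarith only [h.1.1]) (pow_pos hN 1)),
      (le_of_mul_le_mul_left (by linarith only [h.1.2]) (pow_pos hN 2))⟩,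
    ⟨(lt_of_mul_lt_mul_left (by linarith only [h.2.1.1]) (pow_pos hN 1).le),
      (le_of_mul_le_mul_left (by linarith only [h.2.1.2]) (pow_pos hN 2))⟩,
    ⟨(lt_of_mul_lt_mul_left (by linarith only [h.2.2.1.1]) (pow_pos hN 1).le),
      (le_of_mul_le_mul_left (by linarith only [h.2.2.1.2]) (pow_pos hN 2))⟩,
    (h.2.2.2.1.imp (fun h1 => (le_of_mul_le_mul_left (by linarith only [h1]) (pow_pos hN 1)))
      (fun h1 => (h1.imp (fun h2 => (le_of_mul_le_mul_left (by linarith only [h2]) (pow_pos hN 3)))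
        (fun h2 => (le_of_mul_le_mul_left (by linarith only [h2]) (pow_pos hN 1)))))),
    ⟨(le_of_mul_le_mul_left (by linarith only [h.2.2.2.2.1.1]) (pow_pos hN 1)),
      (h.2.2.2.2.1.2.imp (fun h3 => (le_of_mul_le_mul_left (by linarith only [h3]) (pow_pos hN 1)))
        (fun h3 => (le_of_mul_le_mul_left (by linarith only [h3]) (pow_pos hN 2))))⟩,
    ⟨(le_of_mul_le_mul_left (by linarith only [h.2.2.2.2.2.1.1]) (pow_pos hN 1)),
      (le_of_mul_le_mul_left (by linarith only [h.2.2.2.2.2.1.2.1]) (pow_pos hN 1)),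
      (h.2.2.2.2.2.1.2.2.imp (fun h4 => (le_of_mul_le_mul_left (by linarith only [h4]) (pow_pos hN 1)))
        (fun h4 => ⟨(le_of_mul_le_mul_left (by linarith only [h4.1]) (pow_pos hN 6)),
          (le_of_mul_le_mul_left (by linarith only [h4.2.1]) (pow_pos hN 6)),
          (le_of_mul_le_mul_left (by linarith only [h4.2.2.1]) (pow_pos hN 6)),
          (le_of_mul_le_mul_left (by linarith only [h4.2.2.2]) (pow_pos hN 6))⟩))⟩,
    ⟨(lt_of_mul_lt_mul_left (by linarith only [h.2.2.2.2.2.2.1.1]) (pow_pos hN 1).le),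
      (h.2.2.2.2.2.2.1.2.imp (fun h5 => (le_of_mul_le_mul_left (by linarith only [h5]) (pow_pos hN 1)))
        (fun h5 => (h5.imp (fun h6 => (le_of_mul_le_mul_left (by linarith only [h6]) (pow_pos hN 1)))
          (fun h6 => (le_of_mul_le_mul_left (by linarith only [h6]) (pow_pos hN 2))))))⟩,
    ⟨(le_of_mul_le_mul_left (by linarith only [h.2.2.2.2.2.2.2.1.1]) (pow_pos hN 1)),
      (h.2.2.2.2.2.2.2.1.2.imp (fun h7 => (le_of_mul_le_mul_left (by linarith only [h7]) (pow_pos hN 1)))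
        (fun h7 => ⟨(le_of_mul_le_mul_left (by linarith only [h7.1]) (pow_pos hN 8)),
          (le_of_mul_le_mul_left (by linarith only [h7.2.1]) (pow_pos hN 8)),
          (le_of_mul_le_mul_left (by linarith only [h7.2.2.1]) (pow_pos hN 8)),
          (le_of_mul_le_mul_left (by linarith only [h7.2.2.2]) (pow_pos hN 8))⟩))⟩,
    ⟨(lt_of_mul_lt_mul_left (by linarith only [h.2.2.2.2.2.2.2.2.1.1]) (pow_pos hN 1).le),
      (le_of_mul_le_mul_left (by linarith only [h.2.2.2.2.2.2.2.2.1.2]) (pow_pos hN 2))⟩,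
    ⟨(lt_of_mul_lt_mul_left (by linarith only [h.2.2.2.2.2.2.2.2.2.1.1]) (pow_pos hN 1).le),
      (le_of_mul_le_mul_left (by linarith only [h.2.2.2.2.2.2.2.2.2.1.2]) (pow_pos hN 2))⟩,
    ⟨(le_of_mul_le_mul_left (by linarith only [h.2.2.2.2.2.2.2.2.2.2.1.1]) (pow_pos hN 1)),
      (le_of_mul_le_mul_left (by linarith only [h.2.2.2.2.2.2.2.2.2.2.1.2]) (pow_pos hN 5))⟩,
    (h.2.2.2.2.2.2.2.2.2.2.2.1.imp (fun h8 => (le_of_mul_le_mul_left (by linarith only [h8]) (pow_pos hN 1)))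
      (fun h8 => (h8.imp (fun h9 => (le_of_mul_le_mul_left (by linarith only [h9]) (pow_pos hN 4)))
        (fun h9 => (le_of_mul_le_mul_left (by linarith only [h9]) (pow_pos hN 5)))))),
    (le_of_mul_le_mul_left (by linarith only [h.2.2.2.2.2.2.2.2.2.2.2.2.1]) (pow_pos hN 2)),
    ⟨(le_of_mul_le_mul_left (by linarith only [h.2.2.2.2.2.2.2.2.2.2.2.2.2.1.1]) (pow_pos hN 1)),
      (le_of_mul_le_mul_left (by linarith only [h.2.2.2.2.2.2.2.2.2.2.2.2.2.1.2]) (pow_pos hN 4))⟩,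
    ⟨(le_of_mul_le_mul_left (by linarith only [h.2.2.2.2.2.2.2.2.2.2.2.2.2.2.1.1]) (pow_pos hN 1)),
      (le_of_mul_le_mul_left (by linarith only [h.2.2.2.2.2.2.2.2.2.2.2.2.2.2.1.2]) (pow_pos hN 4))⟩,
    ⟨(lt_of_mul_lt_mul_left (by linarith only [h.2.2.2.2.2.2.2.2.2.2.2.2.2.2.2.1.1]) (pow_pos hN 1).le),
      (le_of_mul_le_mul_left (by linarith only [h.2.2.2.2.2.2.2.2.2.2.2.2.2.2.2.1.2]) (pow_pos hN 2))⟩,
    ⟨(le_of_mul_le_mul_left (by linarith only [h.2.2.2.2.2.2.2.2.2.2.2.2.2.2.2.2.1]) (pow_pos hN 1)),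
      (h.2.2.2.2.2.2.2.2.2.2.2.2.2.2.2.2.2.imp (fun h10 => (le_of_mul_le_mul_left (by linarith only [h10]) (pow_pos hN 1)))
        (fun h10 => (h10.imp (fun h11 => (le_of_mul_le_mul_left (by linarith only [h11]) (pow_pos hN 1)))
          (fun h11 => (le_of_mul_le_mul_left (by linarith only [h11]) (pow_pos hN 1))))))⟩⟩

theorem OkB_sm (hN : 0 < N) (h : OkB N (b.sm N) (l.sm N)) : OkB 1 b l := by
  unfold OkB PWc Cc Lc at h ⊢
  unfold Bx.sm Lf.sm at h
  dsimp only at h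
  exact ⟨(h.1.imp (fun h1 => ⟨(le_of_mul_le_mul_left (by linarith only [h1.1]) (pow_pos hN 1)),
        (le_of_mul_le_mul_left (by linarith only [h1.2]) (pow_pos hN 4))⟩)
      (fun h1 => (h1.imp (fun h2 => ⟨(le_of_mul_le_mul_left (by linarith only [h2.1]) (pow_pos hN 1)),
          (le_of_mul_le_mul_left (by linarith only [h2.2]) (pow_pos hN 5))⟩)
        (fun h2 => (le_of_mul_le_mul_left (by linarith only [h2]) (pow_pos hN 1)))))),
    ⟨(le_of_mul_le_mul_left (by linarith only [h.2.1.1]) (pow_pos hN 1)),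
      (h.2.1.2.imp (fun h3 => (le_of_mul_le_mul_left (by linarith only [h3]) (pow_pos hN 1)))
        (fun h3 => (le_of_mul_le_mul_left (by linarith only [h3]) (pow_pos hN 6))))⟩,
    (le_of_mul_le_mul_left (by linarith only [h.2.2.1]) (pow_pos hN 3)),
    (le_of_mul_le_mul_left (by linarith only [h.2.2.2.1]) (pow_pos hN 2)),
    (le_of_mul_le_mul_left (by linarith only [h.2.2.2.2.1]) (pow_pos hN 4)),
    (le_of_mul_le_mul_left (by linarith only [h.2.2.2.2.2.1]) (pow_pos hN 3)),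
    ⟨(le_of_mul_le_mul_left (by linarith only [h.2.2.2.2.2.2.1.1]) (pow_pos hN 1)),
      (le_of_mul_le_mul_left (by linarith only [h.2.2.2.2.2.2.1.2]) (pow_pos hN 2))⟩,
    (le_of_mul_le_mul_left (by linarith only [h.2.2.2.2.2.2.2.1]) (pow_pos hN 4)),
    ⟨(le_of_mul_le_mul_left (by linarith only [h.2.2.2.2.2.2.2.2.1.1]) (pow_pos hN 2)),
      (le_of_mul_le_mul_left (by linarith only [h.2.2.2.2.2.2.2.2.1.2]) (pow_pos hN 2))⟩,
    ⟨(lt_of_mul_lt_mul_left (by linarith only [h.2.2.2.2.2.2.2.2.2.1.1]) (pow_pos hN 1).le),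
      (le_of_mul_le_mul_left (by linarith only [h.2.2.2.2.2.2.2.2.2.1.2]) (pow_pos hN 1))⟩,
    (h.2.2.2.2.2.2.2.2.2.2.1.imp (fun h4 => (le_of_mul_le_mul_left (by linarith only [h4]) (pow_pos hN 1)))
      (fun h4 => (le_of_mul_le_mul_left (by linarith only [h4]) (pow_pos hN 1)))),
    (h.2.2.2.2.2.2.2.2.2.2.2.1.imp (fun h5 => ⟨(le_of_mul_le_mul_left (by linarith only [h5.1]) (pow_pos hN 1)),
        (le_of_mul_le_mul_left (by linarith only [h5.2]) (pow_pos hN 4))⟩)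
      (fun h5 => (h5.imp (fun h6 => ⟨(le_of_mul_le_mul_left (by linarith only [h6.1]) (pow_pos hN 1)),
          (le_of_mul_le_mul_left (by linarith only [h6.2]) (pow_pos hN 5))⟩)
        (fun h6 => (le_of_mul_le_mul_left (by linarith only [h6]) (pow_pos hN 1)))))),
    ⟨(le_of_mul_le_mul_left (by linarith only [h.2.2.2.2.2.2.2.2.2.2.2.2.1.1]) (pow_pos hN 1)),
      (le_of_mul_le_mul_left (by linarith only [h.2.2.2.2.2.2.2.2.2.2.2.2.1.2.1]) (pow_pos hN 1)),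
      (h.2.2.2.2.2.2.2.2.2.2.2.2.1.2.2.imp (fun h7 => (le_of_mul_le_mul_left (by linarith only [h7]) (pow_pos hN 1)))
        (fun h7 => (h7.imp (fun h8 => (le_of_mul_le_mul_left (by linarith only [h8]) (pow_pos hN 1)))
          (fun h8 => ⟨(le_of_mul_le_mul_left (by linarith only [h8.1]) (pow_pos hN 1)),
            (le_of_mul_le_mul_left (by linarith only [h8.2.1]) (pow_pos hN 1)),
            (le_of_mul_le_mul_left (by linarith only [h8.2.2.1]) (pow_pos hN 2)),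
            (le_of_mul_le_mul_left (by linarith only [h8.2.2.2]) (pow_pos hN 4))⟩))))⟩,
    ⟨(le_of_mul_le_mul_left (by linarith only [h.2.2.2.2.2.2.2.2.2.2.2.2.2.1.1]) (pow_pos hN 1)),
      (le_of_mul_le_mul_left (by linarith only [h.2.2.2.2.2.2.2.2.2.2.2.2.2.1.2.1]) (pow_pos hN 1)),
      (le_of_mul_le_mul_left (by linarith only [h.2.2.2.2.2.2.2.2.2.2.2.2.2.1.2.2.1]) (pow_pos hN 1)),
      (le_of_mul_le_mul_left (by linarith only [h.2.2.2.2.2.2.2.2.2.2.2.2.2.1.2.2.2]) (pow_pos hN 4))⟩,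
    (le_of_mul_le_mul_left (by linarith only [h.2.2.2.2.2.2.2.2.2.2.2.2.2.2.1]) (pow_pos hN 2)),
    (lt_of_mul_lt_mul_left (by linarith only [h.2.2.2.2.2.2.2.2.2.2.2.2.2.2.2.1]) (pow_pos hN 2).le),
    (le_of_mul_le_mul_left (by linarith only [h.2.2.2.2.2.2.2.2.2.2.2.2.2.2.2.2]) (pow_pos hN 4))⟩

theorem OkC_sm (hN : 0 < N) (h : OkC N (b.sm N) (l.sm N)) : OkC 1 b l := by
  unfold OkC PWc Cc Lc at h ⊢
  unfold Bx.sm Lf.sm at h
  dsimp only at h
  exact ⟨(le_of_mul_le_mul_left (by linarith only [h.1]) (pow_pos hN 4)),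
    (h.2.1.imp (fun h1 => (le_of_mul_le_mul_left (by linarith only [h1]) (pow_pos hN 1)))
      (fun h1 => (le_of_mul_le_mul_left (by linarith only [h1]) (pow_pos hN 2)))),
    (h.2.2.1.imp (fun h2 => ⟨(le_of_mul_le_mul_left (by linarith only [h2.1]) (pow_pos hN 1)),
        (le_of_mul_le_mul_left (by linarith only [h2.2]) (pow_pos hN 4))⟩)
      (fun h2 => (h2.imp (fun h3 => ⟨(le_of_mul_le_mul_left (by linarith only [h3.1]) (pow_pos hN 1)),
          (le_of_mul_le_mul_left (by linarith only [h3.2]) (pow_pos hN 5))⟩)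
        (fun h3 => (le_of_mul_le_mul_left (by linarith only [h3]) (pow_pos hN 1)))))),
    ⟨(le_of_mul_le_mul_left (by linarith only [h.2.2.2.1.1]) (pow_pos hN 1)),
      (le_of_mul_le_mul_left (by linarith only [h.2.2.2.1.2.1]) (pow_pos hN 1)),
      (h.2.2.2.1.2.2.imp (fun h4 => (le_of_mul_le_mul_left (by linarith only [h4]) (pow_pos hN 1)))
        (fun h4 => (h4.imp (fun h5 => (le_of_mul_le_mul_left (by linarith only [h5]) (pow_pos hN 1)))
          (fun h5 => ⟨(le_of_mul_le_mul_left (by linarith only [h5.1]) (pow_pos hN 1)),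
            (le_of_mul_le_mul_left (by linarith only [h5.2.1]) (pow_pos hN 1)),
            (le_of_mul_le_mul_left (by linarith only [h5.2.2.1]) (pow_pos hN 3)),
            (le_of_mul_le_mul_left (by linarith only [h5.2.2.2]) (pow_pos hN 4))⟩))))⟩,
    ⟨(le_of_mul_le_mul_left (by linarith only [h.2.2.2.2.1.1]) (pow_pos hN 1)),
      (le_of_mul_le_mul_left (by linarith only [h.2.2.2.2.1.2.1]) (pow_pos hN 1)),
      (le_of_mul_le_mul_left (by linarith only [h.2.2.2.2.1.2.2.1]) (pow_pos hN 1)),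
      (le_of_mul_le_mul_left (by linarith only [h.2.2.2.2.1.2.2.2]) (pow_pos hN 4))⟩,
    (lt_of_mul_lt_mul_left (by linarith only [h.2.2.2.2.2.1]) (pow_pos hN 2).le),
    ⟨(lt_of_mul_lt_mul_left (by linarith only [h.2.2.2.2.2.2.1.1]) (pow_pos hN 1).le),
      (le_of_mul_le_mul_left (by linarith only [h.2.2.2.2.2.2.1.2]) (pow_pos hN 2))⟩,
    (h.2.2.2.2.2.2.2.1.imp (fun h6 => ⟨(le_of_mul_le_mul_left (by linarith only [h6.1]) (pow_pos hN 1)),
        (le_of_mul_le_mul_left (by linarith only [h6.2]) (pow_pos hN 3))⟩)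
      (fun h6 => ⟨(le_of_mul_le_mul_left (by linarith only [h6.1]) (pow_pos hN 1)),
        (le_of_mul_le_mul_left (by linarith only [h6.2]) (pow_pos hN 4))⟩)),
    (h.2.2.2.2.2.2.2.2.1.imp (fun h7 => ⟨(le_of_mul_le_mul_left (by linarith only [h7.1]) (pow_pos hN 1)),
        (le_of_mul_le_mul_left (by linarith only [h7.2]) (pow_pos hN 2))⟩)
      (fun h7 => ⟨(le_of_mul_le_mul_left (by linarith only [h7.1]) (pow_pos hN 1)),
        (le_of_mul_le_mul_left (by linarith only [h7.2]) (pow_pos hN 3))⟩)),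
    (le_of_mul_le_mul_left (by linarith only [h.2.2.2.2.2.2.2.2.2]) (pow_pos hN 4))⟩

theorem OkD_sm (hN : 0 < N) (h : OkD N (b.sm N) (l.sm N)) : OkD 1 b l := by
  unfold OkD at h ⊢
  unfold Bx.sm Lf.sm at h
  dsimp only at h
  exact ⟨⟨(lt_of_mul_lt_mul_left (by linarith only [h.1.1]) (pow_pos hN 1).le),
      (le_of_mul_le_mul_left (by linarith only [h.1.2]) (pow_pos hN 1))⟩,
    (le_of_mul_le_mul_left (by linarith only [h.2.1]) (pow_pos hN 3)),
    (le_of_mul_le_mul_left (by linarith only [h.2.2.1]) (pow_pos hN 3)),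
    (le_of_mul_le_mul_left (by linarith only [h.2.2.2.1]) (pow_pos hN 2)),
    (h.2.2.2.2.1.imp (fun h1 => ⟨(le_of_mul_le_mul_left (by linarith only [h1.1]) (pow_pos hN 4)),
        (le_of_mul_le_mul_left (by linarith only [h1.2.1]) (pow_pos hN 1)),
        (le_of_mul_le_mul_left (by linarith only [h1.2.2]) (pow_pos hN 4))⟩)
      (fun h1 => (le_of_mul_le_mul_left (by linarith only [h1]) (pow_pos hN 1)))),
    ⟨(le_of_mul_le_mul_left (by linarith only [h.2.2.2.2.2.1.1]) (pow_pos hN 1)),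
      (le_of_mul_le_mul_left (by linarith only [h.2.2.2.2.2.1.2.1]) (pow_pos hN 2)),
      (le_of_mul_le_mul_left (by linarith only [h.2.2.2.2.2.1.2.2]) (pow_pos hN 4))⟩,
    ⟨(lt_of_mul_lt_mul_left (by linarith only [h.2.2.2.2.2.2.1.1]) (pow_pos hN 1).le),
      (le_of_mul_le_mul_left (by linarith only [h.2.2.2.2.2.2.1.2.1]) (pow_pos hN 1)),
      (le_of_mul_le_mul_left (by linarith only [h.2.2.2.2.2.2.1.2.2.1]) (pow_pos hN 1)),
      (le_of_mul_le_mul_left (by linarith only [h.2.2.2.2.2.2.1.2.2.2]) (pow_pos hN 1))⟩,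
    ⟨(le_of_mul_le_mul_left (by linarith only [h.2.2.2.2.2.2.2.1.1]) (pow_pos hN 1)),
      (le_of_mul_le_mul_left (by linarith only [h.2.2.2.2.2.2.2.1.2]) (pow_pos hN 2))⟩,
    (le_of_mul_le_mul_left (by linarith only [h.2.2.2.2.2.2.2.2.1]) (pow_pos hN 3)),
    ⟨(lt_of_mul_lt_mul_left (by linarith only [h.2.2.2.2.2.2.2.2.2.1.1]) (pow_pos hN 1).le),
      (le_of_mul_le_mul_left (by linarith only [h.2.2.2.2.2.2.2.2.2.1.2]) (pow_pos hN 4))⟩,
    ⟨(le_of_mul_le_mul_left (by linarith only [h.2.2.2.2.2.2.2.2.2.2.1.1]) (pow_pos hN 1)),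
      (lt_of_mul_lt_mul_left (by linarith only [h.2.2.2.2.2.2.2.2.2.2.1.2]) (pow_pos hN 1).le)⟩,
    (h.2.2.2.2.2.2.2.2.2.2.2.1.imp (fun h2 => (le_of_mul_le_mul_left (by linarith only [h2]) (pow_pos hN 2)))
      (fun h2 => (le_of_mul_le_mul_left (by linarith only [h2]) (pow_pos hN 1)))),
    ⟨(lt_of_mul_lt_mul_left (by linarith only [h.2.2.2.2.2.2.2.2.2.2.2.2.1.1]) (pow_pos hN 1).le),
      (le_of_mul_le_mul_left (by linarith only [h.2.2.2.2.2.2.2.2.2.2.2.2.1.2.1]) (pow_pos hN 1)),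
      (le_of_mul_le_mul_left (by linarith only [h.2.2.2.2.2.2.2.2.2.2.2.2.1.2.2.1]) (pow_pos hN 4)),
      (le_of_mul_le_mul_left (by linarith only [h.2.2.2.2.2.2.2.2.2.2.2.2.1.2.2.2]) (pow_pos hN 4))⟩,
    ⟨(le_of_mul_le_mul_left (by linarith only [h.2.2.2.2.2.2.2.2.2.2.2.2.2.1.1]) (pow_pos hN 1)),
      (le_of_mul_le_mul_left (by linarith only [h.2.2.2.2.2.2.2.2.2.2.2.2.2.1.2]) (pow_pos hN 3))⟩,
    (le_of_mul_le_mul_left (by linarith only [h.2.2.2.2.2.2.2.2.2.2.2.2.2.2.1]) (pow_pos hN 3)),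
    (le_of_mul_le_mul_left (by linarith only [h.2.2.2.2.2.2.2.2.2.2.2.2.2.2.2.1]) (pow_pos hN 3)),
    (le_of_mul_le_mul_left (by linarith only [h.2.2.2.2.2.2.2.2.2.2.2.2.2.2.2.2.1]) (pow_pos hN 3)),
    ⟨(le_of_mul_le_mul_left (by linarith only [h.2.2.2.2.2.2.2.2.2.2.2.2.2.2.2.2.2.1.1]) (pow_pos hN 1)),
      (le_of_mul_le_mul_left (by linarith only [h.2.2.2.2.2.2.2.2.2.2.2.2.2.2.2.2.2.1.2]) (pow_pos hN 3))⟩,
    (le_of_mul_le_mul_left (by linarith only [h.2.2.2.2.2.2.2.2.2.2.2.2.2.2.2.2.2.2.1]) (pow_pos hN 8)),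
    ⟨(le_of_mul_le_mul_left (by linarith only [h.2.2.2.2.2.2.2.2.2.2.2.2.2.2.2.2.2.2.2.1]) (pow_pos hN 1)),
      (le_of_mul_le_mul_left (by linarith only [h.2.2.2.2.2.2.2.2.2.2.2.2.2.2.2.2.2.2.2.2]) (pow_pos hN 6))⟩⟩

theorem OkT_sm (hN : 0 < N) (h : OkT N f3 (l.sm N)) : OkT 1 f3 l := by
  unfold OkT at h ⊢
  unfold Lf.sm at h
  dsimp only at h
  exact ⟨(le_of_mul_le_mul_left (by linarith only [h.1]) (pow_pos hN 1)),
    (le_of_mul_le_mul_left (by linarith only [h.2.1]) (pow_pos hN 1)),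
    (le_of_mul_le_mul_left (by linarith only [h.2.2]) (pow_pos hN 1))⟩

theorem EOk_sm (hN : 0 < N) (h : EOk N (vc * N) (b.sm N) (v0 * N)) : EOk 1 vc b v0 := by
  unfold EOk Vc hq gq at h ⊢
  unfold Bx.sm at h
  dsimp only at h
  exact (h.imp (fun h1 => (lt_of_mul_lt_mul_left (by linarith only [h1]) (pow_pos hN 2).le))
    (fun h1 => (h1.imp (fun h2 => (lt_of_mul_lt_mul_left (by linarith only [h2]) (pow_pos hN 4).le))
      (fun h2 => (h2.imp (fun h3 => ⟨(lt_of_mul_lt_mul_left (by linarith only [h3.1]) (pow_pos hN 6).le),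
          (lt_of_mul_lt_mul_left (by linarith only [h3.2.1]) (pow_pos hN 6).le),
          (lt_of_mul_lt_mul_left (by linarith only [h3.2.2.1]) (pow_pos hN 6).le),
          (lt_of_mul_lt_mul_left (by linarith only [h3.2.2.2]) (pow_pos hN 6).le)⟩)
        (fun h3 => ⟨(h3.1.imp (fun h4 => (le_of_mul_le_mul_left (by linarith only [h4]) (pow_pos hN 1)))
            (fun h4 => (h4.imp (fun h5 => (le_of_mul_le_mul_left (by linarith only [h5]) (pow_pos hN 3)))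
              (fun h5 => (le_of_mul_le_mul_left (by linarith only [h5]) (pow_pos hN 1)))))),
          (h3.2.imp (fun h6 => (lt_of_mul_lt_mul_left (by linarith only [h6]) (pow_pos hN 2).le))
            (fun h6 => (h6.imp (fun h7 => (lt_of_mul_lt_mul_left (by linarith only [h7]) (pow_pos hN 2).le))
              (fun h7 => ⟨(lt_of_mul_lt_mul_left (by linarith only [h7.1]) (pow_pos hN 8).le),
                (lt_of_mul_lt_mul_left (by linarith only [h7.2.1]) (pow_pos hN 8).le),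
                (lt_of_mul_lt_mul_left (by linarith only [h7.2.2.1]) (pow_pos hN 8).le),
                (lt_of_mul_lt_mul_left (by linarith only [h7.2.2.2]) (pow_pos hN 8).le)⟩))))⟩))))))

theorem COk_sm (hN : 0 < N) (h : COk N (b.sm N)) : COk 1 b := by
  unfold COk at h ⊢
  unfold Bx.sm at h
  dsimp only at h
  exact ⟨(le_of_mul_le_mul_left (by linarith only [h.1]) (pow_pos hN 1)),
    (le_of_mul_le_mul_left (by linarith only [h.2]) (pow_pos hN 4))⟩

end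

end Pool.Agent.helper4.EQW4
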