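import Pool.Agent.helper4.EQW4.Box4B

/-!
# EQW4: meaning of the fourth block of inequalities
-/

namespace Pool.Agent.helper4.EQW4

open Complex
open Pool.Agent.helper4.EQW

/-- monotonicity of `(C² - x² + n)(1 + n)/(C n)` -/
theorem rY_mono {ρ c0 C xb x nb n Cu : ℝ} (hρ : 0 ≤ ρ) (hc01 : 1 ≤ c0) (hcC : c0 ≤ C) (hcu : c0 ≤ Cu)
    (hx0 : 0 ≤ x) (hx : x ≤ xb) (hn0 : 0 < n) (hn : n ≤ nb) (hn1 : n ≤ 1)
    (ha : nb ^ 2 ≤ c0 ^ 2 - xb ^ 2)
    (h : ρ * 4 * Cu * nb ≤ (c0 ^ 2 - xb ^ 2 + nb) * (1 + nb)) :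
    ρ * (4 * C * n) ≤ (C ^ 2 - x ^ 2 + n) * (1 + n) := by
  have hnb : 0 < nb := hn0.trans_le hn
  have hc0 : 0 < c0 := by linarith
  have hC0 : 0 < C := hc0.trans_le hcC
  -- step 1
  have h1 : ρ * 4 * c0 * nb ≤ (c0 ^ 2 - xb ^ 2 + nb) * (1 + nb) := by
    refine le_trans ?_ h
    apply mul_le_mul_of_nonneg_right _ hnb.le
    exact mul_le_mul_of_nonneg_left hcu (by positivity)
  set α := c0 ^ 2 - xb ^ 2 with hα
  have h2 : ρ * 4 * c0 * n ≤ (α + n) * (1 + n) := by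
    have e1 : (α + nb) * (1 + nb) * n ≤ (α + n) * (1 + n) * nb := by
      have : 0 ≤ (nb - n) * (α - n * nb) := by
        apply mul_nonneg (by linarith)
        nlinarith
      linarith
    have e2 : ρ * 4 * c0 * n * nb ≤ (α + n) * (1 + n) * nb := by
      have := mul_le_mul_of_nonneg_right h1 hn0.le
      linarith
    exact le_of_mul_le_mul_right e2 hnb
  -- step 2
  have h3 : ρ * 4 * C * n ≤ (C ^ 2 - xb ^ 2 + n) * (1 + n) := by
    have e1 : (α + n) * C ≤ (C ^ 2 - xb ^ 2 + n) * c0 := by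
      have : 0 ≤ (C - c0) * (C * c0 + (xb ^ 2 - n)) := by
        apply mul_nonneg (by linarith)
        have : n ≤ C * c0 := by
          have h5 : 1 * 1 ≤ C * c0 := mul_le_mul (hc01.trans hcC) hc01 (by norm_num) hC0.le
          linarith
        nlinarith [sq_nonneg xb]
      rw [hα]
      linarith
    have e2 : ρ * 4 * C * n * c0 ≤ (C ^ 2 - xb ^ 2 + n) * (1 + n) * c0 := by
      calc ρ * 4 * C * n * c0 = C * (ρ * 4 * c0 * n) := by ring
        _ ≤ C * ((α + n) * (1 + n)) := mul_le_mul_of_nonneg_left h2 hC0.le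
        _ = (α + n) * C * (1 + n) := by ring
        _ ≤ (C ^ 2 - xb ^ 2 + n) * c0 * (1 + n) := mul_le_mul_of_nonneg_right e1 (by linarith)
        _ = _ := by ring
    exact le_of_mul_le_mul_right e2 hc0
  have h4 : x ^ 2 ≤ xb ^ 2 := pow_le_pow_left₀ hx0 hx 2
  calc ρ * (4 * C * n) = ρ * 4 * C * n := by ring
    _ ≤ (C ^ 2 - xb ^ 2 + n) * (1 + n) := h3
    _ ≤ (C ^ 2 - x ^ 2 + n) * (1 + n) := mul_le_mul_of_nonneg_right (by linarith) (by linarith)

/-- monotonicity of `(3C² + x² - n)(1 + 1/q)/(4C)` -/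
theorem rW_mono {ρ c0 C r r' q q1 Cu : ℝ} (hρ : 0 ≤ ρ) (hc0 : 0 < c0) (hcC : c0 ≤ C) (hcu : c0 ≤ Cu)
    (hr : r ≤ r') (hrC : r ≤ 3 * C * c0) (hq0 : 0 < q) (hq : q ≤ q1)
    (hb : 0 ≤ 3 * c0 ^ 2 + r)
    (h : ρ * 4 * Cu * q1 ≤ (3 * c0 ^ 2 + r) * (1 + q1)) :
    ρ * (4 * C * q) ≤ (3 * C ^ 2 + r') * (1 + q) := by
  have hq1 : 0 < q1 := hq0.trans_le hq
  have hC0 : 0 < C := hc0.trans_le hcC
  have h1 : ρ * 4 * c0 * q1 ≤ (3 * c0 ^ 2 + r) * (1 + q1) := by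
    refine le_trans ?_ h
    apply mul_le_mul_of_nonneg_right _ hq1.le
    exact mul_le_mul_of_nonneg_left hcu (by positivity)
  have h2 : ρ * 4 * c0 * q ≤ (3 * c0 ^ 2 + r) * (1 + q) := by
    have e1 : (1 + q1) * q ≤ (1 + q) * q1 := by linarith
    have e2 : ρ * 4 * c0 * q * q1 ≤ (3 * c0 ^ 2 + r) * (1 + q) * q1 := by
      calc ρ * 4 * c0 * q * q1 = ρ * 4 * c0 * q1 * q := by ring
        _ ≤ (3 * c0 ^ 2 + r) * (1 + q1) * q := mul_le_mul_of_nonneg_right h1 hq0.le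
        _ = (3 * c0 ^ 2 + r) * ((1 + q1) * q) := by ring
        _ ≤ (3 * c0 ^ 2 + r) * ((1 + q) * q1) := mul_le_mul_of_nonneg_left e1 hb
        _ = _ := by ring
    exact le_of_mul_le_mul_right e2 hq1
  have e1 : (3 * c0 ^ 2 + r) * C ≤ (3 * C ^ 2 + r) * c0 := by
    have : 0 ≤ (C - c0) * (3 * C * c0 - r) := mul_nonneg (by linarith) (by linarith)
    linarith
  have e2 : ρ * 4 * C * q * c0 ≤ (3 * C ^ 2 + r) * (1 + q) * c0 := by
    calc ρ * 4 * C * q * c0 = C * (ρ * 4 * c0 * q) := by ring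
      _ ≤ C * ((3 * c0 ^ 2 + r) * (1 + q)) := mul_le_mul_of_nonneg_left h2 hC0.le
      _ = (3 * c0 ^ 2 + r) * C * (1 + q) := by ring
      _ ≤ (3 * C ^ 2 + r) * c0 * (1 + q) := mul_le_mul_of_nonneg_right e1 (by linarith)
      _ = _ := by ring
  have h3 := le_of_mul_le_mul_right e2 hc0
  calc ρ * (4 * C * q) = ρ * 4 * C * q := by ring
    _ ≤ (3 * C ^ 2 + r) * (1 + q) := h3
    _ ≤ (3 * C ^ 2 + r') * (1 + q) := mul_le_mul_of_nonneg_right (by linarith) (by linarith)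

variable {e κ : ℝ} {P : ℂ} {s U v A B x o p : ℝ} {b : Bx ℝ} {l : Lf ℝ}

theorem num2_of (he : 2 ≤ e) (he4 : e ≤ 4) (hκ : 0 < κ)
    (F : Facts κ P s U v A B x o p)
    (F2 : Facts2 κ P s v x p) (X : Aux4 e κ s U v A B x o p (KK e κ) (Real.exp (-κ)))
    (hI : InB b e (Real.sinh κ) x p) (hD : Dom b)
    (Z : BndA b l (Real.cosh κ) v x p (Real.exp (-κ)) A (KK e κ) o)
    (hde : 0 ≤ l.de) (heta : 0 ≤ l.eta) (hW1 : 1 ≤ l.W)
    (hh : OkD 1 b l) :
    Num2 e κ s v x o p (KK e κ) (Real.sinh κ) l.de l.eta l.W l.pY l.m0 l.dm l.dW l.rY l.rW l.Rr l.tb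
      l.Pm l.lb l.qq l.Pk l.M l.T2 := by
  unfold OkD at hh
  simp only [mul_one, one_pow] at hh
  obtain ⟨⟨d1, d1'⟩, d2, d3, d4, d5, ⟨d6, d6', d6''⟩, ⟨d7, d7a, d7b, d7c⟩, ⟨d8, d8'⟩, d9, ⟨d10, d10'⟩,
    ⟨d11, d11'⟩, d12, ⟨d13, d13a, d13b, d13c⟩, ⟨d14, d14'⟩, d15, d16, d17, ⟨d18, d18'⟩, d19,
    ⟨d20, d20'⟩⟩ := hh
  have hS : 0 < Real.sinh κ := Real.sinh_pos_iff.2 hκ
  have hC1 := Real.one_le_cosh κ
  have hCs : Real.cosh κ ^ 2 = 1 + s := by rw [F.s_def, Real.cosh_sq]; ring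
  have hK0 := X.K_pos
  have hv0 := X.v_nn
  have ho0 := X.o_nn
  have hx0 := X.x_nn
  have hp0 := X.p_pos
  have hp1 := X.p_le
  have zv := Z.hv
  have zo := Z.ho
  have zx := Z.hx
  have zp := Z.hp
  have zpl := Z.hpl
  have zvn := Z.hvn
  have zon := Z.hon
  have zxn := Z.hxn
  have zpn := Z.hpn
  have zplp := Z.hplp
  have zC0 := Z.hC0
  have he0 := hD.e0
  have he1 := hD.e1
  have ie0 := hI.e0
  have ie1 := hI.e1
  set C := Real.cosh κ with hCd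
  have hC0p : 0 < C := by linarith
  have hS0 : b.S0 ^ 2 ≤ s := by
    rw [F.s_def]
    exact pow_le_pow_left₀ hD.S0 hI.S0 2
  have hS1 : s ≤ b.S1 ^ 2 := by
    rw [F.s_def]
    exact pow_le_pow_left₀ hS.le hI.S1 2
  have hsp := F.s_pos
  have hx2 : b.x0 ^ 2 ≤ x ^ 2 := pow_le_pow_left₀ hD.x0 hI.x0 2
  have hxb2 : x ^ 2 ≤ l.xb ^ 2 := pow_le_pow_left₀ hx0 zx 2
  have hp2 : p ^ 2 ≤ l.pb ^ 2 := pow_le_pow_left₀ hp0.le zp 2
  have hpl2 : l.pl ^ 2 ≤ p ^ 2 := pow_le_pow_left₀ zplp.le zpl 2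
  have hpsq1 : p ^ 2 ≤ 1 := pow_le_one₀ hp0.le hp1
  -- c0 = sqrt(1 + S0²)
  set c0 := Real.sqrt (1 + b.S0 ^ 2) with hc0
  have hc0sq : c0 ^ 2 = 1 + b.S0 ^ 2 := Real.sq_sqrt (by positivity)
  have hc01 : 1 ≤ c0 := by
    apply le_of_sq_le_sq _ (Real.sqrt_nonneg _)
    rw [hc0sq]
    linarith only [sq_nonneg b.S0]
  have hc00 : 0 < c0 := by linarith
  have hcC : c0 ≤ C := by
    apply le_of_sq_le_sq _ hC0p.le
    rw [hc0sq, hCs]
    linarith
  have hcu : c0 ≤ l.Cu := by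
    apply le_of_sq_le_sq _ Z.hCup.le
    rw [hc0sq]
    exact Z.hCu
  have hC3 : C ≤ 3 := by
    apply le_of_sq_le_sq _ (by norm_num)
    rw [hCs]
    have := hD.S1
    have h1 : b.S1 ^ 2 ≤ (9 / 4) ^ 2 := pow_le_pow_left₀ (hS.le.trans hI.S1) this 2
    linarith
  have hm2 : 0 ≤ 1 / l.m0 := by positivity
  have hm3 : 1 / l.m0 ≤ l.yb := by
    rw [div_le_iff₀ d7]
    exact d8'
  have hm4 : 1 / l.m0 ^ 2 ≤ l.yb ^ 2 := by
    have e1 : 1 / l.m0 ^ 2 = (1 / l.m0) ^ 2 := by ring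
    rw [e1]
    exact pow_le_pow_left₀ hm2 hm3 2
  have hRr0 : 0 ≤ l.Rr := by
    have h1 : 0 ≤ 2 * l.pY * l.Rr := le_trans (by positivity) d4
    exact nonneg_of_mul_nonneg_right h1 (by positivity)
  have htk : 1 - 1 / C ^ 2 ≤ l.tk := by
    have e1 : 1 - 1 / C ^ 2 = s / (1 + s) := by
      rw [hCs]
      field_simp
      ring
    rw [e1, div_le_iff₀ (by linarith)]
    have h1 : 0 < 1 + b.S1 ^ 2 := by positivity
    have h2 : s * (1 + b.S1 ^ 2) ≤ b.S1 ^ 2 * (1 + s) := by linarith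
    have h3 : b.S1 ^ 2 * (1 + s) ≤ l.tk * (1 + b.S1 ^ 2) * (1 + s) :=
      mul_le_mul_of_nonneg_right d9 (by linarith)
    have h4 : s * (1 + b.S1 ^ 2) ≤ l.tk * (1 + s) * (1 + b.S1 ^ 2) := by linarith
    exact le_of_mul_le_mul_right h4 h1
  have htk0 : 0 ≤ 1 - 1 / C ^ 2 := by
    have : 1 / C ^ 2 ≤ 1 := by
      rw [div_le_one (by positivity)]
      exact one_le_pow₀ hC1
    linarith
  have htkn : 0 ≤ l.tk := htk0.trans htk
  -- cc
  have ec1 : cc (e / 2) 1 = e * (e - 2) / 8 := by rw [cc_one]; ring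
  have ec2 : cc (e / 2) 2 = e / 2 * ((e - 2) * (4 - e) * (6 - e) / 192) := by rw [cc_two]; ring
  have ek : e / 2 - 1 - cc (e / 2) 1 = (e - 2) * (4 - e) / 8 := by rw [ec1]; ring
  set γ := (e - 2) * (4 - e) * (6 - e) / 192 with hγ
  have hγ0 : 0 ≤ γ := by
    rw [hγ]
    apply div_nonneg _ (by norm_num)
    exact mul_nonneg (mul_nonneg (by linarith) (by linarith)) (by linarith)
  have hγ1 : γ ≤ l.c2b := by
    have h1 : (e - 2) * (4 - e) ≤ (b.e1 - 2) * (4 - b.e0) :=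
      mul_le_mul (by linarith) (by linarith) (by linarith) (by linarith)
    have h2 : (e - 2) * (4 - e) * (6 - e) ≤ (b.e1 - 2) * (4 - b.e0) * (6 - b.e0) := by
      apply mul_le_mul h1 (by linarith) (by linarith)
      exact mul_nonneg (by linarith) (by linarith)
    rw [hγ, div_le_iff₀ (by norm_num)]
    linarith
  have hkk : (e - 2) * (4 - e) / 8 ≤ l.kkb := by
    rcases d12 with h | h
    · have h1 : (e - 2) * (4 - e) ≤ (b.e1 - 2) * (4 - b.e0) :=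
        mul_le_mul (by linarith) (by linarith) (by linarith) (by linarith)
      linarith
    · have : (e - 2) * (4 - e) ≤ 1 := by linarith only [sq_nonneg (e - 3)]
      linarith
  have hkk0 : 0 ≤ (e - 2) * (4 - e) / 8 := by
    apply div_nonneg _ (by norm_num)
    exact mul_nonneg (by linarith) (by linarith)
  have htb1 : 0 < 1 - l.tb := by linarith
  have hlb0 : 0 ≤ l.lb := by
    have h1 : 0 ≤ 4 * l.lb * l.Pm * (1 - l.tb) := by
      refine le_trans ?_ d15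
      have : 0 ≤ (b.e1 - 2) * (1 - l.tb) := mul_nonneg (by linarith) htb1.le
      have : 0 ≤ 8 * l.c2b * l.tb := by positivity
      linarith
    have h2 : 0 ≤ 4 * l.lb * l.Pm := nonneg_of_mul_nonneg_left h1 htb1
    have h3 : 0 ≤ 4 * l.lb := nonneg_of_mul_nonneg_left h2 d13
    linarith
  have hqq0 : 0 ≤ l.qq := by
    have h1 : 0 ≤ l.qq * l.Pm * (1 - l.tb) := le_trans (by positivity) d16
    have h2 : 0 ≤ l.qq * l.Pm := nonneg_of_mul_nonneg_left h1 htb1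
    exact nonneg_of_mul_nonneg_left h2 d13
  have hyb0 := d8
  have e10 : 0 < e := by linarith
  have hM : (1 + (l.Pk / l.Pm - 1) / (e / 2)) *
      (1 + 5 / l.m0 ^ 2 * l.lb + 2 / l.m0 ^ 4 * ((1 + e / 2) * l.lb ^ 2 + l.qq)) ≤ l.M := by
    refine le_trans ?_ d19
    have h1 : 1 + (l.Pk / l.Pm - 1) / (e / 2) ≤ l.ps := by
      have h2 : l.Pk / l.Pm ≤ 1 + b.e0 * (l.ps - 1) / 2 := by
        rw [div_le_iff₀ d13]
        linarith
      have h3 : b.e0 * (l.ps - 1) ≤ e * (l.ps - 1) := mul_le_mul_of_nonneg_right ie0 (by linarith)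
      have h4 : (l.Pk / l.Pm - 1) / (e / 2) ≤ l.ps - 1 := by
        rw [div_le_iff₀ (by positivity)]
        linarith
      linarith
    have h5 : 5 / l.m0 ^ 2 * l.lb ≤ 5 * l.yb ^ 2 * l.lb := by
      apply mul_le_mul_of_nonneg_right _ hlb0
      have e1 : 5 / l.m0 ^ 2 = 5 * (1 / l.m0 ^ 2) := by ring
      rw [e1]
      linarith
    have h6 : 2 / l.m0 ^ 4 * ((1 + e / 2) * l.lb ^ 2 + l.qq) ≤
        l.yb ^ 4 * ((2 + b.e1) * l.lb ^ 2 + 2 * l.qq) := by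
      have e1 : 2 / l.m0 ^ 4 * ((1 + e / 2) * l.lb ^ 2 + l.qq) =
          (1 / l.m0) ^ 4 * ((2 + e) * l.lb ^ 2 + 2 * l.qq) := by ring
      rw [e1]
      apply mul_le_mul (pow_le_pow_left₀ hm2 hm3 4) _ (by positivity) (by positivity)
      have : (2 + e) * l.lb ^ 2 ≤ (2 + b.e1) * l.lb ^ 2 :=
        mul_le_mul_of_nonneg_right (by linarith) (sq_nonneg _)
      linarith
    have h7 : 0 ≤ 1 + 5 / l.m0 ^ 2 * l.lb + 2 / l.m0 ^ 4 * ((1 + e / 2) * l.lb ^ 2 + l.qq) := by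
      positivity
    calc (1 + (l.Pk / l.Pm - 1) / (e / 2)) *
        (1 + 5 / l.m0 ^ 2 * l.lb + 2 / l.m0 ^ 4 * ((1 + e / 2) * l.lb ^ 2 + l.qq)) ≤
        l.ps * (1 + 5 / l.m0 ^ 2 * l.lb + 2 / l.m0 ^ 4 * ((1 + e / 2) * l.lb ^ 2 + l.qq)) :=
          mul_le_mul_of_nonneg_right h1 h7
      _ ≤ l.ps * (1 + 5 * l.yb ^ 2 * l.lb + l.yb ^ 4 * ((2 + b.e1) * l.lb ^ 2 + 2 * l.qq)) := by
          apply mul_le_mul_of_nonneg_left _ (by linarith)
          linarith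
  have hPk0 : 0 ≤ l.Pk := by
    have h1 : 0 ≤ b.e1 * (b.e1 - 2) * l.tk := by
      apply mul_nonneg (mul_nonneg (by linarith) (by linarith)) htkn
    have h2 : 0 ≤ 8 * l.kkb * l.tk ^ 2 := by positivity
    linarith
  have hM0 : 0 ≤ l.M := by
    refine le_trans ?_ d19
    have h1 : 0 ≤ l.ps := by linarith
    have h2 : 0 ≤ 2 + b.e1 := by linarith
    positivity
  refine ⟨d1, by linarith, hW1, d7, d7a.trans zC0, d7b, d7c, ?_, ?_, d3, ?_, ?_, ?_, d11', d13, ?_,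
    ?_, ?_, ?_, hM0, hM, ?_⟩
  · -- dm
    have hdm0 : 0 ≤ l.dm := by
      have h1 : 0 ≤ 2 * l.dm * l.pl * l.pY := le_trans (by positivity) d2
      have h2 : 0 ≤ 2 * l.dm * l.pl := nonneg_of_mul_nonneg_left h1 d1
      have h3 : 0 ≤ 2 * l.dm := nonneg_of_mul_nonneg_left h2 zplp
      linarith
    have h1 : l.de * (l.ob * (1 + p) + l.de) * l.pl ≤ l.dm * (2 * p * l.pY) * l.pl := by
      have h2 : l.de * (l.ob * (1 + l.pl) + l.de) * p ≤ 2 * l.dm * l.pl * l.pY * p :=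
        mul_le_mul_of_nonneg_right d2 hp0.le
      have h3 : 0 ≤ l.de * (l.ob + l.de) * (p - l.pl) := by
        apply mul_nonneg (by positivity)
        linarith
      linarith only [h2, h3]
    have h4 : l.de * (o * (1 + p) + l.de) ≤ l.de * (l.ob * (1 + p) + l.de) := by
      apply mul_le_mul_of_nonneg_left _ hde
      have : o * (1 + p) ≤ l.ob * (1 + p) := mul_le_mul_of_nonneg_right zo (by linarith)
      linarith
    exact h4.trans (le_of_mul_le_mul_right h1 zplp)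
  · -- rY
    rcases d5 with ⟨h1, h2, h3⟩ | h
    · left
      have h4 := rY_mono (ρ := l.rY + l.dm) (c0 := c0) (C := C) (xb := l.xb) (x := x)
        (nb := l.pb ^ 2) (n := p ^ 2) (Cu := l.Cu) h2 hc01 hcC hcu hx0 zx (by positivity) hp2 hpsq1
        (by rw [hc0sq]; linarith) (by rw [hc0sq]; linarith)
      rw [hCs] at h4
      exact h4
    · right
      linarith
  · -- rW
    have h4 := rW_mono (ρ := l.rW + l.dW) (c0 := c0) (C := C) (r := b.x0 ^ 2 - l.pb ^ 2)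
      (r' := x ^ 2 - p ^ 2) (q := 2 + 2 * s + 2 * x ^ 2 - p ^ 2)
      (q1 := 2 + 2 * b.S1 ^ 2 + 2 * l.xb ^ 2 - l.pl ^ 2) (Cu := l.Cu) d6 hc00 hcC hcu
      (by linarith) ?_ ?_ (by linarith) (by rw [hc0sq]; linarith)
      (by rw [hc0sq]; linarith)
    · rw [hCs] at h4
      linarith
    · have h5 := F.x_le
      have h6 := F.v_lt
      have h7 : C * C ≤ 3 * C * c0 := by
        have h10 : C * C ≤ C * (3 * c0) := mul_le_mul_of_nonneg_left (by linarith) hC0p.le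
        linarith only [h10]
      have h8 : C * C = 1 + s := by rw [← hCs]; ring
      have h9 : 0 ≤ l.pb ^ 2 := sq_nonneg _
      linarith
    · have : 0 ≤ x ^ 2 := sq_nonneg _
      linarith
  · -- Rr
    refine le_trans ?_ d4
    apply mul_le_mul_of_nonneg_right zv
    linarith
  · -- tb
    have h1 : l.Rr / C ^ 2 * (1 / l.m0 + C / l.m0 ^ 2) =
        l.Rr * (1 / l.m0) * (1 / C ^ 2) + l.Rr * (1 / l.m0 ^ 2) * (1 / C) := by
      field_simp
    rw [h1]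
    have h2 : 1 / C ^ 2 ≤ 1 / l.C0 ^ 2 :=
      one_div_le_one_div_of_le (by positivity) (pow_le_pow_left₀ d10.le zC0 2)
    have h3 : 1 / C ≤ 1 / l.C0 := one_div_le_one_div_of_le d10 zC0
    have h4 : l.Rr * (1 / l.m0) * (1 / C ^ 2) ≤ l.Rr * l.yb * (1 / l.C0 ^ 2) := by
      apply mul_le_mul _ h2 (by positivity) (by positivity)
      exact mul_le_mul_of_nonneg_left hm3 hRr0
    have h5 : l.Rr * (1 / l.m0 ^ 2) * (1 / C) ≤ l.Rr * l.yb ^ 2 * (1 / l.C0) := by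
      apply mul_le_mul _ h3 (by positivity) (by positivity)
      exact mul_le_mul_of_nonneg_left hm4 hRr0
    have h6 : l.tk + l.Rr * l.yb * (1 / l.C0 ^ 2) + l.Rr * l.yb ^ 2 * (1 / l.C0) ≤ l.tb := by
      have e1 : l.tk + l.Rr * l.yb * (1 / l.C0 ^ 2) + l.Rr * l.yb ^ 2 * (1 / l.C0) =
          (l.tk * l.C0 ^ 2 + l.Rr * l.yb + l.Rr * l.yb ^ 2 * l.C0) / l.C0 ^ 2 := by
        field_simp
      rw [e1, div_le_iff₀ (by positivity)]
      exact d10'
    linarith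
  · -- Pm
    rw [ek, ec1]
    have h1 : (e - 2) * (4 - e) / 8 * l.tb ^ 2 ≤ l.kkb * l.tb ^ 2 :=
      mul_le_mul_of_nonneg_right hkk (sq_nonneg _)
    have h2 : e * (e - 2) / 8 * (1 - l.yb ^ 2) ≤ e * (e - 2) / 8 * (1 - 1 / l.m0 ^ 2) := by
      apply mul_le_mul_of_nonneg_left (by linarith)
      apply div_nonneg _ (by norm_num)
      exact mul_nonneg (by linarith) (by linarith)
    have h3 : 8 * l.Pm + 8 * l.kkb * l.tb ^ 2 ≤ 8 + e * (e - 2) * (1 - l.yb ^ 2) := by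
      rcases le_total 0 (1 - l.yb ^ 2) with h | h
      · refine d13b.trans ?_
        have : b.e0 * (b.e0 - 2) ≤ e * (e - 2) :=
          mul_le_mul ie0 (by linarith) (by linarith) (by linarith)
        have := mul_le_mul_of_nonneg_right this h
        linarith
      · refine d13c.trans ?_
        have : e * (e - 2) ≤ b.e1 * (b.e1 - 2) :=
          mul_le_mul ie1 (by linarith) (by linarith) (by linarith)
        have := mul_le_mul_of_nonpos_right this h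
        linarith
    linarith
  · -- lb
    rw [ec1, ec2]
    have h1 : (e - 2) / 4 + 2 * γ * (l.tb / (1 - l.tb)) ≤ l.lb * l.Pm := by
      have e1 : (e - 2) / 4 + 2 * γ * (l.tb / (1 - l.tb)) =
          ((e - 2) * (1 - l.tb) + 8 * γ * l.tb) / (4 * (1 - l.tb)) := by
        field_simp
        ring
      rw [e1, div_le_iff₀ (by positivity)]
      have h2 : (e - 2) * (1 - l.tb) ≤ (b.e1 - 2) * (1 - l.tb) :=
        mul_le_mul_of_nonneg_right (by linarith) htb1.le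
      have h3 : 8 * γ * l.tb ≤ 8 * l.c2b * l.tb := by
        apply mul_le_mul_of_nonneg_right _ d11
        linarith
      linarith
    have h2 : e * (e - 2) / 8 + 2 * (e / 2 * γ) * (l.tb / (1 - l.tb)) =
        e / 2 * ((e - 2) / 4 + 2 * γ * (l.tb / (1 - l.tb))) := by ring
    rw [h2]
    have h3 : l.lb * (e / 2 * l.Pm) = e / 2 * (l.lb * l.Pm) := by ring
    rw [h3]
    exact mul_le_mul_of_nonneg_left h1 (by positivity)
  · -- qq
    rw [ec2]
    have h1 : 2 * γ + 3 * γ * (l.tb / (1 - l.tb)) ≤ l.qq * l.Pm := by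
      have e1 : 2 * γ + 3 * γ * (l.tb / (1 - l.tb)) =
          (γ * (2 * (1 - l.tb) + 3 * l.tb)) / (1 - l.tb) := by
        field_simp
      rw [e1, div_le_iff₀ htb1]
      have h2 : γ * (2 * (1 - l.tb) + 3 * l.tb) ≤ l.c2b * (2 * (1 - l.tb) + 3 * l.tb) := by
        apply mul_le_mul_of_nonneg_right hγ1
        positivity
      linarith
    have h2 : 2 * (e / 2 * γ) + 3 * (e / 2 * γ) * (l.tb / (1 - l.tb)) =
        e / 2 * (2 * γ + 3 * γ * (l.tb / (1 - l.tb))) := by ring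
    rw [h2]
    have h3 : l.qq * (e / 2 * l.Pm) = e / 2 * (l.qq * l.Pm) := by ring
    rw [h3]
    exact mul_le_mul_of_nonneg_left h1 (by positivity)
  · -- Pk
    rw [ek, ec1]
    have h1 : e * (e - 2) / 8 * (1 - 1 / C ^ 2) ≤ b.e1 * (b.e1 - 2) / 8 * l.tk := by
      apply mul_le_mul _ htk htk0
      · apply div_nonneg _ (by norm_num)
        exact mul_nonneg (by linarith) (by linarith)
      · have : e * (e - 2) ≤ b.e1 * (b.e1 - 2) :=
          mul_le_mul ie1 (by linarith) (by linarith) (by linarith)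
        linarith
    have h2 : (e - 2) * (4 - e) / 8 * (1 - 1 / C ^ 2) ^ 2 ≤ l.kkb * l.tk ^ 2 := by
      apply mul_le_mul hkk (pow_le_pow_left₀ htk0 htk 2) (by positivity) d13a
    linarith
  · -- T2
    have hSb : Real.sinh κ ≤ b.S1 := hI.S1
    have hrY : 0 < l.rY := d7.trans_le d7b
    have hrW : 0 < l.rW := d7.trans_le d7c
    calc l.M * (x + l.de) * (x + Real.sinh κ) * (1 + l.eta) ^ 2 ≤
          l.M * (l.xb + l.de) * (l.xb + b.S1) * (1 + l.eta) ^ 2 := by gcongr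
      _ ≤ l.T2 * (2 * l.W * l.pY * l.rW * l.rY * l.Kl) := d20'
      _ ≤ l.T2 * (2 * l.W * l.pY * l.rW * l.rY * KK e κ) := by
          have := Z.hKl
          gcongr

end Pool.Agent.helper4.EQW4
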