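import Pool.Agent.helper4.EQW4.Box4D

/-!
# EQW4: soundness of the subdivision trees
-/

namespace Pool.Agent.helper4.EQW4

open Complex
open Pool.Agent.helper4.EQW

theorem quad_pos {α β γ s s0 s1 : ℝ} (h0 : s0 ≤ s) (h1 : s ≤ s1)
    (a0 : 0 < α * s0 ^ 2 + β * s0 + γ) (a1 : 0 < α * s1 ^ 2 + β * s1 + γ)
    (b0 : α * (s1 - s0) ^ 2 < 4 * (α * s0 ^ 2 + β * s0 + γ))
    (b1 : α * (s1 - s0) ^ 2 < 4 * (α * s1 ^ 2 + β * s1 + γ)) : 0 < α * s ^ 2 + β * s + γ := by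
  set f0 := α * s0 ^ 2 + β * s0 + γ with hf0
  set f1 := α * s1 ^ 2 + β * s1 + γ with hf1
  set c := α * (s1 - s0) ^ 2 with hc
  set ε := min (min f0 f1) (min ((4 * f0 - c) / 4) ((4 * f1 - c) / 4)) with hε
  have e0 : 0 < ε := lt_min (lt_min a0 a1) (lt_min (by linarith) (by linarith))
  have e1 : ε ≤ f0 := (min_le_left _ _).trans (min_le_left _ _)
  have e2 : ε ≤ f1 := (min_le_left _ _).trans (min_le_right _ _)
  have e3 : ε ≤ (4 * f0 - c) / 4 := (min_le_right _ _).trans (min_le_left _ _)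
  have e4 : ε ≤ (4 * f1 - c) / 4 := (min_le_right _ _).trans (min_le_right _ _)
  have key := quad_low (α := α) (β := β) (γ := γ - ε) h0 h1 (by linarith) (by linarith)
    (by linarith) (by linarith)
  linarith

variable {e κ : ℝ} {P : ℂ} {s U v A B x o p : ℝ} {b : Bx ℝ} {l : Lf ℝ}

theorem leaf_sound4 (he : 2 ≤ e) (he4 : e ≤ 4) (hκ : 0 < κ) (hP : P ∈ LT4 e κ)
    (F : Facts κ P s U v A B x o p)
    (X : Aux4 e κ s U v A B x o p (KK e κ) (Real.exp (-κ)))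
    {vc f3 : ℝ} (hvc : v ≤ vc) (hI : InB b e (Real.sinh κ) x p) (hD : Dom b) (h : l.Ok 1 vc f3 b) :
    ∃ n : Pk, Goal4 e κ P s v A x o p (KK e κ) (Real.exp (-κ)) (Real.sinh κ) (f3 / 3) (99 / 100) n := by
  obtain ⟨hA, h⟩ := h
  have F2 := facts2_of F
  have Z := bndA he he4 hκ F F2 X hvc hI hD hA
  rcases h with h | ⟨hB, hC, hDD, hT⟩
  · exact absurd (Z.hpl.trans Z.hp) (not_le.2 h)
  · have n13 := num13_of he he4 hκ hP F F2 X hI hD Z hB hC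
    have hW1 : 1 ≤ l.W := hB.2.2.2.2.2.2.1.1
    have hg0 : 0 < l.g1 := by have := n13.hg1; linarith
    have hDb0 : 0 ≤ l.D := by
      have h1 : 0 ≤ l.D * l.g1 := X.D_nn.trans n13.hDb
      exact nonneg_of_mul_nonneg_left h1 hg0
    have hde : 0 ≤ l.de := (mul_nonneg hDb0 X.o_nn).trans n13.hde
    have heta : 0 ≤ l.eta := by
      have h1 : 0 ≤ l.eta * l.g1 := by
        refine le_trans ?_ n13.heta
        have := X.K_pos
        have := X.A_nn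
        have := X.o_nn
        have := X.x_nn
        positivity
      exact nonneg_of_mul_nonneg_left h1 hg0
    have n2 := num2_of he he4 hκ F F2 X hI hD Z hde heta hW1 hDD
    have hT2 : 0 ≤ l.T2 := hDD.2.2.2.2.2.2.2.2.2.2.2.2.2.2.2.2.2.2.2.1
    obtain ⟨t1, t3, t⟩ := hT
    refine ⟨⟨l.g1, l.D, l.de, l.eta, l.eS, l.W, l.G, l.R, l.lam, l.dp,
      (Real.exp (-κ) * A * (1 + l.eS) + l.dp) / l.W, l.L2, l.wp, l.tp, l.T1, l.T3, l.pY, l.m0, l.dm,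
      l.dW, l.rY, l.rW, l.Rr, l.tb, l.Pm, l.lb, l.qq, l.Pk, l.M, l.T2⟩, n13, n2, t1, hT2, t3, ?_⟩
    dsimp only
    linarith

/-- An empty box contains no point. -/
theorem eok_false (F : Facts κ P s U v A B x o p)
    (X : Aux4 e κ s U v A B x o p (KK e κ) (Real.exp (-κ)))
    {vc v0 : ℝ} (hκ : 0 < κ) (hvc : v ≤ vc) (hI : InB b e (Real.sinh κ) x p) (hD : Dom b)
    (h : EOk 1 vc b v0) : False := by
  have F2 := facts2_of F
  have hS : 0 < Real.sinh κ := Real.sinh_pos_iff.2 hκ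
  have hC1 := Real.one_le_cosh κ
  have hCs : Real.cosh κ ^ 2 = 1 + s := by rw [F.s_def, Real.cosh_sq]; ring
  have hS0 : b.S0 ^ 2 ≤ s := by
    rw [F.s_def]
    exact pow_le_pow_left₀ hD.S0 hI.S0 2
  have hS1 : s ≤ b.S1 ^ 2 := by
    rw [F.s_def]
    exact pow_le_pow_left₀ hS.le hI.S1 2
  have hsp := F.s_pos
  have hx0 := X.x_nn
  have hp0 := X.p_pos
  have hp1 := X.p_le
  have hx2 : b.x0 ^ 2 ≤ x ^ 2 := pow_le_pow_left₀ hD.x0 hI.x0 2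
  have hx21 : x ^ 2 ≤ b.x1 ^ 2 := pow_le_pow_left₀ hx0 hI.x1 2
  have hp2 : b.p0 ^ 2 ≤ p ^ 2 := pow_le_pow_left₀ hD.p0 hI.p0 2
  have hp21 : p ^ 2 ≤ b.p1 ^ 2 := pow_le_pow_left₀ hp0.le hI.p1 2
  have hpsq : p ^ 2 ≤ 1 := pow_le_one₀ hp0.le hp1
  unfold EOk hq gq at h
  simp only [mul_one, one_pow] at h
  rcases h with h | h | ⟨h1, h2, h3, h4⟩ | ⟨hV, h⟩
  · have h1 : Real.cosh κ ≤ p + x := by have := F.p_ge; linarith
    have h2 : Real.cosh κ ^ 2 ≤ (b.p1 + b.x1) ^ 2 :=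
      pow_le_pow_left₀ (by linarith) (by linarith [hI.p1, hI.x1]) 2
    rw [hCs] at h2
    linarith
  · have h1 : 1 ^ 2 ≤ (2 * Real.cosh κ * p) ^ 2 := pow_le_pow_left₀ (by norm_num) F.p_ge2 2
    have h2 : (2 * Real.cosh κ * p) ^ 2 = 4 * (1 + s) * p ^ 2 := by
      rw [← hCs]
      ring
    rw [h2] at h1
    have h3 : 4 * (1 + s) * p ^ 2 ≤ 4 * (1 + b.S1 ^ 2) * b.p1 ^ 2 :=
      mul_le_mul (by linarith) hp21 (by positivity) (by positivity)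
    linarith
  · have key := quad_pos (α := 8 * b.p0 ^ 2 - 4) (β := 3 + 4 * b.x0 ^ 2 - 8 * (1 - b.p0 ^ 2))
      (γ := 3 * b.x0 ^ 2 - (1 - b.p0 ^ 2)) hS0 hS1 (by linarith) (by linarith) (by linarith)
      (by linarith)
    have hU := F.U_eq
    unfold q4 at hU
    have hp := F.p_sq
    have hq4 : 0 < 1 + 8 * s + 8 * s ^ 2 := by positivity
    have h5 : (3 + 4 * s) * U * (1 + 8 * s + 8 * s ^ 2) ≤ (1 - b.p0 ^ 2) * (1 + 8 * s + 8 * s ^ 2) :=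
      mul_le_mul_of_nonneg_right (by linarith) hq4.le
    have e1 : (3 + 4 * s) * U * (1 + 8 * s + 8 * s ^ 2) = (3 + 4 * s) * (x ^ 2 + s) := by
      rw [← hU]
      ring
    rw [e1] at h5
    have e2 : (3 + 4 * s) * (b.x0 ^ 2 + s) ≤ (3 + 4 * s) * (x ^ 2 + s) :=
      mul_le_mul_of_nonneg_left (by linarith) (by linarith)
    linarith
  · have hv := v_le_v0 F X.v_lt X.v_nn hI hD hvc hV
    rcases h with h | h | ⟨h1, h2, h3, h4⟩
    · have := F.x_le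
      linarith
    · have := F2.x_ge
      linarith
    · have key := quad_pos (α := -(1 - 2 * b.p0 ^ 2))
        (β := -(v0 ^ 2 + (1 - b.p0 ^ 2) ^ 2 - 2 * b.x0 ^ 2 * b.p0 ^ 2))
        (γ := -(v0 ^ 2 - b.x0 ^ 4)) hS0 hS1 (by linarith) (by linarith) (by linarith) (by linarith)
      have hvs := F2.v_sq
      have e4 : b.x0 ^ 4 = (b.x0 ^ 2) ^ 2 := by ring
      rw [e4] at key
      have hn0 : 0 ≤ b.p0 ^ 2 := sq_nonneg _
      have hy0 : 0 ≤ b.x0 ^ 2 := sq_nonneg _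
      set n := p ^ 2 with hnd
      set y := x ^ 2 with hyd
      set nb := b.p0 ^ 2 with hnb
      set yb := b.x0 ^ 2 with hyb
      have e1 : (1 + s) * (y + s) ^ 2 - s * (1 + s + y - n) ^ 2 -
          ((1 + s) * (yb + s) ^ 2 - s * (1 + s + yb - nb) ^ 2) =
          (y - yb) * (y + yb + 2 * s * nb) +
            s * (n - nb) * (2 * (1 + s + y) - n - nb) := by ring
      have e2 : 0 ≤ (y - yb) * (y + yb + 2 * s * nb) := by
        apply mul_nonneg (by linarith)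
        have : 0 ≤ 2 * s * nb := by positivity
        linarith
      have e3 : 0 ≤ s * (n - nb) * (2 * (1 + s + y) - n - nb) :=
        mul_nonneg (mul_nonneg hsp.le (by linarith)) (by linarith)
      have k1 : (1 + s) * v0 ^ 2 < (1 + s) * v ^ 2 := by
        have e5 : (1 + s) * (yb + s) ^ 2 - s * (1 + s + yb - nb) ^ 2 =
            (2 * nb - 1) * s ^ 2 + s * (2 * yb * nb - (1 - nb) ^ 2) + yb ^ 2 := by ring
        linarith
      have k2 : v0 ^ 2 < v ^ 2 := lt_of_mul_lt_mul_left k1 (by linarith)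
      have k3 : v ^ 2 ≤ v0 ^ 2 := pow_le_pow_left₀ X.v_nn hv 2
      linarith

theorem cok_corner (F : Facts κ P s U v A B x o p)
    (X : Aux4 e κ s U v A B x o p (KK e κ) (Real.exp (-κ)))
    (hκ : 0 < κ) (hI : InB b e (Real.sinh κ) x p) (h : COk 1 b) : s ≤ 1 / 4 ∧ U ≤ 1 / 100 := by
  have hS : 0 < Real.sinh κ := Real.sinh_pos_iff.2 hκ
  have hS1 : s ≤ b.S1 ^ 2 := by
    rw [F.s_def]
    exact pow_le_pow_left₀ hS.le hI.S1 2
  have hsp := F.s_pos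
  have hx21 : x ^ 2 ≤ b.x1 ^ 2 := pow_le_pow_left₀ X.x_nn hI.x1 2
  unfold COk at h
  simp only [mul_one, one_pow] at h
  obtain ⟨h1, h2⟩ := h
  have h3 : b.S1 ^ 2 ≤ (1 / 2) ^ 2 := pow_le_pow_left₀ (hS.le.trans hI.S1) (by linarith) 2
  have h4 : s ≤ 1 / 4 := by linarith
  refine ⟨h4, ?_⟩
  have hU := F.U_eq
  unfold q4 at hU
  have e4 : b.S1 ^ 4 = (b.S1 ^ 2) ^ 2 := by ring
  rw [e4] at h2
  set t := b.S1 ^ 2 with ht
  have h5 : 100 * (x ^ 2 + s) ≤ 1 + 8 * s + 8 * s ^ 2 := by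
    have e1 : 0 ≤ (t - s) * (92 - 8 * (t + s)) := mul_nonneg (by linarith) (by linarith)
    nlinarith
  have hq4 : 0 < 1 + 8 * s + 8 * s ^ 2 := by positivity
  have h6 : (1 + 8 * s + 8 * s ^ 2) * U ≤ (1 + 8 * s + 8 * s ^ 2) * (1 / 100) := by
    rw [hU]
    linarith
  exact le_of_mul_le_mul_left h6 hq4

/-- real box -/
noncomputable def RB (b : Bx ℤ) : Bx ℝ := b.toR.sm (1 / 65536)

structure DomZ (b : Bx ℤ) : Prop where
  e0 : 131072 ≤ b.e0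
  e1 : b.e1 ≤ 262144
  S0 : 0 ≤ b.S0
  S1 : b.S1 ≤ 147456
  x0 : 0 ≤ b.x0
  p0 : 0 ≤ b.p0

theorem DomZ.dom {b : Bx ℤ} (h : DomZ b) : Dom (RB b) := by
  obtain ⟨h1, h2, h3, h4, h5, h6⟩ := h
  have g1 : (131072 : ℝ) ≤ b.e0 := by exact_mod_cast h1
  have g2 : (b.e1 : ℝ) ≤ 262144 := by exact_mod_cast h2
  have g3 : (0 : ℝ) ≤ b.S0 := by exact_mod_cast h3
  have g4 : (b.S1 : ℝ) ≤ 147456 := by exact_mod_cast h4
  have g5 : (0 : ℝ) ≤ b.x0 := by exact_mod_cast h5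
  have g6 : (0 : ℝ) ≤ b.p0 := by exact_mod_cast h6
  refine ⟨?_, ?_, ?_, ?_, ?_, ?_⟩ <;> simp only [RB, Bx.sm, Bx.toR] <;> linarith

theorem sm_sm_B (b : Bx ℝ) : (b.sm (1 / 65536)).sm 65536 = b := by
  have key : ∀ t : ℝ, t * (1 / 65536) * 65536 = t := fun t => by ring
  cases b
  simp only [Bx.sm, key]

theorem sm_sm_L (l : Lf ℝ) : (l.sm (1 / 65536)).sm 65536 = l := by
  have key : ∀ t : ℝ, t * (1 / 65536) * 65536 = t := fun t => by ring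
  cases l
  simp only [Lf.sm, key]

theorem Ok_real {vc f3 : ℤ} {b : Bx ℤ} {l : Lf ℤ} (h : l.Ok NN vc f3 b) :
    (l.toR.sm (1 / 65536)).Ok (1 : ℝ) ((vc : ℝ) / 65536) f3 (RB b) := by
  obtain ⟨hA, h⟩ := h
  have hN : (0 : ℝ) < 65536 := by norm_num
  have hNN : ((NN : ℤ) : ℝ) = 65536 := by norm_num [NN]
  have hv : (vc : ℝ) = (vc : ℝ) / 65536 * 65536 := by ring
  have kA := OkA_toR hA
  rw [hNN, hv, ← sm_sm_B b.toR, ← sm_sm_L l.toR] at kA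
  refine ⟨OkA_sm hN kA, ?_⟩
  rcases h with h | ⟨hB, hC, hD, hT⟩
  · left
    have h1 : (l.pb : ℝ) < l.pl := by exact_mod_cast h
    simp only [Lf.sm, Lf.toR]
    linarith
  · right
    have kB := OkB_toR hB
    have kC := OkC_toR hC
    have kD := OkD_toR hD
    have kT := OkT_toR hT
    rw [hNN, ← sm_sm_B b.toR, ← sm_sm_L l.toR] at kB kC kD
    rw [hNN, ← sm_sm_L l.toR] at kT
    exact ⟨OkB_sm hN kB, OkC_sm hN kC, OkD_sm hN kD, OkT_sm hN kT⟩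

theorem EOk_real {vc v0 : ℤ} {b : Bx ℤ} (h : EOk NN vc b v0) :
    EOk (1 : ℝ) ((vc : ℝ) / 65536) (RB b) ((v0 : ℝ) / 65536) := by
  have hN : (0 : ℝ) < 65536 := by norm_num
  have hNN : ((NN : ℤ) : ℝ) = 65536 := by norm_num [NN]
  have hv : (vc : ℝ) = (vc : ℝ) / 65536 * 65536 := by ring
  have hv0 : (v0 : ℝ) = (v0 : ℝ) / 65536 * 65536 := by ring
  have k := EOk_toR h
  rw [hNN, hv, hv0, ← sm_sm_B b.toR] at k
  exact EOk_sm hN k

theorem COk_real {b : Bx ℤ} (h : COk NN b) : COk (1 : ℝ) (RB b) := by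
  have hN : (0 : ℝ) < 65536 := by norm_num
  have hNN : ((NN : ℤ) : ℝ) = 65536 := by norm_num [NN]
  have k := COk_toR h
  rw [hNN, ← sm_sm_B b.toR] at k
  exact COk_sm hN k

theorem mid_cases {a c : ℤ} {t : ℝ} (h0 : (a : ℝ) * (1 / 65536) ≤ t) (h1 : t ≤ (c : ℝ) * (1 / 65536)) :
    a ≤ (a + c) / 2 ∧ (a + c) / 2 ≤ c ∧
    (t ≤ (((a + c) / 2 : ℤ) : ℝ) * (1 / 65536) ∨ (((a + c) / 2 : ℤ) : ℝ) * (1 / 65536) ≤ t) := by
  have h2 : (a : ℝ) ≤ c := by linarith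
  have h3 : a ≤ c := by exact_mod_cast h2
  refine ⟨by omega, by omega, le_total _ _⟩

theorem tree_sound4 (he : 2 ≤ e) (he4 : e ≤ 4) (hκ : 0 < κ) (hP : P ∈ LT4 e κ)
    (F : Facts κ P s U v A B x o p)
    (X : Aux4 e κ s U v A B x o p (KK e κ) (Real.exp (-κ)))
    {vc f3 : ℤ} (hvc : v ≤ (vc : ℝ) / 65536) (t : Tr) :
    ∀ b : Bx ℤ, t.ok vc f3 b = true → DomZ b → InB (RB b) e (Real.sinh κ) x p →
      (s ≤ 1 / 4 ∧ U ≤ 1 / 100) ∨ ∃ n : Pk, Goal4 e κ P s v A x o p (KK e κ) (Real.exp (-κ))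
        (Real.sinh κ) ((f3 : ℝ) / 3) (99 / 100) n := by
  induction t with
  | e v0 =>
    intro b h hD hI
    simp only [Tr.ok, decide_eq_true_eq] at h
    exact absurd (EOk_real h) (fun h => eok_false F X hκ hvc hI hD.dom h)
  | c =>
    intro b h hD hI
    simp only [Tr.ok, decide_eq_true_eq] at h
    exact Or.inl (cok_corner F X hκ hI (COk_real h))
  | l n =>
    intro b h hD hI
    simp only [Tr.ok, decide_eq_true_eq] at h
    exact Or.inr (leaf_sound4 he he4 hκ hP F X hvc hI hD.dom (Ok_real h))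
  | s k t1 t2 ih1 ih2 =>
    intro b h hD hI
    simp only [Tr.ok, Bool.and_eq_true] at h
    obtain ⟨h1, h2⟩ := h
    have i0 := hI.e0
    have i1 := hI.e1
    have i2 := hI.S0
    have i3 := hI.S1
    have i4 := hI.x0
    have i5 := hI.x1
    have i6 := hI.p0
    have i7 := hI.p1
    simp only [RB, Bx.sm, Bx.toR] at i0 i1 i2 i3 i4 i5 i6 i7
    obtain ⟨g0, g1, g2, g3, g4, g5⟩ := hD
    match k, h1, h2 with
    | 0, h1, h2 =>
      obtain ⟨m1, m2, m3⟩ := mid_cases i0 i1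
      rcases m3 with m3 | m3
      · exact ih1 _ h1 ⟨g0, m2.trans g1, g2, g3, g4, g5⟩ ⟨i0, m3, i2, i3, i4, i5, i6, i7⟩
      · exact ih2 _ h2 ⟨g0.trans m1, g1, g2, g3, g4, g5⟩ ⟨m3, i1, i2, i3, i4, i5, i6, i7⟩
    | 1, h1, h2 =>
      obtain ⟨m1, m2, m3⟩ := mid_cases i2 i3
      rcases m3 with m3 | m3
      · exact ih1 _ h1 ⟨g0, g1, g2, m2.trans g3, g4, g5⟩ ⟨i0, i1, i2, m3, i4, i5, i6, i7⟩
      · exact ih2 _ h2 ⟨g0, g1, g2.trans m1, g3, g4, g5⟩ ⟨i0, i1, m3, i3, i4, i5, i6, i7⟩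
    | 2, h1, h2 =>
      obtain ⟨m1, m2, m3⟩ := mid_cases i4 i5
      rcases m3 with m3 | m3
      · exact ih1 _ h1 ⟨g0, g1, g2, g3, g4, g5⟩ ⟨i0, i1, i2, i3, i4, m3, i6, i7⟩
      · exact ih2 _ h2 ⟨g0, g1, g2, g3, g4.trans m1, g5⟩ ⟨i0, i1, i2, i3, m3, i5, i6, i7⟩
    | k + 3, h1, h2 =>
      obtain ⟨m1, m2, m3⟩ := mid_cases i6 i7
      rcases m3 with m3 | m3
      · exact ih1 _ h1 ⟨g0, g1, g2, g3, g4, g5⟩ ⟨i0, i1, i2, i3, i4, i5, i6, m3⟩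
      · exact ih2 _ h2 ⟨g0, g1, g2, g3, g4, g5.trans m1⟩ ⟨i0, i1, i2, i3, i4, i5, m3, i7⟩

end Pool.Agent.helper4.EQW4
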