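import Pool.Agent.helper4.EQW4.Step4
import Pool.Agent.helper4.EQW.Close

/-!
# EQW4: the closing estimate of one tail link, `2 ≤ e ≤ 4`
-/

namespace Pool.Agent.helper4.EQW4

open Complex
open Pool.Agent.helper31.EQ.W (c2 gl gs nxt wn FW)
open Pool.Agent.helper4.EQW

variable {e κ : ℝ} {P : ℂ} {s U v A B x o p : ℝ}

/-- Numbers that control the first and third error term.  `g1` is a lower bound of `‖Γ' P‖`, `Db` bounds the
deviation, `de = Db o`, `l` bounds `lder` on the ball of radius `R`, `L/‖y‖` bounds `lder` near `P'`. -/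
structure Num13 (e κ : ℝ) (P : ℂ) (v A x o p K a g1 Db de eta eS W G R l dp sg L wp tp T1 T3 : ℝ) :
    Prop where
  hg1 : 1 ≤ g1
  hg : g1 ≤ ‖G1 e κ P‖
  hDb : K * v * A ≤ Db * g1
  hde : Db * o ≤ de
  heta : K * A * o * (2 * x + de) ≤ eta * g1
  heS : K * v * o ≤ eS * g1
  hW0 : 0 < W
  hW : W + de ≤ ‖2 * (Real.cosh κ : ℂ) - P‖
  hG : a * (1 + eta) * (1 + eS) ≤ G * W ^ 3
  hRp : Db * p ≤ R
  hRo : Db * o ≤ R
  hl0 : 0 ≤ l
  hl : ∀ y : ℂ, ‖y - P‖ ≤ R → ‖y - (a : ℂ)‖ ≤ a / 2 → ‖y‖ ≤ 1 → ‖lder e y‖ ≤ l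
  hlR : l * R < 1
  hT3 : l * Db * (p ^ 2 + o ^ 2) ≤ 2 * T3 * (1 - l * R)
  hdp : K * v * A * G ≤ dp
  hsg : a * A * (1 + eS) + dp ≤ sg * W
  hL0 : 0 ≤ L
  hL : ∀ y : ℂ, ‖y‖ ≤ (1 + dp) / W → ‖y - (a : ℂ)‖ ≤ sg → ‖y - (a : ℂ)‖ ≤ a / 2 → ‖y‖ ≤ 1 →
    ‖lder e y‖ ≤ L / ‖y‖
  hLd : dp + L * dp < 1
  hwp : (1 / W) ^ (e - 1) ≤ wp
  htp : (1 + dp) ^ (e - 2) ≤ tp
  hT1 : G * wp * tp * (1 - dp) ≤ T1 * (1 - dp - L * dp)

/-- `ϑ` bounds the parameters. -/
theorem close_main4 (he : 2 ≤ e) (he4 : e ≤ 4) (hκ : 0 < κ) (hP : P ∈ LT4 e κ)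
    (hPa : P ≠ ((Real.exp (-κ) : ℝ) : ℂ)) (F : Facts κ P s U v A B x o p)
    {K a g1 Db de eta eS W G R l dp sg L wp tp T1 T3 T2 ϑ : ℝ}
    (X : Aux4 e κ s U v A B x o p K a) (hK : K = KK e κ) (ha : a = Real.exp (-κ))
    (N : Num13 e κ P v A x o p K a g1 Db de eta eS W G R l dp sg L wp tp T1 T3)
    (hϑ0 : 0 ≤ ϑ) (hϑ1 : ϑ ≤ 1)
    {d d' : ℂ} (hd : ‖d‖ * ‖G1 e κ P‖ ≤ ϑ * (K * ‖gK κ P‖))
    (hd' : ‖d'‖ * ‖G1 e κ (nx κ (P + d * (1 - P)))‖ ≤ ϑ * (K * ‖gK κ (nx κ (P + d * (1 - P)))‖))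
    (hT2 : ∀ (Y : ℂ) (δ η : ℝ), 0 ≤ δ → δ ≤ de → 0 ≤ η → η ≤ eta → Y ∈ OT4 e κ →
      Pos κ P Y v A x a δ η →
      ‖(c2 e κ : ℂ) * h0 e (nx κ Y) - (c2 e κ : ℂ) * gs e Y - 2 * ((Real.cosh κ : ℂ) - Y)‖ ≤
        K * v * A * T2) :
    ‖d * G1 e κ P - FW e κ (P + d * (1 - P)) d d'‖ ≤ K * v * A * (ϑ * T1 + T2 + ϑ * T3) := by
  have he0 : 0 < e := by linarith
  subst hK
  have hKpos := X.K_pos
  have hv0 := X.v_nn
  have hA0 := X.A_nn
  have ho0 := X.o_nn
  have hx0 := X.x_nn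
  have ha0 := X.a_pos
  have hp0 := X.p_pos
  have hD0 := X.D_nn
  have hg10 : 0 < g1 := by have := N.hg1; linarith
  have hgKn : ‖gK κ P‖ = v * A := by rw [norm_gK, ← F.v_def, ← F.A_def]
  have hd1 : ‖d‖ * ‖G1 e κ P‖ ≤ KK e κ * ‖gK κ P‖ := by
    refine hd.trans ?_
    apply mul_le_of_le_one_left _ hϑ1
    rw [hgKn]
    positivity
  have hmem := step_mem4 he he4 hκ hP hPa hd1
  -- true quantities
  set D := KK e κ * v * A / g1 with hDd
  set δ := D * o with hδd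
  set η := KK e κ * A * o * (2 * x + δ) / g1 with hηd
  have hDn : 0 ≤ D := by positivity
  have hδ0 : 0 ≤ δ := by positivity
  have hη0 : 0 ≤ η := by positivity
  have hDDb : D ≤ Db := by rw [hDd, div_le_iff₀ hg10]; exact N.hDb
  have hDb0 : 0 ≤ Db := hDn.trans hDDb
  have hδde : δ ≤ de := (mul_le_mul_of_nonneg_right hDDb ho0).trans N.hde
  have hde0 : 0 ≤ de := hδ0.trans hδde
  have hηeta : η ≤ eta := by
    rw [hηd, div_le_iff₀ hg10]
    refine le_trans ?_ N.heta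
    apply mul_le_mul_of_nonneg_left _ (by positivity)
    linarith
  have heta0 : 0 ≤ eta := hη0.trans hηeta
  have hDle : D ≤ KK e κ * v * A := div_le_self hD0 N.hg1
  have hdl : ‖d‖ ≤ D := by
    rw [hDd, le_div_iff₀ hg10]
    calc ‖d‖ * g1 ≤ ‖d‖ * ‖G1 e κ P‖ := mul_le_mul_of_nonneg_left N.hg (norm_nonneg _)
      _ ≤ KK e κ * ‖gK κ P‖ := hd1
      _ = KK e κ * v * A := by rw [hgKn]; ring
  have Q := pos_of4 F X ha hdl hDle (δ := δ) (η := η) le_rfl (le_of_eq (by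
    rw [hηd, hδd, hDd]
    field_simp))
  have hd1' : ‖d'‖ * ‖G1 e κ (nx κ (P + d * (1 - P)))‖ ≤
      KK e κ * ‖gK κ (nx κ (P + d * (1 - P)))‖ := by
    refine hd'.trans ?_
    apply mul_le_of_le_one_left _ hϑ1
    have := norm_nonneg (gK κ (nx κ (P + d * (1 - P))))
    positivity
  have hwn := wn_facts4 he he4 hκ hmem hd1'
  set Y := P + d * (1 - P) with hY
  obtain ⟨hball, hslit, hlt, hd9, hwneq⟩ := hwn
  have t2 := hT2 Y δ η hδ0 hδde hη0 hηeta hmem Q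
  obtain ⟨hWne, hP', hYa⟩ := hmem
  set P' := nx κ Y with hP'd
  -- decomposition
  have hYd : Y - d = P * (1 - d) := by rw [hY]; ring
  have hdec : d * G1 e κ P - FW e κ Y d d' =
      -((c2 e κ : ℂ) * gs e Y - (c2 e κ : ℂ) * gs e (P * (1 - d)) - d * G1 e κ P) -
      ((c2 e κ : ℂ) * h0 e P' - (c2 e κ : ℂ) * gs e Y - 2 * ((Real.cosh κ : ℂ) - Y)) -
      ((c2 e κ : ℂ) * h0 e (P' * (1 - d')) - (c2 e κ : ℂ) * h0 e P') := by
    unfold FW
    rw [hwneq, gl_inv hslit, hYd]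
    ring
  rw [hdec]
  refine (norm_sub_le _ _).trans ?_
  have hns := norm_sub_le (-((c2 e κ : ℂ) * gs e Y - (c2 e κ : ℂ) * gs e (P * (1 - d)) - d * G1 e κ P))
    ((c2 e κ : ℂ) * h0 e P' - (c2 e κ : ℂ) * gs e Y - 2 * ((Real.cosh κ : ℂ) - Y))
  rw [norm_neg] at hns
  -- third term
  have hmn : 0 ≤ max p o := le_max_of_le_left hp0.le
  have hmR : D * max p o ≤ R := by
    rcases le_total p o with h | h
    · rw [max_eq_right h]
      exact (mul_le_mul_of_nonneg_right hDDb ho0).trans N.hRo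
    · rw [max_eq_left h]
      exact (mul_le_mul_of_nonneg_right hDDb hp0.le).trans N.hRp
  have hR0 : 0 ≤ D * max p o := mul_nonneg hDn hmn
  have hmK : D * max p o ≤ KK e κ * v * A := by
    calc D * max p o ≤ D * 1 := mul_le_mul_of_nonneg_left (max_po F X) hDn
      _ ≤ _ := by rw [mul_one]; exact hDle
  have hb := X.ball F ha hR0 hmK
  have hlR1 : l * (D * max p o) ≤ l * R := mul_le_mul_of_nonneg_left hmR N.hl0
  have hlR' : l * (D * max p o) < 1 := hlR1.trans_lt N.hlR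
  have t3 : ‖(c2 e κ : ℂ) * gs e Y - (c2 e κ : ℂ) * gs e (P * (1 - d)) - d * G1 e κ P‖ ≤
      KK e κ * v * A * (ϑ * T3) := by
    have h1 : ‖d‖ * ‖P‖ ≤ D * max p o := by
      rw [← F.p_def]
      exact mul_le_mul hdl (le_max_left _ _) hp0.le hDn
    have h2 : ‖d‖ * ‖1 - P‖ ≤ D * max p o := by
      rw [← F.o_def]
      exact mul_le_mul hdl (le_max_right _ _) ho0 hDn
    have h3 := T3_bound4 (κ := κ) he0 he4 hb N.hl0
      (fun y hy => N.hl y (hy.trans hmR) (hb.disc hy) (hb.le_one hy)) hlR' h1 h2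
    rw [← hY, ← F.p_def, ← F.o_def] at h3
    refine h3.trans ?_
    have h4 : 0 < 1 - l * (D * max p o) := by linarith
    have h4' : 0 < 1 - l * R := by have := N.hlR; linarith
    have h5 : ‖G1 e κ P‖ * ‖d‖ ^ 2 ≤ ϑ * (KK e κ * v * A) * Db := by
      calc ‖G1 e κ P‖ * ‖d‖ ^ 2 = (‖d‖ * ‖G1 e κ P‖) * ‖d‖ := by ring
        _ ≤ (ϑ * (KK e κ * ‖gK κ P‖)) * Db := by
            apply mul_le_mul hd (hdl.trans hDDb) (norm_nonneg _)
            rw [hgKn]
            positivity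
        _ = ϑ * (KK e κ * v * A) * Db := by rw [hgKn]; ring
    have h6 : l * Db * (p ^ 2 + o ^ 2) / 2 / (1 - l * (D * max p o)) ≤ T3 := by
      rw [div_le_iff₀ h4]
      have hT30 : 0 ≤ T3 := by
        have h7 : 0 ≤ 2 * T3 * (1 - l * R) := le_trans (by have := N.hl0; positivity) N.hT3
        have h8 : 0 ≤ 2 * T3 := nonneg_of_mul_nonneg_left h7 h4'
        linarith
      have h7 : T3 * (1 - l * R) ≤ T3 * (1 - l * (D * max p o)) :=
        mul_le_mul_of_nonneg_left (by linarith) hT30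
      have h8 := N.hT3
      linarith
    have e1 : l * (‖G1 e κ P‖ / (1 - l * (D * max p o))) * ‖d‖ ^ 2 * (p ^ 2 + o ^ 2) / 2 =
        (‖G1 e κ P‖ * ‖d‖ ^ 2) * (l * (p ^ 2 + o ^ 2) / 2 / (1 - l * (D * max p o))) := by
      ring
    rw [e1]
    have hl0 := N.hl0
    calc (‖G1 e κ P‖ * ‖d‖ ^ 2) * (l * (p ^ 2 + o ^ 2) / 2 / (1 - l * (D * max p o))) ≤
          (ϑ * (KK e κ * v * A) * Db) * (l * (p ^ 2 + o ^ 2) / 2 / (1 - l * (D * max p o))) := by
          apply mul_le_mul_of_nonneg_right h5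
          positivity
      _ = ϑ * (KK e κ * v * A) * (l * Db * (p ^ 2 + o ^ 2) / 2 / (1 - l * (D * max p o))) := by ring
      _ ≤ ϑ * (KK e κ * v * A) * T3 := mul_le_mul_of_nonneg_left h6 (by positivity)
      _ = KK e κ * v * A * (ϑ * T3) := by ring
  -- first term
  have t1 : ‖(c2 e κ : ℂ) * h0 e (P' * (1 - d')) - (c2 e κ : ℂ) * h0 e P'‖ ≤
      KK e κ * v * A * (ϑ * T1) := by
    obtain ⟨n1, n2, -⟩ := nx_formulas hWne
    have hWde := N.hW
    have hW0 := N.hW0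
    have hWW : W ≤ ‖2 * (Real.cosh κ : ℂ) - Y‖ := by
      have := Q.W
      linarith
    have hG0 : 0 ≤ G := by
      have h1 : 0 ≤ KK e κ * v * o := by positivity
      have h2 : 0 ≤ eS := by
        have h3 := N.heS
        have h4 : 0 ≤ eS * g1 := h1.trans h3
        exact nonneg_of_mul_nonneg_left h4 hg10
      have h5 : 0 ≤ G * W ^ 3 := le_trans (by positivity) N.hG
      exact nonneg_of_mul_nonneg_left h5 (by positivity)
    have heS0 : 0 ≤ eS := by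
      have h1 : 0 ≤ KK e κ * v * o := by positivity
      have h4 : 0 ≤ eS * g1 := h1.trans N.heS
      exact nonneg_of_mul_nonneg_left h4 hg10
    have hYA : ‖Y - (a : ℂ)‖ ≤ A * (1 + eS) := by
      have h1 := Q.Ya
      rw [← ha] at h1
      have h2 : δ ≤ A * eS := by
        rw [hδd, hDd]
        have h3 : KK e κ * v * o / g1 ≤ eS := by rw [div_le_iff₀ hg10]; exact N.heS
        calc KK e κ * v * A / g1 * o = A * (KK e κ * v * o / g1) := by ring
          _ ≤ A * eS := mul_le_mul_of_nonneg_left h3 hA0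
      linarith
    have hg1' : KK e κ * ‖gK κ P'‖ ≤ KK e κ * v * A * G := by
      rw [norm_gK, n1, n2, ← ha]
      set W' := ‖2 * (Real.cosh κ : ℂ) - Y‖ with hW'
      have hW'0 : 0 < W' := hW0.trans_le hWW
      have hv2 : ‖v2 κ Y‖ ≤ v * (1 + eta) := by
        refine Q.v2.trans ?_
        apply mul_le_mul_of_nonneg_left _ hv0
        linarith
      have e1 : KK e κ * (‖v2 κ Y‖ / W' ^ 2 * (a * ‖Y - (a : ℂ)‖ / W')) =
          KK e κ * a * (‖v2 κ Y‖ * ‖Y - (a : ℂ)‖) / W' ^ 3 := by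
        field_simp
      rw [e1, div_le_iff₀ (by positivity)]
      calc KK e κ * a * (‖v2 κ Y‖ * ‖Y - (a : ℂ)‖) ≤
            KK e κ * a * ((v * (1 + eta)) * (A * (1 + eS))) := by
            apply mul_le_mul_of_nonneg_left _ (by positivity)
            exact mul_le_mul hv2 hYA (norm_nonneg _) (by positivity)
        _ = KK e κ * v * A * (a * (1 + eta) * (1 + eS)) := by ring
        _ ≤ KK e κ * v * A * (G * W ^ 3) := mul_le_mul_of_nonneg_left N.hG hD0
        _ ≤ KK e κ * v * A * (G * W' ^ 3) := by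
            apply mul_le_mul_of_nonneg_left _ hD0
            apply mul_le_mul_of_nonneg_left _ hG0
            exact pow_le_pow_left₀ hW0.le hWW 3
        _ = KK e κ * v * A * G * W' ^ 3 := by ring
    have hGP' := one_le_G14 he he4 hκ hP'
    have hd2 : ‖d'‖ ≤ dp := by
      have h2 : ‖d'‖ ≤ ‖d'‖ * ‖G1 e κ P'‖ := le_mul_of_one_le_right (norm_nonneg _) hGP'
      exact (h2.trans (hd1'.trans hg1')).trans N.hdp
    have hdn : 0 ≤ ‖d'‖ := norm_nonneg _
    have hdp0 : 0 ≤ dp := hdn.trans hd2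
    have hL0 := N.hL0
    have hdp1 : dp < 1 := by
      have h1 := N.hLd
      have h2 : 0 ≤ L * dp := mul_nonneg hL0 hdp0
      linarith
    have hPn : 0 < ‖P'‖ := disc_norm_pos (Real.exp_pos (-κ)) (disc_of_mem4 he he4 hκ hP').1
    have hPW : ‖P'‖ ≤ 1 / W := by
      rw [hP'd]
      unfold nx
      rw [norm_div, norm_one]
      exact one_div_le_one_div_of_le hW0 hWW
    -- l'
    set l' := L / (‖P'‖ * (1 - ‖d'‖)) with hl'
    have h1d : 0 < 1 - ‖d'‖ := by linarith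
    have hl'0 : 0 ≤ l' := by positivity
    have hl'b : ∀ y : ℂ, ‖y - P'‖ ≤ ‖P'‖ * ‖d'‖ → ‖lder e y‖ ≤ l' := by
      intro y hy
      have h1 : ‖y‖ ≤ (1 + dp) / W := by
        have h2 : y = P' + (y - P') := by ring
        have h3 := norm_add_le P' (y - P')
        rw [← h2] at h3
        calc ‖y‖ ≤ ‖P'‖ * (1 + ‖d'‖) := by linarith
          _ ≤ 1 / W * (1 + dp) := mul_le_mul hPW (by linarith) (by positivity) (by positivity)
          _ = (1 + dp) / W := by ring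
      have h4 : ‖P'‖ * (1 - ‖d'‖) ≤ ‖y‖ := by
        have := ball_ge hy
        linarith
      have h5 : ‖y - (a : ℂ)‖ ≤ sg := by
        have e1 : y - (a : ℂ) = (y - P') + (P' - (a : ℂ)) := by ring
        have h6 := norm_add_le (y - P') (P' - (a : ℂ))
        rw [← e1] at h6
        have h7 : ‖P' - (a : ℂ)‖ ≤ a * (A * (1 + eS)) / W := by
          rw [ha, n2, ← ha]
          exact div_le_div₀ (by positivity) (mul_le_mul_of_nonneg_left hYA ha0.le) hW0 hWW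
        have h8 : ‖y - P'‖ ≤ dp / W := by
          refine hy.trans ?_
          calc ‖P'‖ * ‖d'‖ ≤ 1 / W * dp := mul_le_mul hPW hd2 hdn (by positivity)
            _ = dp / W := by ring
        have h9 : a * (A * (1 + eS)) / W + dp / W ≤ sg := by
          rw [← add_div, div_le_iff₀ hW0]
          have := N.hsg
          linarith
        linarith
      refine (N.hL y h1 h5 (by rw [ha]; exact hball.disc hy) (hball.le_one hy)).trans ?_
      rw [hl']
      exact div_le_div_of_nonneg_left hL0 (by positivity) h4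
    have hl'e : l' * (‖P'‖ * ‖d'‖) = L * ‖d'‖ / (1 - ‖d'‖) := by
      rw [hl']
      field_simp
    have hl'le : l' * (‖P'‖ * ‖d'‖) ≤ L * dp / (1 - dp) := by
      rw [hl'e, div_le_div_iff₀ h1d (by linarith)]
      have : L * ‖d'‖ ≤ L * dp := mul_le_mul_of_nonneg_left hd2 hL0
      nlinarith
    have hq : L * dp / (1 - dp) < 1 := by
      rw [div_lt_one (by linarith)]
      have := N.hLd
      linarith
    have h3 := T1_bound4 (κ := κ) he he4 hball hl'0 hl'b (hl'le.trans_lt hq)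
    refine h3.trans ?_
    have h4 : ‖P'‖ ^ (e - 1) ≤ wp :=
      (Real.rpow_le_rpow hPn.le hPW (by linarith)).trans N.hwp
    have h5 : (1 + ‖d'‖) ^ (e - 2) ≤ tp :=
      (Real.rpow_le_rpow (by linarith) (by linarith) (by linarith)).trans N.htp
    have hwp0 : 0 ≤ wp := (Real.rpow_nonneg hPn.le _).trans h4
    have htp0 : 0 ≤ tp := (Real.rpow_nonneg (by linarith) _).trans h5
    have h6 : ‖d'‖ * ‖G1 e κ P'‖ ≤ ϑ * (KK e κ * v * A * G) :=
      hd'.trans (mul_le_mul_of_nonneg_left hg1' hϑ0)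
    have h7 : 0 < 1 - L * dp / (1 - dp) := by linarith
    have h8 : ‖d'‖ * ‖G1 e κ P'‖ * ‖P'‖ ^ (e - 1) * (1 + ‖d'‖) ^ (e - 2) ≤
        ϑ * (KK e κ * v * A * G) * wp * tp := by
      apply mul_le_mul _ h5 (Real.rpow_nonneg (by linarith) _) (by positivity)
      exact mul_le_mul h6 h4 (Real.rpow_nonneg hPn.le _) (by positivity)
    have h9 : G * wp * tp / (1 - L * dp / (1 - dp)) ≤ T1 := by
      have e1 : 1 - L * dp / (1 - dp) = (1 - dp - L * dp) / (1 - dp) := by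
        have : 1 - dp ≠ 0 := by linarith
        field_simp
      rw [e1, div_div_eq_mul_div, div_le_iff₀ (by have := N.hLd; linarith)]
      exact N.hT1
    calc ‖d'‖ * ‖G1 e κ P'‖ * ‖P'‖ ^ (e - 1) * (1 + ‖d'‖) ^ (e - 2) / (1 - l' * (‖P'‖ * ‖d'‖)) ≤
          ϑ * (KK e κ * v * A * G) * wp * tp / (1 - L * dp / (1 - dp)) :=
          div_le_div₀ (by positivity) h8 h7 (by linarith)
      _ = ϑ * (KK e κ * v * A) * (G * wp * tp / (1 - L * dp / (1 - dp))) := by ring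
      _ ≤ ϑ * (KK e κ * v * A) * T1 := mul_le_mul_of_nonneg_left h9 (by positivity)
      _ = KK e κ * v * A * (ϑ * T1) := by ring
  rw [mul_add, mul_add]
  linarith

end Pool.Agent.helper4.EQW4
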