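import Pool.Agent.helper4.EQW4.Goal4
import Pool.Agent.helper4.EQW4.Ang4

/-!
# EQW4-C: the scalar inequality for small `U`, `2 ≤ e ≤ 4`

Plan (elementary; compare `EQW/Corner.lean`, `goal_corner`).  Write `E = e/2 ∈ [1,2]`, `ε = E - 1 ∈ [0,1]`,
`a = exp (-κ)`, `C = cosh κ`, `S = sinh κ`, `s = S²`, `w = √U ≤ 1/10`.

Facts: `x² + s = q4 s U` (`F.U_eq`), `s ≤ 1/4` gives `q4 s ≤ 7/2`, `s ≤ 7/200`, then `q4 s ≤ 1.30`,
`s ≤ 0.013`, `q4 s ≤ 1.106`; so `x² + s ≤ 1.106 U`; `v ≤ U` (`F.v_le_U`), `A² ≤ a⁴ v ≤ U` (`X.A_sq`),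
`o ≤ x` (`F.o_le_x`), `p ≤ 1`, `p ≥ C - x ≥ 0.89`, `KK e κ = e²/8 + 3 tanh²(e κ/2) ≤ (e²/8)(1 + 6 s)`
(`th_le`), `KK ≥ e²/8`, so `K ≤ 2.16`.

Choice (all constants may be changed): `g1 = 1`, `Db = K v A` (or `0.22 U`), `de = 0.024 U`,
`eta = 0.5 U`, `eS = 0.24 U`, `W = 1 + 2.3 U` (`F.W_sq`: `‖2C - P‖² ≥ 1 + 5 U`),
`G = 1 - 5.9 U`-like number with `a (1+eta)(1+eS) ≤ G W³`, `R = 0.22 U`, `l = 4.2` (via `lder_le` with `c = 0`,
`ρ = 1`, `L² ≥ 13`, `‖y‖ ≥ p - R`), `T3 = 0.5 U`, `dp = 0.22 U`, `sg` = anything `≥ (aA(1+eS)+dp)/W` and `≤ a/5`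
(for `c = 0` one needs `8σ²(1-σ²) ≤ 1` with `σ a ≥ sg`; `A ≤ a² √v ≤ a/10`), `L = 3.61`, `wp = 1/W`
(`(1/W)^(e-1) ≤ 1/W`), `tp = 1 + 0.45 U` (`(1+dp)^(e-2) ≤ (1+dp)²`), `T1 = 1 - 7 U`-like;
`pY = 0.88`, `Rr = 0.58 U`, `rY = C - Rr` (second alternative of `hrY`, `dm` large enough),
`rW = 0.98`: with `q = 2 + 2s + 2x² - p² ≥ 1`, `3 + 3s + x² - p² = q + 1 + s - x²`,
`(q+1)²/q ≥ 4`; `m0 = 0.98`, `tb = 0.03`, `cc E 1 = E ε/2`, `cc E 2 = E ε (2-E)(3-E)/24 ≤ E ε/12`,
`E - 1 - cc E 1 = ε(2-E)/2 ≤ 1/8`, `Pm = 0.95`, `lb = 0.54 ε`, `pb = 0.1 ε` or so,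
`P1 = 1 + 0.02 ε`..., `M ≤ 1.07 (1 + 2.9 ε + 2.2 (2+ε)(0.54 ε)² + 0.25 ε) ≤ 1.65 (1+ε)²`, and `2 K ≥ E² = (1+ε)²`,
`x (x + S) ≤ 1.21 (x² + s) ≤ 1.34 U`, so `T2 = 2.6 U`; sum `T1 + (5/3) T2 + T3 ≤ 1 - U` with room
(numerically `1 - 7.3 U` is true, so all these constants may be generous by a factor about 2).
-/

namespace Pool.Agent.helper4.EQW4

open Complex
open Pool.Agent.helper4.EQW

variable {e κ : ℝ} {P : ℂ} {s U v A B x o p : ℝ}

/-- The goal in the corner. -/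
theorem goal_corner4 (he : 2 ≤ e) (he4 : e ≤ 4) (hκ : 0 < κ) (hP : P ∈ LT4 e κ)
    (F : Facts κ P s U v A B x o p)
    (X : Aux4 e κ s U v A B x o p (KK e κ) (Real.exp (-κ)))
    (hs : s ≤ 1 / 4) (hU : U ≤ 1 / 100) :
    ∃ n : Pk, Goal4 e κ P s v A x o p (KK e κ) (Real.exp (-κ)) (Real.sinh κ) (5 / 3) (1 - U) n := by
  have hsp := F.s_pos
  have hS : 0 < Real.sinh κ := Real.sinh_pos_iff.2 hκ
  have hC1 := Real.one_le_cosh κ
  have hCs : Real.cosh κ ^ 2 = 1 + s := by rw [F.s_def, Real.cosh_sq]; ring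
  have hSs : Real.sinh κ ^ 2 = s := F.s_def.symm
  have hv0 := X.v_nn
  have hA0 := X.A_nn
  have hx0 := X.x_nn
  have ho0 := X.o_nn
  have hp0 := X.p_pos
  have hp1 := X.p_le
  have hUp := X.U_pos
  have hU0 : 0 ≤ U := hUp.le
  have ha0 := X.a_pos
  have ha1 := X.a_lt
  have hK0 := X.K_pos
  have hg := one_le_G14 he he4 hκ hP
  set S := Real.sinh κ with hSd
  set C := Real.cosh κ with hCd
  set a := Real.exp (-κ) with had
  set t := Real.sqrt U with htd
  have ht : t ^ 2 = U := Real.sq_sqrt hU0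
  have ht0 : 0 < t := Real.sqrt_pos.2 hUp
  have ht1 : t ≤ 1 / 10 := by
    apply le_of_sq_le_sq _ (by norm_num)
    rw [ht]
    linarith
  have hx2 : 0 ≤ x ^ 2 := sq_nonneg x
  have hq := F.U_eq
  unfold q4 at hq
  -- `s`
  have hs1 : s ≤ 7 / 200 := by
    have h1 : (1 + 8 * s + 8 * s ^ 2) ≤ 7 / 2 := by nlinarith only [hs, hsp]
    have h2 := mul_le_mul h1 hU hU0 (by norm_num)
    linarith
  have hs2 : s ≤ 13 / 1000 := by
    have h1 : (1 + 8 * s + 8 * s ^ 2) ≤ 13 / 10 := by nlinarith only [hs1, hsp]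
    have h2 := mul_le_mul h1 hU hU0 (by norm_num)
    linarith
  have hxs : x ^ 2 + s ≤ 1106 / 1000 * U := by
    have h1 : (1 + 8 * s + 8 * s ^ 2) ≤ 1106 / 1000 := by nlinarith only [hs2, hsp]
    have h2 := mul_le_mul_of_nonneg_right h1 hU0
    linarith
  have hv : v ≤ U := F.v_le_U
  have hA : A ≤ t := by
    apply le_of_sq_le_sq _ ht0.le
    rw [ht]
    refine X.A_sq.trans (le_trans ?_ hv)
    apply mul_le_of_le_one_left hv0
    exact pow_le_one₀ ha0.le ha1.le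
  have hx : x ≤ 1052 / 1000 * t := by
    apply le_of_sq_le_sq _ (by positivity)
    rw [mul_pow, ht]
    linarith
  have hSt : S ≤ 1052 / 1000 * t := by
    apply le_of_sq_le_sq _ (by positivity)
    rw [hSs, mul_pow, ht]
    linarith
  have ho : o ≤ 1052 / 1000 * t := F.o_le_x.trans hx
  have hpl : 8948 / 10000 ≤ p := by
    have := F.p_ge
    linarith
  have hal : 8948 / 10000 ≤ a := by
    have h1 : a = C - S := by rw [had, hCd, hSd, exp_neg_eq]
    linarith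
  -- `K`
  have hKl : (e / 2) ^ 2 ≤ 2 * KK e κ := by
    unfold KK
    nlinarith only [sq_nonneg (Real.tanh (e * κ / 2))]
  have hKu : KK e κ ≤ 216 / 100 := by
    have h1 := (th_le he he4 hκ).1
    rw [← hSd, hSs] at h1
    have h2 : s / (1 + s) ≤ 13 / 1000 := by
      rw [div_le_iff₀ (by linarith)]
      linarith only [hs2, hsp]
    have h3 : (e / 2) ^ 2 * (s / (1 + s)) ≤ 4 * (13 / 1000) := by
      apply mul_le_mul _ h2 (by positivity) (by norm_num)
      nlinarith only [he, he4]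
    unfold KK
    nlinarith only [h1, h3, he, he4]
  have t3 : t ^ 3 ≤ 1 / 10 * U := by
    rw [← ht]
    nlinarith only [mul_nonneg (sq_nonneg t) (sub_nonneg.2 ht1)]
  have t30 : 0 < t ^ 3 := by positivity
  have hUU : U ^ 2 ≤ 1 / 100 * U := by nlinarith only [hU, hU0]
  have hUU0 : 0 ≤ U ^ 2 := sq_nonneg U
  have hU3 : 0 ≤ U ^ 3 := by positivity
  have hU3' : U ^ 3 ≤ 1 / 10000 * U := by nlinarith only [mul_nonneg hU0 (sub_nonneg.2 hUU), hUU]
  -- products
  have hvA : v * A ≤ t ^ 3 := by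
    calc v * A ≤ U * t := mul_le_mul hv hA hA0 hU0
      _ = t ^ 3 := by rw [← ht]; ring
  have hKvA : KK e κ * v * A ≤ 22 / 100 * U := by
    calc KK e κ * v * A = KK e κ * (v * A) := by ring
      _ ≤ 216 / 100 * t ^ 3 := mul_le_mul hKu hvA (by positivity) (by norm_num)
      _ ≤ 22 / 100 * U := by linarith
  have hKvA0 : 0 ≤ KK e κ * v * A := by positivity
  have hKvo : KK e κ * v * o ≤ 24 / 100 * U := by
    calc KK e κ * v * o = KK e κ * (v * o) := by ring
      _ ≤ 216 / 100 * (U * (1052 / 1000 * t)) := by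
          apply mul_le_mul hKu _ (by positivity) (by norm_num)
          exact mul_le_mul hv ho ho0 hU0
      _ = 216 / 100 * (1052 / 1000) * t ^ 3 := by rw [← ht]; ring
      _ ≤ 24 / 100 * U := by linarith
  have ho1 : o ≤ 1052 / 10000 := by linarith
  have hx1 : x ≤ 1052 / 10000 := by linarith
  have hS1 : S ≤ 1052 / 10000 := by linarith
  have hde : 22 / 100 * U * o ≤ 24 / 1000 * U := by nlinarith only [mul_nonneg hU0 (sub_nonneg.2 ho1), hU0]
  have heta : KK e κ * A * o * (2 * x + 24 / 1000 * U) ≤ 1 / 2 * U := by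
    have h1 : A * o ≤ 1052 / 1000 * U := by
      calc A * o ≤ t * (1052 / 1000 * t) := mul_le_mul hA ho ho0 ht0.le
        _ = 1052 / 1000 * U := by rw [← ht]; ring
    have h2 : KK e κ * (A * o) ≤ 216 / 100 * (1052 / 1000 * U) :=
      mul_le_mul hKu h1 (by positivity) (by norm_num)
    have h3 : 2 * x + 24 / 1000 * U ≤ 2107 / 10000 := by linarith
    calc KK e κ * A * o * (2 * x + 24 / 1000 * U) = KK e κ * (A * o) * (2 * x + 24 / 1000 * U) := by
          ring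
      _ ≤ 216 / 100 * (1052 / 1000 * U) * (2107 / 10000) :=
          mul_le_mul h2 h3 (by positivity) (by positivity)
      _ ≤ 1 / 2 * U := by linarith
  have hW : 1 + 23 / 10 * U + 24 / 1000 * U ≤ ‖2 * (Real.cosh κ : ℂ) - P‖ := by
    apply le_of_sq_le_sq _ (norm_nonneg _)
    refine le_trans ?_ F.W_sq
    have h2 : 0 ≤ (20 * s + 16 * s ^ 2) * U := by positivity
    nlinarith only [h2, hUU, hU0]
  -- the bound of `lder`
  have hlder : ∀ y : ℂ, ‖y - (a : ℂ)‖ ≤ 103 / 1000 → ‖y - (a : ℂ)‖ ≤ a / 2 → ‖y‖ ≤ 1 →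
      ‖lder e y‖ ≤ 361 / 100 / ‖y‖ := by
    intro y h1 h2 h3
    have h4 : ‖y‖ ^ e ≤ 1 := Real.rpow_le_one (norm_nonneg _) h3 (by linarith)
    refine lder_le he he4 ha0 h2 (ρ := 1) (σ := 12 / 100) (c := 0) h4 le_rfl le_rfl (by norm_num)
      (Or.inr (Or.inr ⟨by linarith, by norm_num, by norm_num, by norm_num⟩)) (by norm_num) ?_
    nlinarith only [he, he4]
  have hPA : ‖P - (a : ℂ)‖ ≤ t := by rw [← F.A_def]; exact hA
  have hWp : (0 : ℝ) < 1 + 23 / 10 * U := by positivity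
  have hC1s : C ≤ 1 + s / 2 := by
    apply le_of_sq_le_sq _ (by positivity)
    rw [hCs]
    nlinarith only [sq_nonneg s]
  -- the exponent
  obtain ⟨ε, hε⟩ : ∃ ε, ε = e / 2 - 1 := ⟨_, rfl⟩
  have hε0 : 0 ≤ ε := by linarith
  have hε1 : ε ≤ 1 := by linarith
  have hE : e / 2 = 1 + ε := by linarith
  have hc1 : cc (e / 2) 1 = (1 + ε) * ε / 2 := by rw [cc_one, hE]; ring
  have hc2 : cc (e / 2) 2 = (1 + ε) * ε * ((1 - ε) * (2 - ε)) / 24 := by rw [cc_two, hE]; ring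
  have hc20 : 0 ≤ cc (e / 2) 2 := by
    rw [hc2]
    have : 0 ≤ 1 - ε := by linarith
    have : 0 ≤ 2 - ε := by linarith
    positivity
  have hc2' : cc (e / 2) 2 ≤ (1 + ε) * ε / 12 := by
    rw [hc2]
    have h1 : (1 - ε) * (2 - ε) ≤ 2 := by nlinarith only [hε0, hε1]
    have h2 : (1 + ε) * ε * ((1 - ε) * (2 - ε)) ≤ (1 + ε) * ε * 2 :=
      mul_le_mul_of_nonneg_left h1 (by positivity)
    linarith
  rw [hE] at hc1 hc2 hc20 hc2' hKl
  have hC2 : 1 - 1 / C ^ 2 ≤ s := by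
    rw [hCs, sub_le_iff_le_add, ← sub_le_iff_le_add']
    rw [le_div_iff₀ (by linarith)]
    nlinarith only [sq_nonneg s]
  have hC20 : 0 ≤ 1 - 1 / C ^ 2 := by
    rw [sub_nonneg, div_le_one (by positivity), hCs]
    linarith
  have htb : 23 / 1000 / (1 - 23 / 1000) ≤ (24 / 1000 : ℝ) := by norm_num
  have htb0 : (0 : ℝ) ≤ 23 / 1000 / (1 - 23 / 1000) := by norm_num
  refine ⟨⟨1, 22 / 100 * U, 24 / 1000 * U, 1 / 2 * U, 24 / 100 * U, 1 + 23 / 10 * U, 1 - 58 / 10 * U,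
    22 / 100 * U, 41 / 10, 22 / 100 * U, 103 / 1000, 361 / 100, 1 / (1 + 23 / 10 * U),
    1 + 45 / 100 * U, 1 - 66 / 10 * U, 1 / 2 * U, 89 / 100, 99 / 100, 1, 24 / 1000 * U,
    1 - 57 / 100 * U, 99 / 100, 57 / 100 * U, 23 / 1000, 97 / 100, 53 / 100 * ε, 18 / 100 * ε,
    1 + 2 / 100 * ε, 165 / 100 * (1 + ε) ^ 2, 3 * U⟩, ?_, ?_, ?_, ?_, ?_, ?_⟩
  · -- Num13
    refine ⟨le_rfl, hg, ?_, hde, ?_, ?_, hWp, hW, ?_, ?_, ?_, by norm_num, ?_, ?_, ?_, ?_, ?_,
      by norm_num, ?_, ?_, ?_, ?_, ?_⟩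
    · linarith
    · linarith
    · linarith
    · -- hG
      have h1 : a * (1 + 1 / 2 * U) * (1 + 24 / 100 * U) ≤ 1 + 742 / 1000 * U := by
        calc a * (1 + 1 / 2 * U) * (1 + 24 / 100 * U) ≤ 1 * (1 + 1 / 2 * U) * (1 + 24 / 100 * U) := by
              gcongr
          _ ≤ 1 + 742 / 1000 * U := by nlinarith only [hUU, hU0]
      refine h1.trans ?_
      have h4 : 1 + 69 / 10 * U + 1587 / 100 * U ^ 2 ≤ (1 + 23 / 10 * U) ^ 3 := by
        have : (1 + 23 / 10 * U) ^ 3 = 1 + 69 / 10 * U + 3 * (23 / 10) ^ 2 * U ^ 2 +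
            (23 / 10) ^ 3 * U ^ 3 := by ring
        rw [this]
        linarith
      have h5 : 0 ≤ 1 - 58 / 10 * U := by linarith
      refine le_trans ?_ (mul_le_mul_of_nonneg_left h4 h5)
      nlinarith only [hUU, hU3', hU0, hUU0, hU3]
    · -- hRp
      have : 0 ≤ 22 / 100 * U := by positivity
      nlinarith only [mul_nonneg this (sub_nonneg.2 hp1)]
    · have : 0 ≤ 22 / 100 * U := by positivity
      nlinarith only [mul_nonneg this (sub_nonneg.2 ho1), this]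
    · -- hl
      intro y h1 h2 h3
      have h4 : ‖y - (a : ℂ)‖ ≤ 103 / 1000 := by
        have e1 : y - (a : ℂ) = (y - P) + (P - (a : ℂ)) := by ring
        have h5 := norm_add_le (y - P) (P - (a : ℂ))
        rw [← e1] at h5
        linarith
      have h5 : 89 / 100 ≤ ‖y‖ := by
        have e1 : P = y - (y - P) := by ring
        have h6 := norm_sub_le y (y - P)
        rw [← e1, ← F.p_def] at h6
        linarith
      refine (hlder y h4 h2 h3).trans ?_
      rw [div_le_iff₀ (by linarith)]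
      linarith
    · linarith
    · -- hT3
      have h1 : p ^ 2 + o ^ 2 ≤ 102 / 100 := by
        have h2 : p ^ 2 ≤ 1 := by nlinarith only [hp0, hp1]
        have h3 : o ^ 2 ≤ (1052 / 10000) ^ 2 := pow_le_pow_left₀ ho0 ho1 2
        linarith
      have h2 : 41 / 10 * (22 / 100 * U) * (p ^ 2 + o ^ 2) ≤ 41 / 10 * (22 / 100 * U) * (102 / 100) :=
        mul_le_mul_of_nonneg_left h1 (by positivity)
      nlinarith only [h2, hUU, hU0]
    · -- hdp
      have : KK e κ * v * A * (1 - 58 / 10 * U) ≤ KK e κ * v * A :=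
        mul_le_of_le_one_right hKvA0 (by linarith)
      linarith
    · -- hsg
      have h1 : a * A * (1 + 24 / 100 * U) ≤ 1 * (1 / 10) * (1 + 24 / 10000) := by
        have : A ≤ 1 / 10 := hA.trans ht1
        have : (1 + 24 / 100 * U) ≤ 1 + 24 / 10000 := by linarith
        gcongr
      linarith
    · -- hL
      intro y _ h1 h2 h3
      exact hlder y h1 h2 h3
    · linarith
    · -- hwp
      have h1 : 0 < 1 / (1 + 23 / 10 * U) := by positivity
      have h2 : 1 / (1 + 23 / 10 * U) ≤ 1 := by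
        rw [div_le_one hWp]
        linarith
      have h3 := Real.rpow_le_rpow_of_exponent_ge h1 h2 (show (1 : ℝ) ≤ e - 1 by linarith)
      rwa [Real.rpow_one] at h3
    · -- htp
      have h1 := Real.rpow_le_rpow_of_exponent_le (show (1 : ℝ) ≤ 1 + 22 / 100 * U by linarith)
        (show e - 2 ≤ (2 : ℝ) by linarith)
      refine h1.trans ?_
      rw [Real.rpow_two]
      nlinarith only [hUU, hU0]
    · -- hT1
      have e1 : (1 - 58 / 10 * U) * (1 / (1 + 23 / 10 * U)) * (1 + 45 / 100 * U) *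
          (1 - 22 / 100 * U) =
          (1 - 58 / 10 * U) * (1 + 45 / 100 * U) * (1 - 22 / 100 * U) / (1 + 23 / 10 * U) := by
        ring
      rw [e1, div_le_iff₀ hWp]
      nlinarith only [hUU, hU3', hU0, hUU0, hU3]
  · -- Num2
    refine ⟨by norm_num, ?_, ?_, by norm_num, ?_, ?_, by norm_num, ?_, ?_, ?_, ?_, ?_, ?_,
      by norm_num, by norm_num, ?_, ?_, ?_, ?_, by positivity, ?_, ?_⟩
    · linarith
    · linarith
    · linarith
    · linarith
    · -- hdm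
      have h1 : 24 / 1000 * U * (o * (1 + p) + 24 / 1000 * U) ≤ 1 * 1 := by
        apply mul_le_mul (by linarith) _ (by positivity) (by norm_num)
        nlinarith only [mul_nonneg ho0 (sub_nonneg.2 hp1), ho1, hU]
      have h2 : 1 * (2 * (8948 / 10000) * (89 / 100)) ≤ 1 * (2 * p * (89 / 100)) := by linarith
      linarith
    · -- hrY
      right
      linarith
    · -- hdW
      have h1 : 1 ≤ (1 + 23 / 10 * U) ^ 2 := one_le_pow₀ (by linarith)
      have h2 : 0 ≤ 24 / 1000 * U := by positivity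
      nlinarith only [mul_nonneg h2 (sub_nonneg.2 h1)]
    · -- hrW
      have hp2 : p ^ 2 ≤ 1 := by nlinarith only [hp0, hp1]
      obtain ⟨q, hqd⟩ : ∃ q, q = 2 + 2 * s + 2 * x ^ 2 - p ^ 2 := ⟨_, rfl⟩
      have hq1 : 1 ≤ q := by linarith
      have e1 : 3 + 3 * s + x ^ 2 - p ^ 2 = q + 1 + s - x ^ 2 := by linarith
      have e2 : 3 + 2 * s + 2 * x ^ 2 - p ^ 2 = q + 1 := by linarith
      rw [← hqd, e1, e2]
      have h1 : (99 / 100 + 24 / 1000 * U) * (4 * C * q) ≤ 4 * q * (1 - x ^ 2 / 2) := by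
        have h2 : (99 / 100 + 24 / 1000 * U) * C ≤ 1 - x ^ 2 / 2 := by
          have h3 : (99 / 100 + 24 / 1000 * U) * C ≤ (9903 / 10000) * (1 + s / 2) :=
            mul_le_mul (by linarith) hC1s (by linarith) (by norm_num)
          linarith
        calc (99 / 100 + 24 / 1000 * U) * (4 * C * q) = 4 * q * ((99 / 100 + 24 / 1000 * U) * C) := by
              ring
          _ ≤ 4 * q * (1 - x ^ 2 / 2) := mul_le_mul_of_nonneg_left h2 (by positivity)
      refine h1.trans ?_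
      nlinarith only [sq_nonneg (q - 1), mul_nonneg hx2 (sub_nonneg.2 hq1), mul_nonneg hsp.le (sub_nonneg.2 hq1), hsp]
    · -- hRr
      have h1 : v * (1 + 1 / 2 * U) ≤ U * (1 + 1 / 200) :=
        mul_le_mul hv (by linarith) (by positivity) hU0
      linarith
    · -- htb
      have h1 : 57 / 100 * U / C ^ 2 ≤ 57 / 100 * U := by
        apply div_le_self (by positivity)
        rw [hCs]
        linarith
      have h2 : 1 / (99 / 100) + C / (99 / 100) ^ 2 ≤ (205 / 100 : ℝ) := by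
        have : C / (99 / 100) ^ 2 ≤ (1 + 13 / 2000) / (99 / 100) ^ 2 := by
          apply div_le_div_of_nonneg_right _ (by norm_num)
          linarith
        refine le_trans (add_le_add le_rfl this) ?_
        norm_num
      have h3 : 57 / 100 * U / C ^ 2 * (1 / (99 / 100) + C / (99 / 100) ^ 2) ≤
          57 / 100 * U * (205 / 100) := by
        apply mul_le_mul h1 h2 _ (by positivity)
        have : 0 < C := by linarith
        positivity
      linarith
    · -- hP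
      rw [hE, hc1]
      have h1 : (1 - 1 / (99 / 100) ^ 2 : ℝ) = -(199 / 9801) := by norm_num
      rw [h1]
      nlinarith only [hε0, hε1, mul_nonneg hε0 (sub_nonneg.2 hε1)]
    · -- hlb
      rw [hE, hc1]
      have h1 : 2 * cc (1 + ε) 2 * (23 / 1000 / (1 - 23 / 1000)) ≤
          2 * ((1 + ε) * ε / 12) * (24 / 1000) := by gcongr
      have h2 : 0 ≤ (1 + ε) * ε := by positivity
      nlinarith only [h1, h2]
    · -- hpb
      rw [hE]
      have h1 : 3 * cc (1 + ε) 2 * (23 / 1000 / (1 - 23 / 1000)) ≤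
          3 * ((1 + ε) * ε / 12) * (24 / 1000) := by gcongr
      have h2 : 0 ≤ (1 + ε) * ε := by positivity
      nlinarith only [h1, h2, hc2']
    · -- hPk
      rw [hE, hc1]
      have h1 : 1 - 1 / C ^ 2 ≤ 13 / 1000 := hC2.trans hs2
      have h2 : (1 - 1 / C ^ 2) ^ 2 ≤ (13 / 1000) ^ 2 := pow_le_pow_left₀ hC20 h1 2
      have h3 : (1 + ε) * ε / 2 * (1 - 1 / C ^ 2) ≤ (1 + ε) * ε / 2 * (13 / 1000) :=
        mul_le_mul_of_nonneg_left h1 (by positivity)
      have h40 : 0 ≤ 1 + ε - 1 - (1 + ε) * ε / 2 := by nlinarith only [mul_nonneg hε0 (sub_nonneg.2 hε1)]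
      have h4 : (1 + ε - 1 - (1 + ε) * ε / 2) * (1 - 1 / C ^ 2) ^ 2 ≤
          (1 + ε - 1 - (1 + ε) * ε / 2) * (13 / 1000) ^ 2 :=
        mul_le_mul_of_nonneg_left h2 h40
      nlinarith only [h3, h4, mul_nonneg hε0 (sub_nonneg.2 hε1), hε0]
    · -- hM
      rw [hE]
      have h1 : 1 + ((1 + 2 / 100 * ε) / (97 / 100) - 1) / (1 + ε) ≤ 1052 / 1000 := by
        have h2 : ((1 + 2 / 100 * ε) / (97 / 100) - 1) / (1 + ε) ≤
            (1 + 2 / 100 * ε) / (97 / 100) - 1 := by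
          apply div_le_self
          · linarith
          · linarith
        linarith
      have h2 : 1 + 5 / (99 / 100) ^ 2 * (53 / 100 * ε) +
          2 / (99 / 100) ^ 4 * ((1 + (1 + ε)) * (53 / 100 * ε) ^ 2 + 18 / 100 * ε) ≤
          1 + 28 / 10 * ε + 209 / 100 * ((2 + ε) * (281 / 1000 * ε ^ 2) + 18 / 100 * ε) := by
        have h3 : 5 / (99 / 100) ^ 2 * (53 / 100 * ε) ≤ 28 / 10 * ε := by
          have : (5 / (99 / 100) ^ 2 * (53 / 100) : ℝ) ≤ 28 / 10 := by norm_num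
          nlinarith only [mul_nonneg hε0 (sub_nonneg.2 this)]
        have h4 : 2 / (99 / 100) ^ 4 * ((1 + (1 + ε)) * (53 / 100 * ε) ^ 2 + 18 / 100 * ε) ≤
            209 / 100 * ((2 + ε) * (281 / 1000 * ε ^ 2) + 18 / 100 * ε) := by
          apply mul_le_mul (by norm_num) _ (by positivity) (by norm_num)
          have h5 : 0 ≤ (2 + ε) * ε ^ 2 := by positivity
          nlinarith only [h5]
        linarith
      refine le_trans (mul_le_mul h1 h2 (by positivity) (by norm_num)) ?_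
      have h5 : ε ^ 3 ≤ ε ^ 2 := by
        have : 0 ≤ ε ^ 2 := sq_nonneg ε
        nlinarith only [mul_nonneg this (sub_nonneg.2 hε1)]
      nlinarith only [h5, hε0, hε1, mul_nonneg hε0 (sub_nonneg.2 hε1)]
    · -- hT2
      have h1 : x ^ 2 + x * S ≤ 1337 / 1000 * U := by
        have h2 : x ^ 2 + x * S ≤ 1208 / 1000 * (x ^ 2 + S ^ 2) := by
          nlinarith only [sq_nonneg (x - 2404 / 1000 * S), mul_nonneg hx0 hS.le, sq_nonneg S]
        rw [hSs] at h2
        linarith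
      have h2 : (x + 24 / 1000 * U) * (x + S) ≤ 1343 / 1000 * U := by
        have h3 : 24 / 1000 * U * (x + S) ≤ 24 / 1000 * U * (22 / 100) :=
          mul_le_mul_of_nonneg_left (by linarith) (by positivity)
        calc (x + 24 / 1000 * U) * (x + S) = (x ^ 2 + x * S) + 24 / 1000 * U * (x + S) := by ring
          _ ≤ 1343 / 1000 * U := by linarith
      have h3 : (1 + 1 / 2 * U) ^ 2 ≤ (1 + 1 / 200) ^ 2 :=
        pow_le_pow_left₀ (by positivity) (by linarith) 2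
      have h4 : 165 / 100 * (1 + ε) ^ 2 * (x + 24 / 1000 * U) * (x + S) * (1 + 1 / 2 * U) ^ 2 ≤
          165 / 100 * (1 + ε) ^ 2 * (1343 / 1000 * U) * (1 + 1 / 200) ^ 2 := by
        calc 165 / 100 * (1 + ε) ^ 2 * (x + 24 / 1000 * U) * (x + S) * (1 + 1 / 2 * U) ^ 2 =
              165 / 100 * (1 + ε) ^ 2 * ((x + 24 / 1000 * U) * (x + S)) * (1 + 1 / 2 * U) ^ 2 := by
              ring
          _ ≤ _ := by gcongr
      refine h4.trans ?_
      have h5 : (89 / 100 * (99 / 100) * (99 / 100)) * (1 + ε) ^ 2 ≤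
          2 * (1 + 23 / 10 * U) * (89 / 100) * (99 / 100) * (1 - 57 / 100 * U) * KK e κ := by
        calc (89 / 100 * (99 / 100) * (99 / 100)) * (1 + ε) ^ 2 ≤
              ((1 + 23 / 10 * U) * (89 / 100) * (99 / 100) * (1 - 57 / 100 * U)) * (2 * KK e κ) := by
              apply mul_le_mul _ hKl (by positivity)
              · have : 0 ≤ 1 - 57 / 100 * U := by linarith
                positivity
              · nlinarith only [hUU, hU0]
          _ = _ := by ring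
      have h6 := mul_le_mul_of_nonneg_left h5 (show 0 ≤ 3 * U by positivity)
      refine le_trans ?_ h6
      have h7 : 0 ≤ U * (1 + ε) ^ 2 := by positivity
      nlinarith only [h7]
  · show 0 ≤ 1 - 66 / 10 * U
    linarith
  · show 0 ≤ 3 * U
    positivity
  · show 0 ≤ 1 / 2 * U
    positivity
  · show 1 - 66 / 10 * U + 5 / 3 * (3 * U) + 1 / 2 * U ≤ 1 - U
    linarith

end Pool.Agent.helper4.EQW4
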