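import Pool.Agent.helper4.EQW4.N2
import Pool.Agent.helper4.EQW.Var

/-!
# EQW4: derivatives of `γ` on the disc `‖z - a‖ ≤ a/2`, variation of `Γ'` on balls
-/

namespace Pool.Agent.helper4.EQW4

open Complex Set Metric
open Pool.Agent.helper31.EQ.W (c2 gl gs nxt wn FW)
open Pool.Agent.helper4.EQW (f0 h0 G1 c2_pos disc_ne disc_slit disc_norm_pos f0_deriv
  mul_cpow_sub_one norm_G1 Ball ball_ge)

noncomputable section

/-- `Γ''/Γ'` -/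
def lder (e : ℝ) (z : ℂ) : ℂ := (1 - ((e : ℂ) + 1) * z ^ (e : ℂ)) / (z * (1 + z ^ (e : ℂ)))

end

variable {a e κ : ℝ} {z : ℂ}

/-- `Γ' = G1` -/
theorem gs_deriv' (he : 0 < e) (ha : 0 < a) (hz : ‖z - (a : ℂ)‖ ≤ a / 2) (hs : f0 e z ∈ slitPlane) :
    HasDerivAt (fun z => (c2 e κ : ℂ) * gs e z) (G1 e κ z) z := by
  have hf := f0_deriv (e := e) ha hz
  have hz0 := disc_ne ha hz
  have hf0 : f0 e z ≠ 0 := slitPlane_ne_zero hs
  have h1 : HasDerivAt (fun z => f0 e z ^ (-((2 / e : ℝ) : ℂ)))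
      (-((2 / e : ℝ) : ℂ) * f0 e z ^ (-((2 / e : ℝ) : ℂ) - 1) * ((e : ℂ) * z ^ ((e : ℂ) - 1) / 2)) z :=
    hf.cpow_const hs
  have h2 : HasDerivAt (fun z : ℂ => z ^ 2) (2 * z) z := by
    simpa using hasDerivAt_pow 2 z
  have h3 := (h2.mul h1).const_mul (c2 e κ : ℂ)
  have hfun : (fun z => (c2 e κ : ℂ) * gs e z) =
      fun y => (c2 e κ : ℂ) * ((fun z : ℂ => z ^ 2) * fun z => f0 e z ^ (-((2 / e : ℝ) : ℂ))) y := by
    funext y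
    rfl
  rw [hfun]
  refine h3.congr_deriv ?_
  symm
  unfold G1
  have e1 : -((2 / e : ℝ) : ℂ) - 1 = -((1 + 2 / e : ℝ) : ℂ) := by push_cast; ring
  have e2 : f0 e z ^ (-((2 / e : ℝ) : ℂ)) = f0 e z ^ (-((1 + 2 / e : ℝ) : ℂ)) * f0 e z := by
    have : -((2 / e : ℝ) : ℂ) = -((1 + 2 / e : ℝ) : ℂ) + 1 := by push_cast; ring
    rw [this, Complex.cpow_add _ _ hf0, Complex.cpow_one]
  rw [e1, e2]
  have e3 : f0 e z = (1 + z * z ^ ((e : ℂ) - 1)) / 2 := by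
    rw [mul_cpow_sub_one hz0]
    rfl
  have he' : (e : ℂ) ≠ 0 := by exact_mod_cast he.ne'
  set g := f0 e z ^ (-((1 + 2 / e : ℝ) : ℂ)) with hg
  rw [e3]
  push_cast
  field_simp
  ring

/-- `d/dy γ(1/y) = - y^(e-1) (..)^(-(1+2/e))` -/
theorem h0_deriv' (he : 0 < e) (ha : 0 < a) (hz : ‖z - (a : ℂ)‖ ≤ a / 2) (hs : f0 e z ∈ slitPlane) :
    HasDerivAt (h0 e) (-(z ^ ((e : ℂ) - 1) * f0 e z ^ (-((1 + 2 / e : ℝ) : ℂ)))) z := by
  have hf := f0_deriv (e := e) ha hz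
  have h1 : HasDerivAt (h0 e)
      (-((2 / e : ℝ) : ℂ) * f0 e z ^ (-((2 / e : ℝ) : ℂ) - 1) * ((e : ℂ) * z ^ ((e : ℂ) - 1) / 2)) z :=
    hf.cpow_const hs
  refine h1.congr_deriv ?_
  symm
  have e1 : -((2 / e : ℝ) : ℂ) - 1 = -((1 + 2 / e : ℝ) : ℂ) := by push_cast; ring
  rw [e1]
  have he' : (e : ℂ) ≠ 0 := by exact_mod_cast he.ne'
  push_cast
  field_simp

/-- `Γ'' = Γ' lder` -/
theorem G1_deriv' (he : 0 < e) (ha : 0 < a) (hz : ‖z - (a : ℂ)‖ ≤ a / 2) (hs : f0 e z ∈ slitPlane) :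
    HasDerivAt (G1 e κ) (G1 e κ z * lder e z) z := by
  unfold lder
  have hf := f0_deriv (e := e) ha hz
  have hz0 := disc_ne ha hz
  have hf0 : f0 e z ≠ 0 := slitPlane_ne_zero hs
  have h1 : HasDerivAt (fun z => f0 e z ^ (-((1 + 2 / e : ℝ) : ℂ)))
      (-((1 + 2 / e : ℝ) : ℂ) * f0 e z ^ (-((1 + 2 / e : ℝ) : ℂ) - 1) *
        ((e : ℂ) * z ^ ((e : ℂ) - 1) / 2)) z :=
    hf.cpow_const hs
  have h2 : HasDerivAt (fun z : ℂ => (c2 e κ : ℂ) * z) (c2 e κ : ℂ) z := by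
    simpa using (hasDerivAt_id z).const_mul (c2 e κ : ℂ)
  have h3 := h2.mul h1
  have hfun : G1 e κ = (fun z : ℂ => (c2 e κ : ℂ) * z) *
      fun z => f0 e z ^ (-((1 + 2 / e : ℝ) : ℂ)) := by
    funext y
    rfl
  rw [hfun]
  refine h3.congr_deriv ?_
  symm
  have e2 : f0 e z ^ (-((1 + 2 / e : ℝ) : ℂ) - 1) = f0 e z ^ (-((1 + 2 / e : ℝ) : ℂ)) / f0 e z := by
    rw [Complex.cpow_sub _ _ hf0, Complex.cpow_one]
  rw [e2]
  have e3 : z ^ (e : ℂ) = z * z ^ ((e : ℂ) - 1) := (mul_cpow_sub_one hz0).symm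
  have e4 : f0 e z = (1 + z * z ^ ((e : ℂ) - 1)) / 2 := by
    rw [← e3]
    rfl
  have e5 : 1 + z * z ^ ((e : ℂ) - 1) ≠ 0 := by
    intro h
    rw [e4, h] at hf0
    simp at hf0
  have he' : (e : ℂ) ≠ 0 := by exact_mod_cast he.ne'
  simp only [Pi.mul_apply]
  set g := f0 e z ^ (-((1 + 2 / e : ℝ) : ℂ)) with hg
  rw [e4, e3]
  push_cast
  field_simp
  ring

theorem G1_ne' (ha : 0 < a) (hz : ‖z - (a : ℂ)‖ ≤ a / 2) (hs : f0 e z ∈ slitPlane) :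
    G1 e κ z ≠ 0 := by
  unfold G1
  refine mul_ne_zero (mul_ne_zero (by exact_mod_cast (c2_pos e κ).ne') (disc_ne ha hz)) ?_
  rw [Complex.cpow_def_of_ne_zero (slitPlane_ne_zero hs)]
  exact exp_ne_zero _

theorem ball_slit {R : ℝ} {P : ℂ} (he : 0 ≤ e) (he4 : e ≤ 4) (h : Ball a R P) (hz : ‖z - P‖ ≤ R) :
    f0 e z ∈ slitPlane := f0_slit4 he he4 h.ha (h.disc hz) (h.le_one hz)

variable {R l : ℝ} {P : ℂ}

theorem var_bound4 (he : 0 < e) (he4 : e ≤ 4) (h : Ball a R P) (hl0 : 0 ≤ l)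
    (hl : ∀ y : ℂ, ‖y - P‖ ≤ R → ‖lder e y‖ ≤ l) (hlR : l * R < 1) (hz : ‖z - P‖ ≤ R) :
    ‖G1 e κ z‖ ≤ ‖G1 e κ P‖ / (1 - l * R) ∧
    ‖G1 e κ z - G1 e κ P‖ ≤ l * (‖G1 e κ P‖ / (1 - l * R)) * ‖z - P‖ := by
  have hder : ∀ y ∈ closedBall P R, HasDerivAt (G1 e κ) (G1 e κ y * lder e y) y := by
    intro y hy
    rw [mem_closedBall, dist_eq_norm] at hy
    exact G1_deriv' he h.ha (h.disc hy) (ball_slit he.le he4 h hy)
  have hcont : ContinuousOn (fun y => ‖G1 e κ y‖) (closedBall P R) := by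
    intro y hy
    exact (hder y hy).continuousAt.norm.continuousWithinAt
  obtain ⟨w, hw, hmax⟩ := (isCompact_closedBall P R).exists_isMaxOn
    ⟨P, mem_closedBall_self h.hR⟩ hcont
  have hM : ∀ y ∈ closedBall P R, ‖G1 e κ y‖ ≤ ‖G1 e κ w‖ := fun y hy => hmax hy
  set M := ‖G1 e κ w‖ with hMd
  have hM0 : 0 ≤ M := norm_nonneg _
  have hbd : ∀ y ∈ closedBall P R, ‖G1 e κ y * lder e y‖ ≤ l * M := by
    intro y hy
    have hy' := hy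
    rw [mem_closedBall, dist_eq_norm] at hy'
    rw [norm_mul, mul_comm]
    exact mul_le_mul (hl y hy') (hM y hy) (norm_nonneg _) hl0
  have hlip : ∀ y ∈ closedBall P R, ‖G1 e κ y - G1 e κ P‖ ≤ l * M * ‖y - P‖ := by
    intro y hy
    exact (convex_closedBall P R).norm_image_sub_le_of_norm_hasDerivWithin_le
      (fun x hx => (hder x hx).hasDerivWithinAt) hbd (mem_closedBall_self h.hR) hy
  have hMP : M * (1 - l * R) ≤ ‖G1 e κ P‖ := by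
    have h1 := hlip w hw
    have h2 : ‖w - P‖ ≤ R := by
      rw [mem_closedBall, dist_eq_norm] at hw
      exact hw
    have h3 : ‖G1 e κ w‖ ≤ ‖G1 e κ w - G1 e κ P‖ + ‖G1 e κ P‖ := by
      have := norm_add_le (G1 e κ w - G1 e κ P) (G1 e κ P)
      rwa [sub_add_cancel] at this
    have h4 : l * M * ‖w - P‖ ≤ l * M * R := mul_le_mul_of_nonneg_left h2 (by positivity)
    nlinarith
  have h1l : 0 < 1 - l * R := by linarith
  have hMP' : M ≤ ‖G1 e κ P‖ / (1 - l * R) := (le_div_iff₀ h1l).2 hMP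
  have hzb : z ∈ closedBall P R := by rw [mem_closedBall, dist_eq_norm]; exact hz
  refine ⟨(hM z hzb).trans hMP', (hlip z hzb).trans ?_⟩
  gcongr

/-- Second order Taylor estimate. -/
theorem taylor4 (he : 0 < e) (he4 : e ≤ 4) (h : Ball a R P) (hl0 : 0 ≤ l)
    (hl : ∀ y : ℂ, ‖y - P‖ ≤ R → ‖lder e y‖ ≤ l) (hlR : l * R < 1) {k : ℂ} (hk : ‖k‖ ≤ R) :
    ‖(c2 e κ : ℂ) * gs e (P + k) - (c2 e κ : ℂ) * gs e P - k * G1 e κ P‖ ≤
      l * (‖G1 e κ P‖ / (1 - l * R)) * ‖k‖ ^ 2 / 2 := by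
  set L := l * (‖G1 e κ P‖ / (1 - l * R)) with hL
  have hseg : ∀ τ : ℝ, 0 ≤ τ → τ ≤ 1 → ‖(P + (τ : ℂ) * k) - P‖ ≤ R := by
    intro τ h0 h1
    rw [add_sub_cancel_left, norm_mul, Complex.norm_real, Real.norm_of_nonneg h0]
    have := norm_nonneg k
    nlinarith
  have hder : ∀ τ : ℝ, 0 ≤ τ → τ ≤ 1 → HasDerivAt
      (fun τ : ℝ => (c2 e κ : ℂ) * gs e (P + (τ : ℂ) * k) - (c2 e κ : ℂ) * gs e P -
        (τ : ℂ) * (k * G1 e κ P)) (k * (G1 e κ (P + (τ : ℂ) * k) - G1 e κ P)) τ := by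
    intro τ h0 h1
    have d1 : HasDerivAt (fun τ : ℝ => P + (τ : ℂ) * k) k τ := by
      have := ((Complex.ofRealCLM.hasDerivAt (x := τ)).mul_const k).const_add P
      simpa using this
    have d2 := (gs_deriv' (κ := κ) he h.ha (h.disc (hseg τ h0 h1))
      (ball_slit he.le he4 h (hseg τ h0 h1))).comp τ d1
    have d3 : HasDerivAt (fun τ : ℝ => (τ : ℂ) * (k * G1 e κ P)) (k * G1 e κ P) τ := by
      have := (Complex.ofRealCLM.hasDerivAt (x := τ)).mul_const (k * G1 e κ P)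
      simpa using this
    have d4 := (d2.sub_const ((c2 e κ : ℂ) * gs e P)).sub d3
    refine d4.congr_deriv ?_
    ring
  have hres := image_norm_le_of_norm_deriv_right_le_deriv_boundary
    (f := fun τ : ℝ => (c2 e κ : ℂ) * gs e (P + (τ : ℂ) * k) - (c2 e κ : ℂ) * gs e P -
        (τ : ℂ) * (k * G1 e κ P))
    (f' := fun τ : ℝ => k * (G1 e κ (P + (τ : ℂ) * k) - G1 e κ P))
    (a := 0) (b := 1) (B := fun τ : ℝ => L * ‖k‖ ^ 2 * (τ ^ 2 / 2))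
    (B' := fun τ : ℝ => L * ‖k‖ ^ 2 * τ)
    (fun τ hτ => (hder τ hτ.1 hτ.2).continuousAt.continuousWithinAt)
    (fun τ hτ => (hder τ hτ.1 hτ.2.le).hasDerivWithinAt)
    (by simp)
    (by
      intro τ
      have d1 : HasDerivAt (fun τ : ℝ => τ ^ 2 / 2) τ τ := by
        have := (hasDerivAt_pow 2 τ).div_const 2
        refine this.congr_deriv ?_
        simp
      exact d1.const_mul _)
    (by
      intro τ hτ
      have h1 := (var_bound4 (κ := κ) he he4 h hl0 hl hlR (hseg τ hτ.1 hτ.2.le)).2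
      rw [← hL, add_sub_cancel_left, norm_mul, Complex.norm_real, Real.norm_of_nonneg hτ.1] at h1
      show ‖k * (G1 e κ (P + (τ : ℂ) * k) - G1 e κ P)‖ ≤ L * ‖k‖ ^ 2 * τ
      rw [norm_mul]
      have h2 := mul_le_mul_of_nonneg_left h1 (norm_nonneg k)
      calc ‖k‖ * ‖G1 e κ (P + (τ : ℂ) * k) - G1 e κ P‖ ≤ ‖k‖ * (L * (τ * ‖k‖)) := h2
        _ = L * ‖k‖ ^ 2 * τ := by ring)
  have hfin := hres (right_mem_Icc.2 zero_le_one)
  simp only [Complex.ofReal_one, one_mul] at hfin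
  refine hfin.trans (le_of_eq ?_)
  ring

/-- The error of the linearisation at `P` between `P - dP` and `P + d(1-P)`. -/
theorem T3_bound4 (he : 0 < e) (he4 : e ≤ 4) (h : Ball a R P) (hl0 : 0 ≤ l)
    (hl : ∀ y : ℂ, ‖y - P‖ ≤ R → ‖lder e y‖ ≤ l) (hlR : l * R < 1) {d : ℂ}
    (h1 : ‖d‖ * ‖P‖ ≤ R) (h2 : ‖d‖ * ‖1 - P‖ ≤ R) :
    ‖(c2 e κ : ℂ) * gs e (P + d * (1 - P)) - (c2 e κ : ℂ) * gs e (P * (1 - d)) - d * G1 e κ P‖ ≤
      l * (‖G1 e κ P‖ / (1 - l * R)) * ‖d‖ ^ 2 * (‖P‖ ^ 2 + ‖1 - P‖ ^ 2) / 2 := by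
  have t1 := taylor4 (κ := κ) he he4 h hl0 hl hlR (k := d * (1 - P)) (by rw [norm_mul]; exact h2)
  have t2 := taylor4 (κ := κ) he he4 h hl0 hl hlR (k := -(d * P)) (by rw [norm_neg, norm_mul]; exact h1)
  have e1 : P + -(d * P) = P * (1 - d) := by ring
  rw [e1] at t2
  have e2 : (c2 e κ : ℂ) * gs e (P + d * (1 - P)) - (c2 e κ : ℂ) * gs e (P * (1 - d)) -
      d * G1 e κ P = ((c2 e κ : ℂ) * gs e (P + d * (1 - P)) - (c2 e κ : ℂ) * gs e P -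
        d * (1 - P) * G1 e κ P) - ((c2 e κ : ℂ) * gs e (P * (1 - d)) - (c2 e κ : ℂ) * gs e P -
        -(d * P) * G1 e κ P) := by ring
  rw [e2]
  refine (norm_sub_le _ _).trans ?_
  rw [norm_neg, norm_mul] at t2
  rw [norm_mul] at t1
  refine (add_le_add t1 t2).trans (le_of_eq ?_)
  ring

/-- `Γ` of the next node: `w' = W/(1-d')`, `P' = 1/W`. -/
theorem T1_bound4 (he : 2 ≤ e) (he4 : e ≤ 4) {d : ℂ} (h : Ball a (‖P‖ * ‖d‖) P) (hl0 : 0 ≤ l)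
    (hl : ∀ y : ℂ, ‖y - P‖ ≤ ‖P‖ * ‖d‖ → ‖lder e y‖ ≤ l) (hlR : l * (‖P‖ * ‖d‖) < 1) :
    ‖(c2 e κ : ℂ) * h0 e (P * (1 - d)) - (c2 e κ : ℂ) * h0 e P‖ ≤
      ‖d‖ * ‖G1 e κ P‖ * ‖P‖ ^ (e - 1) * (1 + ‖d‖) ^ (e - 2) / (1 - l * (‖P‖ * ‖d‖)) := by
  have he0 : 0 < e := by linarith
  set δ := ‖d‖ with hδ
  have hδ0 : 0 ≤ δ := norm_nonneg _
  have hP0 : 0 < ‖P‖ := by
    have h3 := h.h3
    have : 0 ≤ ‖P‖ * δ := by positivity
    linarith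
  set G := ‖G1 e κ P‖ / (1 - l * (‖P‖ * δ)) with hG
  have hball : ∀ τ : ℝ, 0 ≤ τ → τ ≤ 1 → ‖P * (1 - (τ : ℂ) * d) - P‖ ≤ ‖P‖ * δ := by
    intro τ h0 h1
    have : P * (1 - (τ : ℂ) * d) - P = -(P * ((τ : ℂ) * d)) := by ring
    rw [this, norm_neg, norm_mul, norm_mul, Complex.norm_real, Real.norm_of_nonneg h0]
    have : τ * ‖d‖ ≤ δ := by nlinarith
    exact mul_le_mul_of_nonneg_left this hP0.le
  have hder : ∀ τ : ℝ, 0 ≤ τ → τ ≤ 1 → HasDerivAt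
      (fun τ : ℝ => (c2 e κ : ℂ) * h0 e (P * (1 - (τ : ℂ) * d)))
      ((c2 e κ : ℂ) * (-((P * (1 - (τ : ℂ) * d)) ^ ((e : ℂ) - 1) *
        f0 e (P * (1 - (τ : ℂ) * d)) ^ (-((1 + 2 / e : ℝ) : ℂ))) * (-(P * d)))) τ := by
    intro τ h0' h1'
    have d1 : HasDerivAt (fun τ : ℝ => P * (1 - (τ : ℂ) * d)) (-(P * d)) τ := by
      have := (((Complex.ofRealCLM.hasDerivAt (x := τ)).mul_const d).const_sub 1).const_mul P
      simpa using this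
    exact ((h0_deriv' he0 h.ha (h.disc (hball τ h0' h1'))
      (ball_slit he0.le he4 h (hball τ h0' h1'))).comp τ d1).const_mul _
  have hbound : ∀ τ : ℝ, 0 ≤ τ → τ ≤ 1 →
      ‖(c2 e κ : ℂ) * (-((P * (1 - (τ : ℂ) * d)) ^ ((e : ℂ) - 1) *
        f0 e (P * (1 - (τ : ℂ) * d)) ^ (-((1 + 2 / e : ℝ) : ℂ))) * (-(P * d)))‖ ≤
      δ * G * ‖P‖ ^ (e - 1) * (1 + δ) ^ (e - 2) := by
    intro τ h0' h1'
    have hb := hball τ h0' h1'
    set y := P * (1 - (τ : ℂ) * d) with hy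
    have hyd := h.disc hb
    have hyp := disc_norm_pos h.ha hyd
    have hvar := (var_bound4 (κ := κ) he0 he4 h hl0 hl hlR hb).1
    rw [← hG] at hvar
    rw [norm_G1] at hvar
    have hexp : ((e : ℂ) - 1) = ((e - 1 : ℝ) : ℂ) := by push_cast; rfl
    have hn0 : (-((1 + 2 / e : ℝ) : ℂ)) = ((-(1 + 2 / e) : ℝ) : ℂ) := by push_cast; rfl
    rw [norm_mul, norm_mul, norm_neg, norm_neg, norm_mul, norm_mul, hexp, hn0,
      Complex.norm_cpow_real, Complex.norm_cpow_real, Complex.norm_real,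
      Real.norm_of_nonneg (c2_pos e κ).le]
    set F := ‖f0 e y‖ ^ (-(1 + 2 / e)) with hF
    have hF0 : 0 ≤ F := Real.rpow_nonneg (norm_nonneg _) _
    have e1 : ‖y‖ ^ (e - 1) = ‖y‖ * ‖y‖ ^ (e - 2) := by
      have : e - 1 = 1 + (e - 2) := by ring
      rw [this, Real.rpow_add hyp, Real.rpow_one]
    have e2 : ‖P‖ ^ (e - 1) = ‖P‖ * ‖P‖ ^ (e - 2) := by
      have : e - 1 = 1 + (e - 2) := by ring
      rw [this, Real.rpow_add hP0, Real.rpow_one]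
    have hyup : ‖y‖ ≤ ‖P‖ * (1 + δ) := by
      have e3 : y = P + (y - P) := by ring
      have := norm_add_le P (y - P)
      rw [← e3] at this
      linarith
    have e3 : ‖y‖ ^ (e - 2) ≤ ‖P‖ ^ (e - 2) * (1 + δ) ^ (e - 2) := by
      rw [← Real.mul_rpow hP0.le (by linarith)]
      exact Real.rpow_le_rpow hyp.le hyup (by linarith)
    have hPe : 0 ≤ ‖P‖ ^ (e - 2) := Real.rpow_nonneg hP0.le _
    have hG0 : 0 ≤ G := by
      rw [hG]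
      apply div_nonneg (norm_nonneg _)
      linarith
    rw [e1, e2]
    calc c2 e κ * (‖y‖ * ‖y‖ ^ (e - 2) * F * (‖P‖ * ‖d‖)) =
          (c2 e κ * ‖y‖ * F) * (‖y‖ ^ (e - 2)) * (‖P‖ * δ) := by ring
      _ ≤ G * (‖P‖ ^ (e - 2) * (1 + δ) ^ (e - 2)) * (‖P‖ * δ) := by
          apply mul_le_mul_of_nonneg_right _ (by positivity)
          exact mul_le_mul hvar e3 (Real.rpow_nonneg hyp.le _) hG0
      _ = δ * G * (‖P‖ * ‖P‖ ^ (e - 2)) * (1 + δ) ^ (e - 2) := by ring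
  have hmv := (convex_Icc (0 : ℝ) 1).norm_image_sub_le_of_norm_hasDerivWithin_le
    (f := fun τ : ℝ => (c2 e κ : ℂ) * h0 e (P * (1 - (τ : ℂ) * d)))
    (fun τ hτ => (hder τ hτ.1 hτ.2).hasDerivWithinAt)
    (fun τ hτ => hbound τ hτ.1 hτ.2)
    (left_mem_Icc.2 zero_le_one) (right_mem_Icc.2 zero_le_one)
  simp only [Complex.ofReal_one, one_mul, Complex.ofReal_zero, zero_mul, sub_zero, mul_one] at hmv
  rw [norm_one, mul_one] at hmv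
  refine hmv.trans (le_of_eq ?_)
  rw [hG]
  ring

/-- The bound of `lder`: `u = z^e`, `|u| ≤ ρ ≤ 1`, `Re u ≥ -c|u|`. -/
theorem lder_bound (he : 2 ≤ e) (hz0 : z ≠ 0) {ρ c L : ℝ} (hρ : ‖z‖ ^ e ≤ ρ) (hρ1 : ρ ≤ 1)
    (hc0 : 0 ≤ c) (hc1 : c ≤ 1 / 2) (hc : -(c * ‖z‖ ^ e) ≤ (z ^ (e : ℂ)).re) (hL0 : 0 ≤ L)
    (hL : 1 + 2 * (e + 1) * c * ρ + (e + 1) ^ 2 * ρ ^ 2 ≤ L ^ 2 * (1 - 2 * c * ρ + ρ ^ 2)) :
    ‖lder e z‖ ≤ L / ‖z‖ := by
  set u : ℂ := z ^ (e : ℂ) with hu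
  have hzn : 0 < ‖z‖ := norm_pos_iff.2 hz0
  have hun : ‖u‖ = ‖z‖ ^ e := Complex.norm_cpow_real z e
  rw [← hun] at hρ hc
  set r := u.re with hr
  set t := ‖u‖ with ht
  have ht0 : 0 ≤ t := norm_nonneg _
  have hρ0 : 0 ≤ ρ := ht0.trans hρ
  have hsq : u.re ^ 2 + u.im ^ 2 = t ^ 2 := by
    rw [ht, ← Complex.normSq_eq_norm_sq, Complex.normSq_apply]
    ring
  have n1 : ‖1 - ((e : ℂ) + 1) * u‖ ^ 2 = 1 - 2 * (e + 1) * r + (e + 1) ^ 2 * t ^ 2 := by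
    rw [← Complex.normSq_eq_norm_sq, Complex.normSq_apply]
    simp
    rw [← hsq]
    ring
  have n2 : ‖1 + u‖ ^ 2 = 1 + 2 * r + t ^ 2 := by
    rw [← Complex.normSq_eq_norm_sq, Complex.normSq_apply]
    simp
    rw [← hsq]
    ring
  have hD : 0 < 1 - 2 * c * ρ + ρ ^ 2 := by nlinarith [sq_nonneg (ρ - c), sq_nonneg c]
  have hD' : 0 < 1 - 2 * c * t + t ^ 2 := by nlinarith [sq_nonneg (t - c), sq_nonneg c]
  -- ratio at t
  have k1 : (1 + 2 * (e + 1) * c * t + (e + 1) ^ 2 * t ^ 2) * (1 - 2 * c * ρ + ρ ^ 2) ≤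
      (1 + 2 * (e + 1) * c * ρ + (e + 1) ^ 2 * ρ ^ 2) * (1 - 2 * c * t + t ^ 2) := by
    have e1 : (1 + 2 * (e + 1) * c * ρ + (e + 1) ^ 2 * ρ ^ 2) * (1 - 2 * c * t + t ^ 2) -
        (1 + 2 * (e + 1) * c * t + (e + 1) ^ 2 * t ^ 2) * (1 - 2 * c * ρ + ρ ^ 2) =
        (ρ - t) * (e + 2) * (2 * c + e * (ρ + t) - 2 * c * (e + 1) * (ρ * t)) := by ring
    have e2 : 0 ≤ 2 * c + e * (ρ + t) - 2 * c * (e + 1) * (ρ * t) := by
      have h1 : 2 * (ρ * t) ≤ ρ + t := by nlinarith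
      have h2 : 2 * c * (e + 1) * (ρ * t) ≤ c * (e + 1) * (ρ + t) := by
        have : 0 ≤ c * (e + 1) := by positivity
        nlinarith
      have h3 : c * (e + 1) ≤ e := by nlinarith
      have h4 : c * (e + 1) * (ρ + t) ≤ e * (ρ + t) := mul_le_mul_of_nonneg_right h3 (by linarith)
      linarith
    have e3 : 0 ≤ (ρ - t) * (e + 2) * (2 * c + e * (ρ + t) - 2 * c * (e + 1) * (ρ * t)) :=
      mul_nonneg (mul_nonneg (by linarith) (by linarith)) e2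
    linarith
  have k2 : 1 + 2 * (e + 1) * c * t + (e + 1) ^ 2 * t ^ 2 ≤ L ^ 2 * (1 - 2 * c * t + t ^ 2) := by
    have h1 := mul_le_mul_of_nonneg_right hL hD'.le
    have h2 : (1 + 2 * (e + 1) * c * t + (e + 1) ^ 2 * t ^ 2) * (1 - 2 * c * ρ + ρ ^ 2) ≤
        (L ^ 2 * (1 - 2 * c * t + t ^ 2)) * (1 - 2 * c * ρ + ρ ^ 2) := by nlinarith
    exact le_of_mul_le_mul_right h2 hD
  -- L ≥ 1
  have hL1 : 1 ≤ L ^ 2 := by
    by_contra hcc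
    push Not at hcc
    have h1 : L ^ 2 * (1 - 2 * c * ρ + ρ ^ 2) < 1 * (1 - 2 * c * ρ + ρ ^ 2) :=
      mul_lt_mul_of_pos_right hcc hD
    have h2 : 0 ≤ c * ρ := mul_nonneg hc0 hρ0
    have h3 : 0 ≤ (e + 1) * (c * ρ) := mul_nonneg (by linarith) h2
    have h4 : 1 ≤ (e + 1) ^ 2 := by nlinarith
    have h5 : ρ ^ 2 ≤ (e + 1) ^ 2 * ρ ^ 2 := le_mul_of_one_le_left (sq_nonneg ρ) h4
    linarith
  have k3 : ‖1 - ((e : ℂ) + 1) * u‖ ^ 2 ≤ (L * ‖1 + u‖) ^ 2 := by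
    rw [mul_pow, n1, n2]
    nlinarith
  have k4 : ‖1 - ((e : ℂ) + 1) * u‖ ≤ L * ‖1 + u‖ :=
    (abs_le_of_sq_le_sq' k3 (by positivity)).2
  have h1u : 0 < ‖1 + u‖ := by
    have h5 : 0 < ‖1 + u‖ ^ 2 := by rw [n2]; nlinarith
    rcases (norm_nonneg (1 + u)).eq_or_lt with h | h
    · rw [← h] at h5
      norm_num at h5
    · exact h
  unfold lder
  rw [← hu, norm_div, norm_mul, div_le_div_iff₀ (by positivity) hzn]
  calc ‖1 - ((e : ℂ) + 1) * u‖ * ‖z‖ ≤ (L * ‖1 + u‖) * ‖z‖ :=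
        mul_le_mul_of_nonneg_right k4 hzn.le
    _ = L * (‖z‖ * ‖1 + u‖) := by ring

end Pool.Agent.helper4.EQW4
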