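import Pool.Agent.helper4.EQW4.Goal4
import Pool.Agent.helper4.EQW4.Ang4

/-!
# EQW4-L: the scalar inequality for large `κ`, `2 ≤ e ≤ 4`

Plan (elementary; compare `EQW/Corner.lean`, `goal_large`).  `s ≥ 5`, `C = cosh κ = √(1+s)`, `S = sinh κ`,
`a = exp (-κ) = 1/(C+S)`, `E = e/2`.

Facts: `v ≤ 1/(4(1+s)) ≤ 1/24` (`F.v_le`), `A² (1+16s+16s²) ≤ v` (`F.A_le`), `o ≤ 1`,
`s - v ≤ x² ≤ s + v` (`F.x_le`, `(facts2_of F).x_ge`), `p ≥ 1/(2C)` (`F.p_ge2`),
`p² ≤ 1 - (3+4s)U ≤ (1+s)/(1+2s)²` (`F.p_sq` and `s ≤ U (1+2s)²`, `more_facts` of `EQW/Corner.lean`; its proof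
does not use the record `Aux`; so `p ≤ 0.223`), `K ≤ 5` (`X.K_le`), `K = e²/8 + 3 tanh²(eκ/2)` and
`tanh(eκ/2) ≥ tanh κ = S/C` (`e ≥ 2`; better: `th_ge`), so `K ≥ e²/8 + 3 s/(1+s) ≥ E²/2 + 5/2`.

Choice: `g1 = 1`, `Db = K v A`, `de = Db`, `eta = 0.22` (`A x ≤ √v √(s+v)/(4 √(s²+s)) ≤ 0.021`), `eS = 0.21`,
`W = ‖2C - P‖ - de` or a lower bound `≥ 1.84 C` (`‖2C-P‖² = 2+2s+2x²-p² ≥ 1 + 4s - 2v` by `(facts2_of F).W_sq`),
`G` tiny, `R = Db` (`max p o ≤ 1`), `m = p - R ≥ 0.97 p` (`Db ≤ 0.32/(C³ S)`·`p`), `L` from `lder_le` with `c = 1/2`,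
`ρ = ‖y‖²`-bound `0.06`, `l = L/m`, `T3 ≤ 0.02`, `dp = 1/100`, `sg = 1` (use the alternative `1/2 ≤ c`), `wp = 1`,
`tp = 1.03`, `T1 ≤ 0.02`; `pY = 0.99 p ≥ 0.49/C`, `Rr = v(1+eta)/(2 pY) ≤ 0.32/C`, `rY = C - Rr ≥ 0.94 C` (second
alternative of `hrY`), `rW ≥ 0.94 C` from `hrW` (`(rW + dW) 4 C q ≤ (3+3s+x²-p²)(q+1)`, `x² ≥ s - v`), `m0 = 0.94 C`,
`tb = 1 - 0.88/C²`, so `tb/(1-tb) ≤ C²/0.88`; with `cc E 1 = E(E-1)/2`, `cc E 2 = E(E-1)(2-E)(3-E)/24`:
`Pm = max(1 + 0.8 cc E 1 - ..., 0.99)`, `lb ≤ ((E-1)/2 + 2 (cc E 2/E) C²/0.88)/Pm`, `P1 = E`-like, `M`; then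
`T2 ≤ (M/K) · 2.04 s (1.22)²/(2 · 1.84 C · (0.49/C) · (0.94 C)²)`.  Numerically `T2 ≤ 0.75` with `M/K ≤ 0.5`
(`M = 1` at `E = 1` where `K ≥ 3`; `M ≤ 2.4` at `E = 2` where `K ≥ 4.5`; keep the dependence on `E`, for instance with
a few cases in `E`).  The sum must be `≤ 99/100`.
-/

namespace Pool.Agent.helper4.EQW4

open Complex
open Pool.Agent.helper4.EQW

variable {e κ : ℝ} {P : ℂ} {s U v A B x o p : ℝ}

private theorem l4_rho {e a : ℝ} {y : ℂ} (he : 2 ≤ e) (ha : 0 < a) (hz : ‖y - (a : ℂ)‖ ≤ a / 2)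
    (hy : ‖y‖ ≤ 6 / 25) : ‖y‖ ^ e ≤ 6 / 100 := by
  have h0 : 0 < ‖y‖ := disc_norm_pos ha hz
  calc ‖y‖ ^ e ≤ ‖y‖ ^ (2 : ℝ) := Real.rpow_le_rpow_of_exponent_ge h0 (by linarith) he
    _ = ‖y‖ ^ 2 := Real.rpow_ofNat _ 2
    _ ≤ (6 / 25) ^ 2 := pow_le_pow_left₀ h0.le hy 2
    _ ≤ 6 / 100 := by norm_num

private theorem l4_lder {e a : ℝ} {y : ℂ} (he : 2 ≤ e) (he4 : e ≤ 4) (ha : 0 < a)
    (hz : ‖y - (a : ℂ)‖ ≤ a / 2) (hy : ‖y‖ ≤ 6 / 25) : ‖lder e y‖ ≤ 5 / 4 / ‖y‖ := by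
  refine lder_le (ρ := 6 / 100) (σ := 0) (c := 1 / 2) he he4 ha hz (l4_rho he ha hz hy) (by norm_num)
    (by norm_num) le_rfl (Or.inr (Or.inl le_rfl)) (by norm_num) ?_
  nlinarith

/-- polynomial inequality for `Pm` -/
private theorem l4_Pm {E t : ℝ} (h0 : 0 ≤ E) (ht0 : 0 ≤ t) (ht : t ≤ 1 / 6) :
    1 + 19 / 25 * E ^ 2 ≤ 1 + (1 + E) * E / 2 * (1 - t / (2209 / 2500)) -
      (E - (1 + E) * E / 2) * (1 - 22 / 25 * t) ^ 2 := by
  have h2 : 38 / 25 * E ≤ (1 + E) * (1 - t / (2209 / 2500)) - (1 - E) * (1 - 22 / 25 * t) ^ 2 := by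
    have e1 : (1 + E) * (1 - t / (2209 / 2500)) - (1 - E) * (1 - 22 / 25 * t) ^ 2 =
        E * (2 - (2500 / 2209 + 44 / 25) * t + 484 / 625 * t ^ 2) +
          t * ((44 / 25 - 2500 / 2209) - 484 / 625 * t) := by ring
    rw [e1]
    have h3 : 38 / 25 ≤ 2 - (2500 / 2209 + 44 / 25) * t + 484 / 625 * t ^ 2 := by
      nlinarith
    have h4 : 0 ≤ t * ((44 / 25 - 2500 / 2209) - 484 / 625 * t) :=
      mul_nonneg ht0 (by linarith)
    have h5 : 38 / 25 * E ≤ E * (2 - (2500 / 2209 + 44 / 25) * t + 484 / 625 * t ^ 2) := by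
      calc 38 / 25 * E = E * (38 / 25) := by ring
        _ ≤ _ := mul_le_mul_of_nonneg_left h3 h0
    linarith
  have h6 := mul_le_mul_of_nonneg_left h2 h0
  have e2 : 1 + (1 + E) * E / 2 * (1 - t / (2209 / 2500)) -
      (E - (1 + E) * E / 2) * (1 - 22 / 25 * t) ^ 2 =
      1 + E * ((1 + E) * (1 - t / (2209 / 2500)) - (1 - E) * (1 - 22 / 25 * t) ^ 2) / 2 := by ring
  rw [e2]
  nlinarith

/-- the factor `1 + (P1/Pm - 1)/E` -/
private theorem l4_F1 {E : ℝ} (h0 : 0 ≤ E) :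
    1 + ((1 + E) / (1 + 19 / 25 * E ^ 2) - 1) / (1 + E) ≤ 59 / 50 := by
  have hP : 0 < 1 + 19 / 25 * E ^ 2 := by positivity
  have h2 : (1 + E) / (1 + 19 / 25 * E ^ 2) - 1 ≤ 9 / 50 * (1 + E) := by
    rw [sub_le_iff_le_add, div_le_iff₀ hP]
    nlinarith [mul_nonneg (show 0 ≤ E + 21 / 25 by linarith) (sq_nonneg (E - 21 / 50))]
  have h3 : ((1 + E) / (1 + 19 / 25 * E ^ 2) - 1) / (1 + E) ≤ 9 / 50 := by
    rw [div_le_iff₀ (by linarith)]
    exact h2
  linarith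

/-- the second factor -/
private theorem l4_F2 {E y z : ℝ} (h0 : 0 ≤ E) (h1 : E ≤ 1)
    (hy : y * (1 + 19 / 25 * E ^ 2) = E * (1 + 97 / 100 * ((1 - E) * (2 - E))) / 12)
    (hz : z * (1 + 19 / 25 * E ^ 2) = E * ((1 - E) * (2 - E))) :
    5 / (2209 / 2500) * y + 2 / (2209 / 2500) ^ 2 * ((2 + E) * y ^ 2 + z / 42) ≤
      3 / 10 + E / 4 := by
  have hP : 0 < 1 + 19 / 25 * E ^ 2 := by positivity
  have hq : 0 ≤ (1 - E) * (2 - E) := mul_nonneg (by linarith) (by linarith)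
  have hy0 : 0 ≤ y := by
    have : 0 ≤ y * (1 + 19 / 25 * E ^ 2) := by rw [hy]; positivity
    exact nonneg_of_mul_nonneg_left this hP
  -- y ≤ 62/1000
  have hyb : y ≤ 62 / 1000 := by
    by_contra hc
    push Not at hc
    have h2 : 62 / 1000 * (1 + 19 / 25 * E ^ 2) < y * (1 + 19 / 25 * E ^ 2) :=
      mul_lt_mul_of_pos_right hc hP
    rw [hy] at h2
    nlinarith [mul_nonneg (sub_nonneg.2 h1) (sq_nonneg (E - 14 / 25))]
  have h3 : (2 + E) * y ^ 2 ≤ 3 * (62 / 1000 * y) := by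
    have h4 : y ^ 2 ≤ 62 / 1000 * y := by nlinarith
    have h5 : 0 ≤ y ^ 2 := sq_nonneg y
    nlinarith
  have h4 : 5 / (2209 / 2500) * y + 2 / (2209 / 2500) ^ 2 * ((2 + E) * y ^ 2 + z / 42) ≤
      5 / (2209 / 2500) * y + 2 / (2209 / 2500) ^ 2 * (3 * (62 / 1000 * y) + z / 42) := by
    have : (0 : ℝ) ≤ 2 / (2209 / 2500) ^ 2 := by norm_num
    have := mul_le_mul_of_nonneg_left (add_le_add_left h3 (z / 42)) this
    linarith
  refine h4.trans ?_
  have h5 : (5 / (2209 / 2500) * y + 2 / (2209 / 2500) ^ 2 * (3 * (62 / 1000 * y) + z / 42)) *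
      (1 + 19 / 25 * E ^ 2) ≤ (3 / 10 + E / 4) * (1 + 19 / 25 * E ^ 2) := by
    have e1 : (5 / (2209 / 2500) * y + 2 / (2209 / 2500) ^ 2 * (3 * (62 / 1000 * y) + z / 42)) *
        (1 + 19 / 25 * E ^ 2) = 5 / (2209 / 2500) * (y * (1 + 19 / 25 * E ^ 2)) +
          2 / (2209 / 2500) ^ 2 * (3 * (62 / 1000 * (y * (1 + 19 / 25 * E ^ 2))) +
            z * (1 + 19 / 25 * E ^ 2) / 42) := by ring
    rw [e1, hy, hz]
    nlinarith [mul_nonneg (sub_nonneg.2 h1) (sq_nonneg (E - 9 / 20)), mul_nonneg h0 (sub_nonneg.2 h1)]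
  exact le_of_mul_le_mul_right h5 hP

/-- basic bounds -/
private theorem l4_basic (he : 2 ≤ e) (hκ : 0 < κ)
    (F : Facts κ P s U v A B x o p)
    (X : Aux4 e κ s U v A B x o p (KK e κ) (Real.exp (-κ))) (hs : 5 ≤ s) :
    6 ≤ Real.cosh κ ^ 2 ∧ 12 / 5 ≤ Real.cosh κ ∧ 223 / 100 ≤ Real.sinh κ ∧
    v * (4 * Real.cosh κ ^ 2) ≤ 1 ∧ v ≤ 1 / 24 ∧
    8 * (A * Real.sinh κ * Real.cosh κ ^ 2) ≤ 1 ∧ A ≤ 1 / 100 ∧ Real.exp (-κ) ≤ 107 / 500 ∧
    p ≤ 9 / 40 ∧ x ≤ Real.sinh κ + 1 / 100 ∧ s - v ≤ x ^ 2 ∧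
    KK e κ * v * A ≤ 1 / (200 * Real.cosh κ) ∧ 3 + (e / 2 - 1) ≤ KK e κ := by
  have hC0 := Real.cosh_pos κ
  have hS0 : 0 < Real.sinh κ := Real.sinh_pos_iff.2 hκ
  have hCs : Real.cosh κ ^ 2 = 1 + s := by rw [F.s_def, Real.cosh_sq]; ring
  have hSs : Real.sinh κ ^ 2 = s := F.s_def.symm
  have hv0 := X.v_nn
  have hA0 := X.A_nn
  have hK0 := X.K_pos
  have hK5 := X.K_le
  have ha0 := X.a_pos
  have haS : Real.exp (-κ) * (Real.exp (-κ) + 2 * Real.sinh κ) = 1 := by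
    rw [exp_neg_eq]
    linarith only [Real.cosh_sq κ]
  have hpaA : p ≤ Real.exp (-κ) + A := by
    rw [F.p_def, F.A_def]
    have h1 : P = ((Real.exp (-κ) : ℝ) : ℂ) + (P - ((Real.exp (-κ) : ℝ) : ℂ)) := by ring
    have h2 := norm_add_le ((Real.exp (-κ) : ℝ) : ℂ) (P - ((Real.exp (-κ) : ℝ) : ℂ))
    rw [← h1, Complex.norm_real, Real.norm_of_nonneg (Real.exp_pos _).le] at h2
    exact h2
  have hx2 := F.x_le
  have hxs := (facts2_of F).x_ge
  have hv4' := F.v_le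
  have hAle := F.A_le
  have hthl : Real.tanh κ ≤ Real.tanh (e * κ / 2) := tanh_mono (by nlinarith only [he, hκ])
  have hth0 : 0 < Real.tanh κ := tanh_pos hκ
  have hths := tanh_sq κ
  rw [hSs] at hths
  have hKdef : KK e κ = e ^ 2 / 8 + 3 * Real.tanh (e * κ / 2) ^ 2 := rfl
  set C := Real.cosh κ
  set S := Real.sinh κ
  set K := KK e κ
  set a := Real.exp (-κ)
  have hC6 : 6 ≤ C ^ 2 := by linarith
  have hC1 : 12 / 5 ≤ C := by
    by_contra hc
    push Not at hc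
    have : C ^ 2 < (12 / 5) ^ 2 := pow_lt_pow_left₀ hc hC0.le (by norm_num)
    linarith
  have hS1 : 223 / 100 ≤ S := by
    by_contra hc
    push Not at hc
    have : S ^ 2 < (223 / 100) ^ 2 := pow_lt_pow_left₀ hc hS0.le (by norm_num)
    linarith
  have hv4 : v * (4 * C ^ 2) ≤ 1 := by rw [hCs]; exact hv4'
  have hv24 : v ≤ 1 / 24 := by nlinarith only [hv0, hv4, hC6]
  have hASC : 8 * (A * S * C ^ 2) ≤ 1 := by
    apply le_of_sq_le_sq _ (by norm_num)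
    have h1 : A ^ 2 * (16 * s * (1 + s)) ≤ v := by
      have : 0 ≤ A ^ 2 := sq_nonneg A
      linarith only [this, hAle]
    have h2 : (8 * (A * S * C ^ 2)) ^ 2 = A ^ 2 * (16 * s * (1 + s)) * (4 * C ^ 2) := by
      rw [← hCs, ← hSs]
      ring
    rw [h2]
    calc A ^ 2 * (16 * s * (1 + s)) * (4 * C ^ 2) ≤ v * (4 * C ^ 2) :=
          mul_le_mul_of_nonneg_right h1 (by positivity)
      _ ≤ 1 ^ 2 := by linarith
  have hA1 : A ≤ 1 / 100 := by
    have h1 : 223 / 100 * 6 ≤ S * C ^ 2 := mul_le_mul hS1 hC6 (by norm_num) hS0.le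
    nlinarith only [h1, hASC, hA0]
  have ha : a ≤ 107 / 500 := by
    by_contra hc
    push Not at hc
    nlinarith only [hc, haS, hS1]
  have hp : p ≤ 9 / 40 := by linarith
  have hx : x ≤ S + 1 / 100 := by
    apply le_of_sq_le_sq _ (by linarith)
    nlinarith only [hx2, hv24, hS1, hSs]
  refine ⟨hC6, hC1, hS1, hv4, hv24, hASC, hA1, ha, hp, hx, hxs, ?_, ?_⟩
  · rw [le_div_iff₀ (by positivity)]
    -- K v A 200 C ≤ 1
    have h1 : 223 / 100 * (12 / 5 * 6) ≤ S * (C * C ^ 2) :=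
      mul_le_mul hS1 (mul_le_mul hC1 hC6 (by norm_num) hC0.le) (by norm_num) hS0.le
    have h2 : K * v * A * (32 * (S * (C * C ^ 2))) * C ≤ 5 := by
      have e1 : K * v * A * (32 * (S * (C * C ^ 2))) * C =
          K * ((v * (4 * C ^ 2)) * (8 * (A * S * C ^ 2))) := by ring
      rw [e1]
      have h3 : (v * (4 * C ^ 2)) * (8 * (A * S * C ^ 2)) ≤ 1 * 1 :=
        mul_le_mul hv4 hASC (by positivity) (by norm_num)
      have h4 : 0 ≤ (v * (4 * C ^ 2)) * (8 * (A * S * C ^ 2)) := by positivity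
      nlinarith only [h3, h4, hK5, hK0]
    have h5 : K * v * A * (32 * (223 / 100 * (12 / 5 * 6))) * C ≤
        K * v * A * (32 * (S * (C * C ^ 2))) * C := by
      apply mul_le_mul_of_nonneg_right _ hC0.le
      apply mul_le_mul_of_nonneg_left _ (by positivity)
      linarith
    have h6 : 0 ≤ K * v * A * C := by positivity
    linarith
  · have h1 : 5 / 6 ≤ Real.tanh κ ^ 2 := by
      rw [hths, div_le_div_iff₀ (by norm_num) (by linarith)]
      linarith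
    have h2 : Real.tanh κ ^ 2 ≤ Real.tanh (e * κ / 2) ^ 2 := pow_le_pow_left₀ hth0.le hthl 2
    rw [hKdef]
    nlinarith only [sq_nonneg (e - 2), h1, h2, he]

private theorem l4_num13 (he : 2 ≤ e) (he4 : e ≤ 4) (hκ : 0 < κ) (hP : P ∈ LT4 e κ)
    (F : Facts κ P s U v A B x o p)
    (X : Aux4 e κ s U v A B x o p (KK e κ) (Real.exp (-κ))) (hs : 5 ≤ s) :
    Num13 e κ P v A x o p (KK e κ) (Real.exp (-κ)) 1 (1 / (200 * Real.cosh κ))
      (1 / (200 * Real.cosh κ)) (21 / 100) (21 / 100) (19 / 10 * Real.cosh κ) (1 / 200)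
      (1 / (200 * Real.cosh κ)) (13 / 5 * Real.cosh κ) (1 / 100) 1 (5 / 4) 1 (103 / 100)
      (1 / 100) (1 / 100) := by
  obtain ⟨hC6, hC1, hS1, hv4, hv24, hASC, hA1, ha, hp, hx, hxs, hD, hK3⟩ :=
    l4_basic he hκ F X hs
  have hC0 := Real.cosh_pos κ
  have hS0 : 0 < Real.sinh κ := Real.sinh_pos_iff.2 hκ
  have hCs : Real.cosh κ ^ 2 = 1 + s := by rw [F.s_def, Real.cosh_sq]; ring
  have hv0 := X.v_nn
  have hA0 := X.A_nn
  have ho0 := X.o_nn
  have hx0 := X.x_nn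
  have hp0 := X.p_pos
  have hK0 := X.K_pos
  have hK5 := X.K_le
  have ha0 := X.a_pos
  have ho1 := F.o_le_1
  have hp1 := X.p_le
  have hg := one_le_G14 he he4 hκ hP
  have hpl := F.p_ge2
  have hWsq := (facts2_of F).W_sq
  have hlder : ∀ y : ℂ, ‖y - ((Real.exp (-κ) : ℝ) : ℂ)‖ ≤ Real.exp (-κ) / 2 → ‖y‖ ≤ 6 / 25 →
      ‖lder e y‖ ≤ 5 / 4 / ‖y‖ := fun y hz hy => l4_lder he he4 ha0 hz hy
  set C := Real.cosh κ with hC
  have hDC : 1 / (200 * C) ≤ 1 / 480 := one_div_le_one_div_of_le (by norm_num) (by linarith)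
  have hD0 : 0 < 1 / (200 * C) := by positivity
  have hDCe : 1 / (200 * C) * C = 1 / 200 := by field_simp
  have hKvA0 : 0 ≤ KK e κ * v * A := X.D_nn
  set D := 1 / (200 * C) with hDd
  -- eta
  have hASi : A * Real.sinh κ ≤ 1 / 48 := by
    have h1 : 0 ≤ A * Real.sinh κ := by positivity
    nlinarith only [h1, hASC, hC6]
  refine
    { hg1 := le_rfl
      hg := hg
      hDb := by rw [mul_one]; exact hD
      hde := mul_le_of_le_one_right hD0.le ho1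
      heta := ?_
      heS := ?_
      hW0 := by positivity
      hW := ?_
      hG := ?_
      hRp := mul_le_of_le_one_right hD0.le hp1
      hRo := mul_le_of_le_one_right hD0.le ho1
      hl0 := by positivity
      hl := ?_
      hlR := ?_
      hT3 := ?_
      hdp := ?_
      hsg := ?_
      hL0 := by norm_num
      hL := ?_
      hLd := by norm_num
      hwp := ?_
      htp := ?_
      hT1 := by norm_num }
  · -- eta
    rw [mul_one]
    have h1 : 2 * x + D ≤ 201 / 100 * Real.sinh κ := by linarith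
    calc KK e κ * A * o * (2 * x + D) ≤ 5 * A * 1 * (201 / 100 * Real.sinh κ) := by
          have : 0 ≤ 2 * x + D := by positivity
          gcongr
      _ = 201 / 20 * (A * Real.sinh κ) := by ring
      _ ≤ 21 / 100 := by linarith
  · rw [mul_one]
    calc KK e κ * v * o ≤ 5 * (1 / 24) * 1 := by gcongr
      _ ≤ 21 / 100 := by norm_num
  · -- W
    apply le_of_sq_le_sq _ (norm_nonneg _)
    rw [hWsq]
    have h1 : (19 / 10 * C + D) ^ 2 = 361 / 100 * C ^ 2 + 19 / 5 * (D * C) + D ^ 2 := by ring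
    rw [h1, hDCe]
    have h2 : D ^ 2 ≤ (1 / 480) ^ 2 := pow_le_pow_left₀ hD0.le hDC 2
    have h3 : p ^ 2 ≤ (9 / 40) ^ 2 := pow_le_pow_left₀ hp0.le hp 2
    linarith
  · -- G
    have h1 : (12 / 5 : ℝ) ^ 3 ≤ C ^ 3 := pow_le_pow_left₀ (by norm_num) hC1 3
    have h2 : (19 / 10 * C) ^ 3 = 6859 / 1000 * C ^ 3 := by ring
    rw [h2]
    linarith
  · -- l
    intro y hy1 hy2 _
    have h1 : ‖y‖ ≤ p + D := by
      have e1 : y = P + (y - P) := by ring
      have h2 := norm_add_le P (y - P)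
      rw [← e1, ← F.p_def] at h2
      linarith
    have h2 : p - D ≤ ‖y‖ := by
      have e1 : P = y - (y - P) := by ring
      have h2 := norm_sub_le y (y - P)
      rw [← e1, ← F.p_def] at h2
      linarith
    have h3 : 99 / 100 ≤ 2 * C * ‖y‖ := by
      have h4 : 2 * C * (p - D) ≤ 2 * C * ‖y‖ := mul_le_mul_of_nonneg_left h2 (by positivity)
      have h5 : 2 * C * (p - D) = 2 * C * p - 2 * (D * C) := by ring
      rw [h5, hDCe] at h4
      linarith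
    have h4 : 0 < ‖y‖ := by
      by_contra hc
      push Not at hc
      have := mul_nonneg hC0.le (neg_nonneg.2 hc)
      linarith
    refine (hlder y hy2 (by linarith)).trans ?_
    rw [div_le_iff₀ h4]
    linarith
  · have e1 : 13 / 5 * C * D = 13 / 5 * (D * C) := by ring
    rw [e1, hDCe]
    norm_num
  · have e1 : 13 / 5 * C * D = 13 / 5 * (D * C) := by ring
    rw [e1, hDCe]
    have h3 : p ^ 2 ≤ (9 / 40) ^ 2 := pow_le_pow_left₀ hp0.le hp 2
    have h4 : o ^ 2 ≤ 1 := by nlinarith only [ho0, ho1]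
    linarith
  · have h1 : KK e κ * v * A * (1 / 200) ≤ D * (1 / 200) := mul_le_mul_of_nonneg_right hD (by norm_num)
    linarith
  · have h1 : Real.exp (-κ) * A ≤ 1 * (1 / 100) :=
      mul_le_mul X.a_lt.le hA1 hA0 zero_le_one
    linarith
  · intro y hy1 _ hy2 _
    apply hlder y hy2
    refine hy1.trans ?_
    rw [div_le_iff₀ (by positivity)]
    linarith
  · apply Real.rpow_le_one (by positivity)
    · rw [div_le_one (by positivity)]
      linarith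
    · linarith
  · calc (1 + 1 / 100 : ℝ) ^ (e - 2) ≤ (1 + 1 / 100 : ℝ) ^ (2 : ℝ) :=
          Real.rpow_le_rpow_of_exponent_le (by norm_num) (by linarith)
      _ = (1 + 1 / 100 : ℝ) ^ 2 := Real.rpow_ofNat _ 2
      _ ≤ 103 / 100 := by norm_num

private theorem l4_num2 (he : 2 ≤ e) (he4 : e ≤ 4) (hκ : 0 < κ)
    (F : Facts κ P s U v A B x o p)
    (X : Aux4 e κ s U v A B x o p (KK e κ) (Real.exp (-κ))) (hs : 5 ≤ s) :
    Num2 e κ s v x o p (KK e κ) (Real.sinh κ) (1 / (200 * Real.cosh κ)) (21 / 100)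
      (19 / 10 * Real.cosh κ) (49 / (100 * Real.cosh κ)) (47 / 50 * Real.cosh κ)
      (Real.cosh κ) (1 / (200 * Real.cosh κ)) (47 / 50 * Real.cosh κ) (47 / 50 * Real.cosh κ)
      (31 / (100 * Real.cosh κ)) (1 - 22 / 25 * (1 / Real.cosh κ ^ 2))
      (1 + 19 / 25 * (e / 2 - 1) ^ 2)
      (Real.cosh κ ^ 2 * ((e / 2 - 1) * (1 + 97 / 100 * ((1 - (e / 2 - 1)) * (2 - (e / 2 - 1)))) / 12 /
        (1 + 19 / 25 * (e / 2 - 1) ^ 2)))
      (Real.cosh κ ^ 2 * ((e / 2 - 1) * ((1 - (e / 2 - 1)) * (2 - (e / 2 - 1))) /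
        (1 + 19 / 25 * (e / 2 - 1) ^ 2) / 7))
      (1 + (e / 2 - 1)) (59 / 50 * (13 / 10 + (e / 2 - 1) / 4)) (19 / 20) := by
  obtain ⟨hC6, hC1, hS1, hv4, hv24, hASC, hA1, ha, hp, hx, hxs, hD, hK3⟩ :=
    l4_basic he hκ F X hs
  have hC0 := Real.cosh_pos κ
  have hS0 : 0 < Real.sinh κ := Real.sinh_pos_iff.2 hκ
  have hCs : Real.cosh κ ^ 2 = 1 + s := by rw [F.s_def, Real.cosh_sq]; ring
  have hSs : Real.sinh κ ^ 2 = s := F.s_def.symm
  have hv0 := X.v_nn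
  have ho0 := X.o_nn
  have hx0 := X.x_nn
  have hp0 := X.p_pos
  have hK0 := X.K_pos
  have ho1 := F.o_le_1
  have hp1 := X.p_le
  have hpl := F.p_ge2
  obtain ⟨E, rfl⟩ : ∃ E, e = 2 * (1 + E) := ⟨e / 2 - 1, by ring⟩
  have hE0 : 0 ≤ E := by linarith
  have hE1 : E ≤ 1 := by linarith
  have hEe : 2 * (1 + E) / 2 = 1 + E := by ring
  have hEe2 : 2 * (1 + E) / 2 - 1 = E := by ring
  rw [hEe2] at hK3 ⊢
  set C := Real.cosh κ
  set S := Real.sinh κ
  set K := KK (2 * (1 + E)) κ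
  have hDC : 1 / (200 * C) ≤ 1 / 480 := one_div_le_one_div_of_le (by norm_num) (by linarith)
  have hD0 : 0 < 1 / (200 * C) := by positivity
  have hDCe : 1 / (200 * C) * C = 1 / 200 := by field_simp
  set t := 1 / C ^ 2 with htd
  have ht0 : 0 < t := by positivity
  have htC : t * C ^ 2 = 1 := by rw [htd]; field_simp
  have ht6 : t ≤ 1 / 6 := one_div_le_one_div_of_le (by norm_num) hC6
  have hm2 : 1 / (47 / 50 * C) ^ 2 = t / (2209 / 2500) := by
    rw [htd]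
    field_simp
    norm_num
  have hc1 : cc (1 + E) 1 = (1 + E) * E / 2 := by
    rw [cc_one]
    ring
  have hc2 : cc (1 + E) 2 = (1 + E) * (E * ((1 - E) * (2 - E))) / 24 := by
    rw [cc_two]
    ring
  have hq0 : 0 ≤ (1 - E) * (2 - E) := mul_nonneg (by linarith) (by linarith)
  have hq2 : (1 - E) * (2 - E) ≤ 2 := by nlinarith only [hE0, hE1]
  have hPm : 0 < 1 + 19 / 25 * E ^ 2 := by positivity
  have htt : (1 - 22 / 25 * t) / (1 - (1 - 22 / 25 * t)) = 25 / 22 * C ^ 2 - 1 := by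
    rw [htd]
    field_simp
    ring
  refine
    { hpY0 := by positivity
      hpY := ?_
      hW0 := by linarith
      hm0 := by positivity
      hm0C := by linarith
      hm0Y := le_rfl
      hm0W := le_rfl
      hdm := ?_
      hrY := Or.inr ?_
      hdW := ?_
      hrW := ?_
      hRr := ?_
      htb := ?_
      htb1 := by linarith
      hPm := hPm
      hP := ?_
      hlb := ?_
      hpb := ?_
      hPk := ?_
      hM0 := by positivity
      hM := ?_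
      hT2 := ?_ }
  · -- pY
    have e1 : 49 / (100 * C) + 1 / (200 * C) = 99 / 200 / C := by
      field_simp
      norm_num
    rw [e1, div_le_iff₀ hC0]
    linarith
  · -- dm
    have e1 : C * (2 * p * (49 / (100 * C))) = 49 / 50 * p := by
      field_simp
      norm_num
    rw [e1]
    have h1 : 100 * (1 / (200 * C)) ≤ p := by
      have h2 := mul_le_mul_of_nonneg_left hpl hD0.le
      have e2 : 1 / (200 * C) * (2 * C * p) = 2 * (1 / (200 * C) * C) * p := by ring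
      rw [e2, hDCe] at h2
      linarith
    have h2 : o * (1 + p) + 1 / (200 * C) ≤ 3 := by nlinarith only [ho0, ho1, hp1, hp0, hDC]
    have h3 : 1 / (200 * C) * (o * (1 + p) + 1 / (200 * C)) ≤ 1 / (200 * C) * 3 :=
      mul_le_mul_of_nonneg_left h2 hD0.le
    linarith
  · -- rY
    have e1 : 31 / (100 * C) ≤ 3 / 50 * C := by
      rw [div_le_iff₀ (by positivity)]
      nlinarith only [hC6]
    linarith
  · -- dW
    have h1 : 1 ≤ (19 / 10 * C) ^ 2 := by nlinarith only [hC6]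
    have h2 := mul_le_mul_of_nonneg_left h1 hD0.le
    linarith
  · -- rW
    have h3 : p ^ 2 ≤ (9 / 40) ^ 2 := pow_le_pow_left₀ hp0.le hp 2
    have h1 : (47 / 50 * C + 1 / (200 * C)) * (4 * C) ≤ 3 + 3 * s + x ^ 2 - p ^ 2 := by
      have e1 : (47 / 50 * C + 1 / (200 * C)) * (4 * C) = 94 / 25 * C ^ 2 + 4 * (1 / (200 * C) * C) := by
        ring
      rw [e1, hDCe]
      linarith
    have h4 : 0 ≤ 2 + 2 * s + 2 * x ^ 2 - p ^ 2 := by linarith only [h3, sq_nonneg x, hs]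
    have h5 : 0 ≤ 3 + 3 * s + x ^ 2 - p ^ 2 := by linarith only [h3, sq_nonneg x, hs]
    calc (47 / 50 * C + 1 / (200 * C)) * (4 * C * (2 + 2 * s + 2 * x ^ 2 - p ^ 2)) =
          (47 / 50 * C + 1 / (200 * C)) * (4 * C) * (2 + 2 * s + 2 * x ^ 2 - p ^ 2) := by ring
      _ ≤ (3 + 3 * s + x ^ 2 - p ^ 2) * (2 + 2 * s + 2 * x ^ 2 - p ^ 2) :=
          mul_le_mul_of_nonneg_right h1 h4
      _ ≤ _ := mul_le_mul_of_nonneg_left (by linarith) h5
  · -- Rr
    have e1 : 2 * (49 / (100 * C)) * (31 / (100 * C)) = 3038 / 10000 * t := by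
      rw [htd]
      field_simp
      norm_num
    rw [e1]
    have h1 : v ≤ t / 4 := by
      have h2 : v * (4 * C ^ 2) * t ≤ 1 * t := mul_le_mul_of_nonneg_right hv4 ht0.le
      have e2 : v * (4 * C ^ 2) * t = 4 * v * (t * C ^ 2) := by ring
      rw [e2, htC] at h2
      linarith
    linarith
  · -- tb
    have e1 : 31 / (100 * C) / C ^ 2 * (1 / (47 / 50 * C) + C / (47 / 50 * C) ^ 2) =
        31 / 100 * (50 / 47 + 2500 / 2209) * t ^ 2 := by
      rw [htd]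
      field_simp
      norm_num
    rw [e1]
    nlinarith only [ht0, ht6]
  · -- Pm
    rw [hEe, hc1, hm2]
    have := l4_Pm hE0 ht0.le ht6
    linarith
  · -- lb
    rw [hEe, hc1, hc2, htt]
    set q := (1 - E) * (2 - E)
    have key : 1 / 2 + q / 12 * (25 / 22 * C ^ 2 - 1) ≤ C ^ 2 * (1 + 97 / 100 * q) / 12 := by
      have := mul_nonneg (sub_nonneg.2 hC6) (show 0 ≤ 1 - 183 / 1100 * q by linarith)
      nlinarith only [this, hC6, hq0]
    have h1 : C ^ 2 * (E * (1 + 97 / 100 * q) / 12 / (1 + 19 / 25 * E ^ 2)) *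
        ((1 + E) * (1 + 19 / 25 * E ^ 2)) = (1 + E) * E * (C ^ 2 * (1 + 97 / 100 * q) / 12) := by
      field_simp
    have h2 : (1 + E) * E / 2 + 2 * ((1 + E) * (E * q) / 24) * (25 / 22 * C ^ 2 - 1) =
        (1 + E) * E * (1 / 2 + q / 12 * (25 / 22 * C ^ 2 - 1)) := by ring
    rw [h1, h2]
    exact mul_le_mul_of_nonneg_left key (by positivity)
  · -- pb
    rw [hEe, hc2, htt]
    set q := (1 - E) * (2 - E)
    have h1 : C ^ 2 * (E * q / (1 + 19 / 25 * E ^ 2) / 7) * ((1 + E) * (1 + 19 / 25 * E ^ 2)) =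
        (1 + E) * E * q * (C ^ 2 / 7) := by
      field_simp
    have h2 : 2 * ((1 + E) * (E * q) / 24) + 3 * ((1 + E) * (E * q) / 24) * (25 / 22 * C ^ 2 - 1) =
        (1 + E) * E * q * ((75 / 22 * C ^ 2 - 1) / 24) := by ring
    rw [h1, h2]
    apply mul_le_mul_of_nonneg_left _ (by positivity)
    linarith
  · -- P1
    rw [hEe, hc1]
    have h1 : (1 + E) * E / 2 * (1 - t) ≤ (1 + E) * E / 2 * 1 :=
      mul_le_mul_of_nonneg_left (by linarith) (by positivity)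
    have h2 : 0 ≤ 1 + E - 1 - (1 + E) * E / 2 := by nlinarith only [hE0, hE1]
    have h3 : (1 - t) ^ 2 ≤ 1 := by nlinarith only [ht0, ht6]
    have h4 : (1 + E - 1 - (1 + E) * E / 2) * (1 - t) ^ 2 ≤ (1 + E - 1 - (1 + E) * E / 2) * 1 :=
      mul_le_mul_of_nonneg_left h3 h2
    linarith
  · -- M
    rw [hEe]
    set q := (1 - E) * (2 - E) with hq
    set Pm := 1 + 19 / 25 * E ^ 2 with hPmd
    set y := E * (1 + 97 / 100 * q) / 12 / Pm with hyd
    set z := E * q / Pm with hzd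
    have hz0 : 0 ≤ z := by positivity
    have hy0 : 0 ≤ y := by positivity
    have hyP : y * Pm = E * (1 + 97 / 100 * q) / 12 := by
      rw [hyd]
      field_simp
    have hzP : z * Pm = E * q := by
      rw [hzd]
      field_simp
    have hF2 := l4_F2 hE0 hE1 hyP hzP
    have hF1 := l4_F1 hE0
    have e1 : 5 / (47 / 50 * C) ^ 2 * (C ^ 2 * y) = 5 / (2209 / 2500) * y := by
      field_simp
      ring
    have e2 : 2 / (47 / 50 * C) ^ 4 * ((1 + (1 + E)) * (C ^ 2 * y) ^ 2 + C ^ 2 * (z / 7)) =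
        2 / (2209 / 2500) ^ 2 * ((2 + E) * y ^ 2 + t * z / 7) := by
      rw [htd]
      field_simp
      ring
    rw [e1, e2]
    have h1 : t * z / 7 ≤ z / 42 := by nlinarith only [hz0, ht6]
    have h2 : 2 / (2209 / 2500) ^ 2 * ((2 + E) * y ^ 2 + t * z / 7) ≤
        2 / (2209 / 2500) ^ 2 * ((2 + E) * y ^ 2 + z / 42) :=
      mul_le_mul_of_nonneg_left (by linarith) (by norm_num)
    apply mul_le_mul hF1 (by linarith) (by positivity) (by norm_num)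
  · -- T2
    have e1 : 19 / 20 * (2 * (19 / 10 * C) * (49 / (100 * C)) * (47 / 50 * C) * (47 / 50 * C) * K) =
        19 / 20 * (931 / 500 * (2209 / 2500)) * C ^ 2 * K := by
      field_simp
      norm_num
    rw [e1]
    have h1 : (x + 1 / (200 * C)) * (x + S) ≤ 101 / 50 * C ^ 2 := by
      have h2 : (x + 1 / (200 * C)) * (x + S) ≤ (S + 121 / 10000) * (2 * S + 1 / 100) :=
        mul_le_mul (by linarith) (by linarith) (by positivity) (by positivity)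
      have h3 : (S + 121 / 10000) * (2 * S + 1 / 100) ≤ 101 / 50 * S ^ 2 := by
        nlinarith only [hS1]
      linarith
    have h2 : 59 / 50 * (13 / 10 + E / 4) * (x + 1 / (200 * C)) * (x + S) * (1 + 21 / 100) ^ 2 =
        59 / 50 * (13 / 10 + E / 4) * (121 / 100) ^ 2 * ((x + 1 / (200 * C)) * (x + S)) := by ring
    rw [h2]
    have h3 : 59 / 50 * (13 / 10 + E / 4) * (121 / 100) ^ 2 * ((x + 1 / (200 * C)) * (x + S)) ≤
        59 / 50 * (13 / 10 + E / 4) * (121 / 100) ^ 2 * (101 / 50 * C ^ 2) :=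
      mul_le_mul_of_nonneg_left h1 (by positivity)
    have h4 : 19 / 20 * (931 / 500 * (2209 / 2500)) * C ^ 2 * (3 + E) ≤
        19 / 20 * (931 / 500 * (2209 / 2500)) * C ^ 2 * K :=
      mul_le_mul_of_nonneg_left hK3 (by positivity)
    refine h3.trans (le_trans ?_ h4)
    have h5 : 59 / 50 * (13 / 10 + E / 4) * (121 / 100) ^ 2 * (101 / 50) ≤
        19 / 20 * (931 / 500 * (2209 / 2500)) * (3 + E) := by linarith
    have h6 := mul_le_mul_of_nonneg_right h5 (sq_nonneg C)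
    linarith

/-- The goal for large `κ`. -/
theorem goal_large4 (he : 2 ≤ e) (he4 : e ≤ 4) (hκ : 0 < κ) (hP : P ∈ LT4 e κ)
    (F : Facts κ P s U v A B x o p)
    (X : Aux4 e κ s U v A B x o p (KK e κ) (Real.exp (-κ)))
    (hs : 5 ≤ s) :
    ∃ n : Pk, Goal4 e κ P s v A x o p (KK e κ) (Real.exp (-κ)) (Real.sinh κ) 1 (99 / 100) n := by
  exact ⟨⟨1, 1 / (200 * Real.cosh κ), 1 / (200 * Real.cosh κ), 21 / 100, 21 / 100,
    19 / 10 * Real.cosh κ, 1 / 200, 1 / (200 * Real.cosh κ), 13 / 5 * Real.cosh κ, 1 / 100, 1, 5 / 4, 1,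
    103 / 100, 1 / 100, 1 / 100, 49 / (100 * Real.cosh κ), 47 / 50 * Real.cosh κ, Real.cosh κ,
    1 / (200 * Real.cosh κ), 47 / 50 * Real.cosh κ, 47 / 50 * Real.cosh κ,
    31 / (100 * Real.cosh κ), 1 - 22 / 25 * (1 / Real.cosh κ ^ 2), 1 + 19 / 25 * (e / 2 - 1) ^ 2,
    Real.cosh κ ^ 2 * ((e / 2 - 1) * (1 + 97 / 100 * ((1 - (e / 2 - 1)) * (2 - (e / 2 - 1)))) / 12 /
        (1 + 19 / 25 * (e / 2 - 1) ^ 2)),
    Real.cosh κ ^ 2 * ((e / 2 - 1) * ((1 - (e / 2 - 1)) * (2 - (e / 2 - 1))) /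
        (1 + 19 / 25 * (e / 2 - 1) ^ 2) / 7),
    1 + (e / 2 - 1), 59 / 50 * (13 / 10 + (e / 2 - 1) / 4), 19 / 20⟩,
    ⟨l4_num13 he he4 hκ hP F X hs, l4_num2 he he4 hκ F X hs, by norm_num, by norm_num, by norm_num,
      by norm_num⟩⟩

end Pool.Agent.helper4.EQW4
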