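import Pool.Agent.helper4.EQW4.Box4S
import Pool.Agent.helper4.EQW4.Corner4
import Pool.Agent.helper4.EQW4.Large4
import Pool.Agent.helper4.EQW4.K.All

/-!
# EQW4: the scalar goal for all positions
-/

namespace Pool.Agent.helper4.EQW4

open Complex
open Pool.Agent.helper4.EQW

variable {e κ : ℝ} {P : ℂ} {s U v A B x o p : ℝ}

/-- `s ≤ U (1 + 2 s)²` -/
theorem s_le_U4 (F : Facts κ P s U v A B x o p)
    (X : Aux4 e κ s U v A B x o p (KK e κ) (Real.exp (-κ))) : s ≤ U * (1 + 2 * s) ^ 2 := by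
  have hs := F.s_pos
  have hC1 := Real.one_le_cosh κ
  have hCs : Real.cosh κ ^ 2 = 1 + s := by rw [F.s_def, Real.cosh_sq]; ring
  have hq := F.U_eq
  unfold q4 at hq
  have hx := F.x_le
  have hv4 := F.v_le
  have hv5 := F.v_lt
  have hx0 := X.x_nn
  have hU0 := X.U_pos
  have hxC : x ≤ Real.cosh κ := by
    apply le_of_sq_le_sq _ (by linarith)
    rw [hCs]
    linarith
  have h3 : (Real.cosh κ - x) ^ 2 ≤ 1 - (3 + 4 * s) * U :=
    (pow_le_pow_left₀ (by linarith) F.p_ge 2).trans F.p_sq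
  have h4 : 4 * (1 + s) * (1 + 2 * s) * U ≤ 2 * Real.cosh κ * x := by nlinarith
  have h5 : (4 * (1 + s) * (1 + 2 * s) * U) ^ 2 ≤ (2 * Real.cosh κ * x) ^ 2 :=
    pow_le_pow_left₀ (by positivity) h4 2
  have h6 : (2 * Real.cosh κ * x) ^ 2 = 4 * (1 + s) * ((1 + 8 * s + 8 * s ^ 2) * U - s) := by
    have : (2 * Real.cosh κ * x) ^ 2 = 4 * Real.cosh κ ^ 2 * x ^ 2 := by ring
    rw [this, hCs]
    have : x ^ 2 = (1 + 8 * s + 8 * s ^ 2) * U - s := by linarith
    rw [this]
  rw [h6] at h5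
  have h7 : (4 * (1 + s) * U - 1) * ((1 + 2 * s) ^ 2 * U - s) ≤ 0 := by
    have h8 : 4 * (1 + s) * ((4 * (1 + s) * U - 1) * ((1 + 2 * s) ^ 2 * U - s)) =
        (4 * (1 + s) * (1 + 2 * s) * U) ^ 2 - 4 * (1 + s) * ((1 + 8 * s + 8 * s ^ 2) * U - s) := by
      ring
    have h9 : 4 * (1 + s) * ((4 * (1 + s) * U - 1) * ((1 + 2 * s) ^ 2 * U - s)) ≤ 0 := by
      rw [h8]
      linarith
    by_contra hc
    push Not at hc
    have : 0 < 4 * (1 + s) * ((4 * (1 + s) * U - 1) * ((1 + 2 * s) ^ 2 * U - s)) := by positivity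
    linarith
  by_contra hc
  push Not at hc
  have h8 : (1 + 2 * s) ^ 2 * U - s < 0 := by linarith
  have h9 : 0 ≤ 4 * (1 + s) * U - 1 := by
    by_contra hd
    push Not at hd
    have : 0 < (4 * (1 + s) * U - 1) * ((1 + 2 * s) ^ 2 * U - s) := mul_pos_of_neg_of_neg hd h8
    linarith
  have h10 : (1 + 2 * s) ^ 2 * 1 ≤ (1 + 2 * s) ^ 2 * (4 * (1 + s) * U) :=
    mul_le_mul_of_nonneg_left (by linarith) (by positivity)
  have h11 : (1 + 2 * s) ^ 2 * (4 * (1 + s) * U) = 4 * (1 + s) * ((1 + 2 * s) ^ 2 * U) := by ring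
  have h12 : 4 * (1 + s) * ((1 + 2 * s) ^ 2 * U) ≤ 4 * (1 + s) * s :=
    mul_le_mul_of_nonneg_left (by linarith) (by positivity)
  nlinarith

theorem corner_thT (F : Facts κ P s U v A B x o p)
    (X : Aux4 e κ s U v A B x o p (KK e κ) (Real.exp (-κ))) : 1 - U ≤ thT κ := by
  refine le_trans ?_ (le_max_right _ _)
  rw [← F.s_def]
  have h1 := s_le_U4 F X
  have hs := F.s_pos
  have : s / (1 + 2 * s) ^ 2 ≤ U := by
    rw [div_le_iff₀ (by positivity)]
    exact h1
  linarith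

/-- the statement about one root box -/
theorem root_box (he : 2 ≤ e) (he4 : e ≤ 4) (hκ : 0 < κ) (hP : P ∈ LT4 e κ)
    (F : Facts κ P s U v A B x o p)
    (X : Aux4 e κ s U v A B x o p (KK e κ) (Real.exp (-κ)))
    {vc f3 : ℤ} (hvc : v ≤ (vc : ℝ) / 65536) (hf3 : (f3 : ℝ) ≤ 5) {t : Tr} {b : Bx ℤ}
    (h : t.ok vc f3 b = true) (hD : DomZ b) (hI : InB (RB b) e (Real.sinh κ) x p) :
    ∃ n : Pk, Goal4 e κ P s v A x o p (KK e κ) (Real.exp (-κ)) (Real.sinh κ) ((f3 : ℝ) / 3)
      (thT κ) n := by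
  rcases tree_sound4 he he4 hκ hP F X hvc t b h hD hI with ⟨h1, h2⟩ | ⟨n, hn⟩
  · obtain ⟨n, hn⟩ := goal_corner4 he he4 hκ hP F X h1 h2
    exact ⟨n, hn.mono (by linarith) (corner_thT F X)⟩
  · exact ⟨n, hn.mono le_rfl (le_max_left _ _)⟩

theorem goal_all4 (he : 2 ≤ e) (he4 : e ≤ 4) (hκ : 0 < κ) (hP : P ∈ LT4 e κ)
    (F : Facts κ P s U v A B x o p)
    (X : Aux4 e κ s U v A B x o p (KK e κ) (Real.exp (-κ))) :
    ∃ n : Pk, Goal4 e κ P s v A x o p (KK e κ) (Real.exp (-κ)) (Real.sinh κ) 1 (thT κ) n := by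
  have hS : 0 < Real.sinh κ := Real.sinh_pos_iff.2 hκ
  rcases le_total 5 s with h5 | h5
  · obtain ⟨n, hn⟩ := goal_large4 he he4 hκ hP F X h5
    exact ⟨n, hn.mono le_rfl (le_max_left _ _)⟩
  have hS9 : Real.sinh κ ≤ 9 / 4 := by
    apply le_of_sq_le_sq _ (by norm_num)
    rw [← F.s_def]
    linarith
  have hx5 : x ≤ 5 / 2 := by
    apply le_of_sq_le_sq _ (by norm_num)
    have := F.x_le
    have := F.v_lt
    linarith
  have hx0 := X.x_nn
  have hp0 := X.p_pos
  have hp1 := X.p_le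
  have hvc : v ≤ ((13108 : ℤ) : ℝ) / 65536 := by
    have := F.v_lt
    push_cast
    linarith
  have key : ∀ (a c : ℤ) (t : Tr), t.ok 13108 3 ⟨a, c, 0, 147456, 0, 163840, 0, 65536⟩ = true →
      131072 ≤ a → c ≤ 262144 → (a : ℝ) * (1 / 65536) ≤ e → e ≤ (c : ℝ) * (1 / 65536) →
      ∃ n : Pk, Goal4 e κ P s v A x o p (KK e κ) (Real.exp (-κ)) (Real.sinh κ) 1 (thT κ) n := by
    intro a c t ht h1 h2 h3 h4
    have h6 := root_box he he4 hκ hP F X hvc (f3 := 3) (by norm_num) ht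
      ⟨h1, h2, le_rfl, le_rfl, le_rfl, le_rfl⟩ (by
        refine ⟨h3, h4, ?_, ?_, ?_, ?_, ?_, ?_⟩ <;> simp only [RB, Bx.sm, Bx.toR] <;> push_cast <;>
          linarith)
    have e1 : ((3 : ℤ) : ℝ) / 3 = 1 := by norm_num
    rw [e1] at h6
    exact h6
  rcases le_total e (9 / 4) with h | h
  · exact key 131072 147456 Tn8 Tn8_ok (by norm_num) (by norm_num) (by push_cast; linarith)
      (by push_cast; linarith)
  rcases le_total e (5 / 2) with h' | h'
  · exact key 147456 163840 Tn9 Tn9_ok (by norm_num) (by norm_num) (by push_cast; linarith)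
      (by push_cast; linarith)
  clear h
  rcases le_total e (11 / 4) with h | h
  · exact key 163840 180224 Tn10 Tn10_ok (by norm_num) (by norm_num) (by push_cast; linarith)
      (by push_cast; linarith)
  clear h'
  rcases le_total e 3 with h' | h'
  · exact key 180224 196608 Tn11 Tn11_ok (by norm_num) (by norm_num) (by push_cast; linarith)
      (by push_cast; linarith)
  clear h
  rcases le_total e (13 / 4) with h | h
  · exact key 196608 212992 Tn12 Tn12_ok (by norm_num) (by norm_num) (by push_cast; linarith)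
      (by push_cast; linarith)
  clear h'
  rcases le_total e (7 / 2) with h' | h'
  · exact key 212992 229376 Tn13 Tn13_ok (by norm_num) (by norm_num) (by push_cast; linarith)
      (by push_cast; linarith)
  clear h
  rcases le_total e (15 / 4) with h | h
  · exact key 229376 245760 Tn14 Tn14_ok (by norm_num) (by norm_num) (by push_cast; linarith)
      (by push_cast; linarith)
  clear h'
  exact key 245760 262144 Tn15 Tn15_ok (by norm_num) (by norm_num) (by push_cast; linarith)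
    (by push_cast; linarith)

theorem goal_small4 (he : 5 / 2 ≤ e) (he4 : e ≤ 4) (hκ : 0 < κ) (hP : P ∈ LT4 e κ)
    (F : Facts κ P s U v A B x o p)
    (X : Aux4 e κ s U v A B x o p (KK e κ) (Real.exp (-κ)))
    (hS : Real.sinh κ ≤ 527 / 1250) (hv : v ≤ 105 / 1000) :
    ∃ n : Pk, Goal4 e κ P s v A x o p (KK e κ) (Real.exp (-κ)) (Real.sinh κ) (5 / 3) (thT κ) n := by
  have he2 : 2 ≤ e := by linarith
  have hS0 : 0 < Real.sinh κ := Real.sinh_pos_iff.2 hκ
  have hx5 : x ≤ 5 / 8 := by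
    apply le_of_sq_le_sq _ (by norm_num)
    have h1 := F.x_le
    have h2 : Real.sinh κ ^ 2 ≤ (527 / 1250) ^ 2 := pow_le_pow_left₀ hS0.le hS 2
    rw [← F.s_def] at h2
    norm_num at h2 ⊢
    linarith
  have hx0 := X.x_nn
  have hp0 := X.p_pos
  have hp1 := X.p_le
  have hvc : v ≤ ((6882 : ℤ) : ℝ) / 65536 := by
    push_cast
    linarith
  have key : ∀ (a c : ℤ) (t : Tr), t.ok 6882 5 ⟨a, c, 0, 27630, 0, 40960, 0, 65536⟩ = true →
      131072 ≤ a → c ≤ 262144 → (a : ℝ) * (1 / 65536) ≤ e → e ≤ (c : ℝ) * (1 / 65536) →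
      ∃ n : Pk, Goal4 e κ P s v A x o p (KK e κ) (Real.exp (-κ)) (Real.sinh κ) (5 / 3) (thT κ) n := by
    intro a c t ht h1 h2 h3 h4
    have h6 := root_box he2 he4 hκ hP F X hvc (f3 := 5) (by norm_num) ht
      ⟨h1, h2, le_rfl, by norm_num, le_rfl, le_rfl⟩ (by
        refine ⟨h3, h4, ?_, ?_, ?_, ?_, ?_, ?_⟩ <;> simp only [RB, Bx.sm, Bx.toR] <;> push_cast <;>
          linarith)
    have e1 : ((5 : ℤ) : ℝ) / 3 = 5 / 3 := by norm_num
    rw [e1] at h6
    exact h6
  rcases le_total e (11 / 4) with h | h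
  · exact key 163840 180224 Ts10 Ts10_ok (by norm_num) (by norm_num) (by push_cast; linarith)
      (by push_cast; linarith)
  rcases le_total e 3 with h' | h'
  · exact key 180224 196608 Ts11 Ts11_ok (by norm_num) (by norm_num) (by push_cast; linarith)
      (by push_cast; linarith)
  clear h
  rcases le_total e (13 / 4) with h | h
  · exact key 196608 212992 Ts12 Ts12_ok (by norm_num) (by norm_num) (by push_cast; linarith)
      (by push_cast; linarith)
  clear h'
  rcases le_total e (7 / 2) with h' | h'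
  · exact key 212992 229376 Ts13 Ts13_ok (by norm_num) (by norm_num) (by push_cast; linarith)
      (by push_cast; linarith)
  clear h
  rcases le_total e (15 / 4) with h | h
  · exact key 229376 245760 Ts14 Ts14_ok (by norm_num) (by norm_num) (by push_cast; linarith)
      (by push_cast; linarith)
  clear h'
  exact key 245760 262144 Ts15 Ts15_ok (by norm_num) (by norm_num) (by push_cast; linarith)
    (by push_cast; linarith)

end Pool.Agent.helper4.EQW4
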