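import Pool.Agent.helper4.EQW4.Gam4
import Pool.Agent.helper4.EQW.Chain

/-!
# EQW4: real constants, lower bound of `Γ'`, `2 ≤ e ≤ 4`
-/

namespace Pool.Agent.helper4.EQW4

open Complex
open Pool.Agent.helper31.EQ.W (c2 gl gs nxt wn FW)
open Pool.Agent.helper4.EQW

variable {e κ : ℝ}

theorem hasDerivAt_tanh (x : ℝ) : HasDerivAt Real.tanh (1 / Real.cosh x ^ 2) x := by
  have h : HasDerivAt (fun y => Real.sinh y / Real.cosh y)
      ((Real.cosh x * Real.cosh x - Real.sinh x * Real.sinh x) / Real.cosh x ^ 2) x :=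
    (Real.hasDerivAt_sinh x).div (Real.hasDerivAt_cosh x) (Real.cosh_pos x).ne'
  have e1 : Real.tanh = fun y => Real.sinh y / Real.cosh y := by
    funext y
    exact Real.tanh_eq_sinh_div_cosh y
  rw [e1]
  refine h.congr_deriv ?_
  have := Real.cosh_sq x
  congr 1
  nlinarith

theorem concaveOn_tanh : ConcaveOn ℝ (Set.Ici 0) Real.tanh := by
  apply AntitoneOn.concaveOn_of_deriv (convex_Ici 0)
  · exact fun x _ => (hasDerivAt_tanh x).continuousAt.continuousWithinAt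
  · exact fun x _ => (hasDerivAt_tanh x).differentiableAt.differentiableWithinAt
  · intro x hx y hy hxy
    rw [interior_Ici] at hx hy
    rw [(hasDerivAt_tanh x).deriv, (hasDerivAt_tanh y).deriv]
    have hx0 : 0 < x := hx
    have h1 : Real.cosh x ≤ Real.cosh y := by
      rw [Real.cosh_le_cosh, abs_of_pos hx0, abs_of_pos (hx0.trans_le hxy)]
      exact hxy
    have h2 := Real.cosh_pos x
    exact one_div_le_one_div_of_le (by positivity) (pow_le_pow_left₀ h2.le h1 2)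

/-- `tanh (E x) ≤ E tanh x` -/
theorem tanh_mul_le {E x : ℝ} (hE : 1 ≤ E) (hx : 0 ≤ x) : Real.tanh (E * x) ≤ E * Real.tanh x := by
  have hE0 : 0 < E := by linarith
  have h := concaveOn_tanh.2 (Set.mem_Ici.2 (by positivity : (0 : ℝ) ≤ E * x))
    (Set.mem_Ici.2 (le_refl (0 : ℝ))) (show 0 ≤ 1 / E by positivity)
    (show 0 ≤ 1 - 1 / E by rw [sub_nonneg, div_le_one hE0]; exact hE) (by ring)
  simp only [smul_eq_mul, Real.tanh_zero, mul_zero, add_zero] at h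
  have e1 : 1 / E * (E * x) = x := by field_simp
  rw [e1, one_div, inv_mul_le_iff₀ hE0] at h
  exact h

/-- `(2-E) tanh x + (E-1) tanh (2x) ≤ tanh (E x)` -/
theorem tanh_mul_ge {E x : ℝ} (hE : 1 ≤ E) (hE2 : E ≤ 2) (hx : 0 ≤ x) :
    (2 - E) * Real.tanh x + (E - 1) * Real.tanh (2 * x) ≤ Real.tanh (E * x) := by
  have h := concaveOn_tanh.2 (Set.mem_Ici.2 hx) (Set.mem_Ici.2 (by positivity : (0 : ℝ) ≤ 2 * x))
    (show 0 ≤ 2 - E by linarith) (show 0 ≤ E - 1 by linarith) (by ring)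
  simp only [smul_eq_mul] at h
  have e1 : (2 - E) * x + (E - 1) * (2 * x) = E * x := by ring
  rw [e1] at h
  exact h

theorem tanh_sq (κ : ℝ) : Real.tanh κ ^ 2 = Real.sinh κ ^ 2 / (1 + Real.sinh κ ^ 2) := by
  rw [Real.tanh_eq_sinh_div_cosh, div_pow, Real.cosh_sq]
  congr 1
  ring

theorem tanh_two (κ : ℝ) : Real.tanh (2 * κ) = 2 * Real.tanh κ / (1 + Real.tanh κ ^ 2) := by
  have hc := Real.cosh_pos κ
  rw [Real.tanh_eq_sinh_div_cosh (2 * κ), Real.sinh_two_mul, Real.cosh_two_mul,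
    Real.tanh_eq_sinh_div_cosh κ]
  field_simp

theorem tanh_two_sq (κ : ℝ) : Real.tanh (2 * κ) ^ 2 =
    4 * Real.sinh κ ^ 2 * (1 + Real.sinh κ ^ 2) / (1 + 2 * Real.sinh κ ^ 2) ^ 2 := by
  have h1 : Real.cosh (2 * κ) = 1 + 2 * Real.sinh κ ^ 2 := by
    rw [Real.cosh_two_mul, Real.cosh_sq]
    ring
  rw [Real.tanh_eq_sinh_div_cosh (2 * κ), div_pow, h1, Real.sinh_two_mul]
  congr 1
  have := Real.cosh_sq κ
  rw [mul_pow, mul_pow, this]
  ring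

/-- The three upper bounds of `tanh (eκ/2)²`. -/
theorem th_le (he : 2 ≤ e) (he4 : e ≤ 4) (hκ : 0 < κ) :
    Real.tanh (e * κ / 2) ^ 2 ≤ (e / 2) ^ 2 * (Real.sinh κ ^ 2 / (1 + Real.sinh κ ^ 2)) ∧
    Real.tanh (e * κ / 2) ^ 2 ≤
      4 * Real.sinh κ ^ 2 * (1 + Real.sinh κ ^ 2) / (1 + 2 * Real.sinh κ ^ 2) ^ 2 ∧
    Real.tanh (e * κ / 2) ^ 2 ≤ 1 := by
  have e1 : e * κ / 2 = e / 2 * κ := by ring
  have h0 : 0 < Real.tanh (e * κ / 2) := tanh_pos (by positivity)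
  refine ⟨?_, ?_, ?_⟩
  · rw [← tanh_sq, ← mul_pow]
    apply pow_le_pow_left₀ h0.le
    rw [e1]
    exact tanh_mul_le (by linarith) hκ.le
  · rw [← tanh_two_sq]
    apply pow_le_pow_left₀ h0.le
    apply tanh_mono
    nlinarith
  · rw [tanh_sq, div_le_one (by positivity)]
    linarith

/-- lower bound of `tanh (eκ/2)` -/
theorem th_ge (he : 2 ≤ e) (he4 : e ≤ 4) (hκ : 0 < κ) :
    (2 - e / 2) * Real.tanh κ + (e / 2 - 1) * (2 * Real.tanh κ / (1 + Real.tanh κ ^ 2)) ≤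
      Real.tanh (e * κ / 2) := by
  have e1 : e * κ / 2 = e / 2 * κ := by ring
  rw [e1, ← tanh_two]
  exact tanh_mul_ge (by linarith) (by linarith) hκ.le

theorem KK_le5 (he : 2 ≤ e) (he4 : e ≤ 4) (hκ : 0 < κ) : KK e κ ≤ 5 := by
  have h := (th_le he he4 hκ).2.2
  unfold KK
  nlinarith

/-- `K a² ≤ e²/8` -/
theorem KKa2' (he : 2 ≤ e) (he4 : e ≤ 4) (hκ : 0 < κ) :
    KK e κ * Real.exp (-κ) ^ 2 ≤ e ^ 2 / 8 := by
  have h1 := (th_le he he4 hκ).1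
  have hS : 0 < Real.sinh κ := Real.sinh_pos_iff.2 hκ
  have hC := Real.one_le_cosh κ
  have hab : Real.exp (-κ) * Real.exp κ = 1 := by rw [← Real.exp_add]; simp
  have hb : Real.exp κ ^ 2 = 1 + 2 * Real.sinh κ ^ 2 + 2 * Real.sinh κ * Real.cosh κ := by
    rw [exp_eq]
    have := Real.cosh_sq κ
    nlinarith
  have h2 : Real.exp (-κ) ^ 2 * Real.exp κ ^ 2 = 1 := by rw [← mul_pow, hab, one_pow]
  set S := Real.sinh κ with hSd
  have h3 : 3 * (S ^ 2 / (1 + S ^ 2)) ≤ S ^ 2 + S * Real.cosh κ := by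
    rw [← mul_div_assoc, div_le_iff₀ (by positivity)]
    have h4 : S ≤ S * Real.cosh κ := le_mul_of_one_le_right hS.le hC
    have h5 : 3 * S ^ 2 ≤ (S ^ 2 + S) * (1 + S ^ 2) := by
      have : (S ^ 2 + S) * (1 + S ^ 2) - 3 * S ^ 2 = S * ((1 - S) ^ 2 + S ^ 3) := by ring
      have h6 : 0 ≤ S * ((1 - S) ^ 2 + S ^ 3) := by positivity
      linarith
    refine h5.trans ?_
    apply mul_le_mul_of_nonneg_right _ (by positivity)
    linarith
  have h4 : KK e κ ≤ e ^ 2 / 8 * Real.exp κ ^ 2 := by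
    unfold KK
    rw [hb]
    have h5 : (e / 2) ^ 2 * (3 * (S ^ 2 / (1 + S ^ 2))) ≤ (e / 2) ^ 2 * (S ^ 2 + S * Real.cosh κ) :=
      mul_le_mul_of_nonneg_left h3 (by positivity)
    linarith
  calc KK e κ * Real.exp (-κ) ^ 2 ≤ (e ^ 2 / 8 * Real.exp κ ^ 2) * Real.exp (-κ) ^ 2 :=
        mul_le_mul_of_nonneg_right h4 (by positivity)
    _ = e ^ 2 / 8 * (Real.exp (-κ) ^ 2 * Real.exp κ ^ 2) := by ring
    _ = e ^ 2 / 8 := by rw [h2, mul_one]

/-- `(1 + K v) a ≤ 1 + e² v/8` -/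
theorem KKa' (he : 2 ≤ e) (he4 : e ≤ 4) (hκ : 0 < κ) {v : ℝ} (hv0 : 0 ≤ v) (hv : v ≤ 1 / 5) :
    (1 + KK e κ * v) * Real.exp (-κ) ≤ 1 + e ^ 2 / 8 * v := by
  have h1 := (th_le he he4 hκ).1
  have hS : 0 < Real.sinh κ := Real.sinh_pos_iff.2 hκ
  have hC := Real.one_le_cosh κ
  have hab : Real.exp (-κ) * Real.exp κ = 1 := by rw [← Real.exp_add]; simp
  have hb : 1 + Real.sinh κ ≤ Real.exp κ := by
    rw [exp_eq]
    linarith
  have ha : 0 < Real.exp (-κ) := Real.exp_pos _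
  set S := Real.sinh κ with hSd
  have h2 : S ^ 2 / (1 + S ^ 2) ≤ S / 2 := by
    rw [div_le_div_iff₀ (by positivity) (by norm_num)]
    nlinarith [mul_nonneg hS.le (sq_nonneg (S - 1))]
  have h3 : Real.tanh (e * κ / 2) ^ 2 ≤ (e / 2) ^ 2 * (S / 2) :=
    h1.trans (mul_le_mul_of_nonneg_left h2 (by positivity))
  have h4 : 1 + KK e κ * v ≤ (1 + e ^ 2 / 8 * v) * Real.exp κ := by
    have h5 : (1 + e ^ 2 / 8 * v) * (1 + S) ≤ (1 + e ^ 2 / 8 * v) * Real.exp κ :=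
      mul_le_mul_of_nonneg_left hb (by positivity)
    refine le_trans ?_ h5
    unfold KK
    have h6 : 3 * Real.tanh (e * κ / 2) ^ 2 * v ≤ 3 * ((e / 2) ^ 2 * (S / 2)) * v := by
      apply mul_le_mul_of_nonneg_right _ hv0
      linarith
    have h7 : e ^ 2 * v ≤ 16 / 5 := by nlinarith
    nlinarith
  calc (1 + KK e κ * v) * Real.exp (-κ) ≤ ((1 + e ^ 2 / 8 * v) * Real.exp κ) * Real.exp (-κ) :=
        mul_le_mul_of_nonneg_right h4 ha.le
    _ = (1 + e ^ 2 / 8 * v) * (Real.exp (-κ) * Real.exp κ) := by ring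
    _ = 1 + e ^ 2 / 8 * v := by rw [hab, mul_one]

/-- Power mean: `cosh κ ≤ c2`. -/
theorem c2_ge4 (he : 2 ≤ e) (κ : ℝ) : Real.cosh κ ≤ c2 e κ := by
  have he0 : 0 < e := by linarith
  have hu : 0 < Real.exp κ := Real.exp_pos _
  have hu' : 0 < Real.exp (-κ) := Real.exp_pos _
  have h1 : Real.cosh κ ^ (e / 2) ≤ Real.cosh (e * κ / 2) := by
    have := mean2 hu.le hu'.le (show 1 ≤ e / 2 by linarith)
    rw [← Real.exp_mul, ← Real.exp_mul] at this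
    rw [Real.cosh_eq κ, Real.cosh_eq (e * κ / 2)]
    have e1 : (Real.exp κ + Real.exp (-κ)) / 2 = 1 / 2 * Real.exp κ + 1 / 2 * Real.exp (-κ) := by
      ring
    have e2 : κ * (e / 2) = e * κ / 2 := by ring
    have e3 : -κ * (e / 2) = -(e * κ / 2) := by ring
    rw [e2, e3] at this
    rw [e1]
    linarith
  have h3 : (Real.cosh κ ^ (e / 2)) ^ (2 / e) = Real.cosh κ := by
    rw [← Real.rpow_mul (Real.cosh_pos _).le]
    have : e / 2 * (2 / e) = 1 := by field_simp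
    rw [this, Real.rpow_one]
  unfold c2
  rw [← h3]
  exact Real.rpow_le_rpow (Real.rpow_nonneg (Real.cosh_pos _).le _) h1 (by positivity)

/-- Lower bound of `Γ'`: `8 C p ≤ (1 + p^e)(3 + p⁴) ‖G1 P‖`. -/
theorem G1_low (he : 2 ≤ e) (he4 : e ≤ 4) {P : ℂ} (hf : f0 e P ≠ 0) (hP0 : P ≠ 0) :
    8 * Real.cosh κ * ‖P‖ ≤ (1 + ‖P‖ ^ e) * (3 + ‖P‖ ^ 4) * ‖G1 e κ P‖ := by
  have he0 : 0 < e := by linarith
  have hC := Real.one_le_cosh κ
  rw [norm_G1]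
  set p := ‖P‖ with hp
  have hpp : 0 < p := norm_pos_iff.2 hP0
  set F := ‖f0 e P‖ with hF
  have hF0 : 0 < F := norm_pos_iff.2 hf
  have hFle : F ≤ (1 + p ^ e) / 2 := norm_f0_le
  have hpe0 : 0 ≤ p ^ e := Real.rpow_nonneg hpp.le _
  set M := (1 + p ^ e) / 2 with hM
  have hM0 : 0 < M := by positivity
  have h1 : M ^ (2 / e) ≤ (3 + p ^ 4) / 4 := by
    have h2e : 1 ≤ 4 / e := by rw [le_div_iff₀ he0]; linarith
    have h2 := mean2 zero_le_one hpe0 h2e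
    rw [Real.one_rpow, ← Real.rpow_mul hpp.le, mul_div_cancel₀ _ he0.ne', Real.rpow_ofNat] at h2
    have e1 : M = 1 / 2 * 1 + 1 / 2 * p ^ e := by rw [hM]; ring
    rw [← e1] at h2
    have e2 : M ^ (4 / e) = (M ^ (2 / e)) ^ 2 := by
      rw [← Real.rpow_natCast, ← Real.rpow_mul hM0.le]
      congr 1
      push_cast
      ring
    rw [e2] at h2
    nlinarith [sq_nonneg (M ^ (2 / e) - 1)]
  have h2 : M ^ (1 + 2 / e) = M * M ^ (2 / e) := by rw [Real.rpow_add hM0, Real.rpow_one]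
  have h3 : F ^ (1 + 2 / e) ≤ M * ((3 + p ^ 4) / 4) := by
    calc F ^ (1 + 2 / e) ≤ M ^ (1 + 2 / e) := Real.rpow_le_rpow hF0.le hFle (by positivity)
      _ = M * M ^ (2 / e) := h2
      _ ≤ M * ((3 + p ^ 4) / 4) := mul_le_mul_of_nonneg_left h1 hM0.le
  have h4 := c2_ge4 he κ
  rw [Real.rpow_neg hF0.le]
  have h6 : 0 < F ^ (1 + 2 / e) := Real.rpow_pos_of_pos hF0 _
  have h7 : (1 + p ^ e) * (3 + p ^ 4) = 8 * (M * ((3 + p ^ 4) / 4)) := by rw [hM]; ring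
  rw [h7]
  have h8 : (F ^ (1 + 2 / e)) * (F ^ (1 + 2 / e))⁻¹ = 1 := mul_inv_cancel₀ h6.ne'
  have h9 : 0 < (F ^ (1 + 2 / e))⁻¹ := inv_pos.2 h6
  calc 8 * Real.cosh κ * p ≤ 8 * c2 e κ * p := by gcongr
    _ = 8 * c2 e κ * p * (F ^ (1 + 2 / e) * (F ^ (1 + 2 / e))⁻¹) := by rw [h8, mul_one]
    _ = 8 * (F ^ (1 + 2 / e)) * (c2 e κ * p * (F ^ (1 + 2 / e))⁻¹) := by ring
    _ ≤ 8 * (M * ((3 + p ^ 4) / 4)) * (c2 e κ * p * (F ^ (1 + 2 / e))⁻¹) := by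
        have := c2_pos e κ
        gcongr

/-- `(1+p²)(3+p⁴) ≤ 8 C p` if `1 ≤ 2 C p`, `p ≤ 1 ≤ C`. -/
theorem low_poly4 {C p : ℝ} (hC : 1 ≤ C) (hp : 0 < p) (hp1 : p ≤ 1) (h : 1 ≤ 2 * C * p) :
    (1 + p ^ 2) * (3 + p ^ 4) ≤ 8 * C * p := by
  rcases le_total p (11 / 20) with h1 | h1
  · rcases le_total p (1 / 2) with h2 | h2
    · have h3 : p ^ 2 ≤ 1 / 4 := by nlinarith
      have h4 : p ^ 4 ≤ 1 / 16 := by nlinarith [sq_nonneg (p ^ 2)]
      have h5 : (1 + p ^ 2) * (3 + p ^ 4) ≤ 5 / 4 * (49 / 16) :=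
        mul_le_mul (by linarith) (by linarith) (by positivity) (by norm_num)
      nlinarith
    · -- p in [1/2, 11/20]
      have h3 : p ^ 2 ≤ 121 / 400 := by nlinarith
      have h4 : p ^ 4 ≤ 92 / 1000 := by nlinarith [sq_nonneg (p ^ 2)]
      have h5 : (1 + p ^ 2) * (3 + p ^ 4) ≤ 521 / 400 * (3092 / 1000) :=
        mul_le_mul (by linarith) (by linarith) (by positivity) (by norm_num)
      rcases le_total p (51 / 100) with h6 | h6
      · have h7 : p ^ 2 ≤ 2601 / 10000 := by nlinarith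
        have h8 : p ^ 4 ≤ 68 / 1000 := by nlinarith [sq_nonneg (p ^ 2)]
        have h9 : (1 + p ^ 2) * (3 + p ^ 4) ≤ 12601 / 10000 * (3068 / 1000) :=
          mul_le_mul (by linarith) (by linarith) (by positivity) (by norm_num)
        nlinarith
      · nlinarith
  · have h2 : (1 + p ^ 2) * (3 + p ^ 4) ≤ 8 * p := by
      have e1 : 8 * p - (1 + p ^ 2) * (3 + p ^ 4) =
          (1 - p) * (p ^ 5 + p ^ 4 + 2 * p ^ 3 + 2 * p ^ 2 + 5 * p - 3) := by ring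
      have h5 : 3 ≤ 5 * p + 2 * p ^ 2 := by nlinarith
      have h6 : 0 ≤ (1 - p) * (p ^ 5 + p ^ 4 + 2 * p ^ 3 + 2 * p ^ 2 + 5 * p - 3) := by
        apply mul_nonneg (by linarith)
        have : 0 ≤ p ^ 5 + p ^ 4 + 2 * p ^ 3 := by positivity
        linarith
      linarith
    nlinarith

theorem one_le_G1' (he : 2 ≤ e) (he4 : e ≤ 4) {P : ℂ} (hf : f0 e P ≠ 0) (hP1 : ‖P‖ ≤ 1)
    (hP2 : 1 ≤ 2 * Real.cosh κ * ‖P‖) : 1 ≤ ‖G1 e κ P‖ := by
  have hC := Real.one_le_cosh κ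
  have hP0 : P ≠ 0 := by
    intro h
    rw [h, norm_zero, mul_zero] at hP2
    norm_num at hP2
  have hpp : 0 < ‖P‖ := norm_pos_iff.2 hP0
  have h1 := G1_low (κ := κ) he he4 hf hP0
  have h2 := low_poly4 hC hpp hP1 hP2
  have hpe : ‖P‖ ^ e ≤ ‖P‖ ^ 2 := by
    calc ‖P‖ ^ e ≤ ‖P‖ ^ (2 : ℝ) := Real.rpow_le_rpow_of_exponent_ge hpp hP1 he
      _ = ‖P‖ ^ 2 := Real.rpow_ofNat _ 2
  have hpe0 : 0 ≤ ‖P‖ ^ e := Real.rpow_nonneg hpp.le _
  set p := ‖P‖ with hp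
  set g := ‖G1 e κ P‖ with hg
  have hg0 : 0 ≤ g := norm_nonneg _
  by_contra hc
  push Not at hc
  have h3 : 0 < (1 + p ^ e) * (3 + p ^ 4) := by positivity
  have h4 : (1 + p ^ e) * (3 + p ^ 4) * g < (1 + p ^ e) * (3 + p ^ 4) * 1 :=
    mul_lt_mul_of_pos_left hc h3
  have h5 : (1 + p ^ e) * (3 + p ^ 4) ≤ (1 + p ^ 2) * (3 + p ^ 4) :=
    mul_le_mul_of_nonneg_right (by linarith) (by positivity)
  linarith

end Pool.Agent.helper4.EQW4
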