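import Pool.Agent.helper4.EQW.L.Ser

/-!
# EQW4-N1: `ψ = P_E^(1/E)`, `1 ≤ E ≤ 2`, and `f(m) = 1/(m ψ(1 - 1/m²))`
-/

namespace Pool.Agent.helper4.EQW4

open Complex
open Pool.Agent.helper4.EQW (cc PP PP1 PP2)

noncomputable section

/-- `ψ = P_E^(1/E)` -/
def psi (E : ℝ) (t : ℂ) : ℂ := PP E t ^ ((1 / E : ℝ) : ℂ)

/-- `t = 1 - 1/m²` -/
def tm (m : ℂ) : ℂ := 1 - 1 / m ^ 2

/-- `ℓ = P'/(E P) = ψ'/ψ` -/
def ell (E : ℝ) (t : ℂ) : ℂ := PP1 E t / ((E : ℂ) * PP E t)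

/-- `f(m) = 1/(m ψ(t))` -/
def fm (E : ℝ) (m : ℂ) : ℂ := 1 / (m * psi E (tm m))

/-- `f' = - f (1/m + 2 ℓ/m³)` -/
def fm1 (E : ℝ) (m : ℂ) : ℂ := -(fm E m) * (1 / m + 2 / m ^ 3 * ell E (tm m))

/-- `f'' = f (2/m² + 10 ℓ/m⁴ + 4 ((1+E) ℓ² - P''/(E P))/m⁶)` -/
def fm2 (E : ℝ) (m : ℂ) : ℂ := fm E m * (2 / m ^ 2 + 10 / m ^ 4 * ell E (tm m) +
  4 / m ^ 6 * ((1 + (E : ℂ)) * ell E (tm m) ^ 2 - PP2 E (tm m) / ((E : ℂ) * PP E (tm m))))

end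

variable {E : ℝ}

private theorem n1_cc_le_one (he : 1 ≤ E) (he2 : E ≤ 2) (k : ℕ) : cc E (k + 1) ≤ 1 := by
  have h := EQW.cc_sum he he2 (k + 1)
  have h1 : cc E (k + 1) ≤ ∑ j ∈ Finset.range (k + 1), cc E (j + 1) :=
    Finset.single_le_sum (f := fun j => cc E (j + 1)) (fun j _ => EQW.cc_nonneg he he2 (j + 1))
      (Finset.self_mem_range_succ k)
  linarith

private theorem n1_summable (he : 1 ≤ E) (he2 : E ≤ 2) : Summable (fun k : ℕ => cc E (k + 1)) :=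
  summable_of_sum_range_le (fun k => EQW.cc_nonneg he he2 (k + 1)) (EQW.cc_sum he he2)

private theorem n1_tsum (he : 1 ≤ E) (he2 : E ≤ 2) : ∑' k : ℕ, cc E (k + 1) ≤ E - 1 :=
  (n1_summable he he2).tsum_le_of_sum_range_le (EQW.cc_sum he he2)

private theorem n1_PP_summable (he : 1 ≤ E) (he2 : E ≤ 2) {t : ℂ} (ht : ‖t‖ < 1) :
    Summable (fun k : ℕ => (cc E k : ℂ) * t ^ k) := by
  apply Summable.of_norm_bounded (g := fun k : ℕ => ‖t‖ ^ k)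
    (summable_geometric_of_lt_one (norm_nonneg _) ht)
  intro k
  rw [norm_mul, norm_pow, Complex.norm_real, Real.norm_of_nonneg (EQW.cc_nonneg he he2 _)]
  have h1 : cc E k ≤ 1 := by
    cases k with
    | zero => rw [EQW.cc_zero]
    | succ k => exact n1_cc_le_one he he2 k
  have h2 : 0 ≤ ‖t‖ ^ k := by positivity
  nlinarith

/-- Like `re_PP` in `Ser.lean`, with the factor `‖t‖²`: `P = 1 + c1 t + ∑_{k ≥ 2} c_k t^k`,
`|∑_{k ≥ 2} c_k t^k| ≤ ‖t‖² ∑_{k ≥ 2} c_k ≤ ‖t‖² (E - 1 - c1)` (`cc_sum`). -/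
theorem norm_PP_sub (hE : 1 ≤ E) (hE2 : E ≤ 2) {t : ℂ} (ht : ‖t‖ < 1) :
    ‖PP E t - 1 - (cc E 1 : ℂ) * t‖ ≤ (E - 1 - cc E 1) * ‖t‖ ^ 2 := by
  have hs := n1_summable hE hE2
  have hle := n1_tsum hE hE2
  have hs2 : Summable (fun k : ℕ => cc E (k + 2)) := by
    have h := (summable_nat_add_iff (f := fun k : ℕ => cc E (k + 1)) 1).2 hs
    simpa only [add_assoc, one_add_one_eq_two] using h
  have hle2 : ∑' k : ℕ, cc E (k + 2) ≤ E - 1 - cc E 1 := by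
    rw [hs.tsum_eq_zero_add] at hle
    simp only [zero_add] at hle
    linarith
  have hS := n1_PP_summable hE hE2 ht
  have hS1 : Summable (fun k : ℕ => (cc E (k + 1) : ℂ) * t ^ (k + 1)) :=
    (summable_nat_add_iff (f := fun k : ℕ => (cc E k : ℂ) * t ^ k) 1).2 hS
  have h1 : PP E t - 1 - (cc E 1 : ℂ) * t = ∑' k : ℕ, (cc E (k + 2) : ℂ) * t ^ (k + 2) := by
    unfold PP
    rw [hS.tsum_eq_zero_add, hS1.tsum_eq_zero_add]
    simp only [EQW.cc_zero, zero_add, pow_zero, pow_one, mul_one, Complex.ofReal_one, add_assoc,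
      one_add_one_eq_two]
    ring
  rw [h1]
  have h2 : ‖∑' k : ℕ, (cc E (k + 2) : ℂ) * t ^ (k + 2)‖ ≤ ∑' k : ℕ, cc E (k + 2) * ‖t‖ ^ 2 := by
    apply tsum_of_norm_bounded (hs2.mul_right _).hasSum
    intro k
    rw [norm_mul, norm_pow, Complex.norm_real, Real.norm_of_nonneg (EQW.cc_nonneg hE hE2 _)]
    apply mul_le_mul_of_nonneg_left _ (EQW.cc_nonneg hE hE2 _)
    rw [pow_add]
    have h3 : ‖t‖ ^ k ≤ 1 := pow_le_one₀ (norm_nonneg _) ht.le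
    have h4 : 0 ≤ ‖t‖ ^ 2 := by positivity
    nlinarith
  rw [tsum_mul_right] at h2
  exact le_trans h2 (mul_le_mul_of_nonneg_right hle2 (by positivity))

/-- `PP E t ∈ slitPlane` is `EQW.PP_slit` in `L/Phi.lean`; it follows from `norm_PP_sub_one`. -/
theorem PP_mem_slit (hE : 1 ≤ E) (hE2 : E ≤ 2) {t : ℂ} (ht : ‖t‖ < 1) : PP E t ∈ slitPlane := by
  have h := EQW.norm_PP_sub_one hE hE2 ht
  have h1 : ‖PP E t - 1‖ < 1 := by
    have h2 : (E - 1) * ‖t‖ ≤ 1 * ‖t‖ :=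
      mul_le_mul_of_nonneg_right (by linarith) (norm_nonneg t)
    linarith
  have h3 := Complex.mem_slitPlane_of_norm_lt_one h1
  have h4 : 1 + (PP E t - 1) = PP E t := by ring
  rwa [h4] at h3

private theorem n1_tm (m : ℂ) (hm : m ≠ 0) : HasDerivAt tm (2 / m ^ 3) m := by
  have h := ((hasDerivAt_const m (1 : ℂ)).div (hasDerivAt_pow 2 m) (pow_ne_zero 2 hm)).const_sub 1
  have e1 : tm = fun x => 1 - (1 : ℂ) / x ^ 2 := rfl
  rw [e1]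
  refine h.congr_deriv ?_
  push_cast
  field_simp
  ring

private theorem n1_psi (hE : 1 ≤ E) (hE2 : E ≤ 2) {t : ℂ} (ht : ‖t‖ < 1) :
    HasDerivAt (psi E) (psi E t * ell E t) t := by
  have hs := PP_mem_slit hE hE2 ht
  have hne : PP E t ≠ 0 := Complex.slitPlane_ne_zero hs
  have h := (EQW.PP_hasDerivAt hE hE2 ht).cpow_const (c := ((1 / E : ℝ) : ℂ)) hs
  refine h.congr_deriv ?_
  have hE0 : (E : ℂ) ≠ 0 := by
    rw [Ne, Complex.ofReal_eq_zero]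
    linarith
  unfold psi ell
  rw [Complex.cpow_sub _ _ hne, Complex.cpow_one]
  push_cast
  field_simp

private theorem n1_psi_ne (hE : 1 ≤ E) (hE2 : E ≤ 2) {t : ℂ} (ht : ‖t‖ < 1) : psi E t ≠ 0 := by
  have hne : PP E t ≠ 0 := Complex.slitPlane_ne_zero (PP_mem_slit hE hE2 ht)
  unfold psi
  rw [Ne, Complex.cpow_eq_zero_iff]
  rintro ⟨h, _⟩
  exact hne h

private theorem n1_ell (hE : 1 ≤ E) (hE2 : E ≤ 2) {t : ℂ} (ht : ‖t‖ < 1) :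
    HasDerivAt (ell E) (PP2 E t / ((E : ℂ) * PP E t) - (E : ℂ) * ell E t ^ 2) t := by
  have hne : PP E t ≠ 0 := Complex.slitPlane_ne_zero (PP_mem_slit hE hE2 ht)
  have hE0 : (E : ℂ) ≠ 0 := by
    rw [Ne, Complex.ofReal_eq_zero]
    linarith
  have h := (EQW.PP1_hasDerivAt hE hE2 ht).div ((EQW.PP_hasDerivAt hE hE2 ht).const_mul (E : ℂ))
    (mul_ne_zero hE0 hne)
  have e1 : ell E = fun x => PP1 E x / ((E : ℂ) * PP E x) := rfl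
  rw [e1]
  refine h.congr_deriv ?_
  field_simp

theorem fm_hasDerivAt (hE : 1 ≤ E) (hE2 : E ≤ 2) {m : ℂ} (hm : m ≠ 0) (ht : ‖tm m‖ < 1) :
    HasDerivAt (fm E) (fm1 E m) m := by
  have h1 := (n1_psi hE hE2 ht).comp m (n1_tm m hm)
  have hp := n1_psi_ne hE hE2 ht
  have h2 := (hasDerivAt_id m).mul h1
  have h3 := (hasDerivAt_const m (1 : ℂ)).div h2 (mul_ne_zero hm hp)
  have e1 : fm E = fun x => (1 : ℂ) / (x * psi E (tm x)) := rfl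
  rw [e1]
  refine h3.congr_deriv ?_
  unfold fm1 fm
  simp only [Function.comp, id, Pi.mul_apply]
  field_simp
  ring

/-- `ℓ' = P''/(E P) - E ℓ²`, `dt/dm = 2/m³`. -/
theorem fm1_hasDerivAt (hE : 1 ≤ E) (hE2 : E ≤ 2) {m : ℂ} (hm : m ≠ 0) (ht : ‖tm m‖ < 1) :
    HasDerivAt (fm1 E) (fm2 E m) m := by
  have h1 := (n1_ell hE hE2 ht).comp m (n1_tm m hm)
  have h0 := fm_hasDerivAt hE hE2 hm ht
  have h2 := (hasDerivAt_const m (1 : ℂ)).div (hasDerivAt_id m) hm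
  have h3 := (hasDerivAt_const m (2 : ℂ)).div (hasDerivAt_pow 3 m) (pow_ne_zero 3 hm)
  have h4 := h0.neg.mul (h2.add (h3.mul h1))
  have e1 : fm1 E = fun x => -(fm E x) * (1 / x + 2 / x ^ 3 * ell E (tm x)) := rfl
  rw [e1]
  refine h4.congr_deriv ?_
  unfold fm1 fm2
  simp only [Function.comp, id, Pi.mul_apply, Pi.add_apply, Pi.neg_apply, Pi.div_apply]
  have hne : PP E (tm m) ≠ 0 := Complex.slitPlane_ne_zero (PP_mem_slit hE hE2 ht)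
  have hE0 : (E : ℂ) ≠ 0 := by
    rw [Ne, Complex.ofReal_eq_zero]
    linarith
  generalize PP2 E (tm m) / ((E : ℂ) * PP E (tm m)) = q
  generalize ell E (tm m) = l
  generalize fm E m = f
  push_cast
  field_simp
  ring

/-- The bound of `f''`.  `y = 1/m`, `‖y‖ ≤ 1/Re m ≤ 1/m0`, `Re t = 1 - Re y² ≥ 1 - 1/m0²`,
`Re P ≥ 1 + c1 Re t - (E-1-c1)‖t‖² ≥ Pm` (`norm_PP_sub`), so `‖P‖ ≥ Pm > 0`,
`‖ℓ‖ ≤ (c1 + 2 c2 tb/(1-tb))/(E Pm) ≤ lb`, `‖P''/(E P)‖ ≤ pb` (`norm_PP1`, `norm_PP2`),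
`‖ψ‖ = ‖P‖^(1/E) ≥ Pm^(1/E)`, and `‖f''‖ (Re m)³ ≤ ‖f''‖ ‖m‖³ = ‖ψ‖⁻¹ ‖2 + 10 y² ℓ + 4 y⁴ (..)‖`. -/
theorem fm2_bound (hE : 1 ≤ E) (hE2 : E ≤ 2) {m : ℂ} {m0 tb Pm lb pb : ℝ} (hm0 : 0 < m0)
    (hm : m0 ≤ m.re) (ht : ‖tm m‖ ≤ tb) (htb : tb < 1) (hPm : 0 < Pm)
    (hP : Pm ≤ 1 + cc E 1 * (1 - 1 / m0 ^ 2) - (E - 1 - cc E 1) * tb ^ 2)
    (hlb : cc E 1 + 2 * cc E 2 * (tb / (1 - tb)) ≤ lb * (E * Pm))
    (hpb : 2 * cc E 2 + 3 * cc E 2 * (tb / (1 - tb)) ≤ pb * (E * Pm)) :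
    ‖fm2 E m‖ * m.re ^ 3 ≤
      2 * (Pm ^ (-(1 / E)) * (1 + 5 / m0 ^ 2 * lb + 2 / m0 ^ 4 * ((1 + E) * lb ^ 2 + pb))) := by
  have hmre : 0 < m.re := lt_of_lt_of_le hm0 hm
  have hmn : m.re ≤ ‖m‖ := Complex.re_le_norm m
  have hm0n : m0 ≤ ‖m‖ := le_trans hm hmn
  have hnpos : 0 < ‖m‖ := lt_of_lt_of_le hm0 hm0n
  have hmne : m ≠ 0 := norm_pos_iff.1 hnpos
  have htn : ‖tm m‖ < 1 := lt_of_le_of_lt ht htb
  have htb0 : 0 ≤ tb := le_trans (norm_nonneg _) ht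
  have hEp : 0 < E := by linarith
  have hc1 := EQW.cc_nonneg hE hE2 1
  have hc2 := EQW.cc_nonneg hE hE2 2
  -- the norm of `P`
  have hsub : 0 ≤ E - 1 - cc E 1 := by
    rw [EQW.cc_one]
    nlinarith
  have hinv : ‖(1 : ℂ) / m ^ 2‖ ≤ 1 / m0 ^ 2 := by
    rw [norm_div, norm_one, norm_pow]
    exact one_div_le_one_div_of_le (by positivity) (pow_le_pow_left₀ hm0.le hm0n 2)
  have hre : 1 - 1 / m0 ^ 2 ≤ (tm m).re := by
    unfold tm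
    rw [Complex.sub_re, Complex.one_re]
    have h1 := Complex.re_le_norm ((1 : ℂ) / m ^ 2)
    linarith
  have hPP := norm_PP_sub hE hE2 htn
  have hPre : Pm ≤ (PP E (tm m)).re := by
    have h1 := Complex.abs_re_le_norm (PP E (tm m) - 1 - (cc E 1 : ℂ) * tm m)
    have h2 := neg_abs_le (PP E (tm m) - 1 - (cc E 1 : ℂ) * tm m).re
    have h3 : (PP E (tm m) - 1 - (cc E 1 : ℂ) * tm m).re =
        (PP E (tm m)).re - 1 - cc E 1 * (tm m).re := by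
      rw [Complex.sub_re, Complex.sub_re, Complex.one_re, Complex.re_ofReal_mul]
    rw [h3] at h2
    rw [h3] at h1
    have h4 : ‖tm m‖ ^ 2 ≤ tb ^ 2 := pow_le_pow_left₀ (norm_nonneg _) ht 2
    have h5 := mul_le_mul_of_nonneg_left h4 hsub
    have h6 := mul_le_mul_of_nonneg_left hre hc1
    linarith
  have hPn : Pm ≤ ‖PP E (tm m)‖ := le_trans hPre (Complex.re_le_norm _)
  have hPpos : 0 < ‖PP E (tm m)‖ := lt_of_lt_of_le hPm hPn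
  -- geometric factor
  have hg : ‖tm m‖ / (1 - ‖tm m‖) ≤ tb / (1 - tb) := by
    have h1 : 0 < 1 - tb := by linarith
    have h2 : 0 < 1 - ‖tm m‖ := by linarith
    rw [div_le_div_iff₀ h2 h1]
    nlinarith
  have hnE : ‖(E : ℂ) * PP E (tm m)‖ = E * ‖PP E (tm m)‖ := by
    rw [norm_mul, Complex.norm_real, Real.norm_of_nonneg hEp.le]
  have hEP : 0 < E * ‖PP E (tm m)‖ := mul_pos hEp hPpos
  have hEPm : 0 < E * Pm := mul_pos hEp hPm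
  have hEPle : E * Pm ≤ E * ‖PP E (tm m)‖ := mul_le_mul_of_nonneg_left hPn hEp.le
  have hlb0 : 0 ≤ lb := by
    have h0 : 0 ≤ tb / (1 - tb) := div_nonneg htb0 (by linarith)
    have h1 : 0 ≤ cc E 1 + 2 * cc E 2 * (tb / (1 - tb)) := by positivity
    by_contra hcon
    have h2 : lb * (E * Pm) < 0 := mul_neg_of_neg_of_pos (not_le.1 hcon) hEPm
    linarith
  have hpb0 : 0 ≤ pb := by
    have h0 : 0 ≤ tb / (1 - tb) := div_nonneg htb0 (by linarith)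
    have h1 : 0 ≤ 2 * cc E 2 + 3 * cc E 2 * (tb / (1 - tb)) := by positivity
    by_contra hcon
    have h2 : pb * (E * Pm) < 0 := mul_neg_of_neg_of_pos (not_le.1 hcon) hEPm
    linarith
  have hell : ‖ell E (tm m)‖ ≤ lb := by
    unfold ell
    rw [norm_div, hnE, div_le_iff₀ hEP]
    have h1 := EQW.norm_PP1 hE hE2 htn
    have h2 := mul_le_mul_of_nonneg_left hg (by linarith : 0 ≤ 2 * cc E 2)
    have h3 := mul_le_mul_of_nonneg_left hEPle hlb0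
    linarith
  have hq : ‖PP2 E (tm m) / ((E : ℂ) * PP E (tm m))‖ ≤ pb := by
    rw [norm_div, hnE, div_le_iff₀ hEP]
    have h1 := EQW.norm_PP2 hE hE2 htn
    have h2 := mul_le_mul_of_nonneg_left hg (by linarith : 0 ≤ 3 * cc E 2)
    have h3 := mul_le_mul_of_nonneg_left hEPle hpb0
    linarith
  -- the norm of `ψ`
  have hpsi : ‖psi E (tm m)‖ = ‖PP E (tm m)‖ ^ (1 / E) := by
    unfold psi
    exact Complex.norm_cpow_real _ _
  have hpsi2 : ‖psi E (tm m)‖⁻¹ ≤ Pm ^ (-(1 / E)) := by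
    rw [hpsi, Real.rpow_neg hPm.le]
    exact inv_anti₀ (Real.rpow_pos_of_pos hPm _)
      (Real.rpow_le_rpow hPm.le hPn (by positivity))
  have hpsi0 : psi E (tm m) ≠ 0 := n1_psi_ne hE hE2 htn
  -- factor
  have hfac : fm2 E m * m ^ 3 = (psi E (tm m))⁻¹ * (2 + 10 * (1 / m ^ 2) * ell E (tm m) +
      4 * (1 / m ^ 2) ^ 2 * ((1 + (E : ℂ)) * ell E (tm m) ^ 2 -
        PP2 E (tm m) / ((E : ℂ) * PP E (tm m)))) := by
    unfold fm2 fm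
    generalize PP2 E (tm m) / ((E : ℂ) * PP E (tm m)) = q
    generalize ell E (tm m) = l
    field_simp
  have hi0 : 0 ≤ 1 / m0 ^ 2 := by positivity
  have hi : ‖(1 : ℂ) / m ^ 2‖ ^ 2 ≤ (1 / m0 ^ 2) ^ 2 := pow_le_pow_left₀ (norm_nonneg _) hinv 2
  have hA : ‖(10 : ℂ) * (1 / m ^ 2) * ell E (tm m)‖ ≤ 10 * (1 / m0 ^ 2) * lb := by
    rw [norm_mul, norm_mul]
    have h10 : ‖(10 : ℂ)‖ = 10 := by simp
    rw [h10]
    exact mul_le_mul (mul_le_mul_of_nonneg_left hinv (by norm_num)) hell (norm_nonneg _)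
      (by positivity)
  have hB : ‖(4 : ℂ) * (1 / m ^ 2) ^ 2 * ((1 + (E : ℂ)) * ell E (tm m) ^ 2 -
        PP2 E (tm m) / ((E : ℂ) * PP E (tm m)))‖ ≤
      4 * (1 / m0 ^ 2) ^ 2 * ((1 + E) * lb ^ 2 + pb) := by
    rw [norm_mul, norm_mul, norm_pow]
    have h4 : ‖(4 : ℂ)‖ = 4 := by simp
    rw [h4]
    apply mul_le_mul (mul_le_mul_of_nonneg_left hi (by norm_num)) _ (norm_nonneg _) (by positivity)
    refine le_trans (norm_sub_le _ _) (add_le_add ?_ hq)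
    rw [norm_mul, norm_pow]
    have h1 : ‖(1 : ℂ) + (E : ℂ)‖ = 1 + E := by
      have h2 : (1 : ℂ) + (E : ℂ) = ((1 + E : ℝ) : ℂ) := by push_cast; rfl
      rw [h2, Complex.norm_real, Real.norm_of_nonneg (by linarith)]
    rw [h1]
    exact mul_le_mul_of_nonneg_left (pow_le_pow_left₀ (norm_nonneg _) hell 2) (by linarith)
  have hsum : ‖(2 : ℂ) + 10 * (1 / m ^ 2) * ell E (tm m) +
      4 * (1 / m ^ 2) ^ 2 * ((1 + (E : ℂ)) * ell E (tm m) ^ 2 -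
        PP2 E (tm m) / ((E : ℂ) * PP E (tm m)))‖ ≤
      2 + 10 * (1 / m0 ^ 2) * lb + 4 * (1 / m0 ^ 2) ^ 2 * ((1 + E) * lb ^ 2 + pb) := by
    have h2 : ‖(2 : ℂ)‖ = 2 := by simp
    refine le_trans (norm_add_le _ _) (add_le_add (le_trans (norm_add_le _ _) ?_) hB)
    rw [h2]
    linarith
  have hcube : m.re ^ 3 ≤ ‖m‖ ^ 3 := pow_le_pow_left₀ hmre.le hmn 3
  calc ‖fm2 E m‖ * m.re ^ 3 ≤ ‖fm2 E m‖ * ‖m‖ ^ 3 :=
        mul_le_mul_of_nonneg_left hcube (norm_nonneg _)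
    _ = ‖fm2 E m * m ^ 3‖ := by rw [norm_mul, norm_pow]
    _ = ‖psi E (tm m)‖⁻¹ * ‖(2 : ℂ) + 10 * (1 / m ^ 2) * ell E (tm m) +
      4 * (1 / m ^ 2) ^ 2 * ((1 + (E : ℂ)) * ell E (tm m) ^ 2 -
        PP2 E (tm m) / ((E : ℂ) * PP E (tm m)))‖ := by rw [hfac, norm_mul, norm_inv]
    _ ≤ Pm ^ (-(1 / E)) *
        (2 + 10 * (1 / m0 ^ 2) * lb + 4 * (1 / m0 ^ 2) ^ 2 * ((1 + E) * lb ^ 2 + pb)) :=
        mul_le_mul hpsi2 hsum (norm_nonneg _) (Real.rpow_nonneg hPm.le _)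
    _ = 2 * (Pm ^ (-(1 / E)) * (1 + 5 / m0 ^ 2 * lb + 2 / m0 ^ 4 * ((1 + E) * lb ^ 2 + pb))) := by
        generalize Pm ^ (-(1 / E)) = x
        field_simp
        ring

/-- For `C ≥ 1`, `tk = 1 - 1/C²`, `Pk ≥ P(tk)`:  `C Pk^(1/E)`-type constant.  If `c = C ψ(tk)` (i.e.
`c * fm E C = 1`), then `c Pm^(-1/E) ≤ C (1 + (Pk/Pm - 1)/E)` (Bernoulli, `1/E ≤ 1`,
`Real.rpow_one_add_le_one_add_mul_self`). -/
theorem const_bound (hE : 1 ≤ E) (hE2 : E ≤ 2) {c C Pm Pk : ℝ} (hC : 1 ≤ C) (hPm : 0 < Pm)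
    (hc : (c : ℂ) * fm E (C : ℂ) = 1)
    (hPk : 1 + cc E 1 * (1 - 1 / C ^ 2) + (E - 1 - cc E 1) * (1 - 1 / C ^ 2) ^ 2 ≤ Pk) :
    c * Pm ^ (-(1 / E)) ≤ C * (1 + (Pk / Pm - 1) / E) := by
  have hC0 : 0 < C := by linarith
  have hEp : 0 < E := by linarith
  have hCC : 1 ≤ C ^ 2 := one_le_pow₀ hC
  have hi1 : 1 / C ^ 2 ≤ 1 := by
    rw [div_le_one (by positivity)]
    exact hCC
  have hi0 : 0 < 1 / C ^ 2 := by positivity
  have htm : tm (C : ℂ) = ((1 - 1 / C ^ 2 : ℝ) : ℂ) := by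
    unfold tm
    push_cast
    rfl
  have htn : ‖tm (C : ℂ)‖ = 1 - 1 / C ^ 2 := by
    rw [htm, Complex.norm_real, Real.norm_of_nonneg (by linarith)]
  have htn1 : ‖tm (C : ℂ)‖ < 1 := by
    rw [htn]
    linarith
  have hCne : (C : ℂ) ≠ 0 := by
    rw [Ne, Complex.ofReal_eq_zero]
    linarith
  have hpsi0 : psi E (tm (C : ℂ)) ≠ 0 := n1_psi_ne hE hE2 htn1
  have hceq : (c : ℂ) = (C : ℂ) * psi E (tm (C : ℂ)) := by
    unfold fm at hc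
    rw [mul_one_div, div_eq_one_iff_eq (mul_ne_zero hCne hpsi0)] at hc
    exact hc
  have hcn : c ≤ C * ‖PP E (tm (C : ℂ))‖ ^ (1 / E) := by
    have h1 : ‖(c : ℂ)‖ = C * ‖PP E (tm (C : ℂ))‖ ^ (1 / E) := by
      rw [hceq, norm_mul, Complex.norm_real, Real.norm_of_nonneg hC0.le]
      unfold psi
      rw [Complex.norm_cpow_real]
    rw [← h1, Complex.norm_real]
    exact Real.le_norm_self c
  have hPk' : ‖PP E (tm (C : ℂ))‖ ≤ Pk := by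
    have h1 := norm_PP_sub hE hE2 htn1
    have h2 : PP E (tm (C : ℂ)) = (PP E (tm (C : ℂ)) - 1 - (cc E 1 : ℂ) * tm (C : ℂ)) +
        (1 + (cc E 1 : ℂ) * tm (C : ℂ)) := by ring
    have h3 : ‖(1 : ℂ) + (cc E 1 : ℂ) * tm (C : ℂ)‖ ≤ 1 + cc E 1 * (1 - 1 / C ^ 2) := by
      refine le_trans (norm_add_le _ _) ?_
      rw [norm_one, norm_mul, Complex.norm_real,
        Real.norm_of_nonneg (EQW.cc_nonneg hE hE2 1), htn]
    rw [htn] at h1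
    rw [h2]
    refine le_trans (norm_add_le _ _) ?_
    linarith
  have hPk0 : 0 ≤ Pk := le_trans (norm_nonneg _) hPk'
  have h1 : c * Pm ^ (-(1 / E)) ≤ C * (Pk / Pm) ^ (1 / E) := by
    rw [Real.div_rpow hPk0 hPm.le, Real.rpow_neg hPm.le, ← div_eq_mul_inv, mul_div_assoc']
    apply div_le_div_of_nonneg_right _ (Real.rpow_nonneg hPm.le _)
    refine le_trans hcn (mul_le_mul_of_nonneg_left ?_ hC0.le)
    exact Real.rpow_le_rpow (norm_nonneg _) hPk' (by positivity)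
  have h2 := rpow_one_add_le_one_add_mul_self (s := Pk / Pm - 1) (p := 1 / E)
    (by have : 0 ≤ Pk / Pm := div_nonneg hPk0 hPm.le
        linarith) (by positivity) (by rw [div_le_one hEp]; exact hE)
  have h3 : 1 + (Pk / Pm - 1) = Pk / Pm := by ring
  rw [h3] at h2
  refine le_trans h1 (mul_le_mul_of_nonneg_left ?_ hC0.le)
  have h4 : 1 + 1 / E * (Pk / Pm - 1) = 1 + (Pk / Pm - 1) / E := by ring
  rwa [h4] at h2

end Pool.Agent.helper4.EQW4
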