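import Pool.Agent.helper4.EQW.L.Ident
import Pool.Agent.helper4.EQW4.N1

/-!
# EQW4-N2: `γ` in terms of `ψ`, `2 ≤ e ≤ 4`
-/

namespace Pool.Agent.helper4.EQW4

open Complex
open Pool.Agent.helper31.EQ.W (c2 gl gs nxt wn FW)
open Pool.Agent.helper4.EQW (cc PP PP1 PP2 f0 h0)

variable {e κ a : ℝ} {w : ℂ}

/-- `m(w) = (w + 1/w)/2` -/
noncomputable def mm (w : ℂ) : ℂ := (w + 1 / w) / 2

private theorem disc_arg' (ha : 0 < a) (hw : ‖w - (a : ℂ)‖ ≤ a / 2) : |arg w| ≤ Real.pi / 6 :=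
  Pool.Agent.helper4.EQW.disc_arg ha hw

private theorem disc_ne' (ha : 0 < a) (hw : ‖w - (a : ℂ)‖ ≤ a / 2) : w ≠ 0 :=
  Pool.Agent.helper4.EQW.disc_ne ha hw

private theorem f0_re4 (he : 0 ≤ e) (he4 : e ≤ 4) (ha : 0 < a) (hw : ‖w - (a : ℂ)‖ ≤ a / 2)
    (hw1 : ‖w‖ ≤ 1) : 0 < (f0 e w).re := by
  have h1 := disc_arg' ha hw
  have hpi := Real.pi_pos
  have h2 : |arg w * e| ≤ 2 * Real.pi / 3 := by
    rw [abs_mul, abs_of_nonneg he]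
    have h3 : |arg w| * e ≤ Real.pi / 6 * 4 := mul_le_mul h1 he4 he (by linarith)
    linarith
  have h3 : -(1 / 2) ≤ Real.cos (arg w * e) := by
    rw [← Real.cos_abs]
    have h4 : Real.cos (2 * Real.pi / 3) = -(1 / 2) := by
      have h5 : 2 * Real.pi / 3 = Real.pi - Real.pi / 3 := by ring
      rw [h5, Real.cos_pi_sub, Real.cos_pi_div_three]
    rw [← h4]
    exact Real.cos_le_cos_of_nonneg_of_le_pi (abs_nonneg _) (by linarith) h2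
  have h4 : 0 ≤ ‖w‖ ^ e := Real.rpow_nonneg (norm_nonneg _) _
  have h5 : ‖w‖ ^ e ≤ 1 := Real.rpow_le_one (norm_nonneg _) hw1 he
  have h6 : (w ^ (e : ℂ)).re = ‖w‖ ^ e * Real.cos (arg w * e) := Complex.cpow_ofReal_re _ _
  have h7 : (f0 e w).re = (1 + (w ^ (e : ℂ)).re) / 2 := by
    unfold Pool.Agent.helper4.EQW.f0
    have : (1 + w ^ (e : ℂ)) / 2 = (1 + w ^ (e : ℂ)) / ((2 : ℝ) : ℂ) := by push_cast; rfl
    rw [this, Complex.div_ofReal_re, Complex.add_re, Complex.one_re]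
  rw [h7, h6]
  nlinarith

/-- On the disc `|arg w| ≤ π/6` (`disc_arg`), so `|e arg w| ≤ 2π/3`, `Re (w^e) ≥ -‖w‖^e/2 ≥ -1/2`. -/
theorem f0_slit4 (he : 0 ≤ e) (he4 : e ≤ 4) (ha : 0 < a) (hw : ‖w - (a : ℂ)‖ ≤ a / 2) (hw1 : ‖w‖ ≤ 1) :
    f0 e w ∈ slitPlane :=
  Complex.mem_slitPlane_iff.2 (Or.inl (f0_re4 he he4 ha hw hw1))

private theorem sq_re (ha : 0 < a) (hw : ‖w - (a : ℂ)‖ ≤ a / 2) : 0 < (w ^ 2).re := by
  obtain ⟨h1, h2⟩ := Pool.Agent.helper4.EQW.disc_re hw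
  rw [pow_two, Complex.mul_re]
  have h3 : 0 < w.re := by linarith
  nlinarith

private theorem sq_add_ne (ha : 0 < a) (hw : ‖w - (a : ℂ)‖ ≤ a / 2) : w ^ 2 + 1 ≠ 0 := by
  intro h
  have h1 := congrArg Complex.re h
  rw [Complex.add_re, Complex.one_re, Complex.zero_re] at h1
  linarith [sq_re ha hw]

private theorem mm_eq (ha : 0 < a) (hw : ‖w - (a : ℂ)‖ ≤ a / 2) : w * mm w = (1 + w ^ 2) / 2 := by
  have h0 := disc_ne' ha hw
  unfold mm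
  field_simp
  ring

private theorem mm_ne (ha : 0 < a) (hw : ‖w - (a : ℂ)‖ ≤ a / 2) : mm w ≠ 0 := by
  intro h
  have h1 := mm_eq ha hw
  rw [h, mul_zero] at h1
  apply sq_add_ne ha hw
  linear_combination -2 * h1

/-- `tm (mm w) = ((w²-1)/(w²+1))²` and its norm is `< 1` since `Re w² > 0` on the disc. -/
theorem tm_mm (ha : 0 < a) (hw : ‖w - (a : ℂ)‖ ≤ a / 2) :
    tm (mm w) = ((w ^ 2 - 1) / (w ^ 2 + 1)) ^ 2 ∧ ‖tm (mm w)‖ < 1 ∧ mm w ≠ 0 := by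
  have h0 := disc_ne' ha hw
  have h1 := sq_add_ne ha hw
  have h2 : tm (mm w) = ((w ^ 2 - 1) / (w ^ 2 + 1)) ^ 2 := by
    have h3 : mm w = (w ^ 2 + 1) / (2 * w) := by
      unfold mm
      field_simp
    unfold tm
    rw [h3]
    field_simp
    ring
  refine ⟨h2, ?_, mm_ne ha hw⟩
  rw [h2]
  exact Pool.Agent.helper4.EQW.norm_tt_lt (sq_re ha hw)

private theorem mcp {x y : ℂ} (hx : x ≠ 0) (hy : y ≠ 0) (h : |arg x| + |arg y| < Real.pi) (c : ℂ) :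
    (x * y) ^ c = x ^ c * y ^ c := by
  have h1 : -Real.pi < arg x + arg y := by
    have h2 := neg_abs_le (arg x)
    have h3 := neg_abs_le (arg y)
    linarith
  have h2 : arg x + arg y ≤ Real.pi := by
    have h2 := le_abs_self (arg x)
    have h3 := le_abs_self (arg y)
    linarith
  have h3 : Complex.log (x * y) = Complex.log x + Complex.log y :=
    Complex.log_mul hx hy ⟨h1, h2⟩
  rw [Complex.cpow_def_of_ne_zero (mul_ne_zero hx hy), Complex.cpow_def_of_ne_zero hx,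
    Complex.cpow_def_of_ne_zero hy, h3, add_mul, Complex.exp_add]

private theorem re_pos_arg {x : ℂ} (hx : 0 < x.re) : |arg x| < Real.pi / 2 :=
  Complex.abs_arg_lt_pi_div_two_iff.2 (Or.inl hx)

/-- `3 im² ≤ re²` gives `|arg| ≤ π/6`. -/
private theorem cone_arg {x : ℂ} (hx : 0 < x.re) (h : 3 * x.im ^ 2 ≤ x.re ^ 2) :
    |arg x| ≤ Real.pi / 6 := by
  refine disc_arg' (a := 4 / 3 * x.re) (by linarith) ?_
  apply le_of_sq_le_sq ?_ (by linarith)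
  rw [← Complex.normSq_eq_norm_sq, Complex.normSq_apply, Complex.sub_re, Complex.sub_im,
    Complex.ofReal_re, Complex.ofReal_im]
  nlinarith

/-- `|arg (1+w²)| ≤ π/6` since `1 + Re w² ≥ 2 (Re w)²`. -/
private theorem arg_sq_add (ha : 0 < a) (hw : ‖w - (a : ℂ)‖ ≤ a / 2) (hw1 : ‖w‖ ≤ 1) :
    |arg (w ^ 2 + 1)| ≤ Real.pi / 6 := by
  obtain ⟨h1, h2⟩ := Pool.Agent.helper4.EQW.disc_re hw
  have h3 : 0 < w.re := by linarith
  have h4 : w.re ^ 2 + w.im ^ 2 ≤ 1 := by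
    have h5 : ‖w‖ ^ 2 ≤ 1 := pow_le_one₀ (norm_nonneg _) hw1
    rw [← Complex.normSq_eq_norm_sq, Complex.normSq_apply] at h5
    nlinarith
  have h5 : (w ^ 2 + 1).re = w.re ^ 2 - w.im ^ 2 + 1 := by
    rw [Complex.add_re, Complex.one_re, pow_two, Complex.mul_re]
    ring
  have h6 : (w ^ 2 + 1).im = 2 * (w.re * w.im) := by
    rw [Complex.add_im, Complex.one_im, pow_two, Complex.mul_im]
    ring
  have h7 : 2 * w.re ^ 2 ≤ w.re ^ 2 - w.im ^ 2 + 1 := by linarith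
  have h8 : 0 < w.re ^ 2 := by positivity
  apply cone_arg
  · rw [h5]
    linarith
  · rw [h5, h6]
    have h9 : (2 * w.re ^ 2) ^ 2 ≤ (w.re ^ 2 - w.im ^ 2 + 1) ^ 2 :=
      pow_le_pow_left₀ (by positivity) h7 2
    have h10 : 3 * (2 * (w.re * w.im)) ^ 2 ≤ (2 * w.re ^ 2) ^ 2 := by
      have h11 : w.re ^ 2 * (3 * w.im ^ 2) ≤ w.re ^ 2 * w.re ^ 2 :=
        mul_le_mul_of_nonneg_left h2 h8.le
      nlinarith
    linarith

private theorem arg_two_div {z : ℂ} (h1 : |arg z| ≤ Real.pi / 6) :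
    |arg (2 / z)| ≤ Real.pi / 6 := by
  have h2 : arg (2 / z) = arg (z⁻¹) := by
    have h3 : (2 : ℂ) / z = ((2 : ℝ) : ℂ) * z⁻¹ := by
      push_cast
      rw [div_eq_mul_inv]
    rw [h3, Complex.arg_real_mul _ (by norm_num)]
  have hpi := Real.pi_pos
  have h4 : arg z ≠ Real.pi := by
    intro h
    rw [h, abs_of_pos hpi] at h1
    linarith
  rw [h2, Complex.arg_inv, if_neg h4, abs_neg]
  exact h1

/-- `(w²)^(e/2) = w^e` -/
private theorem sq_pow (ha : 0 < a) (hw : ‖w - (a : ℂ)‖ ≤ a / 2) :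
    (w ^ 2) ^ ((e / 2 : ℝ) : ℂ) = w ^ (e : ℂ) := by
  have h0 := disc_ne' ha hw
  have h1 := disc_arg' ha hw
  have hpi := Real.pi_pos
  rw [pow_two, mcp h0 h0 (by linarith), ← Complex.cpow_add _ _ h0]
  congr 1
  push_cast
  ring

private theorem sq_arg (ha : 0 < a) (hw : ‖w - (a : ℂ)‖ ≤ a / 2) : |arg (w ^ 2)| < Real.pi / 2 :=
  re_pos_arg (sq_re ha hw)

private theorem PP_eq4 (he : 2 ≤ e) (he4 : e ≤ 4) (ha : 0 < a) (hw : ‖w - (a : ℂ)‖ ≤ a / 2)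
    (hw1 : ‖w‖ ≤ 1) :
    PP (e / 2) (tm (mm w)) = (2 / (w ^ 2 + 1)) ^ ((e / 2 : ℝ) : ℂ) * f0 e w := by
  have hne := sq_add_ne ha hw
  have h0 := disc_ne' ha hw
  have h1 : 1 + (w ^ 2 - 1) / (w ^ 2 + 1) = w ^ 2 * (2 / (w ^ 2 + 1)) := by
    field_simp
    ring
  have h2 : 1 - (w ^ 2 - 1) / (w ^ 2 + 1) = 2 / (w ^ 2 + 1) := by
    field_simp
    ring
  have hr : ‖(w ^ 2 - 1) / (w ^ 2 + 1)‖ < 1 := by
    have h3 := Pool.Agent.helper4.EQW.norm_tt_lt (sq_re ha hw)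
    unfold Pool.Agent.helper4.EQW.tt at h3
    rw [norm_pow] at h3
    by_contra h4
    push Not at h4
    have h5 : 1 ≤ ‖(w ^ 2 - 1) / (w ^ 2 + 1)‖ ^ 2 := one_le_pow₀ h4
    linarith
  have h3 : (w ^ 2 * (2 / (w ^ 2 + 1))) ^ ((e / 2 : ℝ) : ℂ) =
      (w ^ 2) ^ ((e / 2 : ℝ) : ℂ) * (2 / (w ^ 2 + 1)) ^ ((e / 2 : ℝ) : ℂ) := by
    apply mcp (pow_ne_zero 2 h0) (div_ne_zero two_ne_zero hne)
    have h4 := arg_two_div (arg_sq_add ha hw hw1)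
    have h5 := sq_arg ha hw
    have hpi := Real.pi_pos
    linarith
  rw [(tm_mm ha hw).1, Pool.Agent.helper4.EQW.PP_sq (by linarith) (by linarith) hr, h1, h2, h3,
    sq_pow ha hw]
  unfold Pool.Agent.helper4.EQW.f0
  ring

private theorem pow_arg4 {s E : ℝ} {z : ℂ} (hE : 0 ≤ E) (hE2 : E ≤ 2) (h : |arg z| ≤ s) (hs : 0 ≤ s) :
    |(Complex.log z * (E : ℂ)).im| ≤ 2 * s := by
  have h1 : (Complex.log z * (E : ℂ)).im = arg z * E := by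
    rw [Complex.mul_im, Complex.ofReal_re, Complex.ofReal_im, mul_zero, zero_add, Complex.log_im]
  rw [h1, abs_mul, abs_of_nonneg hE]
  have h2 : |arg z| * E ≤ s * 2 := mul_le_mul h hE2 hE hs
  linarith

private theorem psi_eq4 (he : 2 ≤ e) (he4 : e ≤ 4) (ha : 0 < a) (hw : ‖w - (a : ℂ)‖ ≤ a / 2)
    (hw1 : ‖w‖ ≤ 1) :
    psi (e / 2) (tm (mm w)) = (2 / (w ^ 2 + 1)) * f0 e w ^ ((2 / e : ℝ) : ℂ) := by
  have hne := sq_add_ne ha hw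
  have hs : (2 : ℂ) / (w ^ 2 + 1) ≠ 0 := div_ne_zero two_ne_zero hne
  have hf := f0_re4 (by linarith : 0 ≤ e) he4 ha hw hw1
  have hf0 : f0 e w ≠ 0 := by
    intro h
    rw [h, Complex.zero_re] at hf
    exact lt_irrefl _ hf
  have hargs := arg_two_div (arg_sq_add ha hw hw1)
  have hpi := Real.pi_pos
  have him := pow_arg4 (E := e / 2) (by linarith) (by linarith) hargs (by linarith)
  have habs := abs_le.1 him
  have hpow : (2 / (w ^ 2 + 1)) ^ ((e / 2 : ℝ) : ℂ) ≠ 0 := by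
    rw [Complex.cpow_def_of_ne_zero hs]
    exact exp_ne_zero _
  have harg : |arg ((2 / (w ^ 2 + 1)) ^ ((e / 2 : ℝ) : ℂ))| ≤ 2 * (Real.pi / 6) := by
    have h1 : arg ((2 / (w ^ 2 + 1)) ^ ((e / 2 : ℝ) : ℂ)) =
        (Complex.log (2 / (w ^ 2 + 1)) * ((e / 2 : ℝ) : ℂ)).im := by
      rw [← Complex.log_im, Complex.cpow_def_of_ne_zero hs,
        Complex.log_exp (by linarith [habs.1]) (by linarith [habs.2])]
    rw [h1]
    exact him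
  unfold psi
  rw [PP_eq4 he he4 ha hw hw1]
  have h2 : (1 / (e / 2) : ℝ) = 2 / e := by
    rw [one_div_div]
  rw [h2, mcp hpow hf0 (by linarith [re_pos_arg hf])]
  congr 1
  rw [← Complex.cpow_mul _ (by linarith [habs.1]) (by linarith [habs.2])]
  have he0 : (e : ℂ) ≠ 0 := by
    have : e ≠ 0 := by linarith
    exact_mod_cast this
  have h3 : ((e / 2 : ℝ) : ℂ) * ((2 / e : ℝ) : ℂ) = 1 := by
    push_cast
    field_simp
  rw [h3, Complex.cpow_one]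

/-- With `E = e/2`, `r = (w²-1)/(w²+1)`, `1 + r = w² * (2/(w²+1))`, `1 - r = 2/(w²+1)`, `PP_sq`:
`P(t) = (2/(w²+1))^E (1 + w^e)/2`.  Here `|arg w| ≤ π/6`, `(w²)^E = w^e`, `|arg (w²+1)| ≤ |arg w²| ≤ π/3` and,
as `‖w²‖ ≤ 1`, even `|arg (1+w²)| ≤ |arg w²|/2 ≤ π/6` (not needed if `E π/3 ≤ 2π/3` is enough: `P(t)` has
positive real part as `‖P - 1‖ < 1`, so for `f0 = ((1+w²)/2)^E P` use arguments
`E |arg(1+w²)| ≤ π/3`, `|arg P| < π/2`).  Hence `f0^(2/e) = f0^(1/E) = ((1+w²)/2) ψ(t)`. -/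
theorem f0_pow4 (he : 2 ≤ e) (he4 : e ≤ 4) (ha : 0 < a) (hw : ‖w - (a : ℂ)‖ ≤ a / 2) (hw1 : ‖w‖ ≤ 1) :
    f0 e w ^ ((2 / e : ℝ) : ℂ) = psi (e / 2) (tm (mm w)) * ((1 + w ^ 2) / 2) := by
  have hne := sq_add_ne ha hw
  have hne' : (1 : ℂ) + w ^ 2 ≠ 0 := by
    rw [add_comm]
    exact hne
  rw [psi_eq4 he he4 ha hw hw1, add_comm (w ^ 2) 1]
  field_simp

/-- `(1+w²)/2 = w * mm w`. -/
theorem h0_eq4 (he : 2 ≤ e) (he4 : e ≤ 4) (ha : 0 < a) (hw : ‖w - (a : ℂ)‖ ≤ a / 2) (hw1 : ‖w‖ ≤ 1) :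
    h0 e w = fm (e / 2) (mm w) / w := by
  unfold Pool.Agent.helper4.EQW.h0 fm
  rw [Complex.cpow_neg, f0_pow4 he he4 ha hw hw1, ← mm_eq ha hw, div_div, one_div]
  congr 1
  ring

theorem gs_eq4 (he : 2 ≤ e) (he4 : e ≤ 4) (ha : 0 < a) (hw : ‖w - (a : ℂ)‖ ≤ a / 2) (hw1 : ‖w‖ ≤ 1) :
    gs e w = w * fm (e / 2) (mm w) := by
  have h1 : gs e w = w ^ 2 * h0 e w := rfl
  have h0 := disc_ne' ha hw
  rw [h1, h0_eq4 he he4 ha hw hw1]
  field_simp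

/-- `(exp (-κ))^e = exp (-(e κ))` -/
private theorem exp_pow (e κ : ℝ) : Real.exp (-κ) ^ e = Real.exp (-(e * κ)) := by
  rw [← Real.exp_mul]
  congr 1
  ring

/-- `f0 e a = exp (-(eκ)/2) cosh (eκ/2)` -/
private theorem f0_real (e κ : ℝ) : f0 e ((Real.exp (-κ) : ℝ) : ℂ) =
    ((Real.exp (-(e * κ / 2)) * Real.cosh (e * κ / 2) : ℝ) : ℂ) := by
  unfold Pool.Agent.helper4.EQW.f0
  rw [← Complex.ofReal_cpow (Real.exp_pos _).le, exp_pow]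
  have h1 : Real.exp (-(e * κ / 2)) * Real.cosh (e * κ / 2) = (1 + Real.exp (-(e * κ))) / 2 := by
    rw [Real.cosh_eq, mul_div_assoc', mul_add, ← Real.exp_add, ← Real.exp_add]
    have h2 : -(e * κ / 2) + e * κ / 2 = 0 := by ring
    have h3 : -(e * κ / 2) + -(e * κ / 2) = -(e * κ) := by ring
    rw [h2, h3, Real.exp_zero]
  rw [h1]
  push_cast
  ring

private theorem f0_real_pow (he : 0 < e) (κ : ℝ) : f0 e ((Real.exp (-κ) : ℝ) : ℂ) ^ ((2 / e : ℝ) : ℂ) =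
    ((Real.exp (-κ) * c2 e κ : ℝ) : ℂ) := by
  rw [f0_real, ← Complex.ofReal_cpow (mul_nonneg (Real.exp_pos _).le (Real.cosh_pos _).le)]
  congr 1
  rw [Real.mul_rpow (Real.exp_pos _).le (Real.cosh_pos _).le, ← Real.exp_mul]
  have h1 : -(e * κ / 2) * (2 / e) = -κ := by
    field_simp
  rw [h1]
  rfl

private theorem mm_exp (κ : ℝ) : mm ((Real.exp (-κ) : ℝ) : ℂ) = ((Real.cosh κ : ℝ) : ℂ) := by
  unfold mm
  rw [Real.cosh_eq]
  have h1 : (1 : ℂ) / ((Real.exp (-κ) : ℝ) : ℂ) = ((Real.exp κ : ℝ) : ℂ) := by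
    rw [Real.exp_neg, Complex.ofReal_inv, one_div, inv_inv]
  rw [h1]
  push_cast
  ring

/-- `f0_pow4` at `w = exp (-κ)` (`mm w = cosh κ`): `f0 e a = exp (-eκ/2) cosh (eκ/2)`,
`f0 e a ^ (2/e) = a c2` (see `f0_real_pow` in `L/Ident.lean`). -/
theorem c2_fm (he : 2 ≤ e) (he4 : e ≤ 4) (hκ : 0 < κ) :
    ((c2 e κ : ℝ) : ℂ) * fm (e / 2) ((Real.cosh κ : ℝ) : ℂ) = 1 := by
  have ha : 0 < Real.exp (-κ) := Real.exp_pos _
  have ha1 : Real.exp (-κ) < 1 := by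
    rw [Real.exp_lt_one_iff]
    linarith
  have hd : ‖((Real.exp (-κ) : ℝ) : ℂ) - ((Real.exp (-κ) : ℝ) : ℂ)‖ ≤ Real.exp (-κ) / 2 := by
    rw [sub_self, norm_zero]
    linarith
  have hn : ‖((Real.exp (-κ) : ℝ) : ℂ)‖ ≤ 1 := by
    rw [Complex.norm_real, Real.norm_of_nonneg ha.le]
    exact ha1.le
  have h1 := f0_pow4 he he4 ha hd hn
  rw [f0_real_pow (by linarith) κ, ← mm_eq ha hd, mm_exp] at h1
  have h2 : ((Real.exp (-κ) : ℝ) : ℂ) ≠ 0 := by exact_mod_cast ha.ne'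
  have h3 : ((c2 e κ : ℝ) : ℂ) = ((Real.cosh κ : ℝ) : ℂ) * psi (e / 2) (tm ((Real.cosh κ : ℝ) : ℂ)) := by
    apply mul_left_cancel₀ h2
    rw [← Complex.ofReal_mul, h1]
    ring
  have h4 : ((c2 e κ : ℝ) : ℂ) ≠ 0 := by
    exact_mod_cast (Pool.Agent.helper4.EQW.c2_pos e κ).ne'
  unfold fm
  rw [← h3]
  exact mul_one_div_cancel h4

end Pool.Agent.helper4.EQW4
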