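import Mathlib

/-!
# EQW4-N3: a second divided difference
-/

namespace Pool.Agent.helper4.EQW4

open Complex

private theorem seg_cmp {φ φ' : ℝ → ℂ} {B B' : ℝ → ℝ} (h0 : φ 0 = 0) (hB0 : B 0 = 0)
    (hd : ∀ τ ∈ Set.Icc (0 : ℝ) 1, HasDerivAt φ (φ' τ) τ)
    (hB : ∀ τ ∈ Set.Icc (0 : ℝ) 1, HasDerivAt B (B' τ) τ)
    (hb : ∀ τ ∈ Set.Icc (0 : ℝ) 1, ‖φ' τ‖ ≤ B' τ) : ‖φ 1‖ ≤ B 1 := by
  have h := image_norm_le_of_norm_deriv_right_le_deriv_boundary' (f := φ) (f' := φ') (a := 0) (b := 1)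
    (B := B) (B' := B')
    (fun τ hτ => (hd τ hτ).continuousAt.continuousWithinAt)
    (fun τ hτ => (hd τ ⟨hτ.1, hτ.2.le⟩).hasDerivWithinAt)
    (by simp [h0, hB0])
    (fun τ hτ => (hB τ hτ).continuousAt.continuousWithinAt)
    (fun τ hτ => (hB τ ⟨hτ.1, hτ.2.le⟩).hasDerivWithinAt) (fun τ hτ => hb τ ⟨hτ.1, hτ.2.le⟩)
  exact h (x := 1) (by simp)

private theorem seg_mem {K : Set ℂ} (hK : Convex ℝ K) {x y : ℂ} (hx : x ∈ K) (hy : y ∈ K) {τ : ℝ}
    (hτ : τ ∈ Set.Icc (0 : ℝ) 1) : x + (τ : ℂ) * (y - x) ∈ K := by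
  have h := hK.add_smul_sub_mem hx hy hτ
  rwa [Complex.real_smul] at h

private theorem seg_re (x y : ℂ) (τ : ℝ) : (x + (τ : ℂ) * (y - x)).re = x.re + τ * (y.re - x.re) := by
  simp

private theorem comp_line {g : ℂ → ℂ} {g' x y : ℂ} {τ : ℝ} (h : HasDerivAt g g' (x + (τ : ℂ) * (y - x))) :
    HasDerivAt (fun τ : ℝ => g (x + (τ : ℂ) * (y - x))) (g' * (y - x)) τ := by
  have h1 : HasDerivAt (fun τ : ℝ => (τ : ℂ)) 1 τ := Complex.ofRealCLM.hasDerivAt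
  have h2 : HasDerivAt (fun τ : ℝ => x + (τ : ℂ) * (y - x)) (1 * (y - x)) τ :=
    (h1.mul_const (y - x)).const_add x
  have h4 := HasDerivAt.comp (h := fun τ : ℝ => x + (τ : ℂ) * (y - x)) τ h h2
  refine h4.congr_deriv ?_
  ring

private theorem f1_bound {f1 f2 : ℂ → ℂ} {G : ℝ} {u v : ℂ} {K : Set ℂ} (hK : Convex ℝ K)
    (hu : u ∈ K) (hv : v ∈ K) (hpos : ∀ m ∈ K, 0 < m.re)
    (d2 : ∀ m ∈ K, HasDerivAt f1 (f2 m) m) (b : ∀ m ∈ K, ‖f2 m‖ * m.re ^ 3 ≤ 2 * G) :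
    ‖f1 v - f1 u‖ ≤ ‖v - u‖ * G * (u.re + v.re) / (u.re ^ 2 * v.re ^ 2) := by
  have hp : 0 < u.re := hpos u hu
  have hl : ∀ σ ∈ Set.Icc (0 : ℝ) 1, 0 < u.re + σ * (v.re - u.re) := by
    intro σ hσ
    have h := hpos _ (seg_mem hK hu hv hσ)
    rwa [seg_re] at h
  have key := seg_cmp (φ := fun σ : ℝ => f1 (u + (σ : ℂ) * (v - u)) - f1 u)
    (φ' := fun σ : ℝ => f2 (u + (σ : ℂ) * (v - u)) * (v - u))
    (B := fun σ : ℝ => ‖v - u‖ * G * (σ * ((u.re + σ * (v.re - u.re)) + u.re)) /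
      (u.re ^ 2 * (u.re + σ * (v.re - u.re)) ^ 2))
    (B' := fun σ : ℝ => ‖v - u‖ * (2 * G) / (u.re + σ * (v.re - u.re)) ^ 3)
    (by simp) (by simp)
    (fun σ hσ => (comp_line (d2 _ (seg_mem hK hu hv hσ))).sub_const (f1 u))
    (fun σ hσ => by
      have hlσ := hl σ hσ
      have e1 : HasDerivAt (fun σ : ℝ => u.re + σ * (v.re - u.re)) (v.re - u.re) σ := by
        have := ((hasDerivAt_id σ).mul_const (v.re - u.re)).const_add u.re
        simpa using this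
      have e2 := ((hasDerivAt_id σ).mul (e1.add_const u.re)).const_mul (‖v - u‖ * G)
      have e3 := (e1.pow 2).const_mul (u.re ^ 2)
      have e4 := e2.div e3 (by simp only [Pi.pow_apply]; positivity)
      refine e4.congr_deriv ?_
      simp only [id, Pi.mul_apply, Pi.pow_apply]
      field_simp
      ring)
    (fun σ hσ => by
      have hlσ := hl σ hσ
      have h1 := b _ (seg_mem hK hu hv hσ)
      rw [seg_re] at h1
      rw [norm_mul, mul_comm, mul_div_assoc]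
      refine mul_le_mul_of_nonneg_left ?_ (norm_nonneg _)
      rw [le_div_iff₀ (by positivity)]
      exact h1)
  have e : f1 v - f1 u = (fun σ : ℝ => f1 (u + (σ : ℂ) * (v - u)) - f1 u) 1 := by
    simp
  rw [e]
  refine key.trans (le_of_eq ?_)
  have e2 : u.re + 1 * (v.re - u.re) = v.re := by ring
  simp only [e2]
  ring

/-- the divided difference as a primitive along the segment -/
private noncomputable def Gd (f f1 : ℂ → ℂ) (x y : ℂ) (τ : ℝ) : ℂ :=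
  if y = x then (τ : ℂ) * f1 x else (f (x + (τ : ℂ) * (y - x)) - f x) / (y - x)

private theorem Gd_zero (f f1 : ℂ → ℂ) (x y : ℂ) : Gd f f1 x y 0 = 0 := by
  simp [Gd]

private theorem Gd_deriv {f f1 : ℂ → ℂ} {x y : ℂ} {τ : ℝ}
    (h : HasDerivAt f (f1 (x + (τ : ℂ) * (y - x))) (x + (τ : ℂ) * (y - x))) :
    HasDerivAt (Gd f f1 x y) (f1 (x + (τ : ℂ) * (y - x))) τ := by
  by_cases hxy : y = x
  · subst hxy
    have e : Gd f f1 y y = fun τ : ℝ => (τ : ℂ) * f1 y := by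
      funext s
      simp [Gd]
    rw [e]
    have h1 : HasDerivAt (fun τ : ℝ => (τ : ℂ)) 1 τ := Complex.ofRealCLM.hasDerivAt
    have h2 := h1.mul_const (f1 y)
    simpa using h2
  · have hne : y - x ≠ 0 := sub_ne_zero.mpr hxy
    have e : Gd f f1 x y = fun τ : ℝ => (f (x + (τ : ℂ) * (y - x)) - f x) / (y - x) := by
      funext s
      simp [Gd, hxy]
    rw [e]
    have h5 := ((comp_line h).sub_const (f x)).div_const (y - x)
    refine h5.congr_deriv ?_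
    field_simp

private theorem Gd_center {f f1 : ℂ → ℂ} {c y : ℂ} (h : HasDerivAt f (f1 c) c) :
    dslope f c y = Gd f f1 c y 1 := by
  by_cases hyc : y = c
  · subst hyc
    rw [dslope_same, h.deriv]
    simp [Gd]
  · have hne : y - c ≠ 0 := sub_ne_zero.mpr hyc
    rw [dslope_of_ne _ hyc, slope_def_field]
    simp [Gd, hyc]

/-- If `‖f''‖ ≤ 2 G/(Re m)³` on a convex set in the right half plane that contains the real number `C` and
`x`, `y`, then the second divided difference of `f` at `C`, `x`, `y` is at most that of `G/m` at the real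
parts, which is `G/(C Re x Re y)`.

Proof (all by `image_norm_le_of_norm_deriv_right_le_deriv_boundary` on `[0,1]`):
1. For `u, v ∈ K`, `p = Re u`, `q = Re v`: `‖f1 v - f1 u‖ ≤ ‖v - u‖ G (p + q)/(p² q²)`.  Use
   `φ σ = f1 (u + σ (v-u)) - f1 u`, `‖φ' σ‖ ≤ ‖v-u‖ 2G/ℓ³`, `ℓ = p + σ (q-p)`, and the primitive
   `B σ = ‖v-u‖ G σ (ℓ + p)/(p² ℓ²)`, `B' = ‖v-u‖ 2G/ℓ³`.
2. `D(z) = dslope f C z`.  For `z ∈ K` let `Φ_z τ = (f (C + τ (z-C)) - f C)/(z - C)` (`τ f1 C` if `z = C`), so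
   `Φ_z 0 = 0`, `Φ_z 1 = dslope f C z`, `Φ_z' τ = f1 (C + τ (z-C))` (this is done as `G`, `G_deriv`, `G_center`
   in `Pool/Agent/helper4/EQW/L/Dd.lean`, private there: copy).
3. `φ τ = Φ_x τ - Φ_y τ`, `‖φ' τ‖ = ‖f1 (C + τ(x-C)) - f1 (C + τ(y-C))‖ ≤ τ ‖x-y‖ G (p+q)/(p² q²)` by 1 with
   `p = C + τ (Re x - C)`, `q = C + τ (Re y - C)`, and `B τ = ‖x-y‖ G τ²/(C p q)` has
   `B' = ‖x-y‖ G τ (p + q)/(p² q²)` (as `p - τ (Re x - C) = C = q - τ (Re y - C)`).  At `τ = 1`: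
   `B 1 = ‖x-y‖ G/(C Re x Re y)`. -/
theorem dd2 {f f1 f2 : ℂ → ℂ} {C G : ℝ} {x y : ℂ} {K : Set ℂ} (hK : Convex ℝ K) (hC : (C : ℂ) ∈ K)
    (hx : x ∈ K) (hy : y ∈ K) (hpos : ∀ m ∈ K, 0 < m.re) (hG : 0 ≤ G)
    (d1 : ∀ m ∈ K, HasDerivAt f (f1 m) m) (d2 : ∀ m ∈ K, HasDerivAt f1 (f2 m) m)
    (b : ∀ m ∈ K, ‖f2 m‖ * m.re ^ 3 ≤ 2 * G) :
    ‖dslope f (C : ℂ) x - dslope f (C : ℂ) y‖ ≤ G * ‖x - y‖ / (C * x.re * y.re) := by
  have hC0 : 0 < C := by simpa using hpos _ hC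
  rw [Gd_center (y := x) (d1 _ hC), Gd_center (y := y) (d1 _ hC)]
  have hlx : ∀ σ ∈ Set.Icc (0 : ℝ) 1, 0 < C + σ * (x.re - C) := by
    intro σ hσ
    have h := hpos _ (seg_mem hK hC hx hσ)
    rwa [seg_re, Complex.ofReal_re] at h
  have hly : ∀ σ ∈ Set.Icc (0 : ℝ) 1, 0 < C + σ * (y.re - C) := by
    intro σ hσ
    have h := hpos _ (seg_mem hK hC hy hσ)
    rwa [seg_re, Complex.ofReal_re] at h
  have key := seg_cmp (φ := fun τ : ℝ => Gd f f1 (C : ℂ) x τ - Gd f f1 (C : ℂ) y τ)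
    (φ' := fun τ : ℝ => f1 ((C : ℂ) + (τ : ℂ) * (x - (C : ℂ))) - f1 ((C : ℂ) + (τ : ℂ) * (y - (C : ℂ))))
    (B := fun τ : ℝ => ‖x - y‖ * G / C * τ ^ 2 / ((C + τ * (x.re - C)) * (C + τ * (y.re - C))))
    (B' := fun τ : ℝ => ‖x - y‖ * G * (τ * ((C + τ * (x.re - C)) + (C + τ * (y.re - C)))) /
      ((C + τ * (x.re - C)) ^ 2 * (C + τ * (y.re - C)) ^ 2))
    (by simp [Gd_zero]) (by simp)
    (fun τ hτ => (Gd_deriv (d1 _ (seg_mem hK hC hx hτ))).sub (Gd_deriv (d1 _ (seg_mem hK hC hy hτ))))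
    (fun τ hτ => by
      have h1 := hlx τ hτ
      have h2 := hly τ hτ
      have ex : HasDerivAt (fun σ : ℝ => C + σ * (x.re - C)) (x.re - C) τ := by
        have := ((hasDerivAt_id τ).mul_const (x.re - C)).const_add C
        simpa using this
      have ey : HasDerivAt (fun σ : ℝ => C + σ * (y.re - C)) (y.re - C) τ := by
        have := ((hasDerivAt_id τ).mul_const (y.re - C)).const_add C
        simpa using this
      have e2 := (hasDerivAt_pow 2 τ).const_mul (‖x - y‖ * G / C)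
      have e4 := e2.div (ex.mul ey) (by simp only [Pi.mul_apply]; positivity)
      refine e4.congr_deriv ?_
      simp only [id, Pi.mul_apply, Pi.pow_apply]
      field_simp
      ring)
    (fun τ hτ => by
      have h1 := f1_bound hK (seg_mem hK hC hy hτ) (seg_mem hK hC hx hτ) hpos d2 b
      have e : (C : ℂ) + (τ : ℂ) * (x - (C : ℂ)) - ((C : ℂ) + (τ : ℂ) * (y - (C : ℂ))) =
          (τ : ℂ) * (x - y) := by ring
      rw [e, seg_re, seg_re, norm_mul, Complex.norm_real, Real.norm_of_nonneg hτ.1,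
        Complex.ofReal_re] at h1
      refine h1.trans (le_of_eq ?_)
      ring)
  refine key.trans (le_of_eq ?_)
  have e1 : C + 1 * (x.re - C) = x.re := by ring
  have e2 : C + 1 * (y.re - C) = y.re := by ring
  have hxr := hpos x hx
  have hyr := hpos y hy
  simp only [e1, e2]
  field_simp

end Pool.Agent.helper4.EQW4
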