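import Pool.Agent.helper4.EQW4.N2
import Pool.Agent.helper4.EQW4.N3
import Pool.Agent.helper4.EQW.Region

/-!
# EQW4-N4: the linearisation error `Λ`, `2 ≤ e ≤ 4`
-/

namespace Pool.Agent.helper4.EQW4

open Complex
open Pool.Agent.helper31.EQ.W (c2 gl gs nxt wn FW)
open Pool.Agent.helper4.EQW (cc PP PP1 PP2 f0 h0 v2)

variable {e κ : ℝ}

/-- `C = cosh κ`, `W = 2C - Y`, `ζ = C - Y`, `E = e/2`, `f = c2 * fm E`, `f C = 1` (`c2_fm`).
1. `c2 h0 (1/W) = W f (mm W)` (`h0_eq4` at `1/W`, `mm (1/W) = mm W`), `c2 gs Y = Y f (mm Y)` (`gs_eq4`).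
2. `W (mm W - C) = Y (mm Y - C) = v2/2` (`v2 = v2 κ Y = v2 κ W`, `1 + w² = 2 C w + v2 κ w`),
   `f m - 1 = (m - C) dslope f C m`, so
   `Λ = W (f (mm W) - 1) - Y (f (mm Y) - 1) = (v2/2) (dslope f C (mm W) - dslope f C (mm Y))`.
3. `mm W - mm Y = (v2/2)(1/W - 1/Y) = - ζ v2/(W Y)`.
4. `dd2` with `K = {m | m0 ≤ Re m, ‖m - C‖ ≤ R}`, `G = c2 Pm^(-1/E) (..) ≤ C M` (`fm2_bound`,
   `const_bound`); on `K`: `t - tk = 1/C² - 1/m² = (m - C)(m + C)/(C² m²)`, `tk = 1 - 1/C²`, so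
   `‖tm m‖ ≤ tk + R/C² (1/m0 + C/m0²) ≤ tb < 1`.
   `‖Λ‖ ≤ ‖v2‖/2 * C M * ‖ζ‖ ‖v2‖/(‖W‖ ‖Y‖) / (C Re(mm W) Re(mm Y))`. -/
theorem Lam_bound4 (he : 2 ≤ e) (he4 : e ≤ 4) (hκ : 0 < κ) {Y : ℂ}
    (hY : ‖Y - ((Real.exp (-κ) : ℝ) : ℂ)‖ ≤ Real.exp (-κ) / 2) (hY1 : ‖Y‖ ≤ 1)
    (hW : ‖1 / (2 * (Real.cosh κ : ℂ) - Y) - ((Real.exp (-κ) : ℝ) : ℂ)‖ ≤ Real.exp (-κ) / 2)
    (hW1 : ‖1 / (2 * (Real.cosh κ : ℂ) - Y)‖ ≤ 1)
    {m0 rY rW R tb Pm lb pb Pk M : ℝ} (hm0 : 0 < m0) (hm0C : m0 ≤ Real.cosh κ)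
    (h1 : m0 ≤ rY) (hrY : rY ≤ (mm Y).re)
    (h2 : m0 ≤ rW) (hrW : rW ≤ (mm (2 * (Real.cosh κ : ℂ) - Y)).re)
    (hRY : ‖mm Y - (Real.cosh κ : ℂ)‖ ≤ R)
    (hRW : ‖mm (2 * (Real.cosh κ : ℂ) - Y) - (Real.cosh κ : ℂ)‖ ≤ R)
    (htb : 1 - 1 / Real.cosh κ ^ 2 + R / Real.cosh κ ^ 2 * (1 / m0 + Real.cosh κ / m0 ^ 2) ≤ tb)
    (htb1 : tb < 1) (hPm : 0 < Pm)
    (hP : Pm ≤ 1 + cc (e / 2) 1 * (1 - 1 / m0 ^ 2) - (e / 2 - 1 - cc (e / 2) 1) * tb ^ 2)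
    (hlb : cc (e / 2) 1 + 2 * cc (e / 2) 2 * (tb / (1 - tb)) ≤ lb * (e / 2 * Pm))
    (hpb : 2 * cc (e / 2) 2 + 3 * cc (e / 2) 2 * (tb / (1 - tb)) ≤ pb * (e / 2 * Pm))
    (hPk : 1 + cc (e / 2) 1 * (1 - 1 / Real.cosh κ ^ 2) +
      (e / 2 - 1 - cc (e / 2) 1) * (1 - 1 / Real.cosh κ ^ 2) ^ 2 ≤ Pk)
    (hM : (1 + (Pk / Pm - 1) / (e / 2)) *
      (1 + 5 / m0 ^ 2 * lb + 2 / m0 ^ 4 * ((1 + e / 2) * lb ^ 2 + pb)) ≤ M) :
    ‖(c2 e κ : ℂ) * h0 e (1 / (2 * (Real.cosh κ : ℂ) - Y)) - (c2 e κ : ℂ) * gs e Y -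
      2 * ((Real.cosh κ : ℂ) - Y)‖ ≤
      M / (2 * ‖2 * (Real.cosh κ : ℂ) - Y‖ * ‖Y‖ * rW * rY) *
        (‖(Real.cosh κ : ℂ) - Y‖ * ‖v2 κ Y‖ ^ 2) := by
  have hE : 1 ≤ e / 2 := by linarith
  have hE2 : e / 2 ≤ 2 := by linarith
  have hEp : 0 < e / 2 := by linarith
  have ha : 0 < Real.exp (-κ) := Real.exp_pos _
  have hc2 : 0 < c2 e κ := Pool.Agent.helper4.EQW.c2_pos e κ
  have hfC := c2_fm he he4 hκ
  have hYY := gs_eq4 he he4 ha hY hY1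
  have hWW := h0_eq4 he he4 ha hW hW1
  set C := Real.cosh κ with hCdef
  have hC1 : 1 ≤ C := Real.one_le_cosh κ
  have hC0 : 0 < C := by linarith
  have hCC : 1 ≤ C ^ 2 := one_le_pow₀ hC1
  have hi1 : 1 / C ^ 2 ≤ 1 := by
    rw [div_le_one (by positivity)]
    exact hCC
  set W : ℂ := 2 * (C : ℂ) - Y with hWdef
  have hY0 : Y ≠ 0 := Pool.Agent.helper4.EQW.disc_ne ha hY
  have hWi : 1 / W ≠ 0 := Pool.Agent.helper4.EQW.disc_ne ha hW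
  have hW0 : W ≠ 0 := by
    intro h
    apply hWi
    rw [h, div_zero]
  have hmmW : mm (1 / W) = mm W := by
    unfold mm
    rw [one_div_one_div, add_comm]
  rw [hmmW] at hWW
  have hreY : m0 ≤ (mm Y).re := h1.trans hrY
  have hreW : m0 ≤ (mm W).re := h2.trans hrW
  have hR0 : 0 ≤ R := (norm_nonneg _).trans hRY
  -- the estimate of `t` on `K`
  have htK : ∀ m : ℂ, m0 ≤ m.re → ‖m - (C : ℂ)‖ ≤ R → ‖tm m‖ ≤ tb := by
    intro m hm hmR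
    have hmn : m0 ≤ ‖m‖ := hm.trans (Complex.re_le_norm m)
    have hmp : 0 < ‖m‖ := lt_of_lt_of_le hm0 hmn
    have hmne : m ≠ 0 := norm_pos_iff.1 hmp
    have hCne : (C : ℂ) ≠ 0 := by exact_mod_cast hC0.ne'
    have e1 : tm m = ((1 - 1 / C ^ 2 : ℝ) : ℂ) +
        (m - (C : ℂ)) * (1 / (C : ℂ) ^ 2) * (1 / m + (C : ℂ) / m ^ 2) := by
      unfold tm
      push_cast
      field_simp
      ring
    have e2 : ‖((1 - 1 / C ^ 2 : ℝ) : ℂ)‖ = 1 - 1 / C ^ 2 := by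
      rw [Complex.norm_real, Real.norm_of_nonneg (by linarith)]
    have e3 : ‖(1 : ℂ) / (C : ℂ) ^ 2‖ = 1 / C ^ 2 := by
      rw [norm_div, norm_one, norm_pow, Complex.norm_real, Real.norm_of_nonneg hC0.le]
    have e4 : ‖1 / m + (C : ℂ) / m ^ 2‖ ≤ 1 / m0 + C / m0 ^ 2 := by
      refine (norm_add_le _ _).trans (add_le_add ?_ ?_)
      · rw [norm_div, norm_one]
        exact one_div_le_one_div_of_le hm0 hmn
      · rw [norm_div, norm_pow, Complex.norm_real, Real.norm_of_nonneg hC0.le]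
        exact div_le_div_of_nonneg_left hC0.le (by positivity) (pow_le_pow_left₀ hm0.le hmn 2)
    refine le_trans ?_ htb
    rw [e1]
    refine (norm_add_le _ _).trans ?_
    rw [e2, norm_mul, norm_mul, e3]
    have e5 : ‖m - (C : ℂ)‖ * (1 / C ^ 2) * ‖1 / m + (C : ℂ) / m ^ 2‖ ≤
        R * (1 / C ^ 2) * (1 / m0 + C / m0 ^ 2) :=
      mul_le_mul (mul_le_mul_of_nonneg_right hmR (by positivity)) e4 (norm_nonneg _) (by positivity)
    have e6 : R * (1 / C ^ 2) * (1 / m0 + C / m0 ^ 2) = R / C ^ 2 * (1 / m0 + C / m0 ^ 2) := by ring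
    linarith
  -- signs
  have hEPm : 0 < e / 2 * Pm := mul_pos hEp hPm
  have htb0 : 0 ≤ tb := (norm_nonneg _).trans (htK (mm Y) hreY hRY)
  have hq0 : 0 ≤ tb / (1 - tb) := div_nonneg htb0 (by linarith)
  have hcc1 := EQW.cc_nonneg hE hE2 1
  have hcc2 := EQW.cc_nonneg hE hE2 2
  have hlb0 : 0 ≤ lb := by
    have h3 : 0 ≤ cc (e / 2) 1 + 2 * cc (e / 2) 2 * (tb / (1 - tb)) := by positivity
    by_contra hcon
    have h4 : lb * (e / 2 * Pm) < 0 := mul_neg_of_neg_of_pos (not_le.1 hcon) hEPm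
    linarith
  have hpb0 : 0 ≤ pb := by
    have h3 : 0 ≤ 2 * cc (e / 2) 2 + 3 * cc (e / 2) 2 * (tb / (1 - tb)) := by positivity
    by_contra hcon
    have h4 : pb * (e / 2 * Pm) < 0 := mul_neg_of_neg_of_pos (not_le.1 hcon) hEPm
    linarith
  set B : ℝ := 1 + 5 / m0 ^ 2 * lb + 2 / m0 ^ 4 * ((1 + e / 2) * lb ^ 2 + pb) with hB
  have hB0 : 0 ≤ B := by
    have h3 : 0 ≤ 5 / m0 ^ 2 * lb := by positivity
    have h4 : 0 ≤ 2 / m0 ^ 4 * ((1 + e / 2) * lb ^ 2 + pb) := by positivity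
    rw [hB]
    linarith
  have hcb := const_bound hE hE2 hC1 hPm hfC hPk
  have hrp : 0 < c2 e κ * Pm ^ (-(1 / (e / 2))) := mul_pos hc2 (Real.rpow_pos_of_pos hPm _)
  have hfac0 : 0 < 1 + (Pk / Pm - 1) / (e / 2) := by
    have h3 : 0 < C * (1 + (Pk / Pm - 1) / (e / 2)) := lt_of_lt_of_le hrp hcb
    exact (mul_pos_iff_of_pos_left hC0).1 h3
  have hM0 : 0 ≤ M := (mul_nonneg hfac0.le hB0).trans hM
  -- the function
  set f : ℂ → ℂ := fun m => (c2 e κ : ℂ) * fm (e / 2) m with hf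
  set f1 : ℂ → ℂ := fun m => (c2 e κ : ℂ) * fm1 (e / 2) m with hf1
  set f2 : ℂ → ℂ := fun m => (c2 e κ : ℂ) * fm2 (e / 2) m with hf2
  set K : Set ℂ := {m | m0 ≤ m.re} ∩ Metric.closedBall (C : ℂ) R with hK
  have hKc : Convex ℝ K := by
    refine Convex.inter ?_ (convex_closedBall _ _)
    exact convex_halfSpace_re_ge m0
  have hKm : ∀ m ∈ K, m0 ≤ m.re ∧ ‖m - (C : ℂ)‖ ≤ R := by
    intro m hm
    exact ⟨hm.1, mem_closedBall_iff_norm.1 hm.2⟩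
  have hmem : ∀ m : ℂ, m0 ≤ m.re → ‖m - (C : ℂ)‖ ≤ R → m ∈ K := by
    intro m h3 h4
    exact ⟨h3, mem_closedBall_iff_norm.2 h4⟩
  have hCK : (C : ℂ) ∈ K := by
    apply hmem
    · rw [Complex.ofReal_re]
      exact hm0C
    · rw [sub_self, norm_zero]
      exact hR0
  have hne : ∀ m ∈ K, m ≠ 0 := by
    intro m hm h
    have h3 := (hKm m hm).1
    rw [h, Complex.zero_re] at h3
    linarith
  have hdd := dd2 (f := f) (f1 := f1) (f2 := f2) (C := C) (G := C * M) (x := mm W) (y := mm Y)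
    hKc hCK (hmem _ hreW hRW) (hmem _ hreY hRY)
    (fun m hm => lt_of_lt_of_le hm0 (hKm m hm).1) (mul_nonneg hC0.le hM0)
    (fun m hm => (fm_hasDerivAt hE hE2 (hne m hm)
      (lt_of_le_of_lt (htK m (hKm m hm).1 (hKm m hm).2) htb1)).const_mul _)
    (fun m hm => (fm1_hasDerivAt hE hE2 (hne m hm)
      (lt_of_le_of_lt (htK m (hKm m hm).1 (hKm m hm).2) htb1)).const_mul _)
    (fun m hm => by
      have h3 := fm2_bound hE hE2 hm0 (hKm m hm).1 (htK m (hKm m hm).1 (hKm m hm).2) htb1 hPm hP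
        hlb hpb
      have h4 : ‖f2 m‖ = c2 e κ * ‖fm2 (e / 2) m‖ := by
        rw [hf2]
        simp only []
        rw [norm_mul, Complex.norm_real, Real.norm_of_nonneg hc2.le]
      rw [h4, mul_assoc]
      refine (mul_le_mul_of_nonneg_left h3 hc2.le).trans ?_
      have h5 : c2 e κ * Pm ^ (-(1 / (e / 2))) * B ≤ C * (1 + (Pk / Pm - 1) / (e / 2)) * B :=
        mul_le_mul_of_nonneg_right hcb hB0
      have h6 : C * ((1 + (Pk / Pm - 1) / (e / 2)) * B) ≤ C * M :=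
        mul_le_mul_of_nonneg_left hM hC0.le
      have h7 : c2 e κ * (2 * (Pm ^ (-(1 / (e / 2))) * B)) = 2 * (c2 e κ * Pm ^ (-(1 / (e / 2))) * B) := by
        ring
      rw [h7]
      have h8 : C * (1 + (Pk / Pm - 1) / (e / 2)) * B = C * ((1 + (Pk / Pm - 1) / (e / 2)) * B) := by
        ring
      linarith)
  -- the identity
  have hfC1 : f (C : ℂ) = 1 := hfC
  have hsl : ∀ m : ℂ, f m - 1 = (m - (C : ℂ)) * dslope f (C : ℂ) m := by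
    intro m
    have h3 := sub_smul_dslope f (C : ℂ) m
    rw [smul_eq_mul, hfC1] at h3
    exact h3.symm
  set v : ℂ := v2 κ Y with hvdef
  have hvY : v = 1 - 2 * (C : ℂ) * Y + Y ^ 2 := rfl
  have hmY : Y * (mm Y - (C : ℂ)) = v / 2 := by
    rw [hvY]
    unfold mm
    field_simp
    ring
  have hmW : W * (mm W - (C : ℂ)) = v / 2 := by
    have h3 : W * (mm W - (C : ℂ)) = (1 - 2 * (C : ℂ) * W + W ^ 2) / 2 := by
      unfold mm
      field_simp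
      ring
    rw [h3, hvY, hWdef]
    ring
  have hΛ : (c2 e κ : ℂ) * h0 e (1 / W) - (c2 e κ : ℂ) * gs e Y - 2 * ((C : ℂ) - Y) =
      v / 2 * (dslope f (C : ℂ) (mm W) - dslope f (C : ℂ) (mm Y)) := by
    have e1 : (c2 e κ : ℂ) * h0 e (1 / W) = W * f (mm W) := by
      rw [hWW, hf]
      field_simp
    have e2 : (c2 e κ : ℂ) * gs e Y = Y * f (mm Y) := by
      rw [hYY, hf]
      ring
    have e3 := hsl (mm W)
    have e4 := hsl (mm Y)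
    rw [e1, e2]
    have e5 : f (mm W) = 1 + (mm W - (C : ℂ)) * dslope f (C : ℂ) (mm W) := by
      rw [← e3]
      ring
    have e6 : f (mm Y) = 1 + (mm Y - (C : ℂ)) * dslope f (C : ℂ) (mm Y) := by
      rw [← e4]
      ring
    rw [e5, e6]
    have e7 : W - Y = 2 * ((C : ℂ) - Y) := by
      rw [hWdef]
      ring
    linear_combination e7 + dslope f (C : ℂ) (mm W) * hmW - dslope f (C : ℂ) (mm Y) * hmY
  have hdiff : mm W - mm Y = -(((C : ℂ) - Y) * v / (W * Y)) := by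
    have e1 : mm W - (C : ℂ) = v / 2 / W := by
      rw [eq_div_iff hW0, mul_comm]
      exact hmW
    have e2 : mm Y - (C : ℂ) = v / 2 / Y := by
      rw [eq_div_iff hY0, mul_comm]
      exact hmY
    have e3 : mm W - mm Y = (mm W - (C : ℂ)) - (mm Y - (C : ℂ)) := by ring
    rw [e3, e1, e2]
    have e4 : (C : ℂ) - Y = (W - Y) / 2 := by
      rw [hWdef]
      ring
    rw [e4]
    field_simp
    ring
  have hdn : ‖mm W - mm Y‖ = ‖(C : ℂ) - Y‖ * ‖v‖ / (‖W‖ * ‖Y‖) := by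
    rw [hdiff, norm_neg, norm_div, norm_mul, norm_mul]
  rw [hdn] at hdd
  rw [hΛ, norm_mul, norm_div]
  have h2n : ‖(2 : ℂ)‖ = 2 := by simp
  rw [h2n]
  have hWp : 0 < ‖W‖ := norm_pos_iff.2 hW0
  have hYp : 0 < ‖Y‖ := norm_pos_iff.2 hY0
  have hrWp : 0 < rW := lt_of_lt_of_le hm0 h2
  have hrYp : 0 < rY := lt_of_lt_of_le hm0 h1
  have hmWp : 0 < (mm W).re := lt_of_lt_of_le hm0 hreW
  have hmYp : 0 < (mm Y).re := lt_of_lt_of_le hm0 hreY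
  set x : ℝ := ‖(C : ℂ) - Y‖ with hx
  set V : ℝ := ‖v‖ with hV
  have hx0 : 0 ≤ x := norm_nonneg _
  have hV0 : 0 ≤ V := norm_nonneg _
  refine (mul_le_mul_of_nonneg_left hdd (by positivity)).trans ?_
  have s1 : V / 2 * (C * M * (x * V / (‖W‖ * ‖Y‖)) / (C * (mm W).re * (mm Y).re)) =
      M * (x * V ^ 2) / (2 * ‖W‖ * ‖Y‖ * ((mm W).re * (mm Y).re)) := by
    field_simp
  have s2 : M / (2 * ‖W‖ * ‖Y‖ * rW * rY) * (x * V ^ 2) =
      M * (x * V ^ 2) / (2 * ‖W‖ * ‖Y‖ * (rW * rY)) := by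
    field_simp
  rw [s1, s2]
  apply div_le_div_of_nonneg_left (by positivity) (by positivity)
  apply mul_le_mul_of_nonneg_left _ (by positivity)
  exact mul_le_mul hrW hrY hrYp.le hmWp.le

end Pool.Agent.helper4.EQW4
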