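import Pool.Agent.helper4.EQW4.GoalAll4
import Pool.Agent.helper4.EQW.Conj

/-!
# EQW4: the tail record of the W-scheme for `2 ≤ e ≤ 4`, part 1
-/

namespace Pool.Agent.helper4.EQW4

open Complex ComplexConjugate
open Pool.Agent.helper31.EQ.W (c2 gl gs nxt wn FW)
open Pool.Agent.helper4.EQW

variable {e κ : ℝ} {P : ℂ} {s U v A B x o p : ℝ}

theorem P_ne4 {Y : ℂ} (hY : Y ∈ OT4 e κ) : nx κ Y ≠ ((Real.exp (-κ) : ℝ) : ℂ) := by
  intro h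
  obtain ⟨-, n2, -⟩ := nx_formulas hY.1
  rw [h, sub_self, norm_zero] at n2
  have h1 : 0 < ‖Y - ((Real.exp (-κ) : ℝ) : ℂ)‖ := norm_pos_iff.2 (sub_ne_zero.2 hY.2.2)
  have h2 : 0 < ‖2 * (Real.cosh κ : ℂ) - Y‖ := norm_pos_iff.2 hY.1
  have h3 := Real.exp_pos (-κ)
  have : 0 < Real.exp (-κ) * ‖Y - ((Real.exp (-κ) : ℝ) : ℂ)‖ / ‖2 * (Real.cosh κ : ℂ) - Y‖ := by
    positivity
  linarith

theorem G1_ne_of_mem4 (he : 2 ≤ e) (he4 : e ≤ 4) (hκ : 0 < κ) (hP : P ∈ LT4 e κ) :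
    G1 e κ P ≠ 0 := by
  have := one_le_G14 he he4 hκ hP
  intro h
  rw [h, norm_zero] at this
  norm_num at this

theorem d_bound4' (he : 2 ≤ e) (he4 : e ≤ 4) (hκ : 0 < κ) {Y x : ℂ} {ρ : ℝ} (hY : Y ∈ OT4 e κ)
    (hx : ‖x‖ ≤ ρ) :
    ‖rT e κ Y * x‖ * ‖G1 e κ (nx κ Y)‖ ≤ ρ * (KK e κ * ‖gK κ (nx κ Y)‖) := by
  have hG : 0 < ‖G1 e κ (nx κ Y)‖ := norm_pos_iff.2 (G1_ne_of_mem4 he he4 hκ hY.2.1)
  rw [norm_mul, norm_rT (by linarith)]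
  have := KK_pos (κ := κ) (show (0 : ℝ) < e by linarith)
  calc KK e κ * ‖gK κ (nx κ Y)‖ / ‖G1 e κ (nx κ Y)‖ * ‖x‖ * ‖G1 e κ (nx κ Y)‖ =
        KK e κ * ‖gK κ (nx κ Y)‖ * ‖x‖ := by field_simp
    _ ≤ KK e κ * ‖gK κ (nx κ Y)‖ * ρ := mul_le_mul_of_nonneg_left hx (by positivity)
    _ = _ := by ring

theorem d_bound4 (he : 2 ≤ e) (he4 : e ≤ 4) (hκ : 0 < κ) {Y x : ℂ} (hY : Y ∈ OT4 e κ)
    (hx : ‖x‖ ≤ 1) :
    ‖rT e κ Y * x‖ * ‖G1 e κ (nx κ Y)‖ ≤ KK e κ * ‖gK κ (nx κ Y)‖ := by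
  have := d_bound4' he he4 hκ hY hx
  rwa [one_mul] at this

theorem inv_OT4 (he : 2 ≤ e) (he4 : e ≤ 4) (hκ : 0 < κ) {Y x : ℂ} (hY : Y ∈ OT4 e κ)
    (hx : ‖x‖ ≤ 1) : nxt κ Y (rT e κ Y * x) ∈ OT4 e κ := by
  rw [nxt_eq]
  exact step_mem4 he he4 hκ hY.2.1 (P_ne4 hY) (d_bound4 he he4 hκ hY hx)

theorem norm_d_le4 (he : 2 ≤ e) (he4 : e ≤ 4) (hκ : 0 < κ) {Y x : ℂ} (hY : Y ∈ OT4 e κ)
    (hx : ‖x‖ ≤ 1) : ‖rT e κ Y * x‖ ≤ 16 / 100 :=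
  (wn_facts4 he he4 hκ hY (d_bound4 he he4 hκ hY hx)).2.2.2.1

theorem one_sub_ne_OT4 (he : 2 ≤ e) (he4 : e ≤ 4) (hκ : 0 < κ) {Y x : ℂ} (hY : Y ∈ OT4 e κ)
    (hx : ‖x‖ ≤ 1) : 1 - rT e κ Y * x ≠ 0 := by
  have h := norm_d_le4 he he4 hκ hY hx
  intro h1
  have h2 : rT e κ Y * x = 1 := by linear_combination -h1
  rw [h2, norm_one] at h
  norm_num at h

theorem w_slit_OT4 (he : 2 ≤ e) (he4 : e ≤ 4) (hκ : 0 < κ) {Y x : ℂ} (hY : Y ∈ OT4 e κ)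
    (hx : ‖x‖ ≤ 1) : wn κ Y (rT e κ Y * x) ∈ slitPlane := by
  obtain ⟨-, h1, -, -, h2⟩ := wn_facts4 he he4 hκ hY (d_bound4 he he4 hκ hY hx)
  rw [h2]
  exact inv_slit h1

theorem w_norm_OT4 (he : 2 ≤ e) (he4 : e ≤ 4) (hκ : 0 < κ) {Y x : ℂ} (hY : Y ∈ OT4 e κ)
    (hx : ‖x‖ ≤ 1) : 1 < ‖wn κ Y (rT e κ Y * x)‖ := by
  obtain ⟨-, h1, h3, -, h2⟩ := wn_facts4 he he4 hκ hY (d_bound4 he he4 hκ hY hx)
  rw [h2, norm_inv]
  exact (one_lt_inv₀ (norm_pos_iff.2 (slitPlane_ne_zero h1))).2 h3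

theorem rT_ne4 (he : 2 ≤ e) (he4 : e ≤ 4) (hκ : 0 < κ) {Y : ℂ} (hY : Y ∈ OT4 e κ) :
    rT e κ Y ≠ 0 := by
  have hG := G1_ne_of_mem4 he he4 hκ hY.2.1
  have hK := KK_pos (κ := κ) (show (0 : ℝ) < e by linarith)
  unfold rT
  refine div_ne_zero (mul_ne_zero (by exact_mod_cast hK.ne') ?_) hG
  intro h
  have h1 := norm_gK κ (nx κ Y)
  rw [h, norm_zero] at h1
  have hPa := P_ne4 hY
  have h2 : ‖nx κ Y - ((Real.exp (-κ) : ℝ) : ℂ)‖ ≠ 0 := norm_ne_zero_iff.2 (sub_ne_zero.2 hPa)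
  have h3 : ‖v2 κ (nx κ Y)‖ = 0 := by
    rcases mul_eq_zero.1 h1.symm with h4 | h4
    · exact h4
    · exact absurd h4 h2
  rw [norm_eq_zero, v2_eq] at h3
  rcases mul_eq_zero.1 h3 with h4 | h4
  · exact hPa (sub_eq_zero.1 h4)
  · -- P = e^κ is impossible
    have h5 := hY.2.1.1.1
    rw [h4, norm_zero, mul_zero] at h5
    exact absurd h5 (not_lt.2 (norm_nonneg _))

/-- The point where the preconditioner is evaluated. -/
theorem back_eq4 (he : 2 ≤ e) (he4 : e ≤ 4) (hκ : 0 < κ) {Y x : ℂ} (hY : Y ∈ OT4 e κ)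
    (hx : ‖x‖ ≤ 1) :
    (nxt κ Y (rT e κ Y * x) - rT e κ Y * x) / (1 - rT e κ Y * x) = nx κ Y := by
  have h := one_sub_ne_OT4 he he4 hκ hY hx
  rw [nxt_eq, div_eq_iff h]
  ring

theorem MT_eq4 (he : 2 ≤ e) (he4 : e ≤ 4) (hκ : 0 < κ) {Y x : ℂ} (hY : Y ∈ OT4 e κ)
    (hx : ‖x‖ ≤ 1) (d' : ℂ) :
    MT e κ (nxt κ Y (rT e κ Y * x)) (rT e κ Y * x) d' = 1 / G1 e κ (nx κ Y) := by
  unfold MT
  rw [back_eq4 he he4 hκ hY hx]

theorem MT_ne4 (he : 2 ≤ e) (he4 : e ≤ 4) (hκ : 0 < κ) {Y x : ℂ} (hY : Y ∈ OT4 e κ)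
    (hx : ‖x‖ ≤ 1) (d' : ℂ) :
    MT e κ (nxt κ Y (rT e κ Y * x)) (rT e κ Y * x) d' ≠ 0 := by
  rw [MT_eq4 he he4 hκ hY hx]
  exact one_div_ne_zero (G1_ne_of_mem4 he he4 hκ hY.2.1)

theorem f0_slit_of_mem4 (he : 2 ≤ e) (he4 : e ≤ 4) (hκ : 0 < κ) (hP : P ∈ LT4 e κ) :
    f0 e P ∈ slitPlane :=
  f0_slit4 (by linarith) he4 (Real.exp_pos _) (disc_of_mem4 he he4 hκ hP).1
    (disc_of_mem4 he he4 hκ hP).2

theorem G1_differentiableAt4 (he : 2 ≤ e) (he4 : e ≤ 4) (hκ : 0 < κ) (hP : P ∈ LT4 e κ) :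
    DifferentiableAt ℂ (G1 e κ) P :=
  (G1_deriv' (by linarith) (Real.exp_pos _) (disc_of_mem4 he he4 hκ hP).1
    (f0_slit_of_mem4 he he4 hκ hP)).differentiableAt

theorem rT_diff4 (he : 2 ≤ e) (he4 : e ≤ 4) (hκ : 0 < κ) {Y : ℂ} (hY : Y ∈ OT4 e κ) :
    DifferentiableAt ℂ (rT e κ) Y := by
  have h1 : DifferentiableAt ℂ (nx κ) Y :=
    (differentiableAt_const (1 : ℂ)).div ((differentiableAt_const _).sub differentiableAt_id) hY.1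
  have h2 : DifferentiableAt ℂ (gK κ) (nx κ Y) := by
    unfold gK v2
    fun_prop
  have h3 : DifferentiableAt ℂ (fun Y => gK κ (nx κ Y)) Y := DifferentiableAt.comp Y h2 h1
  have h4 : DifferentiableAt ℂ (fun Y => G1 e κ (nx κ Y)) Y :=
    DifferentiableAt.comp Y (G1_differentiableAt4 he he4 hκ hY.2.1) h1
  exact (h3.const_mul _).div h4 (G1_ne_of_mem4 he he4 hκ hY.2.1)

theorem MT_diff4 (he : 2 ≤ e) (he4 : e ≤ 4) (hκ : 0 < κ) {Y x : ℂ} (hY : Y ∈ OT4 e κ)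
    (hx : ‖x‖ ≤ 1) (d' : ℂ) :
    DifferentiableAt ℂ (fun q : ℂ × ℂ × ℂ => MT e κ q.1 q.2.1 q.2.2)
      (nxt κ Y (rT e κ Y * x), rT e κ Y * x, d') := by
  have hb := back_eq4 he he4 hκ hY hx
  have hne := one_sub_ne_OT4 he he4 hκ hY hx
  set Y' := nxt κ Y (rT e κ Y * x) with hY'
  set d := rT e κ Y * x with hd
  set q0 : ℂ × ℂ × ℂ := (Y', d, d') with hq0
  have i1 : DifferentiableAt ℂ (fun q : ℂ × ℂ × ℂ => (1 - q.2.1)⁻¹) q0 := by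
    have h5 : DifferentiableAt ℂ (fun z : ℂ => z⁻¹) ((fun q : ℂ × ℂ × ℂ => 1 - q.2.1) q0) :=
      differentiableAt_inv hne
    exact DifferentiableAt.comp (f := fun q : ℂ × ℂ × ℂ => 1 - q.2.1) q0 h5 (by fun_prop)
  have i2 : DifferentiableAt ℂ (fun q : ℂ × ℂ × ℂ => q.1 - q.2.1) q0 := by fun_prop
  have h1 : DifferentiableAt ℂ (fun q : ℂ × ℂ × ℂ => (q.1 - q.2.1) / (1 - q.2.1)) q0 := by
    simp only [div_eq_mul_inv]
    exact i2.mul i1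
  have h2 : DifferentiableAt ℂ (G1 e κ)
      ((fun q : ℂ × ℂ × ℂ => (q.1 - q.2.1) / (1 - q.2.1)) q0) := by
    show DifferentiableAt ℂ (G1 e κ) ((Y' - d) / (1 - d))
    rw [hb]
    exact G1_differentiableAt4 he he4 hκ hY.2.1
  have h3 : DifferentiableAt ℂ (fun q : ℂ × ℂ × ℂ => G1 e κ ((q.1 - q.2.1) / (1 - q.2.1)))
      q0 := DifferentiableAt.comp (f := fun q : ℂ × ℂ × ℂ => (q.1 - q.2.1) / (1 - q.2.1)) q0 h2 h1
  have h4 : DifferentiableAt ℂ (fun z : ℂ => z⁻¹)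
      ((fun q : ℂ × ℂ × ℂ => G1 e κ ((q.1 - q.2.1) / (1 - q.2.1))) q0) := by
    apply differentiableAt_inv
    show G1 e κ ((Y' - d) / (1 - d)) ≠ 0
    rw [hb]
    exact G1_ne_of_mem4 he he4 hκ hY.2.1
  have h5 : DifferentiableAt ℂ (fun q : ℂ × ℂ × ℂ => (G1 e κ ((q.1 - q.2.1) / (1 - q.2.1)))⁻¹)
      q0 := DifferentiableAt.comp
        (f := fun q : ℂ × ℂ × ℂ => G1 e κ ((q.1 - q.2.1) / (1 - q.2.1))) q0 h4 h3
  unfold MT
  simp only [one_div]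
  exact h5

theorem close_gen4 (he : 2 ≤ e) (he4 : e ≤ 4) (hκ : 0 < κ) {Y x x' : ℂ} (hY : Y ∈ OT4 e κ)
    {ρ f θ : ℝ} (hρ0 : 0 ≤ ρ) (hρ1 : ρ ≤ 1) (hρf : 1 ≤ ρ * f) (hx : ‖x‖ ≤ ρ) (hx' : ‖x'‖ ≤ ρ)
    (hg : ∀ {s U v A B x o p : ℝ}, Facts κ (nx κ Y) s U v A B x o p →
      Aux4 e κ s U v A B x o p (KK e κ) (Real.exp (-κ)) →
      v = ‖v2 κ (nx κ Y)‖ →
      ∃ n : Pk, Goal4 e κ (nx κ Y) s v A x o p (KK e κ) (Real.exp (-κ)) (Real.sinh κ) f θ n) :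
    ‖rT e κ Y * x - MT e κ (nxt κ Y (rT e κ Y * x)) (rT e κ Y * x)
        (rT e κ (nxt κ Y (rT e κ Y * x)) * x') *
      FW e κ (nxt κ Y (rT e κ Y * x)) (rT e κ Y * x)
        (rT e κ (nxt κ Y (rT e κ Y * x)) * x')‖ ≤ θ * ρ * ‖rT e κ Y‖ := by
  have hx1 : ‖x‖ ≤ 1 := hx.trans hρ1
  rw [MT_eq4 he he4 hκ hY hx1]
  have hY' := inv_OT4 he he4 hκ hY hx1
  have hd := d_bound4' he he4 hκ hY hx
  have hd' := d_bound4' he he4 hκ hY' hx'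
  set d := rT e κ Y * x with hdd
  set Y' := nxt κ Y d with hYd
  set d' := rT e κ Y' * x' with hdd'
  set P := nx κ Y with hPd
  have hYP : Y' = P + d * (1 - P) := nxt_eq
  have F := facts_of_mem hκ hY.2.1.1
  have X := aux4_of he he4 hκ F hY.2.1.2
  obtain ⟨n, g⟩ := hg F X rfl
  rw [hYP] at hd'
  have hc := close_goal4 he he4 hκ hY.2.1 (P_ne4 hY) F X rfl rfl rfl g hρ0 hρ1 hρf hd hd'
  rw [← hYP] at hc
  have hG0 : G1 e κ P ≠ 0 := G1_ne_of_mem4 he he4 hκ hY.2.1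
  have hGn : 0 < ‖G1 e κ P‖ := norm_pos_iff.2 hG0
  have e1 : d - 1 / G1 e κ P * FW e κ Y' d d' = (d * G1 e κ P - FW e κ Y' d d') / G1 e κ P := by
    field_simp
  rw [e1, norm_div, div_le_iff₀ hGn, norm_rT (by linarith), norm_gK]
  have e2 : θ * ρ * (KK e κ * (‖v2 κ P‖ * ‖P - ((Real.exp (-κ) : ℝ) : ℂ)‖) / ‖G1 e κ P‖) *
      ‖G1 e κ P‖ = KK e κ * ‖v2 κ P‖ * ‖P - ((Real.exp (-κ) : ℝ) : ℂ)‖ * (θ * ρ) := by
    field_simp
  exact hc.trans (le_of_eq e2.symm)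

theorem close_OT4 (he : 2 ≤ e) (he4 : e ≤ 4) (hκ : 0 < κ) {Y x x' : ℂ} (hY : Y ∈ OT4 e κ)
    (hx : ‖x‖ ≤ 1) (hx' : ‖x'‖ ≤ 1) :
    ‖rT e κ Y * x - MT e κ (nxt κ Y (rT e κ Y * x)) (rT e κ Y * x)
        (rT e κ (nxt κ Y (rT e κ Y * x)) * x') *
      FW e κ (nxt κ Y (rT e κ Y * x)) (rT e κ Y * x)
        (rT e κ (nxt κ Y (rT e κ Y * x)) * x')‖ ≤ thT κ * ‖rT e κ Y‖ := by
  have h := close_gen4 he he4 hκ hY (ρ := 1) (f := 1) (θ := thT κ) zero_le_one le_rfl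
    (by norm_num) hx hx' (fun F X _ => goal_all4 he he4 hκ hY.2.1 F X)
  rwa [mul_one] at h

theorem nx_real_pos4 (he : 2 ≤ e) (he4 : e ≤ 4) (hκ : 0 < κ) {Y : ℝ} (hY : (Y : ℂ) ∈ OT4 e κ) :
    0 < 1 / (2 * Real.cosh κ - Y) := by
  have h := (disc_re (disc_of_mem4 he he4 hκ hY.2.1).1).1
  rw [nx_real, Complex.ofReal_re] at h
  have := Real.exp_pos (-κ)
  linarith

theorem rT_real4 (he : 2 ≤ e) (he4 : e ≤ 4) (hκ : 0 < κ) {Y : ℝ} (hY : (Y : ℂ) ∈ OT4 e κ) :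
    (rT e κ Y).im = 0 := by
  have hp := nx_real_pos4 he he4 hκ hY
  have h : rT e κ Y = ((KK e κ * ((1 - 2 * Real.cosh κ * (1 / (2 * Real.cosh κ - Y)) +
      (1 / (2 * Real.cosh κ - Y)) ^ 2) * (Real.cosh κ - 1 / (2 * Real.cosh κ - Y) -
      Real.sinh κ)) / (c2 e κ * (1 / (2 * Real.cosh κ - Y)) *
      ((1 + (1 / (2 * Real.cosh κ - Y)) ^ e) / 2) ^ (-(1 + 2 / e))) : ℝ) : ℂ) := by
    unfold rT
    rw [nx_real, G1_real hp.le]
    unfold gK v2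
    push_cast
    rfl
  rw [h, Complex.ofReal_im]

theorem MT_real4 (he : 2 ≤ e) (he4 : e ≤ 4) (hκ : 0 < κ) {Y : ℝ} (hY : (Y : ℂ) ∈ OT4 e κ) {x : ℂ}
    (hx : ‖x‖ ≤ 1) (d' : ℂ) :
    (MT e κ (nxt κ Y (rT e κ Y * x)) (rT e κ Y * x) d').im = 0 := by
  rw [MT_eq4 he he4 hκ hY hx, nx_real, G1_real (nx_real_pos4 he he4 hκ hY).le, one_div,
    ← Complex.ofReal_inv, Complex.ofReal_im]

/-- `K v ≤ 29/40` and `K v ≤ 29/100 (1 + 6 s)`. -/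
theorem Kv_le4 (he : 2 ≤ e) (he4 : e ≤ 4) (hκ : 0 < κ) (F : Facts κ P s U v A B x o p)
    (X : Aux4 e κ s U v A B x o p (KK e κ) (Real.exp (-κ))) :
    KK e κ * v ≤ 29 / 40 ∧ KK e κ * v ≤ 29 / 100 * (1 + 6 * s) ∧
      (KK e κ) ^ 2 * (s + v) ≤ (1 + 6 * s) ^ 2 * (5929 / 10000 + 4 * s) := by
  have hs := F.s_pos
  have hv0 := X.v_nn
  have hvV := X.v_lt.le
  have hK0 := X.K_pos
  obtain ⟨t1, -, t3⟩ := th_le he he4 hκ
  rw [← F.s_def] at t1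
  have hVV := VV_pos he4
  have hK1 : KK e κ ≤ e ^ 2 / 8 + 3 := by
    unfold KK
    linarith
  have hK2 : KK e κ ≤ e ^ 2 / 8 * (1 + 6 * s) := by
    unfold KK
    have h1 : s / (1 + s) ≤ s := div_le_self hs.le (by linarith)
    have h2 : (e / 2) ^ 2 * (s / (1 + s)) ≤ (e / 2) ^ 2 * s :=
      mul_le_mul_of_nonneg_left h1 (by positivity)
    nlinarith
  have hy : 0 ≤ e - 2 := by linarith
  have hy4 : 0 ≤ 4 - e := by linarith
  refine ⟨?_, ?_, ?_⟩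
  · calc KK e κ * v ≤ (e ^ 2 / 8 + 3) * VV e := mul_le_mul hK1 hvV hv0 (by positivity)
      _ ≤ 29 / 40 := by
          unfold VV
          have e1 : 29 / 40 - (e ^ 2 / 8 + 3) * (51 / 200 - 11 / 400 * e) =
              (4 - e) * (11 / 3200 * ((e - 2) * (4 - e)) + 1 / 400 * (4 - e) + 3 / 400) := by ring
          have : 0 ≤ (4 - e) * (11 / 3200 * ((e - 2) * (4 - e)) + 1 / 400 * (4 - e) + 3 / 400) := by
            have := mul_nonneg hy hy4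
            positivity
          linarith
  · calc KK e κ * v ≤ (e ^ 2 / 8 * (1 + 6 * s)) * VV e :=
          mul_le_mul hK2 hvV hv0 (by positivity)
      _ = (e ^ 2 / 8 * VV e) * (1 + 6 * s) := by ring
      _ ≤ 29 / 100 * (1 + 6 * s) := by
          apply mul_le_mul_of_nonneg_right _ (by positivity)
          unfold VV
          have e1 : 29 / 100 - e ^ 2 / 8 * (51 / 200 - 11 / 400 * e) =
              (4 - e) / 8 * (11 / 400 * ((e - 2) * (4 - e)) + 1 / 50 * (4 - e) + 72 / 100) := by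
            ring
          have : 0 ≤ (4 - e) / 8 * (11 / 400 * ((e - 2) * (4 - e)) + 1 / 50 * (4 - e) +
              72 / 100) := by
            have := mul_nonneg hy hy4
            positivity
          linarith
  · have h1 : (KK e κ) ^ 2 ≤ (e ^ 2 / 8 * (1 + 6 * s)) ^ 2 := pow_le_pow_left₀ hK0.le hK2 2
    have h2 : (e ^ 2 / 8) ^ 2 ≤ 4 := by
      have h3 : e ^ 2 / 8 ≤ 2 := by nlinarith
      have h4 : (e ^ 2 / 8) ^ 2 ≤ 2 ^ 2 := pow_le_pow_left₀ (by positivity) h3 2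
      linarith
    have h3 : (e ^ 2 / 8) ^ 2 * v ≤ 5929 / 10000 := by
      calc (e ^ 2 / 8) ^ 2 * v ≤ (e ^ 2 / 8) ^ 2 * VV e := mul_le_mul_of_nonneg_left hvV (by positivity)
        _ ≤ (77 / 100) ^ 2 := VV_KA he he4
        _ = 5929 / 10000 := by norm_num
    have h4 : (e ^ 2 / 8) ^ 2 * s ≤ 4 * s := mul_le_mul_of_nonneg_right h2 hs.le
    calc (KK e κ) ^ 2 * (s + v) ≤ (e ^ 2 / 8 * (1 + 6 * s)) ^ 2 * (s + v) :=
          mul_le_mul_of_nonneg_right h1 (by positivity)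
      _ = (1 + 6 * s) ^ 2 * ((e ^ 2 / 8) ^ 2 * v + (e ^ 2 / 8) ^ 2 * s) := by ring
      _ ≤ (1 + 6 * s) ^ 2 * (5929 / 10000 + 4 * s) := by
          apply mul_le_mul_of_nonneg_left _ (by positivity)
          linarith

private theorem rec4_piece {a p Kv o c k q : ℝ} (ha0 : 0 ≤ a) (_hp0 : 0 ≤ p) (hp : p ≤ 1)
    (hKv0 : 0 ≤ Kv) (ho0 : 0 ≤ o) (ha : a ≤ c) (hk : Kv ≤ k) (hq : o ≤ q)
    (h : c * (1 + k * q) ≤ 99 / 100) : a * p * (1 + Kv * o) ≤ 99 / 100 := by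
  have h1 : Kv * o ≤ k * q := mul_le_mul hk hq ho0 (hKv0.trans hk)
  have h2 : 0 ≤ Kv * o := mul_nonneg hKv0 ho0
  have h3 : a * p ≤ c := by
    calc a * p ≤ a * 1 := mul_le_mul_of_nonneg_left hp ha0
      _ = a := mul_one a
      _ ≤ c := ha
  calc a * p * (1 + Kv * o) ≤ c * (1 + k * q) :=
        mul_le_mul h3 (by linarith) (by linarith) (ha0.trans ha)
    _ ≤ 99 / 100 := h

private theorem rec4_a {S0 c : ℝ} (hS0 : 0 ≤ S0) (h0 : S0 ^ 2 ≤ Real.sinh κ ^ 2)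
    (hS : 0 < Real.sinh κ) (hc0 : 0 < c) (hc : 1 ≤ c * (c + 2 * S0)) : Real.exp (-κ) ≤ c := by
  have h1 : S0 ≤ Real.sinh κ := le_of_sq_le_sq h0 hS.le
  have haS : Real.exp (-κ) * (Real.exp (-κ) + 2 * Real.sinh κ) = 1 := by
    rw [exp_neg_eq]
    linarith only [Real.cosh_sq κ]
  have ha := Real.exp_pos (-κ)
  by_contra hcon
  push Not at hcon
  have h2 : c * (c + 2 * S0) < Real.exp (-κ) * (Real.exp (-κ) + 2 * Real.sinh κ) := by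
    apply mul_lt_mul hcon (by linarith) (by positivity) ha.le
  linarith

private theorem rec4_o {q t : ℝ} (hq : 0 ≤ q) (h1 : o ^ 2 ≤ t) (h2 : t ≤ q ^ 2) : o ≤ q :=
  le_of_sq_le_sq (h1.trans h2) hq

/-- contraction of the real orbit. -/
theorem contr_real4 (he : 2 ≤ e) (he4 : e ≤ 4) (hκ : 0 < κ) (F : Facts κ P s U v A B x o p)
    (X : Aux4 e κ s U v A B x o p (KK e κ) (Real.exp (-κ))) :
    Real.exp (-κ) * p * (1 + KK e κ * v * o) ≤ max (Real.exp (-κ)) (99 / 100) := by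
  obtain ⟨k1, k2, k3⟩ := Kv_le4 he he4 hκ F X
  have hv0 := X.v_nn
  have ho0 := X.o_nn
  have ho1 := F.o_le_1
  have hp0 := X.p_pos
  have hp1 := X.p_le
  have hU0 := X.U_pos
  have ha0 := X.a_pos
  have hK0 := X.K_pos
  have hs := F.s_pos
  have hvU := F.v_le_U
  have hv5 := F.v_lt
  have hS : 0 < Real.sinh κ := Real.sinh_pos_iff.2 hκ
  have hSs : Real.sinh κ ^ 2 = s := F.s_def.symm
  have ho2 : o ^ 2 ≤ s + v := (pow_le_pow_left₀ ho0 F.o_le_x 2).trans F.x_le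
  have hKv0 : 0 ≤ KK e κ * v := by positivity
  rcases le_total (KK e κ * o) (3 / 2) with h | h
  · refine le_trans ?_ (le_max_left _ _)
    have h1 : KK e κ * v * o ≤ 3 / 2 * U := by
      calc KK e κ * v * o = (KK e κ * o) * v := by ring
        _ ≤ 3 / 2 * U := mul_le_mul h hvU hv0 (by norm_num)
    have hpsq := F.p_sq
    have h2 : p * (1 + 3 / 2 * U) ≤ 1 := by
      have h3 : (p * (1 + 3 / 2 * U)) ^ 2 ≤ 1 ^ 2 := by
        have h4 : (p * (1 + 3 / 2 * U)) ^ 2 = p ^ 2 * (1 + 3 / 2 * U) ^ 2 := by ring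
        rw [h4]
        have h5 : p ^ 2 ≤ 1 - 3 * U := by
          have : 0 ≤ 4 * s * U := by positivity
          linarith
        have h6 : 0 ≤ (1 + 3 / 2 * U) ^ 2 := by positivity
        calc p ^ 2 * (1 + 3 / 2 * U) ^ 2 ≤ (1 - 3 * U) * (1 + 3 / 2 * U) ^ 2 :=
              mul_le_mul_of_nonneg_right h5 h6
          _ ≤ 1 ^ 2 := by
              have : (1 - 3 * U) * (1 + 3 / 2 * U) ^ 2 = 1 - 27 / 4 * U ^ 2 - 27 / 4 * U ^ 3 := by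
                ring
              rw [this]
              have : 0 ≤ U ^ 2 := by positivity
              have : 0 ≤ U ^ 3 := by positivity
              linarith
      exact le_of_sq_le_sq h3 zero_le_one
    calc Real.exp (-κ) * p * (1 + KK e κ * v * o) ≤ Real.exp (-κ) * p * (1 + 3 / 2 * U) :=
          mul_le_mul_of_nonneg_left (by linarith) (by positivity)
      _ = Real.exp (-κ) * (p * (1 + 3 / 2 * U)) := by ring
      _ ≤ Real.exp (-κ) * 1 := mul_le_mul_of_nonneg_left h2 ha0.le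
      _ = Real.exp (-κ) := mul_one _
  · refine le_trans ?_ (le_max_right _ _)
    have hs8 : 8 / 100 ≤ s := by
      by_contra hc
      push Not at hc
      have h1 : (3 / 2) ^ 2 ≤ (KK e κ * o) ^ 2 := pow_le_pow_left₀ (by norm_num) h 2
      have h2 : (KK e κ * o) ^ 2 ≤ (KK e κ) ^ 2 * (s + v) := by
        rw [mul_pow]
        exact mul_le_mul_of_nonneg_left ho2 (by positivity)
      have h3 : (1 + 6 * s) ^ 2 * (5929 / 10000 + 4 * s) ≤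
          (148 / 100) ^ 2 * (5929 / 10000 + 4 * (8 / 100)) := by
        apply mul_le_mul _ (by linarith) (by positivity) (by norm_num)
        exact pow_le_pow_left₀ (by positivity) (by linarith) 2
      norm_num at h1 h3
      linarith
    rcases le_total s (12 / 100) with h1 | h1
    · refine rec4_piece ha0.le hp0.le hp1 hKv0 ho0 (c := 757 / 1000) (k := 4988 / 10000)
        (q := 566 / 1000) ?_ (by linarith) ?_ (by norm_num)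
      · exact rec4_a (S0 := 2828 / 10000) (by norm_num) (by rw [hSs]; norm_num at hs8 ⊢; linarith)
          hS (by norm_num) (by norm_num)
      · exact rec4_o (by norm_num) ho2 (by norm_num; linarith)
    rcases le_total s (18 / 100) with h2 | h2
    · refine rec4_piece ha0.le hp0.le hp1 hKv0 ho0 (c := 713 / 1000) (k := 6032 / 10000)
        (q := 617 / 1000) ?_ (by linarith) ?_ (by norm_num)
      · exact rec4_a (S0 := 346 / 1000) (by norm_num) (by rw [hSs]; norm_num at h1 ⊢; linarith)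
          hS (by norm_num) (by norm_num)
      · exact rec4_o (by norm_num) ho2 (by norm_num; linarith)
    rcases le_total s (25 / 100) with h3 | h3
    · refine rec4_piece ha0.le hp0.le hp1 hKv0 ho0 (c := 663 / 1000) (k := 725 / 1000)
        (q := 671 / 1000) ?_ (by linarith) ?_ (by norm_num)
      · exact rec4_a (S0 := 424 / 1000) (by norm_num) (by rw [hSs]; norm_num at h2 ⊢; linarith)
          hS (by norm_num) (by norm_num)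
      · exact rec4_o (by norm_num) ho2 (by norm_num; linarith)
    rcases le_total s (40 / 100) with h4 | h4
    · refine rec4_piece ha0.le hp0.le hp1 hKv0 ho0 (c := 6181 / 10000) (k := 725 / 1000)
        (q := 775 / 1000) ?_ (by linarith) ?_ (by norm_num)
      · exact rec4_a (S0 := 1 / 2) (by norm_num) (by rw [hSs]; norm_num at h3 ⊢; linarith)
          hS (by norm_num) (by norm_num)
      · exact rec4_o (by norm_num) ho2 (by norm_num; linarith)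
    · refine rec4_piece ha0.le hp0.le hp1 hKv0 ho0 (c := 551 / 1000) (k := 725 / 1000)
        (q := 1) ?_ (by linarith) ho1 (by norm_num)
      exact rec4_a (S0 := 632 / 1000) (by norm_num) (by rw [hSs]; norm_num at h4 ⊢; linarith)
        hS (by norm_num) (by norm_num)

theorem contr_OT4 (he : 2 ≤ e) (he4 : e ≤ 4) (hκ : 0 < κ) {Y x : ℂ} (hY : Y ∈ OT4 e κ)
    (hx : ‖x‖ ≤ 1) :
    ‖nxt κ Y (rT e κ Y * x) - ((Real.exp (-κ) : ℝ) : ℂ)‖ ≤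
      max (Real.exp (-κ)) (99 / 100) * ‖Y - ((Real.exp (-κ) : ℝ) : ℂ)‖ := by
  have hd := d_bound4 he he4 hκ hY hx
  have F := facts_of_mem hκ hY.2.1.1
  have X := aux4_of he he4 hκ F hY.2.1.2
  have hdl := d_le4 he he4 hκ hY.2.1 F hd
  have hc := contr_real4 he he4 hκ F X
  obtain ⟨-, n2, -⟩ := nx_formulas hY.1
  rw [nxt_eq]
  set Pn := nx κ Y with hPn
  have e0 : Pn + rT e κ Y * x * (1 - Pn) - ((Real.exp (-κ) : ℝ) : ℂ) =
      (Pn - ((Real.exp (-κ) : ℝ) : ℂ)) + rT e κ Y * x * (1 - Pn) := by ring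
  have h1 : ‖Pn + rT e κ Y * x * (1 - Pn) - ((Real.exp (-κ) : ℝ) : ℂ)‖ ≤
      ‖Pn - ((Real.exp (-κ) : ℝ) : ℂ)‖ +
      KK e κ * ‖v2 κ Pn‖ * ‖Pn - ((Real.exp (-κ) : ℝ) : ℂ)‖ * ‖1 - Pn‖ := by
    rw [e0]
    refine (norm_add_le _ _).trans ?_
    rw [norm_mul (rT e κ Y * x)]
    have := mul_le_mul_of_nonneg_right hdl (norm_nonneg (1 - Pn))
    linarith
  refine h1.trans ?_
  have e1 : ‖Pn - ((Real.exp (-κ) : ℝ) : ℂ)‖ =
      Real.exp (-κ) * ‖Pn‖ * ‖Y - ((Real.exp (-κ) : ℝ) : ℂ)‖ := by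
    rw [n2, hPn, norm_nx]
    ring
  have e2 : ‖Pn - ((Real.exp (-κ) : ℝ) : ℂ)‖ +
      KK e κ * ‖v2 κ Pn‖ * ‖Pn - ((Real.exp (-κ) : ℝ) : ℂ)‖ * ‖1 - Pn‖ =
      (Real.exp (-κ) * ‖Pn‖ * (1 + KK e κ * ‖v2 κ Pn‖ * ‖1 - Pn‖)) *
        ‖Y - ((Real.exp (-κ) : ℝ) : ℂ)‖ := by
    rw [e1]
    ring
  rw [e2]
  exact mul_le_mul_of_nonneg_right hc (norm_nonneg _)

theorem rT_le4 (he : 2 ≤ e) (he4 : e ≤ 4) (hκ : 0 < κ) {Y : ℂ} (hY : Y ∈ OT4 e κ) :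
    ‖rT e κ Y‖ ≤ ‖Y - ((Real.exp (-κ) : ℝ) : ℂ)‖ := by
  have hd := d_bound4 he he4 hκ hY (x := 1) (by rw [norm_one])
  rw [mul_one] at hd
  have F := facts_of_mem hκ hY.2.1.1
  have X := aux4_of he he4 hκ F hY.2.1.2
  have hdl := d_le4 he he4 hκ hY.2.1 F hd
  refine hdl.trans ?_
  obtain ⟨-, n2, -⟩ := nx_formulas hY.1
  have e1 : ‖nx κ Y - ((Real.exp (-κ) : ℝ) : ℂ)‖ =
      Real.exp (-κ) * ‖nx κ Y‖ * ‖Y - ((Real.exp (-κ) : ℝ) : ℂ)‖ := by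
    rw [n2, norm_nx]
    ring
  have h1 : KK e κ * ‖v2 κ (nx κ Y)‖ ≤ 1 := by
    have := (Kv_le4 he he4 hκ F X).1
    linarith
  have h2 : Real.exp (-κ) * ‖nx κ Y‖ ≤ 1 := by
    have := X.a_lt
    have := X.p_le
    have := X.a_pos
    calc Real.exp (-κ) * ‖nx κ Y‖ ≤ 1 * 1 := mul_le_mul (by linarith) X.p_le (norm_nonneg _) zero_le_one
      _ = 1 := one_mul 1
  rw [e1]
  calc KK e κ * ‖v2 κ (nx κ Y)‖ * (Real.exp (-κ) * ‖nx κ Y‖ * ‖Y - ((Real.exp (-κ) : ℝ) : ℂ)‖) =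
        (KK e κ * ‖v2 κ (nx κ Y)‖) * (Real.exp (-κ) * ‖nx κ Y‖) *
          ‖Y - ((Real.exp (-κ) : ℝ) : ℂ)‖ := by ring
    _ ≤ 1 * ‖Y - ((Real.exp (-κ) : ℝ) : ℂ)‖ := by
        apply mul_le_mul_of_nonneg_right _ (norm_nonneg _)
        have : 0 ≤ KK e κ * ‖v2 κ (nx κ Y)‖ := mul_nonneg X.K_pos.le (norm_nonneg _)
        nlinarith [mul_nonneg X.a_pos.le (norm_nonneg (nx κ Y))]
    _ = _ := one_mul _

/-- `‖v²‖` does not grow. -/
theorem v2_step4 (he : 2 ≤ e) (he4 : e ≤ 4) (hκ : 0 < κ) (hP : P ∈ LT4 e κ) {d : ℂ}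
    (hd : ‖d‖ * ‖G1 e κ P‖ ≤ KK e κ * ‖gK κ P‖) :
    ‖v2 κ (nx κ (P + d * (1 - P)))‖ ≤ ‖v2 κ P‖ := by
  have F := facts_of_mem hκ hP.1
  have X := aux4_of he he4 hκ F hP.2
  have hdl := d_le4 he he4 hκ hP F hd
  set K := KK e κ with hKd
  set v := ‖v2 κ P‖ with hv
  set A := ‖P - ((Real.exp (-κ) : ℝ) : ℂ)‖ with hA
  set B := ‖P - ((Real.exp κ : ℝ) : ℂ)‖ with hB
  set o := ‖1 - P‖ with ho
  set x := ‖(Real.cosh κ : ℂ) - P‖ with hx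
  have hKpos := X.K_pos
  have hv0 := X.v_nn
  have ho0 := X.o_nn
  have hA0 := X.A_nn
  have hx0 := X.x_nn
  have Q := pos_of4 F X rfl hdl le_rfl (δ := K * v * A * o)
    (η := K * A * o * (2 * x + K * v * A * o)) le_rfl (le_of_eq (by ring))
  obtain ⟨w1, w2⟩ := W_ge4 F X (δ := K * v * A * o) (by positivity) le_rfl le_rfl
  set Y := P + d * (1 - P) with hY
  set W := ‖2 * (Real.cosh κ : ℂ) - Y‖ with hWd
  have hW1 : 1 ≤ W := w2.trans Q.W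
  have hWne : 2 * (Real.cosh κ : ℂ) - Y ≠ 0 := by
    intro h
    rw [hWd, h, norm_zero] at hW1
    norm_num at hW1
  obtain ⟨n1, n2, n3⟩ := nx_formulas hWne
  have hWpos : 0 < W := by linarith
  rw [n1, div_le_iff₀ (by positivity)]
  refine Q.v2.trans ?_
  apply mul_le_mul_of_nonneg_left _ hv0
  refine w1.trans ?_
  exact pow_le_pow_left₀ (by linarith) Q.W 2

theorem isOpen_LT4 (e κ : ℝ) : IsOpen (LT4 e κ) :=
  (isOpen_LT κ).inter (isOpen_lt (continuous_v2 κ).norm continuous_const)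

theorem isOpen_OT4 (e κ : ℝ) : IsOpen (OT4 e κ) := by
  rw [isOpen_iff_mem_nhds]
  intro Y hY
  have h1 : ContinuousAt (nx κ) Y :=
    ((differentiableAt_const (1 : ℂ)).div ((differentiableAt_const _).sub differentiableAt_id)
      hY.1).continuousAt
  have h2 : nx κ ⁻¹' LT4 e κ ∈ nhds Y := h1 ((isOpen_LT4 e κ).mem_nhds hY.2.1)
  have h3 : {Y : ℂ | 2 * (Real.cosh κ : ℂ) - Y ≠ 0} ∈ nhds Y :=
    (isOpen_ne_fun (by fun_prop) continuous_const).mem_nhds hY.1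
  have h4 : {Y : ℂ | Y ≠ ((Real.exp (-κ) : ℝ) : ℂ)} ∈ nhds Y := isOpen_ne.mem_nhds hY.2.2
  filter_upwards [h2, h3, h4] with Z z2 z3 z4
  exact ⟨z3, z2, z4⟩

theorem LT4_conj (hP : P ∈ LT4 e κ) : conj P ∈ LT4 e κ := by
  refine ⟨LT_conj hP.1, ?_⟩
  rw [v2_conj, Complex.norm_conj]
  exact hP.2

theorem OT4_conj {Y : ℂ} (hY : Y ∈ OT4 e κ) : conj Y ∈ OT4 e κ := by
  refine ⟨?_, ?_, ?_⟩
  · intro h
    apply hY.1
    have h1 := congrArg conj h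
    simp only [map_sub, map_mul, Complex.conj_ofReal, map_ofNat, Complex.conj_conj, map_zero] at h1
    exact h1
  · rw [nx_conj]
    exact LT4_conj hY.2.1
  · intro h
    apply hY.2.2
    have h1 := congrArg conj h
    rwa [Complex.conj_conj, Complex.conj_ofReal] at h1

theorem rT_conj4 (he : 2 ≤ e) (he4 : e ≤ 4) (hκ : 0 < κ) {Y : ℂ} (hY : Y ∈ OT4 e κ) :
    rT e κ (conj Y) = conj (rT e κ Y) := by
  have hd := (disc_of_mem4 he he4 hκ hY.2.1).1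
  unfold rT
  rw [nx_conj, gK_conj, G1_conj (disc_slit (Real.exp_pos _) hd)
    (f0_slit_of_mem4 he he4 hκ hY.2.1)]
  simp only [map_div₀, map_mul, Complex.conj_ofReal]

end Pool.Agent.helper4.EQW4
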