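import Pool.Agent.helper4.EQW4.Low4

/-!
# EQW4: one step of the orbit in the tail region, `2 ≤ e ≤ 4`
-/

namespace Pool.Agent.helper4.EQW4

open Complex
open Pool.Agent.helper31.EQ.W (c2 gl gs nxt wn FW)
open Pool.Agent.helper4.EQW

noncomputable section

/-- the bound of `‖v²‖` -/
def VV (e : ℝ) : ℝ := 51 / 200 - 11 / 400 * e

/-- ideal positions -/
def LT4 (e κ : ℝ) : Set ℂ := {P | P ∈ LT κ ∧ ‖v2 κ P‖ < VV e}

/-- positions -/
def OT4 (e κ : ℝ) : Set ℂ :=
  {Y | 2 * (Real.cosh κ : ℂ) - Y ≠ 0 ∧ nx κ Y ∈ LT4 e κ ∧ Y ≠ ((Real.exp (-κ) : ℝ) : ℂ)}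

end

variable {e κ : ℝ} {P : ℂ} {s U v A B x o p : ℝ}

theorem VV_le (he : 2 ≤ e) : VV e ≤ 1 / 5 := by
  unfold VV
  linarith

theorem VV_pos (he4 : e ≤ 4) : 0 < VV e := by
  unfold VV
  linarith

/-- `(e²/8)² V ≤ (77/100)²` -/
theorem VV_KA (he : 2 ≤ e) (he4 : e ≤ 4) : (e ^ 2 / 8) ^ 2 * VV e ≤ (77 / 100) ^ 2 := by
  unfold VV
  have h1 : 0 ≤ (4 - e) := by linarith
  have h2 : 0 ≤ e - 2 := by linarith
  -- e^4 (255 - 27.5 e) ≤ 37120 at e = 4, increasing
  have key : e ^ 4 * (51 / 200 - 11 / 400 * e) ≤ 256 * (29 / 200) := by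
    have e1 : 256 * (29 / 200) - e ^ 4 * (51 / 200 - 11 / 400 * e) =
        (4 - e) * (29 / 200 * (e ^ 3 + 4 * e ^ 2 + 16 * e + 64) - 11 / 400 * e ^ 4) := by ring
    have h3 : e ^ 4 ≤ 4 * e ^ 3 := by
      have : e ^ 4 = e * e ^ 3 := by ring
      rw [this]
      exact mul_le_mul_of_nonneg_right he4 (by positivity)
    have h4 : 0 ≤ 29 / 200 * (e ^ 3 + 4 * e ^ 2 + 16 * e + 64) - 11 / 400 * e ^ 4 := by
      have : 0 ≤ e ^ 3 := by positivity
      have : 0 ≤ e ^ 2 := by positivity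
      linarith
    have h5 := mul_nonneg h1 h4
    linarith
  have e2 : (e ^ 2 / 8) ^ 2 * (51 / 200 - 11 / 400 * e) =
      e ^ 4 * (51 / 200 - 11 / 400 * e) / 64 := by ring
  rw [e2]
  linarith

/-- `v (1 + e² v/8)² ≤ 1/4` -/
theorem VV_ball (he : 2 ≤ e) (he4 : e ≤ 4) {v : ℝ} (hv0 : 0 ≤ v) (hv : v ≤ VV e) :
    v * (1 + e ^ 2 / 8 * v) ^ 2 ≤ 1 / 4 := by
  have h1 : (v + 1681 / 10000) * (1 + e ^ 2 / 8 * v) ≤ 41 / 100 := by
    have h2 : (v + 1681 / 10000) * (1 + e ^ 2 / 8 * v) ≤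
        (VV e + 1681 / 10000) * (1 + e ^ 2 / 8 * VV e) := by
      have : 0 ≤ e ^ 2 / 8 := by positivity
      apply mul_le_mul (by linarith) _ (by positivity) (by linarith)
      nlinarith
    refine h2.trans ?_
    unfold VV
    obtain ⟨y, rfl⟩ : ∃ y, e = 2 + y := ⟨e - 2, by ring⟩
    have hy : 0 ≤ y := by linarith
    have hy2 : y ≤ 2 := by linarith
    nlinarith [mul_nonneg hy (sub_nonneg.2 hy2), mul_nonneg hy (mul_nonneg hy (sub_nonneg.2 hy2)),
      mul_nonneg (mul_nonneg hy hy) (mul_nonneg hy (sub_nonneg.2 hy2)), sq_nonneg (y - 1),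
      sq_nonneg (y * (y - 1))]
  have h2 : 0 ≤ 1 + e ^ 2 / 8 * v := by positivity
  have h3 : v * (4 * (1681 / 10000)) ≤ (v + 1681 / 10000) ^ 2 := by
    nlinarith [sq_nonneg (v - 1681 / 10000)]
  have h4 : 0 ≤ (v + 1681 / 10000) * (1 + e ^ 2 / 8 * v) := by positivity
  have h5 : ((v + 1681 / 10000) * (1 + e ^ 2 / 8 * v)) ^ 2 ≤ (41 / 100) ^ 2 :=
    pow_le_pow_left₀ h4 h1 2
  have h6 : v * (4 * (1681 / 10000)) * (1 + e ^ 2 / 8 * v) ^ 2 ≤
      (v + 1681 / 10000) ^ 2 * (1 + e ^ 2 / 8 * v) ^ 2 :=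
    mul_le_mul_of_nonneg_right h3 (by positivity)
  have h7 : (v + 1681 / 10000) ^ 2 * (1 + e ^ 2 / 8 * v) ^ 2 ≤ (41 / 100) ^ 2 := by
    have : (v + 1681 / 10000) ^ 2 * (1 + e ^ 2 / 8 * v) ^ 2 =
        ((v + 1681 / 10000) * (1 + e ^ 2 / 8 * v)) ^ 2 := by ring
    rw [this]
    exact h5
  nlinarith

/-- Elementary consequences. -/
structure Aux4 (e κ s U v A B x o p K a : ℝ) : Prop where
  a_pos : 0 < a
  a_lt : a < 1
  K_pos : 0 < K
  K_le : K ≤ 5
  v_nn : 0 ≤ v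
  v_lt : v < VV e
  A_nn : 0 ≤ A
  A_sq : A ^ 2 ≤ a ^ 4 * v
  o_nn : 0 ≤ o
  x_nn : 0 ≤ x
  p_pos : 0 < p
  p_le : p ≤ 1
  U_pos : 0 < U
  KA : K * A ≤ 77 / 100
  ball1 : A + K * v * A ≤ a / 2
  ball2 : p + K * v * A < 1
  ball3 : 0 < p - K * v * A

theorem aux4_of (he : 2 ≤ e) (he4 : e ≤ 4) (hκ : 0 < κ) (F : Facts κ P s U v A B x o p)
    (hvV : v < VV e) : Aux4 e κ s U v A B x o p (KK e κ) (Real.exp (-κ)) := by
  have he0 : 0 < e := by linarith
  have hK := KK_pos (κ := κ) he0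
  have hK5 := KK_le5 he he4 hκ
  have hKa2 := KKa2' he he4 hκ
  have hv0 : 0 ≤ v := by rw [F.v_def]; exact norm_nonneg _
  have hKa := KKa' he he4 hκ hv0 F.v_lt.le
  have hA0 : 0 ≤ A := by rw [F.A_def]; exact norm_nonneg _
  have hB0 : 0 ≤ B := by rw [F.B_def]; exact norm_nonneg _
  have ho0 : 0 ≤ o := by rw [F.o_def]; exact norm_nonneg _
  have hx0 : 0 ≤ x := by rw [F.x_def]; exact norm_nonneg _
  have hp0 : 0 ≤ p := by rw [F.p_def]; exact norm_nonneg _
  have hU0 : 0 ≤ U := hv0.trans F.v_le_U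
  have hs := F.s_pos
  have ha : 0 < Real.exp (-κ) := Real.exp_pos _
  have ha1 : Real.exp (-κ) < 1 := by rw [Real.exp_lt_one_iff]; linarith
  have hC1 := Real.one_le_cosh κ
  set K := KK e κ with hKd
  set a := Real.exp (-κ) with had
  have hpp : 0 < p := by
    rcases hp0.lt_or_eq with h | h
    · exact h
    · have := F.p_ge2
      rw [← h] at this
      norm_num at this
  have hA2 : A ^ 2 ≤ a ^ 4 * v := by
    have h1 := F.A_lt.le
    rw [F.v_eq]
    calc A ^ 2 = A * A := by ring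
      _ ≤ A * (a ^ 4 * B) := mul_le_mul_of_nonneg_left h1 hA0
      _ = a ^ 4 * (A * B) := by ring
  have hKA : K * A ≤ 77 / 100 := by
    apply (abs_le_of_sq_le_sq' _ (by norm_num)).2
    calc (K * A) ^ 2 = K ^ 2 * A ^ 2 := by ring
      _ ≤ K ^ 2 * (a ^ 4 * v) := mul_le_mul_of_nonneg_left hA2 (by positivity)
      _ = (K * a ^ 2) ^ 2 * v := by ring
      _ ≤ (e ^ 2 / 8) ^ 2 * VV e := by
          apply mul_le_mul (pow_le_pow_left₀ (by positivity) hKa2 2) hvV.le hv0 (by positivity)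
      _ ≤ (77 / 100) ^ 2 := VV_KA he he4
  have hpsq := F.p_sq
  have hUs : 0 ≤ (3 + 4 * s) * U := by positivity
  have hp1 : p ≤ 1 := by nlinarith
  have hUpos : 0 < U := by
    have h1 := F.U_eq
    have h2 : 0 < q4 s * U := by
      rw [h1]
      have := sq_nonneg x
      linarith
    have h3 := q4_pos (s := s) hs.le
    exact pos_of_mul_pos_right h2 (by linarith)
  have hKv0 : 0 ≤ K * v := by positivity
  refine ⟨ha, ha1, hK, hK5, hv0, hvV, hA0, hA2, ho0, hx0, hpp, hp1, hUpos, hKA, ?_, ?_, ?_⟩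
  · have e1 : A + K * v * A = (1 + K * v) * A := by ring
    rw [e1]
    apply (abs_le_of_sq_le_sq' _ (by positivity)).2
    calc ((1 + K * v) * A) ^ 2 = (1 + K * v) ^ 2 * A ^ 2 := by ring
      _ ≤ (1 + K * v) ^ 2 * (a ^ 4 * v) := mul_le_mul_of_nonneg_left hA2 (by positivity)
      _ = a ^ 2 * (((1 + K * v) * a) ^ 2 * v) := by ring
      _ ≤ a ^ 2 * ((1 + e ^ 2 / 8 * v) ^ 2 * v) := by
          apply mul_le_mul_of_nonneg_left _ (by positivity)
          apply mul_le_mul_of_nonneg_right _ hv0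
          exact pow_le_pow_left₀ (by positivity) hKa 2
      _ ≤ a ^ 2 * (1 / 4) := by
          apply mul_le_mul_of_nonneg_left _ (by positivity)
          rw [mul_comm]
          exact VV_ball he he4 hv0 hvV.le
      _ = (a / 2) ^ 2 := by ring
  · have h1 : K * v * A ≤ 77 / 100 * U := by
      calc K * v * A = (K * A) * v := by ring
        _ ≤ 77 / 100 * U := mul_le_mul hKA F.v_le_U hv0 (by norm_num)
    have h2 : p ≤ 1 - 3 / 2 * U := by
      by_contra hc
      push Not at hc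
      have hU1 : U ≤ 1 / 3 := by nlinarith
      have h3 : (1 - 3 / 2 * U) ^ 2 < p ^ 2 := pow_lt_pow_left₀ hc (by linarith) (by norm_num)
      nlinarith
    nlinarith
  · have h1 : K * v * A ≤ 77 / 100 * v := by
      calc K * v * A = (K * A) * v := by ring
        _ ≤ 77 / 100 * v := mul_le_mul_of_nonneg_right hKA hv0
    have hC0 : 0 < Real.cosh κ := by linarith
    have hv4 := F.v_le
    have hCs : Real.cosh κ ^ 2 = 1 + s := by
      rw [F.s_def, Real.cosh_sq]; ring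
    have h2 := F.p_ge2
    have h5 : v * (2 * Real.cosh κ) ≤ 1 / 2 := by
      have h6 : v * (4 * Real.cosh κ ^ 2) ≤ 1 := by rw [hCs]; linarith
      nlinarith [mul_nonneg hv0 (mul_nonneg hC0.le (sub_nonneg.2 hC1))]
    have h7 : v ≤ p := by
      by_contra hc
      push Not at hc
      nlinarith
    have h8 : v = 0 ∨ 0 < v := by
      rcases hv0.eq_or_lt with h | h
      · exact Or.inl h.symm
      · exact Or.inr h
    rcases h8 with h | h
    · have h9 : K * v * A = 0 := by rw [h]; ring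
      linarith
    · linarith

theorem Aux4.D_nn {K a : ℝ} (X : Aux4 e κ s U v A B x o p K a) : 0 ≤ K * v * A := by
  have := X.K_pos
  have := X.v_nn
  have := X.A_nn
  positivity

theorem max_po (F : Facts κ P s U v A B x o p) {K a : ℝ} (X : Aux4 e κ s U v A B x o p K a) :
    max p o ≤ 1 := max_le X.p_le F.o_le_1

theorem Aux4.ball {K a R : ℝ} (F : Facts κ P s U v A B x o p)
    (X : Aux4 e κ s U v A B x o p K a) (ha : a = Real.exp (-κ)) (hR0 : 0 ≤ R)
    (hR : R ≤ K * v * A) : Ball a R P := by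
  refine ⟨X.a_pos, hR0, ?_, ?_, ?_⟩
  · rw [ha, ← F.A_def, ← ha]
    have := X.ball1
    linarith
  · rw [← F.p_def]
    have := X.ball2
    linarith
  · rw [← F.p_def]
    have := X.ball3
    linarith

theorem disc_of_mem4 (he : 2 ≤ e) (he4 : e ≤ 4) (hκ : 0 < κ) (hP : P ∈ LT4 e κ) :
    ‖P - ((Real.exp (-κ) : ℝ) : ℂ)‖ ≤ Real.exp (-κ) / 2 ∧ ‖P‖ ≤ 1 := by
  have F := facts_of_mem hκ hP.1
  have X := aux4_of he he4 hκ F hP.2
  have hb := X.ball F rfl le_rfl X.D_nn
  have h := hb.disc (z := P) (by rw [sub_self, norm_zero])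
  exact ⟨h, hb.le_one (z := P) (by rw [sub_self, norm_zero])⟩

/-- `‖Γ'(P)‖ ≥ 1` on the region. -/
theorem one_le_G14 (he : 2 ≤ e) (he4 : e ≤ 4) (hκ : 0 < κ) (hP : P ∈ LT4 e κ) :
    1 ≤ ‖G1 e κ P‖ := by
  have hd := disc_of_mem4 he he4 hκ hP
  have F := facts_of_mem hκ hP.1
  exact one_le_G1' he he4 (slitPlane_ne_zero (f0_slit4 (by linarith) he4 (Real.exp_pos _) hd.1 hd.2))
    hd.2 F.p_ge2

/-- A deviation with `‖d‖ ‖Γ'(P)‖ ≤ K ‖g(P)‖` is small. -/
theorem d_le4 (he : 2 ≤ e) (he4 : e ≤ 4) (hκ : 0 < κ) (hP : P ∈ LT4 e κ)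
    (F : Facts κ P s U v A B x o p) {d : ℂ} (hd : ‖d‖ * ‖G1 e κ P‖ ≤ KK e κ * ‖gK κ P‖) :
    ‖d‖ ≤ KK e κ * v * A := by
  have h1 := one_le_G14 he he4 hκ hP
  rw [norm_gK, ← F.v_def, ← F.A_def] at hd
  have h2 : ‖d‖ ≤ ‖d‖ * ‖G1 e κ P‖ := le_mul_of_one_le_right (norm_nonneg _) h1
  calc ‖d‖ ≤ _ := h2
    _ ≤ _ := hd
    _ = _ := by ring

/-- The position `Y = P + d (1 - P)`; `D` is a bound of `‖d‖`. -/
theorem pos_of4 (F : Facts κ P s U v A B x o p) {K a D δ η : ℝ}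
    (X : Aux4 e κ s U v A B x o p K a) (ha : a = Real.exp (-κ)) {d : ℂ} (hd : ‖d‖ ≤ D)
    (hD : D ≤ K * v * A) (hδ : D * o ≤ δ) (hη : δ * (2 * x + δ) ≤ v * η) :
    Pos κ P (P + d * (1 - P)) v A x a δ η := by
  have ho := X.o_nn
  have hD0 : 0 ≤ D := (norm_nonneg d).trans hd
  have hb := X.ball F ha X.D_nn le_rfl
  have hsub' : ‖d * (1 - P)‖ ≤ D * o := by
    rw [norm_mul, ← F.o_def]
    exact mul_le_mul_of_nonneg_right hd ho
  have hδ' : ‖d * (1 - P)‖ ≤ δ := hsub'.trans hδ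
  have hR : ‖(P + d * (1 - P)) - P‖ ≤ K * v * A := by
    rw [add_sub_cancel_left]
    refine hsub'.trans ?_
    calc D * o ≤ D * 1 := mul_le_mul_of_nonneg_left F.o_le_1 hD0
      _ = D := mul_one D
      _ ≤ K * v * A := hD
  have hsub : ‖(P + d * (1 - P)) - P‖ ≤ δ := by rw [add_sub_cancel_left]; exact hδ'
  have hdisc := hb.disc hR
  have hYa : ‖(P + d * (1 - P)) - ((Real.exp (-κ) : ℝ) : ℂ)‖ ≤ A + δ := by
    have e1 : (P + d * (1 - P)) - ((Real.exp (-κ) : ℝ) : ℂ) =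
        (P - ((Real.exp (-κ) : ℝ) : ℂ)) + d * (1 - P) := by ring
    rw [e1]
    have := norm_add_le (P - ((Real.exp (-κ) : ℝ) : ℂ)) (d * (1 - P))
    rw [← F.A_def] at this
    linarith
  have hδ0 : 0 ≤ δ := (norm_nonneg _).trans hδ'
  refine ⟨hsub, ?_, hb.le_one hR, hYa, ?_, ?_, ?_, ?_⟩
  · rw [← ha]
    exact hdisc
  · have e1 : v2 κ (P + d * (1 - P)) = v2 κ P - d * (1 - P) *
        (2 * ((Real.cosh κ : ℂ) - P) - d * (1 - P)) := by
      unfold v2
      ring
    rw [e1]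
    refine (norm_sub_le _ _).trans ?_
    rw [norm_mul, ← F.v_def]
    have h1 : ‖2 * ((Real.cosh κ : ℂ) - P) - d * (1 - P)‖ ≤ 2 * x + δ := by
      refine (norm_sub_le _ _).trans ?_
      rw [norm_mul, ← F.x_def, Complex.norm_ofNat]
      linarith
    have h2 : ‖d * (1 - P)‖ * ‖2 * ((Real.cosh κ : ℂ) - P) - d * (1 - P)‖ ≤
        δ * (2 * x + δ) := mul_le_mul hδ' h1 (norm_nonneg _) hδ0
    linarith
  · have e1 : (Real.cosh κ : ℂ) - (P + d * (1 - P)) = ((Real.cosh κ : ℂ) - P) - d * (1 - P) := by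
      ring
    rw [e1]
    refine (norm_sub_le _ _).trans ?_
    rw [← F.x_def]
    linarith
  · have e1 : 2 * (Real.cosh κ : ℂ) - P = (2 * (Real.cosh κ : ℂ) - (P + d * (1 - P))) +
        d * (1 - P) := by ring
    have := norm_add_le (2 * (Real.cosh κ : ℂ) - (P + d * (1 - P))) (d * (1 - P))
    rw [← e1] at this
    linarith
  · have e1 : ((1 + a : ℝ) : ℂ) = (1 + (P + d * (1 - P))) -
        ((P + d * (1 - P)) - ((Real.exp (-κ) : ℝ) : ℂ)) := by rw [ha]; push_cast; ring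
    have := norm_sub_le (1 + (P + d * (1 - P)))
      ((P + d * (1 - P)) - ((Real.exp (-κ) : ℝ) : ℂ))
    rw [← e1, Complex.norm_real, Real.norm_of_nonneg (by have := X.a_pos; linarith)] at this
    linarith

/-- `1 + η ≤ (‖2C - P‖ - δ)²` for `δ ≤ K v A o`, `η ≤ K A o (2x + K v A o)`. -/
theorem W_ge4 (F : Facts κ P s U v A B x o p) {K a δ η : ℝ} (X : Aux4 e κ s U v A B x o p K a)
    (hδ0 : 0 ≤ δ) (hδ : δ ≤ K * v * A * o) (hη : η ≤ K * A * o * (2 * x + K * v * A * o)) :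
    1 + η ≤ (‖2 * (Real.cosh κ : ℂ) - P‖ - δ) ^ 2 ∧ 1 ≤ ‖2 * (Real.cosh κ : ℂ) - P‖ - δ := by
  have hC1 := Real.one_le_cosh κ
  have hCs : Real.cosh κ ^ 2 = 1 + s := by rw [F.s_def, Real.cosh_sq]; ring
  set W0 := ‖2 * (Real.cosh κ : ℂ) - P‖ with hW0
  have hW00 : 0 ≤ W0 := norm_nonneg _
  have hs := F.s_pos
  have hx0 := X.x_nn
  have ho0 := X.o_nn
  have hv0 := X.v_nn
  have hA0 := X.A_nn
  have hK0 := X.K_pos
  have hU0 := X.U_pos.le
  have hxC : x ≤ Real.cosh κ := by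
    have h1 := F.x_le
    have h2 := F.v_lt
    exact le_of_sq_le_sq (by rw [hCs]; linarith) (by linarith)
  have hW1 : W0 ≤ 2 * Real.cosh κ := by
    have e1 : 2 * (Real.cosh κ : ℂ) - P = (Real.cosh κ : ℂ) + ((Real.cosh κ : ℂ) - P) := by ring
    have e2 := norm_add_le (Real.cosh κ : ℂ) ((Real.cosh κ : ℂ) - P)
    rw [← e1, Complex.norm_real, Real.norm_of_nonneg (by linarith), ← F.x_def] at e2
    linarith
  have hKAo : K * A * o ≤ 77 / 100 * x := by
    calc K * A * o ≤ 77 / 100 * o := mul_le_mul_of_nonneg_right X.KA ho0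
      _ ≤ 77 / 100 * x := by have := F.o_le_x; linarith
  have hδx : K * v * A * o ≤ 154 / 1000 * x := by
    calc K * v * A * o = v * (K * A * o) := by ring
      _ ≤ 1 / 5 * (77 / 100 * x) := mul_le_mul F.v_lt.le hKAo (by positivity) (by norm_num)
      _ = 154 / 1000 * x := by ring
  have hη' : η ≤ 1659 / 1000 * x ^ 2 := by
    refine hη.trans ?_
    have h2 : 2 * x + K * v * A * o ≤ 2154 / 1000 * x := by linarith
    have h3 : 0 ≤ 2 * x + K * v * A * o := by positivity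
    calc K * A * o * (2 * x + K * v * A * o) ≤ 77 / 100 * x * (2154 / 1000 * x) :=
          mul_le_mul hKAo h2 h3 (by positivity)
      _ ≤ 1659 / 1000 * x ^ 2 := by nlinarith [sq_nonneg x]
  have hxU : x ^ 2 ≤ (1 + 8 * s + 8 * s ^ 2) * U := by
    have := F.U_eq
    unfold q4 at this
    linarith
  have hδU : δ ≤ 77 / 100 * U := by
    refine hδ.trans ?_
    have h1 : K * v * A * o ≤ K * v * A := mul_le_of_le_one_right (by positivity) F.o_le_1
    have h2 : K * v * A ≤ 77 / 100 * U := by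
      calc K * v * A = (K * A) * v := by ring
        _ ≤ 77 / 100 * U := mul_le_mul X.KA F.v_le_U hv0 (by norm_num)
    linarith
  have h1 : 2 * δ * W0 ≤ 308 / 100 * (1 + s / 2) * U := by
    have h2 : 2 * δ * W0 ≤ 2 * (77 / 100 * U) * (2 * Real.cosh κ) := by
      apply mul_le_mul (by linarith) hW1 hW00 (by positivity)
    have h3 : Real.cosh κ ≤ 1 + s / 2 := by
      apply le_of_sq_le_sq _ (by linarith)
      rw [hCs]
      nlinarith [sq_nonneg s]
    nlinarith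
  have hW := F.W_sq
  rw [← hW0] at hW
  have key : 1 + η ≤ W0 ^ 2 - 2 * δ * W0 := by
    have hsU : 0 ≤ s * U := by positivity
    have hssU : 0 ≤ s ^ 2 * U := by positivity
    nlinarith
  have h4 : 1 + η ≤ (W0 - δ) ^ 2 := by nlinarith [sq_nonneg δ]
  refine ⟨h4, ?_⟩
  have h5 : 1 + 2 * δ ≤ W0 ^ 2 := by
    have h6 : 0 ≤ (20 * s + 16 * s ^ 2) * U := by positivity
    nlinarith
  have h6 : (1 + δ) ^ 2 ≤ W0 ^ 2 := by
    have h7 : δ ≤ 154 / 1000 := by
      refine hδ.trans ?_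
      calc K * v * A * o = (K * A) * (v * o) := by ring
        _ ≤ 77 / 100 * (1 / 5 * 1) := by
            apply mul_le_mul X.KA (mul_le_mul F.v_lt.le F.o_le_1 ho0 (by norm_num)) (by positivity)
              (by norm_num)
        _ = 154 / 1000 := by norm_num
    have h8 : δ ^ 2 ≤ 154 / 1000 * δ := by nlinarith
    have h9 : 0 ≤ (20 * s + 16 * s ^ 2) * U := by positivity
    nlinarith
  have h7 : 1 + δ ≤ W0 := le_of_sq_le_sq h6 hW00
  linarith

/-- The ideal next position is in the region again. -/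
theorem step_mem4 (he : 2 ≤ e) (he4 : e ≤ 4) (hκ : 0 < κ) (hP : P ∈ LT4 e κ)
    (hPa : P ≠ ((Real.exp (-κ) : ℝ) : ℂ)) {d : ℂ}
    (hd : ‖d‖ * ‖G1 e κ P‖ ≤ KK e κ * ‖gK κ P‖) : P + d * (1 - P) ∈ OT4 e κ := by
  have F := facts_of_mem hκ hP.1
  have X := aux4_of he he4 hκ F hP.2
  have hdl := d_le4 he he4 hκ hP F hd
  set K := KK e κ with hKd
  set v := ‖v2 κ P‖ with hv
  set A := ‖P - ((Real.exp (-κ) : ℝ) : ℂ)‖ with hA
  set B := ‖P - ((Real.exp κ : ℝ) : ℂ)‖ with hB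
  set o := ‖1 - P‖ with ho
  set x := ‖(Real.cosh κ : ℂ) - P‖ with hx
  have hKpos := X.K_pos
  have hv0 := X.v_nn
  have ho0 := X.o_nn
  have hA0 := X.A_nn
  have hx0 := X.x_nn
  have hD0 := X.D_nn
  have ho1 := F.o_le_1
  have Q := pos_of4 F X rfl hdl le_rfl (δ := K * v * A * o)
    (η := K * A * o * (2 * x + K * v * A * o)) le_rfl (le_of_eq (by ring))
  obtain ⟨w1, w2⟩ := W_ge4 F X (δ := K * v * A * o) (by positivity) le_rfl le_rfl
  set Y := P + d * (1 - P) with hY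
  set W := ‖2 * (Real.cosh κ : ℂ) - Y‖ with hWd
  have hW1 : 1 ≤ W := w2.trans Q.W
  have hWne : 2 * (Real.cosh κ : ℂ) - Y ≠ 0 := by
    intro h
    rw [hWd, h, norm_zero] at hW1
    norm_num at hW1
  have hApos : 0 < A := by
    rw [hA]
    exact norm_pos_iff.2 (sub_ne_zero.2 hPa)
  have hKv : K * v < 1 := by
    have h1 := X.K_le
    have h2 := F.v_lt
    nlinarith
  have hδA : K * v * A * o < A := by
    have h1 : K * v * o < 1 := by
      have h6 : K * v * o ≤ K * v := mul_le_of_le_one_right (by positivity) ho1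
      linarith
    calc K * v * A * o = (K * v * o) * A := by ring
      _ < 1 * A := mul_lt_mul_of_pos_right h1 hApos
      _ = A := one_mul _
  obtain ⟨n1, n2, n3⟩ := nx_formulas hWne
  have hexp4 : Real.exp (-(4 * κ)) = Real.exp (-κ) ^ 4 := by
    rw [← Real.exp_nat_mul]
    congr 1
    push_cast
    ring
  have ha0 := X.a_pos
  have hab : Real.exp (-κ) * Real.exp κ = 1 := by rw [← Real.exp_add]; simp
  have hS : 0 < Real.sinh κ := Real.sinh_pos_iff.2 hκ
  have hC1 := Real.one_le_cosh κ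
  have hWpos : 0 < W := by linarith
  refine ⟨hWne, ⟨⟨?_, ?_⟩, ?_⟩, ?_⟩
  · rw [n2, n3, hexp4, ← mul_div_assoc]
    apply div_lt_div_of_pos_right _ hWpos
    have hbS : 1 + Real.sinh κ ≤ Real.exp κ := by rw [exp_eq]; linarith
    set a := Real.exp (-κ) with had
    set b := Real.exp κ with hbd
    have hb0 : 0 < b := Real.exp_pos _
    have hb1 : 1 ≤ b := by linarith
    have hba : 0 < b - a := by
      have := X.a_lt
      linarith
    set YA := ‖Y - (a : ℂ)‖ with hYA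
    set YB := ‖Y - (b : ℂ)‖ with hYB
    have k1 : YA * B ≤ YB * A + (b - a) * (K * v * A * o) := by
      have e1 : (Y - (a : ℂ)) * (P - (b : ℂ)) =
          (Y - (b : ℂ)) * (P - (a : ℂ)) - ((b - a : ℝ) : ℂ) * (Y - P) := by
        push_cast
        ring
      have e2 : YA * B = ‖(Y - (a : ℂ)) * (P - (b : ℂ))‖ := by rw [norm_mul]
      rw [e2, e1]
      refine (norm_sub_le _ _).trans ?_
      rw [norm_mul, norm_mul, Complex.norm_real, Real.norm_of_nonneg hba.le]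
      have := mul_le_mul_of_nonneg_left Q.sub hba.le
      linarith
    have k2 : A < a ^ 4 * B := F.A_lt
    have k3 : B - K * v * A * o ≤ YB := by
      have e1 : P - (b : ℂ) = (Y - (b : ℂ)) - (Y - P) := by ring
      have := norm_sub_le (Y - (b : ℂ)) (Y - P)
      rw [← e1] at this
      have h2 := Q.sub
      linarith
    have hB0 : 0 < B := by
      have : 0 < a ^ 4 * B := hApos.trans k2
      exact pos_of_mul_pos_right this (by positivity)
    have hva : v = A * B := F.v_eq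
    -- K A o (1 + b A) ≤ b
    have k0 : K * A * o * (1 + b * A) ≤ b := by
      have hbA : b * A ≤ 9 / 20 := by
        have h1 := F.A_le2
        have h2 := X.a_lt
        calc b * A ≤ b * (9 / 20 * a ^ 2) := mul_le_mul_of_nonneg_left h1 hb0.le
          _ = 9 / 20 * a * (a * b) := by ring
          _ = 9 / 20 * a := by rw [hab, mul_one]
          _ ≤ 9 / 20 := by linarith
      have h3 : K * A * o * (1 + b * A) ≤ 77 / 100 * o * (29 / 20) := by
        apply mul_le_mul (mul_le_mul_of_nonneg_right X.KA ho0) (by linarith) (by positivity)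
          (by positivity)
      refine h3.trans ?_
      rcases le_total (3 / 20) (Real.sinh κ) with h4 | h4
      · linarith
      · have h5 : o ^ 2 ≤ 1 / 4 := by
          have h6 := F.x_le
          have h7 := F.o_le_x
          have h8 : o ^ 2 ≤ x ^ 2 := pow_le_pow_left₀ ho0 h7 2
          have h9 : Real.sinh κ ^ 2 ≤ (3 / 20) ^ 2 := pow_le_pow_left₀ hS.le h4 2
          have h10 := F.v_lt
          linarith
        have h6 : o ≤ 1 / 2 := by
          apply (abs_le_of_sq_le_sq' _ (by norm_num)).2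
          linarith
        linarith
    -- δ ≤ b YB A
    have k3' : K * v * A * o ≤ b * (YB * A) := by
      have h1 : K * A * o * B ≤ b * YB := by
        have h2 : b * (B - K * v * A * o) ≤ b * YB := mul_le_mul_of_nonneg_left k3 hb0.le
        have h3 : K * A * o * B * (1 + b * A) ≤ b * B := by
          have := mul_le_mul_of_nonneg_right k0 hB0.le
          linarith
        have h4 : b * (K * v * A * o) = K * A * o * B * (b * A) := by rw [hva]; ring
        linarith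
      calc K * v * A * o = (K * A * o * B) * A := by rw [hva]; ring
        _ ≤ (b * YB) * A := mul_le_mul_of_nonneg_right h1 hApos.le
        _ = b * (YB * A) := by ring
    have k4 : (b - a) * (K * v * A * o) ≤ (b ^ 2 - 1) * (YB * A) := by
      have h1 : b ^ 2 - 1 = b * (b - a) := by
        have : b * a = 1 := by rw [mul_comm]; exact hab
        rw [mul_sub, this]
        ring
      rw [h1]
      calc (b - a) * (K * v * A * o) ≤ (b - a) * (b * (YB * A)) :=
            mul_le_mul_of_nonneg_left k3' hba.le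
        _ = b * (b - a) * (YB * A) := by ring
    have k5 : YA * B ≤ b ^ 2 * (YB * A) := by linarith
    have hYB : 0 < YB := by
      have h6 : K * v * A * o < B := by
        have h7 : A < B := by
          have h8 : a ^ 4 < 1 := pow_lt_one₀ ha0.le X.a_lt (by norm_num)
          nlinarith
        linarith
      linarith
    have k6 : YA * B < b ^ 2 * (YB * (a ^ 4 * B)) := by
      refine k5.trans_lt ?_
      have : 0 < b ^ 2 * YB := by positivity
      nlinarith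
    have k7 : YA < b ^ 2 * YB * a ^ 4 := by
      have : YA * B < (b ^ 2 * YB * a ^ 4) * B := by
        calc YA * B < _ := k6
          _ = _ := by ring
      exact lt_of_mul_lt_mul_right this hB0.le
    have k8 : b ^ 2 * YB * a ^ 4 = a ^ 2 * YB := by
      have : b ^ 2 * YB * a ^ 4 = (a * b) ^ 2 * a ^ 2 * YB := by ring
      rw [this, hab]
      ring
    rw [k8] at k7
    have k9 : a ^ 4 * (b * YB) = a ^ 3 * YB := by
      have : a ^ 4 * (b * YB) = a ^ 3 * (a * b) * YB := by ring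
      rw [this, hab]
      ring
    rw [k9]
    calc a * YA < a * (a ^ 2 * YB) := mul_lt_mul_of_pos_left k7 ha0
      _ = a ^ 3 * YB := by ring
  · have h1 : ‖v2 κ (nx κ Y)‖ ≤ v := by
      rw [n1, div_le_iff₀ (by positivity)]
      refine Q.v2.trans ?_
      apply mul_le_mul_of_nonneg_left _ hv0
      refine w1.trans ?_
      exact pow_le_pow_left₀ (by linarith) Q.W 2
    exact h1.trans_lt F.v_lt
  · have h1 : ‖v2 κ (nx κ Y)‖ ≤ v := by
      rw [n1, div_le_iff₀ (by positivity)]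
      refine Q.v2.trans ?_
      apply mul_le_mul_of_nonneg_left _ hv0
      refine w1.trans ?_
      exact pow_le_pow_left₀ (by linarith) Q.W 2
    exact h1.trans_lt X.v_lt
  · intro h
    have e1 : P - ((Real.exp (-κ) : ℝ) : ℂ) = -(Y - P) := by rw [← h]; ring
    have h2 : A ≤ K * v * A * o := by
      calc A = ‖Y - P‖ := by rw [hA, e1, norm_neg]
        _ ≤ K * v * A * o := Q.sub
    linarith

/-- Everything about the link after `P`. -/
theorem wn_facts4 (he : 2 ≤ e) (he4 : e ≤ 4) (hκ : 0 < κ) {Y d' : ℂ} (hY : Y ∈ OT4 e κ)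
    (hd' : ‖d'‖ * ‖G1 e κ (nx κ Y)‖ ≤ KK e κ * ‖gK κ (nx κ Y)‖) :
    Ball (Real.exp (-κ)) (‖nx κ Y‖ * ‖d'‖) (nx κ Y) ∧ nx κ Y * (1 - d') ∈ slitPlane ∧
    ‖nx κ Y * (1 - d')‖ < 1 ∧ ‖d'‖ ≤ 16 / 100 ∧ wn κ Y d' = (nx κ Y * (1 - d'))⁻¹ := by
  obtain ⟨hW, hP', -⟩ := hY
  have F' := facts_of_mem hκ hP'.1
  have X' := aux4_of he he4 hκ F' hP'.2
  have hd1 := d_le4 he he4 hκ hP' F' hd'
  set P' := nx κ Y with hPd
  have hd2 : ‖d'‖ ≤ 16 / 100 := by
    refine hd1.trans ?_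
    have h1 := X'.KA
    have h2 := F'.v_lt
    have h3 := X'.v_nn
    calc KK e κ * ‖v2 κ P'‖ * ‖P' - ((Real.exp (-κ) : ℝ) : ℂ)‖ =
          (KK e κ * ‖P' - ((Real.exp (-κ) : ℝ) : ℂ)‖) * ‖v2 κ P'‖ := by ring
      _ ≤ 77 / 100 * (1 / 5) := mul_le_mul h1 h2.le h3 (by norm_num)
      _ ≤ 16 / 100 := by norm_num
  have hR : ‖P'‖ * ‖d'‖ ≤ KK e κ * ‖v2 κ P'‖ * ‖P' - ((Real.exp (-κ) : ℝ) : ℂ)‖ := by
    calc ‖P'‖ * ‖d'‖ ≤ 1 * ‖d'‖ := mul_le_mul_of_nonneg_right X'.p_le (norm_nonneg _)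
      _ = ‖d'‖ := one_mul _
      _ ≤ _ := hd1
  have hball : Ball (Real.exp (-κ)) (‖P'‖ * ‖d'‖) P' := X'.ball F' rfl (by positivity) hR
  have hmem : ‖P' * (1 - d') - P'‖ ≤ ‖P'‖ * ‖d'‖ := by
    have : P' * (1 - d') - P' = -(P' * d') := by ring
    rw [this, norm_neg, norm_mul]
  refine ⟨hball, disc_slit hball.ha (hball.disc hmem), ?_, hd2, ?_⟩
  · have e1 : P' * (1 - d') = P' + (P' * (1 - d') - P') := by ring
    have h1 := norm_add_le P' (P' * (1 - d') - P')
    rw [← e1] at h1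
    have h2 := X'.ball2
    linarith
  · unfold wn
    rw [hPd]
    unfold nx
    have h1 : (1 : ℂ) - d' ≠ 0 := by
      intro h
      have h2 : d' = 1 := by linear_combination -h
      rw [h2, norm_one] at hd2
      norm_num at hd2
    field_simp

end Pool.Agent.helper4.EQW4
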