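import Pool.Agent.helper4.EQW4.Close4
import Pool.Agent.helper4.EQW4.N4

/-!
# EQW4: the second error term
-/

namespace Pool.Agent.helper4.EQW4

open Complex
open Pool.Agent.helper31.EQ.W (c2 gl gs nxt wn FW)
open Pool.Agent.helper4.EQW

variable {e κ : ℝ} {P : ℂ} {s U v A B x o p : ℝ}

/-- exact formulas at a point -/
structure Facts2 (κ : ℝ) (P : ℂ) (s v x p : ℝ) : Prop where
  reP : 2 * Real.cosh κ * P.re = 1 + s - x ^ 2 + p ^ 2
  W_sq : ‖2 * (Real.cosh κ : ℂ) - P‖ ^ 2 = 2 + 2 * s + 2 * x ^ 2 - p ^ 2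
  v_sq : (1 + s) * v ^ 2 = (1 + s) * (x ^ 2 + s) ^ 2 - s * (1 + s + x ^ 2 - p ^ 2) ^ 2
  x_ge : s - v ≤ x ^ 2

theorem facts2_of (F : Facts κ P s U v A B x o p) : Facts2 κ P s v x p := by
  have hC1 := Real.one_le_cosh κ
  have hCs : Real.cosh κ ^ 2 = 1 + s := by rw [F.s_def, Real.cosh_sq]; ring
  have hCne : Real.cosh κ ≠ 0 := by linarith
  have hxx : x ^ 2 = (Real.cosh κ - P.re) ^ 2 + P.im ^ 2 := by
    rw [F.x_def, ← Complex.normSq_eq_norm_sq, Complex.normSq_apply]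
    simp
    ring
  have hpp : p ^ 2 = P.re ^ 2 + P.im ^ 2 := by
    rw [F.p_def, ← Complex.normSq_eq_norm_sq, Complex.normSq_apply]
    ring
  have hre : 2 * Real.cosh κ * P.re = 1 + s - x ^ 2 + p ^ 2 := by
    rw [hxx, hpp, ← hCs]
    ring
  refine ⟨hre, ?_, ?_, ?_⟩
  · rw [← Complex.normSq_eq_norm_sq, Complex.normSq_apply]
    simp
    rw [hxx, hpp]
    linear_combination (2 : ℝ) * hCs
  · -- v² = |v2|² with v2 = ζ² - s
    have hv : v ^ 2 = (1 - 2 * Real.cosh κ * P.re + (P.re ^ 2 - P.im ^ 2)) ^ 2 +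
        (2 * P.im * (P.re - Real.cosh κ)) ^ 2 := by
      rw [F.v_def, ← Complex.normSq_eq_norm_sq, Complex.normSq_apply]
      unfold v2
      have e1 : (1 - 2 * (Real.cosh κ : ℂ) * P + P ^ 2).re =
          1 - 2 * Real.cosh κ * P.re + (P.re ^ 2 - P.im ^ 2) := by
        rw [sq]
        simp [Complex.mul_re]
        ring
      have e2 : (1 - 2 * (Real.cosh κ : ℂ) * P + P ^ 2).im =
          2 * P.im * (P.re - Real.cosh κ) := by
        rw [sq]
        simp [Complex.mul_im, Complex.mul_re]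
        ring
      rw [e1, e2]
      ring
    have h1 : s = Real.cosh κ ^ 2 - 1 := by linarith
    rw [hv, hxx, hpp, h1]
    ring
  · have e1 : ((Real.cosh κ : ℂ) - P) ^ 2 = (s : ℂ) + v2 κ P := by
      unfold v2
      have : (Real.cosh κ : ℂ) ^ 2 = 1 + (s : ℂ) := by exact_mod_cast hCs
      linear_combination this
    have e2 : x ^ 2 = ‖((Real.cosh κ : ℂ) - P) ^ 2‖ := by rw [norm_pow, F.x_def]
    have e3 : (s : ℂ) = ((Real.cosh κ : ℂ) - P) ^ 2 - v2 κ P := by rw [e1]; ring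
    have h2 : s = ‖(s : ℂ)‖ := by
      rw [Complex.norm_real, Real.norm_of_nonneg F.s_pos.le]
    have h3 : ‖(s : ℂ)‖ ≤ x ^ 2 + v := by
      rw [e3, e2, F.v_def]
      exact norm_sub_le _ _
    linarith

theorem mm_re (w : ℂ) (_hw : w ≠ 0) : (mm w).re = w.re * (1 + 1 / ‖w‖ ^ 2) / 2 := by
  unfold mm
  have h1 : ((w + 1 / w) / 2).re = (w.re + (1 / w).re) / 2 := by
    have : (w + 1 / w) / 2 = (w + 1 / w) / ((2 : ℝ) : ℂ) := by push_cast; rfl
    rw [this, Complex.div_ofReal_re, Complex.add_re]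
  rw [h1, one_div, Complex.inv_re, Complex.normSq_eq_norm_sq]
  ring

theorem mm_sub {w u : ℂ} (hw : w ≠ 0) (hu : u ≠ 0) :
    ‖mm w - mm u‖ = ‖w - u‖ / 2 * (‖1 - w * u‖ / (‖w‖ * ‖u‖)) := by
  have e1 : mm w - mm u = -((w - u) / 2 * ((1 - w * u) / (w * u))) := by
    unfold mm
    field_simp
    ring
  rw [e1, norm_neg, norm_mul, norm_div, norm_div, norm_mul, Complex.norm_ofNat]

theorem mm_sub_C {w : ℂ} (hw : w ≠ 0) :
    ‖mm w - (Real.cosh κ : ℂ)‖ = ‖v2 κ w‖ / (2 * ‖w‖) := by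
  have e1 : mm w - (Real.cosh κ : ℂ) = v2 κ w / (2 * w) := by
    unfold mm v2
    field_simp
    ring
  rw [e1, norm_div, norm_mul, Complex.norm_ofNat]

/-- Numbers that control the second error term. -/
structure Num2 (e κ s v x o p K S de eta W pY m0 dm dW rY rW Rr tb Pm lb pb Pk M T2 : ℝ) : Prop where
  hpY0 : 0 < pY
  hpY : pY + de ≤ p
  hW0 : 1 ≤ W
  hm0 : 0 < m0
  hm0C : m0 ≤ Real.cosh κ
  hm0Y : m0 ≤ rY
  hm0W : m0 ≤ rW
  hdm : de * (o * (1 + p) + de) ≤ dm * (2 * p * pY)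
  hrY : (rY + dm) * (4 * Real.cosh κ * p ^ 2) ≤ (1 + s - x ^ 2 + p ^ 2) * (1 + p ^ 2) ∨
    rY + Rr ≤ Real.cosh κ
  hdW : de * (W ^ 2 + 1) ≤ 2 * dW * W ^ 2
  hrW : (rW + dW) * (4 * Real.cosh κ * (2 + 2 * s + 2 * x ^ 2 - p ^ 2)) ≤
    (3 + 3 * s + x ^ 2 - p ^ 2) * (3 + 2 * s + 2 * x ^ 2 - p ^ 2)
  hRr : v * (1 + eta) ≤ 2 * pY * Rr
  htb : 1 - 1 / Real.cosh κ ^ 2 + Rr / Real.cosh κ ^ 2 * (1 / m0 + Real.cosh κ / m0 ^ 2) ≤ tb
  htb1 : tb < 1
  hPm : 0 < Pm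
  hP : Pm ≤ 1 + cc (e / 2) 1 * (1 - 1 / m0 ^ 2) - (e / 2 - 1 - cc (e / 2) 1) * tb ^ 2
  hlb : cc (e / 2) 1 + 2 * cc (e / 2) 2 * (tb / (1 - tb)) ≤ lb * (e / 2 * Pm)
  hpb : 2 * cc (e / 2) 2 + 3 * cc (e / 2) 2 * (tb / (1 - tb)) ≤ pb * (e / 2 * Pm)
  hPk : 1 + cc (e / 2) 1 * (1 - 1 / Real.cosh κ ^ 2) +
    (e / 2 - 1 - cc (e / 2) 1) * (1 - 1 / Real.cosh κ ^ 2) ^ 2 ≤ Pk
  hM0 : 0 ≤ M
  hM : (1 + (Pk / Pm - 1) / (e / 2)) *
    (1 + 5 / m0 ^ 2 * lb + 2 / m0 ^ 4 * ((1 + e / 2) * lb ^ 2 + pb)) ≤ M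
  hT2 : M * (x + de) * (x + S) * (1 + eta) ^ 2 ≤ T2 * (2 * W * pY * rW * rY * K)

theorem T2_bound4 (he : 2 ≤ e) (he4 : e ≤ 4) (hκ : 0 < κ)
    (F : Facts κ P s U v A B x o p)
    {K a S de eta W pY m0 dm dW rY rW Rr tb Pm lb pb Pk M T2 : ℝ}
    (X : Aux4 e κ s U v A B x o p K a) (ha : a = Real.exp (-κ)) (hS : S = Real.sinh κ)
    (N : Num2 e κ s v x o p K S de eta W pY m0 dm dW rY rW Rr tb Pm lb pb Pk M T2)
    (hWde : W + de ≤ ‖2 * (Real.cosh κ : ℂ) - P‖)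
    {Y : ℂ} {δ η : ℝ} (hδ0 : 0 ≤ δ) (hδ : δ ≤ de) (hη0 : 0 ≤ η) (hη : η ≤ eta)
    (hY : Y ∈ OT4 e κ) (Q : Pos κ P Y v A x a δ η) :
    ‖(c2 e κ : ℂ) * h0 e (nx κ Y) - (c2 e κ : ℂ) * gs e Y - 2 * ((Real.cosh κ : ℂ) - Y)‖ ≤
        K * v * A * T2 := by
  obtain ⟨hWne, hP', -⟩ := hY
  have hC1 := Real.one_le_cosh κ
  have F2 := facts2_of F
  have hv0 := X.v_nn
  have hA0 := X.A_nn
  have hx0 := X.x_nn
  have ho0 := X.o_nn
  have hp0 := X.p_pos
  have hp1 := X.p_le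
  have hK0 := X.K_pos
  have hde0 : 0 ≤ de := hδ0.trans hδ
  have heta0 : 0 ≤ eta := hη0.trans hη
  have hdisc' := disc_of_mem4 he he4 hκ hP'
  have hWW : W ≤ ‖2 * (Real.cosh κ : ℂ) - Y‖ := by
    have := Q.W
    linarith
  have hW1 := N.hW0
  have hYn : pY ≤ ‖Y‖ := by
    have e1 : P = Y - (Y - P) := by ring
    have h1 := norm_sub_le Y (Y - P)
    rw [← e1, ← F.p_def] at h1
    have h2 := Q.sub
    have h3 := N.hpY
    linarith
  have hpY0 := N.hpY0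
  have hY0 : Y ≠ 0 := norm_pos_iff.1 (hpY0.trans_le hYn)
  have hP0 : P ≠ 0 := by
    rw [← norm_pos_iff, ← F.p_def]
    exact hp0
  have hWP0 : 2 * (Real.cosh κ : ℂ) - P ≠ 0 := by
    rw [← norm_pos_iff]
    linarith
  have hv2 : ‖v2 κ Y‖ ≤ v * (1 + eta) := by
    refine Q.v2.trans ?_
    apply mul_le_mul_of_nonneg_left _ hv0
    linarith
  have hvW : v2 κ (2 * (Real.cosh κ : ℂ) - Y) = v2 κ Y := by
    unfold v2
    ring
  -- radii
  have hRr0 : 0 ≤ Rr := by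
    have h1 : 0 ≤ 2 * pY * Rr := le_trans (by positivity) N.hRr
    exact nonneg_of_mul_nonneg_right h1 (by positivity)
  have hRY : ‖mm Y - (Real.cosh κ : ℂ)‖ ≤ Rr := by
    rw [mm_sub_C hY0, div_le_iff₀ (by positivity)]
    have h1 := N.hRr
    have h2 : 2 * pY * Rr ≤ Rr * (2 * ‖Y‖) := by nlinarith
    linarith
  have hWn0 : 0 < ‖2 * (Real.cosh κ : ℂ) - Y‖ := by linarith
  have hRW : ‖mm (2 * (Real.cosh κ : ℂ) - Y) - (Real.cosh κ : ℂ)‖ ≤ Rr := by
    rw [mm_sub_C hWne, hvW, div_le_iff₀ (by positivity)]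
    have h1 := N.hRr
    have h2 := N.hpY
    have h3 : pY ≤ ‖2 * (Real.cosh κ : ℂ) - Y‖ := by linarith
    have h4 : 2 * pY * Rr ≤ Rr * (2 * ‖2 * (Real.cosh κ : ℂ) - Y‖) := by nlinarith
    linarith
  -- real parts
  have hrY : rY ≤ (mm Y).re := by
    rcases N.hrY with h | h
    · have h1 : rY + dm ≤ (mm P).re := by
        rw [mm_re P hP0, ← F.p_def]
        have h2 := F2.reP
        have h3 : P.re = (1 + s - x ^ 2 + p ^ 2) / (2 * Real.cosh κ) := by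
          rw [eq_div_iff (by positivity)]
          linarith
        rw [h3]
        have h4 : (1 + s - x ^ 2 + p ^ 2) / (2 * Real.cosh κ) * (1 + 1 / p ^ 2) / 2 =
            (1 + s - x ^ 2 + p ^ 2) * (1 + p ^ 2) / (4 * Real.cosh κ * p ^ 2) := by
          field_simp
          ring
        rw [h4, le_div_iff₀ (by positivity)]
        exact h
      have h2 : ‖mm Y - mm P‖ ≤ dm := by
        rw [mm_sub hY0 hP0]
        have h3 : ‖1 - Y * P‖ ≤ o * (1 + p) + de := by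
          have e1 : 1 - Y * P = (1 - P) + P * (1 - P) - P * (Y - P) := by ring
          have n1 := norm_sub_le ((1 - P) + P * (1 - P)) (P * (Y - P))
          have n2 := norm_add_le (1 - P) (P * (1 - P))
          rw [← e1] at n1
          rw [norm_mul, ← F.p_def] at n1 n2
          rw [← F.o_def] at n2
          have h4 : p * ‖Y - P‖ ≤ 1 * de := mul_le_mul hp1 (Q.sub.trans hδ) (norm_nonneg _) zero_le_one
          linarith
        rw [← F.p_def, div_mul_div_comm, div_le_iff₀ (by positivity)]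
        have h5 : ‖Y - P‖ * ‖1 - Y * P‖ ≤ de * (o * (1 + p) + de) :=
          mul_le_mul (Q.sub.trans hδ) h3 (norm_nonneg _) hde0
        have h6 := N.hdm
        have hdm0 : 0 ≤ dm := by
          have h7 : 0 ≤ dm * (2 * p * pY) := le_trans (by positivity) h6
          exact nonneg_of_mul_nonneg_left h7 (by positivity)
        have h8 : dm * (2 * p * pY) ≤ dm * (2 * p * ‖Y‖) := by
          apply mul_le_mul_of_nonneg_left _ hdm0
          apply mul_le_mul_of_nonneg_left hYn (by positivity)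
        calc ‖Y - P‖ * ‖1 - Y * P‖ ≤ _ := h5
          _ ≤ _ := h6
          _ ≤ _ := h8
          _ = dm * (2 * (‖Y‖ * p)) := by ring
      have h3 := Complex.abs_re_le_norm (mm Y - mm P)
      rw [Complex.sub_re] at h3
      have h4 := (abs_le.1 (h3.trans h2)).1
      linarith
    · have h3 := Complex.abs_re_le_norm (mm Y - (Real.cosh κ : ℂ))
      rw [Complex.sub_re, Complex.ofReal_re] at h3
      have h4 := (abs_le.1 (h3.trans hRY)).1
      linarith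
  have hWP1 : W ≤ ‖2 * (Real.cosh κ : ℂ) - P‖ := by linarith
  have hrW : rW ≤ (mm (2 * (Real.cosh κ : ℂ) - Y)).re := by
    have h1 : rW + dW ≤ (mm (2 * (Real.cosh κ : ℂ) - P)).re := by
      rw [mm_re _ hWP0, F2.W_sq]
      have hWpos : 0 < 2 + 2 * s + 2 * x ^ 2 - p ^ 2 := by
        rw [← F2.W_sq]
        have : 0 < ‖2 * (Real.cosh κ : ℂ) - P‖ := norm_pos_iff.2 hWP0
        positivity
      have h2 := F2.reP
      have h3 : (2 * (Real.cosh κ : ℂ) - P).re = (3 + 3 * s + x ^ 2 - p ^ 2) / (2 * Real.cosh κ) := by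
        rw [eq_div_iff (by positivity)]
        have hCs : Real.cosh κ ^ 2 = 1 + s := by rw [F.s_def, Real.cosh_sq]; ring
        simp
        linear_combination 4 * hCs - h2
      rw [h3]
      have h4 : (3 + 3 * s + x ^ 2 - p ^ 2) / (2 * Real.cosh κ) *
          (1 + 1 / (2 + 2 * s + 2 * x ^ 2 - p ^ 2)) / 2 =
          (3 + 3 * s + x ^ 2 - p ^ 2) * (3 + 2 * s + 2 * x ^ 2 - p ^ 2) /
            (4 * Real.cosh κ * (2 + 2 * s + 2 * x ^ 2 - p ^ 2)) := by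
        have e1 : 3 + 2 * s + 2 * x ^ 2 - p ^ 2 = 1 + (2 + 2 * s + 2 * x ^ 2 - p ^ 2) := by ring
        rw [e1]
        generalize 2 + 2 * s + 2 * x ^ 2 - p ^ 2 = q at hWpos
        field_simp
        ring
      rw [h4, le_div_iff₀ (by positivity)]
      exact N.hrW
    have h2 : ‖mm (2 * (Real.cosh κ : ℂ) - Y) - mm (2 * (Real.cosh κ : ℂ) - P)‖ ≤ dW := by
      rw [mm_sub hWne hWP0]
      have e1 : 2 * (Real.cosh κ : ℂ) - Y - (2 * (Real.cosh κ : ℂ) - P) = -(Y - P) := by ring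
      rw [e1, norm_neg]
      set u := 2 * (Real.cosh κ : ℂ) - Y with hu
      set t := 2 * (Real.cosh κ : ℂ) - P with ht
      have hW0 : 0 < W := by linarith
      have h3 : ‖1 - u * t‖ / (‖u‖ * ‖t‖) ≤ 1 + 1 / W ^ 2 := by
        have h4 : ‖1 - u * t‖ ≤ 1 + ‖u‖ * ‖t‖ := by
          refine (norm_sub_le _ _).trans ?_
          rw [norm_one, norm_mul]
        have h5 : W ^ 2 ≤ ‖u‖ * ‖t‖ := by
          rw [sq]
          exact mul_le_mul hWW hWP1 hW0.le (norm_nonneg _)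
        have h6 : 0 < ‖u‖ * ‖t‖ := lt_of_lt_of_le (by positivity) h5
        rw [div_le_iff₀ h6]
        have h7 : 1 ≤ 1 / W ^ 2 * (‖u‖ * ‖t‖) := by
          rw [one_div, ← div_eq_inv_mul, le_div_iff₀ (by positivity)]
          linarith
        linarith
      have h8 : ‖Y - P‖ / 2 * (‖1 - u * t‖ / (‖u‖ * ‖t‖)) ≤ de / 2 * (1 + 1 / W ^ 2) := by
        apply mul_le_mul (by have := Q.sub; linarith) h3 (by positivity) (by positivity)
      refine h8.trans ?_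
      have h9 := N.hdW
      have e2 : de / 2 * (1 + 1 / W ^ 2) = de * (W ^ 2 + 1) / (2 * W ^ 2) := by
        field_simp
      rw [e2, div_le_iff₀ (by positivity)]
      linarith
    have h3 := Complex.abs_re_le_norm
      (mm (2 * (Real.cosh κ : ℂ) - Y) - mm (2 * (Real.cosh κ : ℂ) - P))
    rw [Complex.sub_re] at h3
    have h4 := (abs_le.1 (h3.trans h2)).1
    linarith
  have hL := Lam_bound4 he he4 hκ (Y := Y) Q.disc Q.le_one hdisc'.1 hdisc'.2 N.hm0 N.hm0C N.hm0Y hrY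
    N.hm0W hrW hRY hRW N.htb N.htb1 N.hPm N.hP N.hlb N.hpb N.hPk N.hM
  have e0 : 1 / (2 * (Real.cosh κ : ℂ) - Y) = nx κ Y := rfl
  rw [e0] at hL
  refine hL.trans ?_
  have hrY0 : 0 < rY := N.hm0.trans_le N.hm0Y
  have hrW0 : 0 < rW := N.hm0.trans_le N.hm0W
  have hW0 : 0 < W := by linarith
  have hM0 := N.hM0
  have hYnp : 0 < ‖Y‖ := hpY0.trans_le hYn
  have h1 : M / (2 * ‖2 * (Real.cosh κ : ℂ) - Y‖ * ‖Y‖ * rW * rY) ≤
      M / (2 * W * pY * rW * rY) := by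
    apply div_le_div_of_nonneg_left hM0 (by positivity)
    gcongr
  have h2 : ‖(Real.cosh κ : ℂ) - Y‖ * ‖v2 κ Y‖ ^ 2 ≤ (x + de) * (v * (1 + eta)) ^ 2 := by
    apply mul_le_mul _ (pow_le_pow_left₀ (norm_nonneg _) hv2 2) (by positivity) (by positivity)
    have := Q.ζ
    linarith
  have hB : B ≤ x + S := by rw [hS]; exact F.B_le
  have h3 : v ^ 2 ≤ v * A * (x + S) := by
    calc v ^ 2 = v * (A * B) := by rw [← F.v_eq]; ring
      _ = v * A * B := by ring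
      _ ≤ v * A * (x + S) := mul_le_mul_of_nonneg_left hB (by positivity)
  have hS0 : 0 < S := by rw [hS]; exact Real.sinh_pos_iff.2 hκ
  calc M / (2 * ‖2 * (Real.cosh κ : ℂ) - Y‖ * ‖Y‖ * rW * rY) *
        (‖(Real.cosh κ : ℂ) - Y‖ * ‖v2 κ Y‖ ^ 2) ≤
        M / (2 * W * pY * rW * rY) * ((x + de) * (v * (1 + eta)) ^ 2) :=
        mul_le_mul h1 h2 (by positivity) (by positivity)
    _ = M / (2 * W * pY * rW * rY) * ((x + de) * (1 + eta) ^ 2) * v ^ 2 := by ring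
    _ ≤ M / (2 * W * pY * rW * rY) * ((x + de) * (1 + eta) ^ 2) * (v * A * (x + S)) :=
        mul_le_mul_of_nonneg_left h3 (by positivity)
    _ = v * A * (M * (x + de) * (x + S) * (1 + eta) ^ 2 / (2 * W * pY * rW * rY)) := by
        ring
    _ ≤ v * A * (T2 * K) := by
        apply mul_le_mul_of_nonneg_left _ (by positivity)
        rw [div_le_iff₀ (by positivity)]
        have := N.hT2
        linarith
    _ = K * v * A * T2 := by ring

end Pool.Agent.helper4.EQW4
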