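import Pool.Agent.helper4.EQW4.GoalAll4
import Pool.Agent.helper4.EQW4.Rec4
import Pool.Agent.helper4.EQW.Conj
import Pool.Agent.helper4.EQW.Tail12
import Pool.Agent.helper63.EQC.AsmDefs
import Pool.Agent.helper63.EQC.AsmSup

/-!
# EQW4-T: the tail record for `2 ≤ e ≤ 4`

Adapt `EQW/Rec.lean`, `EQW/Conj.lean`, `EQW/Tail12.lean` (case `1 ≤ e ≤ 2`) to `2 ≤ e ≤ 4`:
`OT κ` is replaced by `OT4 e κ`, `LT κ` by `LT4 e κ`, `aux_of` by `aux4_of`, `Aux` by `Aux4`, `pos_of` by `pos_of4`,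
`step_mem` by `step_mem4`, `wn_facts` by `wn_facts4`, `disc_of_mem` by `disc_of_mem4`, `one_le_G1` by `one_le_G14`,
`G1_ne`, `G1_deriv`, `gs_deriv` by `G1_ne'`, `G1_deriv'`, `gs_deriv'` of `Gam4.lean`, `goal_all` by `goal_all4`,
`close_main` by `close_goal4` (`Goal4.lean`), `KK_pos` is general.  `rT`, `MT`, `nx`, `thT` are the same functions.
The constant `lam` of the contraction may be changed, e.g. to `max (exp (-κ)) (19/20)`
(`a p (1 + K v o) ≤ lam`: for small `s`, `K ≤ e²/8 (1 + 6 s)` (`th_le`), `v ≤ U`, `o² ≤ s + v`, `v < VV e`,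
`p² ≤ 1 - 3 U`: `K o ≤ 3/2` suffices; otherwise `a` is small, `K v ≤ (e²/8 + 3 tanh²(eκ/2)) v`, `v ≤ 1/(4(1+s))`).
You may put parts into new files `Rec4.lean`, `Conj4.lean` in this folder (land them too).

`small24`: apply `Pool.Agent.helper63.EQC.small_of_close` (file `helper63/EQC/AsmSup.lean`) with `ρ0 = 3/5`, `θ' = thT κ`,
`Ω' = {Y ∈ OT4 e κ | ‖v2 κ (nx κ Y)‖ ≤ 105/1000}`, `r = rT e κ`, `M = MT e κ`.  Invariance: the proof of `step_mem4`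
(end of `Step4.lean`) shows `‖v2 κ (nx κ (P + d (1 - P)))‖ ≤ ‖v2 κ P‖`; extract that as a lemma.  Closing for
`‖x‖, ‖x'‖ ≤ ρ`, `3/5 ≤ ρ ≤ 1`: `goal_small4` and `close_goal4` with `ϑ = ρ`, `f = 5/3` (`1 ≤ ρ f`).
-/

namespace Pool.Agent.helper4.EQW4

open Complex ComplexConjugate
open Pool.Agent.helper31.EQ.W (c2 gl gs nxt wn FW)
open Pool.Agent.helper63.EQC (Tail TFix)
open Pool.Agent.helper4.EQW

variable {e κ : ℝ}

private theorem T24_real {x : ℝ} (hx : |x| ≤ 1) : ‖(x : ℂ)‖ ≤ 1 := by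
  rw [Complex.norm_real]
  exact hx

/-- The tail record. -/
noncomputable def tail24 (he : 2 ≤ e) (he4 : e ≤ 4) (hκ : 0 < κ) : Tail e κ (thT κ) where
  Ω := OT4 e κ
  isOpen_Ω := isOpen_OT4 e κ
  r := rT e κ
  M := MT e κ
  r_diff := fun _ hY => rT_diff4 he he4 hκ hY
  M_diff := fun _ hY _ _ hx _ => MT_diff4 he he4 hκ hY hx _
  r_ne := fun _ hY => rT_ne4 he he4 hκ hY
  M_ne := fun _ hY _ _ hx _ => MT_ne4 he he4 hκ hY hx _
  r_real := fun _ hY => rT_real4 he he4 hκ hY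
  M_real := fun Y hY x _ hx _ => MT_real4 he he4 hκ hY (T24_real hx) _
  conj_mem := fun _ hY => OT4_conj hY
  r_conj := fun _ hY => rT_conj4 he he4 hκ hY
  inv := fun _ hY _ hx => inv_OT4 he he4 hκ hY hx
  den_ne := fun _ hY => hY.1
  one_sub_ne := fun _ hY _ hx => one_sub_ne_OT4 he he4 hκ hY hx
  w_slit := fun _ hY _ hx => w_slit_OT4 he he4 hκ hY hx
  w_norm := fun _ hY _ hx => w_norm_OT4 he he4 hκ hY hx
  close := fun _ hY _ _ hx hx' => close_OT4 he he4 hκ hY hx hx'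
  lam := max (Real.exp (-κ)) (99 / 100)
  hlam0 := le_max_of_le_right (by norm_num)
  hlam1 := max_lt (by rw [Real.exp_lt_one_iff]; linarith) (by norm_num)
  contr := by
    intro Y hY x hx
    have h1 := contr_OT4 he he4 hκ hY (T24_real hx)
    have h2 : ‖(Y : ℂ) - ((Real.exp (-κ) : ℝ) : ℂ)‖ = |Y - Real.exp (-κ)| := by
      rw [← Complex.ofReal_sub, Complex.norm_real]
      rfl
    rw [h2] at h1
    refine le_trans ?_ h1
    have h3 : (nxt κ Y (rT e κ Y * x)).re - Real.exp (-κ) =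
        (nxt κ Y (rT e κ Y * x) - ((Real.exp (-κ) : ℝ) : ℂ)).re := by
      rw [Complex.sub_re, Complex.ofReal_re]
    rw [h3]
    exact Complex.abs_re_le_norm _
  B := 1
  r_le := by
    intro Y hY
    have h1 := rT_le4 he he4 hκ hY
    have h2 : ‖(Y : ℂ) - ((Real.exp (-κ) : ℝ) : ℂ)‖ = |Y - Real.exp (-κ)| := by
      rw [← Complex.ofReal_sub, Complex.norm_real]
      rfl
    rw [h2] at h1
    rw [one_mul]
    exact h1

theorem tail24_Ω (he : 2 ≤ e) (he4 : e ≤ 4) (hκ : 0 < κ) : (tail24 he he4 hκ).Ω = OT4 e κ := rfl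

theorem tail24_r (he : 2 ≤ e) (he4 : e ≤ 4) (hκ : 0 < κ) : (tail24 he he4 hκ).r = rT e κ := rfl

/-- Fixed points are small. -/
theorem small24 (he : 5 / 2 ≤ e) (he4 : e ≤ 4) (hκ : 0 < κ) (hS : Real.sinh κ ≤ 527 / 1250) {Y : ℂ}
    (hY : Y ∈ OT4 e κ) (hv : ‖v2 κ (nx κ Y)‖ ≤ 105 / 1000) {x : ℕ → ℂ} (hx : TFix e κ (rT e κ) Y x)
    (n : ℕ) : ‖x n‖ ≤ 3 / 5 := by
  have he2 : 2 ≤ e := by linarith
  refine Pool.Agent.helper63.EQC.small_of_close (κ := κ) (M := MT e κ)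
    (Ω' := {Y | Y ∈ OT4 e κ ∧ ‖v2 κ (nx κ Y)‖ ≤ 105 / 1000}) (ρ0 := 3 / 5) (θ' := thT κ)
    (by norm_num) (thT_lt hκ) (fun Z hZ => rT_ne4 he2 he4 hκ hZ.1) ?_ ?_ ⟨hY, hv⟩ hx n
  · intro Z hZ y hy
    refine ⟨inv_OT4 he2 he4 hκ hZ.1 hy, ?_⟩
    rw [nxt_eq]
    exact (v2_step4 he2 he4 hκ hZ.1.2.1 (d_bound4 he2 he4 hκ hZ.1 hy)).trans hZ.2
  · intro ρ h1 h2 Z hZ y y' hy hy'
    refine close_gen4 he2 he4 hκ hZ.1 (f := 5 / 3) (by linarith) h2 (by linarith) hy hy' ?_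
    intro s U v A B x o p F X hvd
    exact goal_small4 he he4 hκ hZ.1.2.1 F X hS (by rw [hvd]; exact hZ.2)

end Pool.Agent.helper4.EQW4
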